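import Pool.Agent.Lib.MP_391708_nt.U.K.SpecX5

/-!
# U/K, module E2W: the numbers counted by `EInd` for `k = 2`, with `1/20`

The proof is the one of `QPA/H/E2V.lean`.
-/

set_option autoImplicit false

namespace Pool.Agent.Lib.MP391708.U.K

open Finset Filter Topology
open Pool.Agent.Lib.MP391708.QPA Pool.Agent.Lib.MP391708.QPA.H
open scoped Classical

namespace E2WM

lemma ev_two {β : ℝ} (hβ : β < 1) : ∀ᶠ N : ℕ in atTop, (2 : ℝ) < (N : ℝ) ^ (2 - 2 * β) := by
  have h := (tendsto_rpow_atTop (show 0 < 2 - 2 * β by linarith)).comp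
    (tendsto_natCast_atTop_atTop (R := ℝ))
  exact h.eventually_gt_atTop 2

end E2WM

theorem specE2W : SpecE2W := by
  intro α β hα hαβ hβ
  obtain ⟨N₁, hN₁⟩ := eventually_atTop.1 (E2WM.ev_two hβ)
  refine ⟨max N₁ 3, fun N m hN hm1 hm2 => ?_⟩
  have hNN₁ : N₁ ≤ N := (le_max_left _ _).trans hN
  have hN3 : 3 ≤ N := (le_max_right _ _).trans hN
  have hN3' : (3 : ℝ) ≤ N := by exact_mod_cast hN3
  have hN0 : (0 : ℝ) < N := by linarith
  have hN1 : (1 : ℝ) < N := by linarith
  have htwo := hN₁ N hNN₁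
  have hβN : (N : ℝ) ^ β ≤ N := by
    calc (N : ℝ) ^ β ≤ (N : ℝ) ^ (1 : ℝ) := Real.rpow_le_rpow_of_exponent_le hN1.le hβ.le
      _ = N := Real.rpow_one _
  have hbig : (N : ℝ) ^ β < (N : ℝ) ^ 2 / 2 := by nlinarith
  have hα1 : 1 < (N : ℝ) ^ α := Real.one_lt_rpow hN1 (by linarith)
  have hmpos : 0 < m := by
    have : (0 : ℝ) < m := by nlinarith
    exact_mod_cast this
  unfold EInd
  refine if_congr ?_ rfl rfl
  constructor
  · rintro ⟨hsq, hcard, -, d, hd, hd1, hd2⟩
    rw [Finset.card_eq_two] at hcard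
    obtain ⟨p, q, hpq, hset⟩ := hcard
    have hp : p.Prime := Nat.prime_of_mem_primeFactors (by rw [hset]; simp)
    have hq : q.Prime := Nat.prime_of_mem_primeFactors (by rw [hset]; simp)
    have hprod : m = p * q := by
      rw [← Nat.prod_primeFactors_of_squarefree hsq, hset, Finset.prod_pair hpq]
    rw [hprod] at hd
    obtain ⟨k1, k2, hk1, hk2, hk⟩ := Nat.dvd_mul.1 hd
    rcases (Nat.dvd_prime hp).1 hk1 with h1 | h1 <;> rcases (Nat.dvd_prime hq).1 hk2 with h2 | h2
    · exfalso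
      rw [h1, h2, one_mul] at hk
      rw [← hk] at hd1
      push_cast at hd1
      linarith
    · rw [h1, one_mul, h2] at hk
      refine ⟨q, p, hq, hp, by rw [hprod, mul_comm], ?_, ?_⟩
      · rw [hk]; exact hd1
      · rw [hk]; exact hd2
    · rw [h1, h2, mul_one] at hk
      refine ⟨p, q, hp, hq, hprod, ?_, ?_⟩
      · rw [hk]; exact hd1
      · rw [hk]; exact hd2
    · exfalso
      rw [h1, h2, ← hprod] at hk
      rw [← hk] at hd2
      linarith
  · rintro ⟨p, q, hp, hq, hm, hp1, hp2⟩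
    have hp0 : (0 : ℝ) < p := by exact_mod_cast hp.pos
    have hlt : (p : ℝ) < q := by
      have h1 : (m : ℝ) = p * q := by rw [hm]; push_cast; ring
      have h2 : (N : ℝ) ^ 2 = (N : ℝ) ^ (2 - 2 * β) * ((N : ℝ) ^ β * (N : ℝ) ^ β) := by
        rw [← Real.rpow_add hN0, ← Real.rpow_add hN0, ← Real.rpow_natCast]
        congr 1
        push_cast
        ring
      have hβ0 : 0 < (N : ℝ) ^ β := Real.rpow_pos_of_pos hN0 _
      have h3 : (N : ℝ) ^ β * (N : ℝ) ^ β < (N : ℝ) ^ 2 / 2 := by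
        rw [h2]
        nlinarith [mul_pos hβ0 hβ0]
      have h4 : (p : ℝ) * p ≤ (N : ℝ) ^ β * (N : ℝ) ^ β := by gcongr
      have h5 : (p : ℝ) * p < p * q := by linarith
      exact lt_of_mul_lt_mul_left h5 hp0.le
    have hne : p ≠ q := by
      rintro rfl
      exact lt_irrefl _ hlt
    have hcop : Nat.Coprime p q := (Nat.coprime_primes hp hq).2 hne
    have h10 : (N : ℝ) ^ (1 / 20 : ℝ) ≤ p :=
      (Real.rpow_le_rpow_of_exponent_le hN1.le (by linarith)).trans hp1.le
    refine ⟨?_, ?_, ?_, p, ⟨q, hm⟩, hp1, hp2⟩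
    · rw [hm, Nat.squarefree_mul hcop]
      exact ⟨hp.prime.squarefree, hq.prime.squarefree⟩
    · rw [hm, Nat.primeFactors_mul hp.ne_zero hq.ne_zero, hp.primeFactors, hq.primeFactors,
        Finset.card_union_of_disjoint (by simpa using hne), Finset.card_singleton,
        Finset.card_singleton]
    · intro r hr hrm
      rw [hm] at hrm
      rcases (Nat.Prime.dvd_mul hr).1 hrm with h | h
      · rw [(Nat.prime_dvd_prime_iff_eq hr hp).1 h]; exact h10
      · rw [(Nat.prime_dvd_prime_iff_eq hr hq).1 h]; linarith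

end Pool.Agent.Lib.MP391708.U.K
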