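import Pool.Agent.Lib.MP_391708_nt.U.K.SpecX5
import Pool.Agent.Lib.MP_391708_nt.U.SpecUK2

/-!
# FIN5: the lower bounds of `MAINW` and the formulas of `MAINB` with one exceptional set
-/

set_option autoImplicit false

namespace Pool.Agent.Lib.MP391708.U.K

open Finset Filter Topology Pool.Agent.Lib.MP391708.QPA Pool.Agent.Lib.MP391708.QPA.H
open scoped Classical

namespace FIN5M

/-- the bound for the number of the elements of the union of two thin sets -/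
lemma thin_union {E₁ E₂ E : Set ℤ} (hE : ∀ a, a ∈ E → a ∈ E₁ ∨ a ∈ E₂)
    (h₁ : ∀ B : ℝ, ∃ A₀ : ℕ, ∀ A : ℕ, A₀ ≤ A →
      (((Icc (-(A : ℤ)) A).filter (fun a => a ∈ E₁)).card : ℝ) ≤ A / (Real.log A) ^ B)
    (h₂ : ∀ B : ℝ, ∃ A₀ : ℕ, ∀ A : ℕ, A₀ ≤ A →
      (((Icc (-(A : ℤ)) A).filter (fun a => a ∈ E₂)).card : ℝ) ≤ A / (Real.log A) ^ B) :
    ∀ B : ℝ, ∃ A₀ : ℕ, ∀ A : ℕ, A₀ ≤ A →
      (((Icc (-(A : ℤ)) A).filter (fun a => a ∈ E)).card : ℝ) ≤ A / (Real.log A) ^ B := by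
  intro B
  obtain ⟨A₁, hA₁⟩ := h₁ (B + 1)
  obtain ⟨A₂, hA₂⟩ := h₂ (B + 1)
  have hlog : ∀ᶠ A : ℕ in atTop, (2 : ℝ) ≤ Real.log A :=
    (Real.tendsto_log_atTop.comp tendsto_natCast_atTop_atTop).eventually_ge_atTop 2
  obtain ⟨A₃, hA₃⟩ := eventually_atTop.1 hlog
  refine ⟨max A₁ (max A₂ A₃), fun A hA => ?_⟩
  have g1 := hA₁ A ((le_max_left _ _).trans hA)
  have g2 := hA₂ A ((le_max_left _ _).trans ((le_max_right _ _).trans hA))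
  have g3 := hA₃ A ((le_max_right _ _).trans ((le_max_right _ _).trans hA))
  have hcard : (((Icc (-(A : ℤ)) A).filter (fun a => a ∈ E)).card : ℝ) ≤
      (((Icc (-(A : ℤ)) A).filter (fun a => a ∈ E₁)).card : ℝ) +
        (((Icc (-(A : ℤ)) A).filter (fun a => a ∈ E₂)).card : ℝ) := by
    have : (Icc (-(A : ℤ)) A).filter (fun a => a ∈ E) ⊆
        (Icc (-(A : ℤ)) A).filter (fun a => a ∈ E₁) ∪
          (Icc (-(A : ℤ)) A).filter (fun a => a ∈ E₂) := by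
      intro a ha
      rw [mem_filter] at ha
      rw [mem_union, mem_filter, mem_filter]
      rcases hE a ha.2 with h | h
      · exact Or.inl ⟨ha.1, h⟩
      · exact Or.inr ⟨ha.1, h⟩
    exact_mod_cast (card_le_card this).trans (card_union_le _ _)
  have hl0 : (0 : ℝ) < Real.log A := by linarith
  have hB1 : (Real.log A) ^ (B + 1) = (Real.log A) ^ B * Real.log A := by
    rw [Real.rpow_add hl0, Real.rpow_one]
  have hp : (0 : ℝ) < (Real.log A) ^ B := Real.rpow_pos_of_pos hl0 B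
  have hA0 : (0 : ℝ) ≤ A := Nat.cast_nonneg A
  have hx : (A : ℝ) / (Real.log A) ^ (B + 1) ≤ A / (Real.log A) ^ B / 2 := by
    rw [hB1, ← div_div]
    exact div_le_div_of_nonneg_left (div_nonneg hA0 hp.le) (by norm_num) g3
  linarith

/-- the integral logarithm is not negative -/
lemma li_nonneg {N : ℕ} (hN : 2 ≤ N) : 0 ≤ ∫ t in (2 : ℝ)..(N : ℝ), 1 / Real.log t := by
  have hN' : (2 : ℝ) ≤ N := by exact_mod_cast hN
  refine intervalIntegral.integral_nonneg hN' fun t ht => ?_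
  exact one_div_nonneg.2 (Real.log_nonneg (by linarith [ht.1]))

/-- the constant of the lower bound near `7/10` -/
lemma cP_ge {θ : ℝ} (h1 : 7 / 10 < θ) (h2 : θ ≤ 701 / 1000) : 79 / 100 + 1 / 1000 ≤ cP θ := by
  unfold cP
  have hd : (0 : ℝ) < 6 * (3 / 2 - θ) ^ 2 * (θ - 1 / 2) := by
    have : (0 : ℝ) < (3 / 2 - θ) ^ 2 := by
      have : (0 : ℝ) < 3 / 2 - θ := by linarith
      positivity
    have h3 : (0 : ℝ) < θ - 1 / 2 := by linarith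
    positivity
  have h3 : (799 / 1000 : ℝ) ^ 2 ≤ (3 / 2 - θ) ^ 2 :=
    pow_le_pow_left₀ (by norm_num) (by linarith) 2
  have h4 : (5 / 2 - 3 * θ) ^ 2 ≤ (4 / 10 : ℝ) ^ 2 :=
    pow_le_pow_left₀ (by linarith) (by linarith) 2
  have h5 : 6 * (799 / 1000 : ℝ) ^ 2 * (1 / 5) ≤ 6 * (3 / 2 - θ) ^ 2 * (θ - 1 / 2) := by
    have h6 : (1 / 5 : ℝ) ≤ θ - 1 / 2 := by linarith
    have h7 : 6 * (799 / 1000 : ℝ) ^ 2 ≤ 6 * (3 / 2 - θ) ^ 2 := by linarith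
    exact mul_le_mul h7 h6 (by norm_num) (by positivity)
  have h6 : (5 / 2 - 3 * θ) ^ 2 / (6 * (3 / 2 - θ) ^ 2 * (θ - 1 / 2)) ≤ 209 / 1000 := by
    rw [div_le_iff₀ hd]
    nlinarith
  linarith

end FIN5M

open FIN5M in
/-- the lower bounds of `MAINW` and the formulas of `MAINB` with one exceptional set -/
theorem spec_join (h₁ : SpecMAINW) (h₂ : SpecMAINB) : ∃ E : Set ℤ,
    (∀ B : ℝ, ∃ A₀ : ℕ, ∀ A : ℕ, A₀ ≤ A →
      (((Icc (-(A : ℤ)) A).filter (fun a => a ∈ E)).card : ℝ) ≤ A / (Real.log A) ^ B) ∧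
    (∀ δ : ℝ, 0 < δ → ∃ a₀ : ℝ, ∀ a : ℤ, a ∉ E → a₀ ≤ |(a : ℝ)| → ∃ h : ℝ, 0 < h ∧ IsC a h ∧
      ∀ N : ℕ, |(a : ℝ)| ≤ N * (Real.log N) ^ (1 / 4 : ℝ) → (N : ℝ) ≤ |(a : ℝ)| ^ (10 / 7 - δ) →
        79 / 100 * (1 / 2 * h * ∫ t in (2 : ℝ)..(N : ℝ), 1 / Real.log t) ≤
          (((Icc 1 N).filter (fun n : ℕ => Nat.Prime ((n : ℤ) ^ 2 + a).natAbs)).card : ℝ)) ∧
    (∀ (k : ℕ) (δ : ℝ), 1 ≤ k → 0 < δ → ∃ c : ℝ, 0 < c ∧
      ∃ a₀ : ℝ, ∀ a : ℤ, a ∉ E → a₀ ≤ |(a : ℝ)| → ∃ h : ℝ, 0 < h ∧ IsC a h ∧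
        ∀ N : ℕ, |(a : ℝ)| ≤ N * (Real.log N) ^ (1 / 4 : ℝ) →
          (N : ℝ) ≤ |(a : ℝ)| ^ (eK k - δ) → c * (h * (N / Real.log N)) ≤ cntk k N a) ∧
    (∀ (k : ℕ) (θ δ α β ε : ℝ), 1 / 2 < θ → θ ≤ 1 → 0 < δ → δ < 1 / 10 → 2 / 3 < α →
      3 / 2 < θ + α → α < β → β < 1 → 0 < ε → ∃ a₀ : ℝ, ∀ a : ℤ, a ∉ E → a₀ ≤ |(a : ℝ)| →
      ∃ h : ℝ, 0 < h ∧ IsC a h ∧
        ∀ N : ℕ, |(a : ℝ)| ≤ N * (Real.log N) ^ (1 / 4 : ℝ) → (N : ℝ) ^ θ ≤ |(a : ℝ)| →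
          |cnt N a (EInd N k δ α β) - h * model N (EInd N k δ α β)|
            ≤ ε * (h * (N / Real.log N))) ∧
    ∀ (θ α β ε : ℝ), 1 / 2 < θ → θ ≤ 1 → 2 / 3 < α → 3 / 2 < θ + α → α < β → β < 1 → 0 < ε →
      ∃ a₀ : ℝ, ∀ a : ℤ, a ∉ E → a₀ ≤ |(a : ℝ)| → ∃ h : ℝ, 0 < h ∧ IsC a h ∧
        ∀ N : ℕ, |(a : ℝ)| ≤ N * (Real.log N) ^ (1 / 4 : ℝ) → (N : ℝ) ^ θ ≤ |(a : ℝ)| →
          |cpq N a α β - 1 / 2 * Real.log (β * (2 - α) / (α * (2 - β))) *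
            (h * (N / Real.log N))| ≤ ε * (h * (N / Real.log N)) := by
  obtain ⟨E₁, hE₁, hl⟩ := h₁
  obtain ⟨E₂, hE₂, hf, hg⟩ := h₂
  have key : ∀ (θ : ℝ) (N : ℕ) (a : ℤ), 1 / 2 < θ → (N : ℝ) ^ θ ≤ |(a : ℝ)| →
      (N : ℝ) ≤ |(a : ℝ)| ^ (1 / θ) := by
    intro θ N a hθ h
    have hθ0 : 0 < θ := by linarith
    have h1 := Real.rpow_le_rpow (Real.rpow_nonneg (Nat.cast_nonneg N) θ) h
      (one_div_nonneg.2 hθ0.le)
    rwa [← Real.rpow_mul (Nat.cast_nonneg N), mul_one_div_cancel hθ0.ne', Real.rpow_one] at h1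
  refine ⟨E₁ ∪ E₂, thin_union (fun a ha => ha) hE₁ hE₂, ?_, ?_, ?_, ?_⟩
  · intro δ hδ
    obtain ⟨c, hc, h3⟩ := hl 1 1 le_rfl one_pos
    -- the exponent
    set d : ℝ := min δ (1 / 2) with hd
    have hd0 : 0 < d := lt_min hδ (by norm_num)
    have hdδ : d ≤ δ := min_le_left _ _
    have hd2 : d ≤ 1 / 2 := min_le_right _ _
    have hpos : (0 : ℝ) < 10 / 7 - d := by linarith
    have hq : (7 / 10 : ℝ) < 1 / (10 / 7 - d) := by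
      rw [lt_div_iff₀ hpos]
      linarith
    set θ : ℝ := min (701 / 1000) (1 / (10 / 7 - d)) with hθ
    have hθ1 : 7 / 10 < θ := lt_min (by norm_num) hq
    have hθ2 : θ ≤ 701 / 1000 := min_le_left _ _
    have hθ3 : θ ≤ 1 / (10 / 7 - d) := min_le_right _ _
    have hθ0 : 0 < θ := by linarith
    have hθ4 : 10 / 7 - δ ≤ 1 / θ := by
      have h5 : 10 / 7 - d ≤ 1 / θ := by
        rw [le_div_iff₀ hθ0]
        have := (le_div_iff₀ hpos).1 hθ3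
        linarith
      linarith
    obtain ⟨a₀, h4⟩ := h3 (1 / 1000) θ (by norm_num) hθ1 (by linarith)
    refine ⟨max a₀ 1, fun a ha ha0 => ?_⟩
    obtain ⟨h, hh, hC, h5⟩ := h4 a (fun hh => ha (Or.inl hh)) ((le_max_left _ _).trans ha0)
    have ha1 : 1 ≤ |(a : ℝ)| := (le_max_right _ _).trans ha0
    refine ⟨h, hh, hC, fun N hN hN2 => ?_⟩
    have hN3 : (N : ℝ) ≤ |(a : ℝ)| ^ (1 / θ) :=
      hN2.trans (Real.rpow_le_rpow_of_exponent_le ha1 hθ4)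
    have h6 := (h5 N hN).2.1 hN3
    have hN4 : 2 ≤ N := by
      by_contra hlt
      have : N = 0 ∨ N = 1 := by omega
      have h0 : (N : ℝ) * (Real.log N) ^ (1 / 4 : ℝ) = 0 := by
        rcases this with h | h
        · rw [h]; simp
        · rw [h]; simp
      rw [h0] at hN
      linarith
    refine le_trans ?_ h6
    refine mul_le_mul_of_nonneg_right ?_ ?_
    · have := cP_ge hθ1 hθ2
      linarith
    · have := li_nonneg hN4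
      positivity
  · intro k δ hk hδ
    obtain ⟨c, hc, h3⟩ := hl k δ hk hδ
    obtain ⟨a₀, h4⟩ := h3 1 (5 / 6) one_pos (by norm_num) le_rfl
    refine ⟨c, hc, a₀, fun a ha ha0 => ?_⟩
    obtain ⟨h, hh, hC, h5⟩ := h4 a (fun hh => ha (Or.inl hh)) ha0
    exact ⟨h, hh, hC, fun N hN hN2 => (h5 N hN).2.2 hN2⟩
  · intro k θ δ α β ε h1 h2 h3 h4 h5 h6 h7 h8 h9
    obtain ⟨a₀, h10⟩ := hf k θ δ α β ε h1 h2 h3 h4 h5 h6 h7 h8 h9
    refine ⟨a₀, fun a ha ha0 => ?_⟩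
    obtain ⟨h, hh, hC, h11⟩ := h10 a (fun hh => ha (Or.inr hh)) ha0
    exact ⟨h, hh, hC, fun N hN hN2 => h11 N hN (key θ N a h1 hN2)⟩
  · intro θ α β ε h1 h2 h5 h6 h7 h8 h9
    obtain ⟨a₀, h10⟩ := hg θ α β ε h1 h2 h5 h6 h7 h8 h9
    refine ⟨a₀, fun a ha ha0 => ?_⟩
    obtain ⟨h, hh, hC, h11⟩ := h10 a (fun hh => ha (Or.inr hh)) ha0
    exact ⟨h, hh, hC, fun N hN hN2 => h11 N hN (key θ N a h1 hN2)⟩

end Pool.Agent.Lib.MP391708.U.K
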