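import Pool.Agent.Lib.MP_391708_nt.U.SpecUK
import Pool.Agent.Lib.MP_391708_nt.U.Bas
import Pool.Agent.Lib.MP_391708_nt.QPA.FIN

/-!
# Project UK, module FINQ: products of exactly `k` primes, one scale
-/

set_option autoImplicit false

namespace Pool.Agent.Lib.MP391708.U.K

open Finset Filter Topology Pool.Agent.Lib.MP391708.QPA Pool.Agent.Lib.MP391708.QPA.H
open Pool.Agent.Lib.MP391708.U
open scoped Classical

noncomputable section

namespace FINQM

open BasM Bas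

/-- the size of `w = wN W M` against `log A` -/
theorem ev_w (W : ℝ) (hW : 1 ≤ W) : ∀ᶠ N : ℕ in atTop, ∀ A : ℕ,
    (N : ℝ) ^ (1 / 2 : ℝ) ≤ A → (A : ℝ) ≤ N * √(Real.log N) →
    (Real.log A) ^ (W - 1) ≤ wN W N ∧
    (wN W N : ℝ) ≤ (Real.log A) ^ (W + 1) ∧
    Real.log A ≤ 2 * Real.log N ∧ 1 ≤ Real.log A := by
  filter_upwards [ev_log (2 * (4 : ℝ) ^ (W - 1) + 2), ev_log (2 * (2 : ℝ) ^ (W + 1) + 2),
    eventually_ge_atTop 3] with N h1 h2 hN3 A hA1 hA2
  have hN1 : (1 : ℝ) < N := by exact_mod_cast (by omega : 1 < N)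
  have hN0 : (0 : ℝ) < N := by linarith
  have hlog : 0 < Real.log N := Real.log_pos hN1
  set l : ℝ := Real.log (N : ℝ) with hl
  have h4W : (1 : ℝ) ≤ (4 : ℝ) ^ (W - 1) := Real.one_le_rpow (by norm_num) (by linarith)
  have h2W : (1 : ℝ) ≤ (2 : ℝ) ^ (W + 1) := Real.one_le_rpow (by norm_num) (by linarith)
  have hl3 : (4 : ℝ) ^ (W - 1) ≤ l := by linarith
  have hl4 : 1 ≤ l := by linarith
  have hApos : (0 : ℝ) < A := (Real.rpow_pos_of_pos hN0 _).trans_le hA1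
  have hsq : √l ≤ N := by
    have h3 : √l ≤ l := by
      rw [Real.sqrt_le_left hlog.le]
      nlinarith
    exact h3.trans ((Real.log_le_sub_one_of_pos hN0).trans (by linarith))
  have hA3 : Real.log A ≤ 2 * l := by
    have h3 : (A : ℝ) ≤ (N : ℝ) ^ 2 := by
      rw [pow_two]
      exact hA2.trans (mul_le_mul_of_nonneg_left hsq hN0.le)
    have h4 := Real.log_le_log hApos h3
    rw [Real.log_pow] at h4
    exact_mod_cast h4
  have hA4 : 1 / 2 * l ≤ Real.log A := by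
    have h3 := Real.log_le_log (Real.rpow_pos_of_pos hN0 _) hA1
    rwa [Real.log_rpow hN0] at h3
  have hA5 : 1 ≤ Real.log A := by linarith
  refine ⟨?_, ?_, hA3, hA5⟩
  · unfold wN
    refine le_trans ?_ (Nat.le_ceil _)
    calc (Real.log A) ^ (W - 1) ≤ (4 * l) ^ (W - 1) :=
          Real.rpow_le_rpow (by linarith) (by linarith) (by linarith)
      _ = (4 : ℝ) ^ (W - 1) * l ^ (W - 1) := Real.mul_rpow (by norm_num) (by linarith)
      _ ≤ l * l ^ (W - 1) := mul_le_mul_of_nonneg_right hl3 (by positivity)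
      _ = l ^ W := by
          nth_rewrite 1 [← Real.rpow_one l]
          rw [← Real.rpow_add (by linarith)]
          congr 1
          ring
  · have h5 : (wN W N : ℝ) ≤ l ^ W + 1 := by
      unfold wN
      exact (Nat.ceil_lt_add_one (by positivity)).le
    have h6 : (1 : ℝ) ≤ l ^ W := Real.one_le_rpow hl4 (by linarith)
    have h7 : l ^ W ≤ (2 * Real.log A) ^ W :=
      Real.rpow_le_rpow (by linarith) (by linarith) (by linarith)
    rw [Real.mul_rpow (by norm_num) (by linarith)] at h7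
    have h8 : 2 * (2 : ℝ) ^ W = (2 : ℝ) ^ (W + 1) := by
      rw [Real.rpow_add (by norm_num), Real.rpow_one]
      ring
    have h9 : (2 : ℝ) ^ (W + 1) ≤ Real.log A := by linarith
    have h10 : (0 : ℝ) < (Real.log A) ^ W := Real.rpow_pos_of_pos (by linarith) _
    calc (wN W N : ℝ) ≤ 2 * l ^ W := by linarith
      _ ≤ 2 * ((2 : ℝ) ^ W * (Real.log A) ^ W) := by linarith
      _ = (2 : ℝ) ^ (W + 1) * (Real.log A) ^ W := by rw [← h8]; ring
      _ ≤ Real.log A * (Real.log A) ^ W := mul_le_mul_of_nonneg_right h9 h10.le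
      _ = (Real.log A) ^ (W + 1) := by
          rw [Real.rpow_add (by linarith), Real.rpow_one]
          ring

/-- the range `A ≤ M √(log M)` is admissible -/
theorem ev_adm (θ : ℝ) : ∀ᶠ N : ℕ in atTop, ∀ A : ℕ,
    (N : ℝ) ^ θ ≤ A → (A : ℝ) ≤ N * √(Real.log N) → Adm θ N A := by
  filter_upwards [ev_log 1] with N h1 A hA1 hA2
  refine ⟨hA1, hA2.trans (mul_le_mul_of_nonneg_left ?_ (Nat.cast_nonneg _))⟩
  rw [Real.sqrt_le_left (by linarith)]
  nlinarith

/-- the bound for one exceptional set -/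
theorem one_exc {A T B l : ℝ} (hA : 0 < A) (hT : 0 < T) (hB : 0 < B) (hl : T ≤ 2 * l) :
    A / l ^ (B + 1) ≤ (2 : ℝ) ^ (B + 1) * (A / T ^ (B + 1)) := by
  have hl0 : 0 < l := by linarith
  have h3 : T ^ (B + 1) ≤ (2 : ℝ) ^ (B + 1) * l ^ (B + 1) := by
    rw [← Real.mul_rpow (by norm_num) hl0.le]
    exact Real.rpow_le_rpow hT.le hl (by linarith)
  rw [← mul_div_assoc, div_le_div_iff₀ (by positivity) (by positivity)]
  calc A * T ^ (B + 1) ≤ A * ((2 : ℝ) ^ (B + 1) * l ^ (B + 1)) :=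
        mul_le_mul_of_nonneg_left h3 hA.le
    _ = (2 : ℝ) ^ (B + 1) * A * l ^ (B + 1) := by ring

lemma EInd_nonneg (N k : ℕ) (δ α β : ℝ) (m : ℕ) : 0 ≤ EInd N k δ α β m := by
  unfold EInd; split_ifs <;> norm_num

/-- the values counted by `EInd` are rough -/
lemma EInd_le_rInd {N k : ℕ} {δ α β e0 : ℝ} (hN : 1 ≤ N) (he : e0 ≤ δ) (m : ℕ) :
    EInd N k δ α β m ≤ rInd ((N : ℝ) ^ e0) m := by
  unfold EInd
  split_ifs with h
  · rw [rInd_of (Rough.mono h.2.2.1 ?_)]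
    exact Real.rpow_le_rpow_of_exponent_le (by exact_mod_cast hN) he
  · exact rInd_nonneg _ _

/-- the values counted by `EInd` are products of exactly `k` primes -/
lemma sum_EInd_le (M N k : ℕ) (δ α β : ℝ) (a : ℤ) :
    ∑ n ∈ Ioc N (2 * N), EInd M k δ α β (val a n) ≤ cntk k N a := by
  unfold cntk
  rw [card_filter]
  push_cast
  refine sum_le_sum fun n _ => ?_
  unfold EInd QPA.val
  by_cases h : Squarefree ((n : ℤ) ^ 2 + a).natAbs ∧ ((n : ℤ) ^ 2 + a).natAbs.primeFactors.card = k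
  · rw [if_pos h]
    split_ifs <;> norm_num
  · rw [if_neg h, if_neg (fun h' => h ⟨h'.1, h'.2.1⟩)]

/-- shifting the block `(M, 2M]` to `(N, 2N]` -/
lemma sum_shift {M N H : ℕ} (f : ℕ → ℝ) (hf : ∀ n, 0 ≤ f n) (h1 : M ≤ N) (h2 : N ≤ M + H) :
    ∑ n ∈ Ioc M (2 * M), f n ≤ ∑ n ∈ Ioc M (M + H), f n + ∑ n ∈ Ioc N (2 * N), f n := by
  have h3 : Ioc M (2 * M) ⊆ Ioc M (M + H) ∪ Ioc N (2 * N) := by
    intro n hn
    rw [mem_Ioc] at hn
    rw [mem_union, mem_Ioc, mem_Ioc]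
    by_cases h : n ≤ M + H
    · exact Or.inl ⟨hn.1, h⟩
    · exact Or.inr ⟨by omega, by omega⟩
  refine (sum_le_sum_of_subset_of_nonneg h3 (fun n _ _ => hf n)).trans ?_
  rw [← sum_union_inter]
  have h4 : 0 ≤ ∑ n ∈ Ioc M (M + H) ∩ Ioc N (2 * N), f n := sum_nonneg fun n _ => hf n
  linarith

/-- the final inequality -/
lemma final_ineq {S S1 cM G h L C η Hr m c₁ L' : ℝ} (hc₁ : 0 < c₁) (hC : 0 < C) (hG : 0 < G) (hL : 0 < L)
    (hη : η ≤ c₁ / (16 * C)) (hh : 0 < h) (h1 : |G - h| ≤ 1 / 10 * h) (h2 : |cM - G * m| ≤ c₁ / 8 * (G * L))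
    (h3 : c₁ * L ≤ m) (h4 : S1 ≤ C * G * Hr) (h5 : Hr ≤ 2 * η * L) (h6 : cM ≤ S1 + S) (h7 : L' ≤ 2 * L) :
    c₁ / 16 * (h * L') ≤ S := by
  have e1 : G * m - c₁ / 8 * (G * L) ≤ cM := by
    have := (abs_le.1 h2).1
    linarith
  have e2 : c₁ * (G * L) ≤ G * m := by
    calc c₁ * (G * L) = G * (c₁ * L) := by ring
      _ ≤ G * m := mul_le_mul_of_nonneg_left h3 hG.le
  have e3 : S1 ≤ c₁ / 8 * (G * L) := by
    refine h4.trans ?_
    calc C * G * Hr ≤ C * G * (2 * η * L) := mul_le_mul_of_nonneg_left h5 (by positivity)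
      _ = (C * η) * (2 * (G * L)) := by ring
      _ ≤ (c₁ / 16) * (2 * (G * L)) := by
          refine mul_le_mul_of_nonneg_right ?_ (by positivity)
          calc C * η ≤ C * (c₁ / (16 * C)) := mul_le_mul_of_nonneg_left hη hC.le
            _ = c₁ / 16 := by field_simp
      _ = c₁ / 8 * (G * L) := by ring
  have e4 : 9 / 10 * h ≤ G := by
    have := (abs_le.1 h1).1
    linarith
  have e5 : 9 / 10 * h * L ≤ G * L := mul_le_mul_of_nonneg_right e4 hL.le
  have e6 : c₁ * (9 / 10 * h * L) ≤ c₁ * (G * L) := mul_le_mul_of_nonneg_left e5 hc₁.le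
  have e7 : c₁ / 16 * (h * L') ≤ c₁ / 16 * (h * (2 * L)) :=
    mul_le_mul_of_nonneg_left (mul_le_mul_of_nonneg_left h7 hh.le) (by positivity)
  have e8 : 0 < c₁ * (h * L) := by positivity
  nlinarith

end FINQM

open FINQM BasM Bas in
theorem specFINQ (hBKE : SpecBKEV) (hEKM : SpecEKM) (hT : SpecTAILV) (hF6 : SpecF6U) (hP : SpecRHOP)
    (h2 : SpecRHO2) (hGMAX : SpecGMAXU) : SpecFINQ := by
  intro k θ hk hθ hθ1
  obtain ⟨α, hα1, hα2, hα3⟩ : ∃ α : ℝ, 2 / 3 ≤ α ∧ 3 / 2 < θ + α ∧ α < 1 :=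
    ⟨max (2 / 3) ((5 / 2 - θ) / 2), le_max_left _ _, by
      have := le_max_right (2 / 3 : ℝ) ((5 / 2 - θ) / 2)
      linarith, max_lt (by norm_num) (by linarith)⟩
  obtain ⟨β, hβ1, hβ2⟩ : ∃ β : ℝ, α < β ∧ β < 1 := ⟨(1 + α) / 2, by linarith, by linarith⟩
  obtain ⟨δ, hδ, hδ1, c₁, hc₁, N1, hEKM⟩ := hEKM k α β hk (by linarith) hβ1 hβ2
  obtain ⟨e0, he0, he0a, he0b⟩ : ∃ e0 : ℝ, 0 < e0 ∧ e0 ≤ δ ∧ e0 ≤ 1 / 100 :=
    ⟨min δ (1 / 100), lt_min hδ (by norm_num), min_le_left _ _, min_le_right _ _⟩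
  obtain ⟨C, hC, hT⟩ := hT e0 he0 he0b
  obtain ⟨cG, CG, hcG, hCG, hG⟩ := hGMAX
  obtain ⟨η, hη, hη1, hη2⟩ : ∃ η : ℝ, 0 < η ∧ η ≤ 1 / 10 ∧ η ≤ c₁ / (16 * C) :=
    ⟨min (1 / 10) (c₁ / (16 * C)), lt_min (by norm_num) (by positivity), min_le_left _ _,
      min_le_right _ _⟩
  refine ⟨c₁ / 16, η, by positivity, hη, hη1, fun B hB => ?_⟩
  have hB1 : 0 < B + 1 := by linarith
  obtain ⟨W1, hW1, hT⟩ := hT (B + 1) hB1
  obtain ⟨W2, hW2, hBKE⟩ := hBKE k θ δ α β (c₁ / 8) (B + 1) hθ hδ hδ1 hα1 hα2 hβ1 hβ2.le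
    (by positivity) hB1
  obtain ⟨W3, hW3, hF6⟩ := hF6 (1 / 10) (B + 1) (by norm_num) hB1
  obtain ⟨W, hWW1, hWW2, hWW3⟩ : ∃ W : ℝ, W1 ≤ W ∧ W2 ≤ W ∧ W3 + 1 ≤ W :=
    ⟨max W1 (max W2 (W3 + 1)), le_max_left _ _, (le_max_left _ _).trans (le_max_right _ _),
      (le_max_right _ _).trans (le_max_right _ _)⟩
  have hW1' : 1 ≤ W := by linarith
  obtain ⟨N2, hT⟩ := hT W hWW1
  obtain ⟨N3, hBKE⟩ := hBKE W hWW2
  obtain ⟨A3, hF6⟩ := hF6 (W - 1) (by linarith)
  have hθ0 : 0 < θ := by linarith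
  obtain ⟨R, hR⟩ : ∃ R : ℝ, R = 1 + 2 * (2 : ℝ) ^ (B + 1) := ⟨_, rfl⟩
  have hev : ∀ᶠ M : ℕ in atTop, ∀ A : ℕ, (M : ℝ) ^ θ ≤ A → (A : ℝ) ≤ M * √(Real.log M) →
      exc A (fun a => ∃ h : ℝ, 0 < h ∧ IsC a h ∧ ∀ N : ℕ, M ≤ N → (N : ℝ) ≤ (1 + η) * M + 1 →
        c₁ / 16 * (h * (N / Real.log N)) ≤ cntk k N a) ≤ A / (Real.log A) ^ B := by
    filter_upwards [eventually_ge_atTop N1, eventually_ge_atTop N2, eventually_ge_atTop N3,
      FIN.ev_large θ hθ0 A3, FIN.ev_large θ hθ0 ⌈Real.exp R⌉₊, ev_w W hW1', ev_adm θ,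
      ev_wN (show 0 < W by linarith) 2, ev_log 1, ev_pow (show (9 / 10 : ℝ) < 1 by norm_num) (1 / η),
      ev_pow (show (0 : ℝ) < 1 by norm_num) (2 / η), eventually_ge_atTop 3] with
      M hN1 hN2 hN3 hlA3 hlAR hw hadm hw2 hl1 hp1 hp2 hM3 A hA1 hA2
    have hM1 : (1 : ℝ) < M := by exact_mod_cast (by omega : 1 < M)
    have hM0 : (0 : ℝ) < M := by linarith
    have hlog : 0 < Real.log M := by linarith
    rw [Real.rpow_one] at hp1 hp2
    rw [Real.rpow_zero, mul_one] at hp2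
    have hηM1 : (M : ℝ) ^ (9 / 10 : ℝ) ≤ η * M := by
      rw [one_div, inv_mul_le_iff₀ hη] at hp1
      exact hp1
    have hηM2 : 2 ≤ η * M := by
      rw [div_le_iff₀ hη] at hp2
      linarith
    have hA12 : (M : ℝ) ^ (1 / 2 : ℝ) ≤ A :=
      (Real.rpow_le_rpow_of_exponent_le hM1.le hθ.le).trans hA1
    have hApos : (0 : ℝ) < A := (Real.rpow_pos_of_pos hM0 _).trans_le hA1
    obtain ⟨hwa, hwb, hwc, hlA1⟩ := hw A hA12 hA2
    have hT0 : 0 < Real.log A := by linarith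
    have hRT : R ≤ Real.log A := by
      have h3 := hlAR A hA1
      have h4 : Real.exp R ≤ A := (Nat.le_ceil _).trans (by exact_mod_cast h3)
      rw [Real.le_log_iff_exp_le hApos]
      exact h4
    have hAdm : Adm θ M A := hadm A hA1 hA2
    have hW12 : W - 1 + 2 = W + 1 := by ring
    -- the exceptional sets
    have hX1 := hF6 A (wN W M) (hlA3 A hA1) hwa (by rw [hW12]; exact hwb)
    have hX2 := (hBKE M A hN3 hAdm).trans (one_exc hApos hT0 hB hwc)
    have hX3 := (hT M A hN2 hA12).trans (one_exc hApos hT0 hB hwc)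
    have hfin : exc A (fun a => ∃ h : ℝ, 0 < h ∧ IsC a h ∧ ∀ N : ℕ, M ≤ N →
        (N : ℝ) ≤ (1 + η) * M + 1 → c₁ / 16 * (h * (N / Real.log N)) ≤ cntk k N a) ≤
        exc A (fun a => (∃ h : ℝ, 0 < h ∧ Tendsto (fun v : ℕ => Gw v a) atTop (𝓝 h) ∧
          |Gw (wN W M) a - h| ≤ 1 / 10 * h) ∧
          ((|cnt M a (EInd M k δ α β) - Gw (wN W M) a * model M (EInd M k δ α β)|
            ≤ c₁ / 8 * Gw (wN W M) a * M / Real.log M) ∧
          ∀ X H : ℕ, (M : ℝ) ^ (9 / 10 : ℝ) ≤ H →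
            ∑ n ∈ Ioc X (X + H), rInd ((M : ℝ) ^ e0) (val a n)
              ≤ C * Gw (wN W M) a * H / Real.log M)) := by
      refine exc_mono ?_
      rintro a _ ⟨⟨h, hh, hht, hh1⟩, hb, ht⟩
      refine ⟨h, hh, ?_, ?_⟩
      · unfold IsC
        refine hht.congr ?_
        intro X
        exact FIN.Gw_eq hP h2 X a
      · intro N hMN hN
        have hG0 : 0 < Gw (wN W M) a := by
          refine lt_of_lt_of_le ?_ (hG (wN W M) hw2 a).1
          have h3 : (2 : ℝ) ≤ wN W M := by exact_mod_cast hw2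
          have h4 : 0 < Real.log ((wN W M : ℝ) + 1) := Real.log_pos (by linarith)
          positivity
        set H : ℕ := ⌈η * M⌉₊ + 1 with hH
        have hH1 : η * M ≤ (⌈η * M⌉₊ : ℝ) := Nat.le_ceil _
        have hH2 : (⌈η * M⌉₊ : ℝ) < η * M + 1 := Nat.ceil_lt_add_one (by positivity)
        have hHr : (H : ℝ) = (⌈η * M⌉₊ : ℝ) + 1 := by rw [hH]; push_cast; ring
        have hNH : N ≤ M + H := by
          have h3 : (N : ℝ) ≤ ((M + H : ℕ) : ℝ) := by
            rw [Nat.cast_add, hHr]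
            linarith
          exact_mod_cast h3
        have hS := sum_shift (fun n => EInd M k δ α β (val a n)) (fun n => EInd_nonneg _ _ _ _ _ _)
          hMN hNH
        have hS1 : ∑ n ∈ Ioc M (M + H), EInd M k δ α β (val a n)
            ≤ C * Gw (wN W M) a * ((H : ℝ) / Real.log M) := by
          have h3 := ht M H (hηM1.trans (by rw [hHr]; linarith))
          rw [mul_div_assoc] at h3
          exact (sum_le_sum fun n _ => EInd_le_rInd (by omega) he0a _).trans h3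
        have hNr : (M : ℝ) ≤ N := by exact_mod_cast hMN
        refine (final_ineq (S := ∑ n ∈ Ioc N (2 * N), EInd M k δ α β (val a n))
          (S1 := ∑ n ∈ Ioc M (M + H), EInd M k δ α β (val a n)) (cM := cnt M a (EInd M k δ α β))
          (G := Gw (wN W M) a) (h := h) (L := M / Real.log M) (C := C) (η := η)
          (Hr := (H : ℝ) / Real.log M) (m := model M (EInd M k δ α β)) (c₁ := c₁)
          (L' := N / Real.log N) hc₁ hC hG0 (by positivity) hη2 hh hh1 ?_ (hEKM M hN1) hS1 ?_ hS ?_).trans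
          (sum_EInd_le M N k δ α β a)
        · refine hb.trans (le_of_eq ?_)
          ring
        · rw [← mul_div_assoc]
          refine div_le_div_of_nonneg_right ?_ hlog.le
          rw [hHr]
          linarith
        · rw [← mul_div_assoc]
          have h3 : Real.log M ≤ Real.log N := Real.log_le_log hM0 hNr
          have h4 : (N : ℝ) ≤ 2 * M := by
            have : η * M ≤ 1 / 10 * M := mul_le_mul_of_nonneg_right hη1 hM0.le
            have hM3' : (3 : ℝ) ≤ M := by exact_mod_cast hM3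
            linarith
          exact div_le_div₀ (by positivity) h4 hlog h3
    refine hfin.trans ((exc_and A _ _).trans ?_)
    refine (add_le_add hX1 ((exc_and A _ _).trans (add_le_add hX2 hX3))).trans ?_
    calc (A : ℝ) / (Real.log A) ^ (B + 1) + ((2 : ℝ) ^ (B + 1) * (A / (Real.log A) ^ (B + 1))
          + (2 : ℝ) ^ (B + 1) * (A / (Real.log A) ^ (B + 1)))
        = R * (A / (Real.log A) ^ (B + 1)) := by rw [hR]; ring
      _ ≤ Real.log A * (A / (Real.log A) ^ (B + 1)) :=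
          mul_le_mul_of_nonneg_right hRT (by positivity)
      _ = A / (Real.log A) ^ B := by
          rw [Real.rpow_add hT0, Real.rpow_one]
          field_simp
  obtain ⟨N₀, hN₀⟩ := eventually_atTop.1 hev
  exact ⟨N₀, fun M A hM hA1 hA2 => hN₀ M hM A hA1 hA2⟩

end

end Pool.Agent.Lib.MP391708.U.K
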