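import Pool.Agent.Lib.MP_391708_nt.U.K.SpecX5
import Pool.Agent.Lib.MP_391708_nt.U.K.FINQ

/-!
# Project X5, module FINA: asymptotic formula for products of exactly `k` primes, one scale
-/

set_option autoImplicit false

namespace Pool.Agent.Lib.MP391708.U.K

open Finset Filter Topology Pool.Agent.Lib.MP391708.QPA Pool.Agent.Lib.MP391708.QPA.H
open Pool.Agent.Lib.MP391708.U
open scoped Classical

noncomputable section

namespace FINAM

open BasM Bas FINQM

/-- the pointwise inequalities -/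
lemma sandwich {M N k : ℕ} {δ α β δ₁ α₁ β₁ δ₂ α₂ β₂ : ℝ} (hM : 1 ≤ M) (hMN : M ≤ N)
    (hδ₁ : 0 ≤ δ₁) (hα₁ : 0 ≤ α₁) (hβ₂ : 0 ≤ β₂) (hδ : δ₁ ≤ δ) (hα : α₁ ≤ α) (hβ : β₂ ≤ β)
    (h1 : (N : ℝ) ^ δ ≤ (M : ℝ) ^ δ₂) (h2 : (N : ℝ) ^ α ≤ (M : ℝ) ^ α₂) (h3 : (N : ℝ) ^ β ≤ (M : ℝ) ^ β₁) (m : ℕ) :
    EInd M k δ₂ α₂ β₂ m ≤ EInd N k δ α β m ∧ EInd N k δ α β m ≤ EInd M k δ₁ α₁ β₁ m := by
  have hM1 : (1 : ℝ) ≤ M := by exact_mod_cast hM
  have hMN' : (M : ℝ) ≤ N := by exact_mod_cast hMN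
  have hN1 : (1 : ℝ) ≤ N := hM1.trans hMN'
  have mono : ∀ x y : ℝ, 0 ≤ x → x ≤ y → (M : ℝ) ^ x ≤ (N : ℝ) ^ y := fun x y hx hxy =>
    (Real.rpow_le_rpow (by linarith) hMN' hx).trans (Real.rpow_le_rpow_of_exponent_le hN1 hxy)
  constructor
  · unfold EInd
    by_cases h : Squarefree m ∧ m.primeFactors.card = k ∧ Rough ((M : ℝ) ^ δ₂) m ∧
      ∃ d : ℕ, d ∣ m ∧ (M : ℝ) ^ α₂ < d ∧ (d : ℝ) ≤ (M : ℝ) ^ β₂
    · obtain ⟨a1, a2, a3, d, a4, a5, a6⟩ := h
      rw [if_pos ⟨a1, a2, a3, d, a4, a5, a6⟩, if_pos]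
      exact ⟨a1, a2, Rough.mono a3 h1, d, a4, lt_of_le_of_lt h2 a5, a6.trans (mono _ _ hβ₂ hβ)⟩
    · rw [if_neg h]
      split_ifs <;> norm_num
  · unfold EInd
    by_cases h : Squarefree m ∧ m.primeFactors.card = k ∧ Rough ((N : ℝ) ^ δ) m ∧
      ∃ d : ℕ, d ∣ m ∧ (N : ℝ) ^ α < d ∧ (d : ℝ) ≤ (N : ℝ) ^ β
    · obtain ⟨a1, a2, a3, d, a4, a5, a6⟩ := h
      rw [if_pos ⟨a1, a2, a3, d, a4, a5, a6⟩, if_pos]
      exact ⟨a1, a2, Rough.mono a3 (mono _ _ hδ₁ hδ), d, a4, lt_of_le_of_lt (mono _ _ hα₁ hα) a5, a6.trans h3⟩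
    · rw [if_neg h]
      split_ifs <;> norm_num

/-- `(2M)^x ≤ M^y` for large `M` -/
lemma ev_two {x y : ℝ} (hx : 0 ≤ x) (hxy : x < y) : ∀ᶠ M : ℕ in atTop, ∀ N : ℕ, (N : ℝ) ≤ 2 * M →
    (N : ℝ) ^ x ≤ (M : ℝ) ^ y := by
  have h1 : Tendsto (fun M : ℕ => (M : ℝ) ^ (y - x)) atTop atTop :=
    (tendsto_rpow_atTop (by linarith)).comp tendsto_natCast_atTop_atTop
  filter_upwards [h1.eventually_ge_atTop ((2 : ℝ) ^ x), eventually_ge_atTop 1] with M h2 h3 N hN
  have hM0 : (0 : ℝ) < M := by exact_mod_cast h3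
  calc (N : ℝ) ^ x ≤ (2 * (M : ℝ)) ^ x := Real.rpow_le_rpow (Nat.cast_nonneg _) hN hx
    _ = (2 : ℝ) ^ x * (M : ℝ) ^ x := Real.mul_rpow (by norm_num) hM0.le
    _ ≤ (M : ℝ) ^ (y - x) * (M : ℝ) ^ x := mul_le_mul_of_nonneg_right h2 (by positivity)
    _ = (M : ℝ) ^ y := by rw [← Real.rpow_add hM0]; congr 1; ring

/-- shifting the block `(N, 2N]` to `(M, 2M]`: upper bound -/
lemma sum_up {M N H : ℕ} (f : ℕ → ℝ) (hf : ∀ n, 0 ≤ f n) (h1 : M ≤ N) (h2 : 2 * N ≤ 2 * M + H) :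
    ∑ n ∈ Ioc N (2 * N), f n ≤ ∑ n ∈ Ioc M (2 * M), f n + ∑ n ∈ Ioc (2 * M) (2 * M + H), f n := by
  have h3 : Ioc N (2 * N) ⊆ Ioc M (2 * M) ∪ Ioc (2 * M) (2 * M + H) := by
    intro n hn
    rw [mem_Ioc] at hn
    rw [mem_union, mem_Ioc, mem_Ioc]
    by_cases h : n ≤ 2 * M
    · exact Or.inl ⟨by omega, h⟩
    · exact Or.inr ⟨by omega, by omega⟩
  refine (sum_le_sum_of_subset_of_nonneg h3 (fun n _ _ => hf n)).trans ?_
  rw [← sum_union_inter]
  have h4 : 0 ≤ ∑ n ∈ Ioc M (2 * M) ∩ Ioc (2 * M) (2 * M + H), f n := sum_nonneg fun n _ => hf n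
  linarith

/-- the final inequality, `L = M / log M` -/
lemma final2 {cN cU cL mN mU mL G h L L' C C0 ε ε1 ε2 ε3 κ S1 S2 H1 H2 η : ℝ}
    (hL : 0 < L) (hLL : L ≤ L') (hh : 0 < h) (hC : 0 < C) (hε : 0 < ε) (hε1 : 0 < ε1) (hε11 : ε1 ≤ 1)
    (hε2 : 0 < ε2) (hε3 : 0 < ε3) (hκ : 0 < κ) (hη : 0 < η) (hG0 : 0 < G)
    (h1 : |G - h| ≤ ε1 * h) (h2 : |cU - G * mU| ≤ ε2 * (G * L)) (h3 : |cL - G * mL| ≤ ε2 * (G * L))
    (h4 : cN ≤ cU + S2) (h5 : cL ≤ cN + S1) (h6 : S1 ≤ C * G * H1) (h7 : H1 ≤ 3 * η * L)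
    (h8 : S2 ≤ C * G * H2) (h9 : H2 ≤ 3 * η * L)
    (m1 : mU ≤ C0 * L) (m2 : mU ≤ mL + ε3 * L) (m3 : mN ≤ mU + κ * L) (m4 : mL ≤ mN + κ * L) (m5 : 0 ≤ mU)
    (hsum : ε1 * C0 + 2 * ε2 + 6 * C * η + 2 * ε3 + κ ≤ ε) :
    |cN - h * mN| ≤ ε * (h * L') := by
  have hG2 : G ≤ 2 * h := by
    have := (abs_le.1 h1).2
    nlinarith
  have hS1 : S1 ≤ 6 * C * η * (h * L) := by
    refine h6.trans ?_
    calc C * G * H1 ≤ C * G * (3 * η * L) := mul_le_mul_of_nonneg_left h7 (by positivity)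
      _ = 3 * C * η * L * G := by ring
      _ ≤ 3 * C * η * L * (2 * h) := mul_le_mul_of_nonneg_left hG2 (by positivity)
      _ = 6 * C * η * (h * L) := by ring
  have hS2 : S2 ≤ 6 * C * η * (h * L) := by
    refine h8.trans ?_
    calc C * G * H2 ≤ C * G * (3 * η * L) := mul_le_mul_of_nonneg_left h9 (by positivity)
      _ = 3 * C * η * L * G := by ring
      _ ≤ 3 * C * η * L * (2 * h) := mul_le_mul_of_nonneg_left hG2 (by positivity)
      _ = 6 * C * η * (h * L) := by ring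
  have hE : ε2 * (G * L) ≤ 2 * ε2 * (h * L) := by
    calc ε2 * (G * L) = ε2 * L * G := by ring
      _ ≤ ε2 * L * (2 * h) := mul_le_mul_of_nonneg_left hG2 (by positivity)
      _ = 2 * ε2 * (h * L) := by ring
  -- `|G mU - h mU| ≤ ε1 C0 h L`
  have hGU : |G * mU - h * mU| ≤ ε1 * C0 * (h * L) := by
    rw [← sub_mul, abs_mul, abs_of_nonneg m5]
    calc |G - h| * mU ≤ ε1 * h * (C0 * L) := mul_le_mul h1 m1 m5 (by positivity)
      _ = ε1 * C0 * (h * L) := by ring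
  have e4 : 0 < h * L := by positivity
  have e5 : (ε1 * C0 + 2 * ε2 + 6 * C * η + 2 * ε3 + κ) * (h * L) ≤ ε * (h * L) :=
    mul_le_mul_of_nonneg_right hsum e4.le
  have e6 : 0 < ε3 * (h * L) := by positivity
  have e7 : 0 < κ * (h * L) := by positivity
  have hUP : cN - h * mN ≤ ε * (h * L) := by
    have e1 := (abs_le.1 h2).2
    have e2 := (abs_le.1 hGU).2
    have e3 : h * mU - h * mN ≤ (ε3 + κ) * (h * L) := by
      have : mU - mN ≤ (ε3 + κ) * L := by linarith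
      calc h * mU - h * mN = h * (mU - mN) := by ring
        _ ≤ h * ((ε3 + κ) * L) := mul_le_mul_of_nonneg_left this hh.le
        _ = _ := by ring
    linarith
  have hLO : h * mN - cN ≤ ε * (h * L) := by
    have e1 := (abs_le.1 h3).1
    have e2 := (abs_le.1 hGU).1
    have e3 : h * mN ≤ h * mU + κ * (h * L) := by
      calc h * mN ≤ h * (mU + κ * L) := mul_le_mul_of_nonneg_left m3 hh.le
        _ = _ := by ring
    have e8 : G * mU - G * mL ≤ 2 * ε3 * (h * L) := by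
      calc G * mU - G * mL = G * (mU - mL) := by ring
        _ ≤ G * (ε3 * L) := mul_le_mul_of_nonneg_left (by linarith) hG0.le
        _ = ε3 * L * G := by ring
        _ ≤ ε3 * L * (2 * h) := mul_le_mul_of_nonneg_left hG2 (by positivity)
        _ = _ := by ring
    linarith
  have hLL' : ε * (h * L) ≤ ε * (h * L') :=
    mul_le_mul_of_nonneg_left (mul_le_mul_of_nonneg_left hLL hh.le) hε.le
  rw [abs_le]
  constructor <;> linarith

end FINAM

open FINAM FINQM BasM Bas in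
theorem specFINA (hBKE : SpecBKEV) (hT : SpecTAILV) (hF6 : SpecF6U) (hP : SpecRHOP)
    (h2 : SpecRHO2) (hGMAX : SpecGMAXU) (hMDEB : SpecMDEB) : SpecFINA := by
  intro k θ δ α β e ε hPar hNear
  obtain ⟨hθ, hθ1, he, hδ, hδ1, hα, hθα, hαβ, hβ, hε⟩ := hPar
  obtain ⟨C0, hC0, ⟨N5, hmod⟩, hcmp⟩ := hMDEB (δ - 2 * e) hδ (by linarith)
  obtain ⟨N1, hNear⟩ := hNear
  obtain ⟨e0, he0, he0a, he0b⟩ : ∃ e0 : ℝ, 0 < e0 ∧ e0 ≤ δ - 2 * e ∧ e0 ≤ 1 / 100 :=
    ⟨min (δ - 2 * e) (1 / 100), lt_min hδ (by norm_num), min_le_left _ _, min_le_right _ _⟩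
  obtain ⟨C, hC, hT⟩ := hT e0 he0 he0b
  obtain ⟨cG, CG, hcG, hCG, hG⟩ := hGMAX
  obtain ⟨η, hη, hη1, hη2, hη3⟩ : ∃ η : ℝ, 0 < η ∧ η ≤ 1 / 10 ∧ η ≤ ε / (24 * C) ∧ η ≤ ε / (16 * C0) :=
    ⟨min (ε / (16 * C0)) (min (1 / 10) (ε / (24 * C))), lt_min (by positivity) (lt_min (by norm_num) (by positivity)),
      (min_le_right _ _).trans (min_le_left _ _), (min_le_right _ _).trans (min_le_right _ _), min_le_left _ _⟩
  obtain ⟨N6, hcmp⟩ := hcmp η hη hη1
  obtain ⟨ε1, hε1, hε11, hε1C⟩ : ∃ ε1 : ℝ, 0 < ε1 ∧ ε1 ≤ 1 ∧ ε1 * C0 ≤ ε / 16 := by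
    refine ⟨min 1 (ε / (16 * C0)), lt_min one_pos (by positivity), min_le_left _ _, ?_⟩
    calc min 1 (ε / (16 * C0)) * C0 ≤ ε / (16 * C0) * C0 :=
          mul_le_mul_of_nonneg_right (min_le_right _ _) hC0.le
      _ = ε / 16 := by field_simp
  refine ⟨η, hη, hη1, fun B hB => ?_⟩
  have hB1 : 0 < B + 1 := by linarith
  obtain ⟨W1, hW1, hT⟩ := hT (B + 1) hB1
  obtain ⟨W2, hW2, hBU⟩ := hBKE k θ (δ - 2 * e) (α - 2 * e) (β + 2 * e) (ε / 16) (B + 1) hθ hδ (by linarith) hα hθα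
    (by linarith) hβ (by positivity) hB1
  obtain ⟨W4, hW4, hBL⟩ := hBKE k θ (δ + 2 * e) (α + 2 * e) (β - 2 * e) (ε / 16) (B + 1) hθ (by linarith) hδ1
    (by linarith) (by linarith) hαβ (by linarith) (by positivity) hB1
  obtain ⟨W3, hW3, hF6⟩ := hF6 ε1 (B + 1) hε1 hB1
  obtain ⟨W, hWW1, hWW2, hWW3, hWW4⟩ : ∃ W : ℝ, W1 ≤ W ∧ W2 ≤ W ∧ W3 + 1 ≤ W ∧ W4 ≤ W :=
    ⟨max (max W1 W4) (max W2 (W3 + 1)), (le_max_left _ _).trans (le_max_left _ _),
      (le_max_left _ _).trans (le_max_right _ _),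
      (le_max_right _ _).trans (le_max_right _ _), (le_max_right _ _).trans (le_max_left _ _)⟩
  have hW1' : 1 ≤ W := by linarith
  obtain ⟨N2, hT⟩ := hT W hWW1
  obtain ⟨N3, hBU⟩ := hBU W hWW2
  obtain ⟨N4, hBL⟩ := hBL W hWW4
  obtain ⟨A3, hF6⟩ := hF6 (W - 1) (by linarith)
  have hθ0 : 0 < θ := by linarith
  obtain ⟨R, hR⟩ : ∃ R : ℝ, R = 1 + 3 * (2 : ℝ) ^ (B + 1) := ⟨_, rfl⟩
  have hev : ∀ᶠ M : ℕ in atTop, ∀ A : ℕ, (M : ℝ) ^ θ ≤ A → (A : ℝ) ≤ M * √(Real.log M) →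
      exc A (fun a => ∃ h : ℝ, 0 < h ∧ IsC a h ∧ ∀ N : ℕ, M ≤ N → (N : ℝ) ≤ (1 + η) * M + 1 →
        Fm k δ α β e ε N a h) ≤ A / (Real.log A) ^ B := by
    filter_upwards [eventually_ge_atTop N1, eventually_ge_atTop N2, eventually_ge_atTop N3,
      eventually_ge_atTop N4, eventually_ge_atTop N5, eventually_ge_atTop N6,
      FIN.ev_large θ hθ0 A3, FIN.ev_large θ hθ0 ⌈Real.exp R⌉₊, ev_w W hW1', ev_adm θ,
      ev_wN (show 0 < W by linarith) 2, ev_log 1, ev_pow (show (9 / 10 : ℝ) < 1 by norm_num) (1 / η),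
      ev_pow (show (0 : ℝ) < 1 by norm_num) (3 / η), eventually_ge_atTop 3,
      ev_two (show 0 ≤ δ + e by linarith) (show δ + e < δ + 2 * e by linarith),
      ev_two (show 0 ≤ α + e by linarith) (show α + e < α + 2 * e by linarith),
      ev_two (show 0 ≤ β + e by linarith) (show β + e < β + 2 * e by linarith)] with
      M hN1 hN2 hN3 hN4 hN5 hN6 hlA3 hlAR hw hadm hw2 hl1 hp1 hp2 hM3 ht1 ht2 ht3 A hA1 hA2
    have hM1 : (1 : ℝ) < M := by exact_mod_cast (by omega : 1 < M)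
    have hM0 : (0 : ℝ) < M := by linarith
    have hlog : 0 < Real.log M := by linarith
    rw [Real.rpow_one] at hp1 hp2
    rw [Real.rpow_zero, mul_one] at hp2
    have hηM1 : (M : ℝ) ^ (9 / 10 : ℝ) ≤ η * M := by
      rw [one_div, inv_mul_le_iff₀ hη] at hp1
      exact hp1
    have hηM2 : 3 ≤ η * M := by
      rw [div_le_iff₀ hη] at hp2
      linarith
    have hA12 : (M : ℝ) ^ (1 / 2 : ℝ) ≤ A :=
      (Real.rpow_le_rpow_of_exponent_le hM1.le hθ.le).trans hA1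
    have hApos : (0 : ℝ) < A := (Real.rpow_pos_of_pos hM0 _).trans_le hA1
    obtain ⟨hwa, hwb, hwc, hlA1⟩ := hw A hA12 hA2
    have hT0 : 0 < Real.log A := by linarith
    have hRT : R ≤ Real.log A := by
      have h3 := hlAR A hA1
      have h4 : Real.exp R ≤ A := (Nat.le_ceil _).trans (by exact_mod_cast h3)
      rw [Real.le_log_iff_exp_le hApos]
      exact h4
    have hAdm : Adm θ M A := hadm A hA1 hA2
    have hW12 : W - 1 + 2 = W + 1 := by ring
    -- the exceptional sets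
    have hX1 := hF6 A (wN W M) (hlA3 A hA1) hwa (by rw [hW12]; exact hwb)
    have hX2 := (hBU M A hN3 hAdm).trans (one_exc hApos hT0 hB hwc)
    have hX4 := (hBL M A hN4 hAdm).trans (one_exc hApos hT0 hB hwc)
    have hX3 := (hT M A hN2 hA12).trans (one_exc hApos hT0 hB hwc)
    have hfin : exc A (fun a => ∃ h : ℝ, 0 < h ∧ IsC a h ∧ ∀ N : ℕ, M ≤ N →
        (N : ℝ) ≤ (1 + η) * M + 1 → Fm k δ α β e ε N a h) ≤
        exc A (fun a => (∃ h : ℝ, 0 < h ∧ Tendsto (fun v : ℕ => Gw v a) atTop (𝓝 h) ∧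
          |Gw (wN W M) a - h| ≤ ε1 * h) ∧
          ((|cnt M a (EInd M k (δ - 2 * e) (α - 2 * e) (β + 2 * e)) -
              Gw (wN W M) a * model M (EInd M k (δ - 2 * e) (α - 2 * e) (β + 2 * e))|
            ≤ ε / 16 * Gw (wN W M) a * M / Real.log M) ∧
          ((|cnt M a (EInd M k (δ + 2 * e) (α + 2 * e) (β - 2 * e)) -
              Gw (wN W M) a * model M (EInd M k (δ + 2 * e) (α + 2 * e) (β - 2 * e))|
            ≤ ε / 16 * Gw (wN W M) a * M / Real.log M) ∧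
          ∀ X H : ℕ, (M : ℝ) ^ (9 / 10 : ℝ) ≤ H →
            ∑ n ∈ Ioc X (X + H), rInd ((M : ℝ) ^ e0) (val a n)
              ≤ C * Gw (wN W M) a * H / Real.log M))) := by
      refine exc_mono ?_
      rintro a _ ⟨⟨h, hh, hht, hh1⟩, hb, hb', ht⟩
      refine ⟨h, hh, ?_, ?_⟩
      · unfold IsC
        refine hht.congr ?_
        intro X
        exact FIN.Gw_eq hP h2 X a
      · intro N hMN hN δ' α' β' hδ' hα' hβ'
        have hG0 : 0 < Gw (wN W M) a := by
          refine lt_of_lt_of_le ?_ (hG (wN W M) hw2 a).1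
          have h3 : (2 : ℝ) ≤ wN W M := by exact_mod_cast hw2
          have h4 : 0 < Real.log ((wN W M : ℝ) + 1) := Real.log_pos (by linarith)
          positivity
        have hNr : (M : ℝ) ≤ N := by exact_mod_cast hMN
        have hN1r : (1 : ℝ) ≤ N := by linarith
        have hηM3 : η * M ≤ 1 / 10 * M := mul_le_mul_of_nonneg_right hη1 hM0.le
        have hN2M : (N : ℝ) ≤ 2 * M := by
          have hM3' : (3 : ℝ) ≤ M := by exact_mod_cast hM3
          linarith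
        rw [abs_le] at hδ' hα' hβ'
        obtain ⟨d1, d2⟩ := hδ'
        obtain ⟨a1, a2⟩ := hα'
        obtain ⟨b1, b2⟩ := hβ'
        have hs := sandwich (k := k) (M := M) (N := N) (δ := δ') (α := α') (β := β')
          (δ₁ := δ - 2 * e) (α₁ := α - 2 * e) (β₁ := β + 2 * e)
          (δ₂ := δ + 2 * e) (α₂ := α + 2 * e) (β₂ := β - 2 * e) (by omega : 1 ≤ M) hMN
          (by linarith) (by linarith) (by linarith) (by linarith) (by linarith) (by linarith)
          ((Real.rpow_le_rpow_of_exponent_le hN1r (by linarith)).trans (ht1 N hN2M))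
          ((Real.rpow_le_rpow_of_exponent_le hN1r (by linarith)).trans (ht2 N hN2M))
          ((Real.rpow_le_rpow_of_exponent_le hN1r (by linarith)).trans (ht3 N hN2M))
        set Em : ℕ → ℝ := EInd M k (δ + 2 * e) (α + 2 * e) (β - 2 * e) with hEm
        set Ep : ℕ → ℝ := EInd M k (δ - 2 * e) (α - 2 * e) (β + 2 * e) with hEp
        set E : ℕ → ℝ := EInd N k δ' α' β' with hEE
        have hEm0 : ∀ m, 0 ≤ Em m := fun m => EInd_nonneg _ _ _ _ _ _
        have hEp0 : ∀ m, 0 ≤ Ep m := fun m => EInd_nonneg _ _ _ _ _ _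
        have hE0 : ∀ m, 0 ≤ E m := fun m => EInd_nonneg _ _ _ _ _ _
        have hEpr : ∀ m, Ep m ≤ rInd ((M : ℝ) ^ (δ - 2 * e)) m := fun m => EInd_le_rInd (by omega) le_rfl m
        have hEpr0 : ∀ m, Ep m ≤ rInd ((M : ℝ) ^ e0) m := fun m => EInd_le_rInd (by omega) he0a m
        -- the lower tail
        set H : ℕ := ⌈η * M⌉₊ + 1 with hH
        have hH1 : η * M ≤ (⌈η * M⌉₊ : ℝ) := Nat.le_ceil _
        have hH2 : (⌈η * M⌉₊ : ℝ) < η * M + 1 := Nat.ceil_lt_add_one (by positivity)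
        have hHr : (H : ℝ) = (⌈η * M⌉₊ : ℝ) + 1 := by rw [hH]; push_cast; ring
        have hNH : N ≤ M + H := by
          have h3 : (N : ℝ) ≤ ((M + H : ℕ) : ℝ) := by
            rw [Nat.cast_add, hHr]
            linarith
          exact_mod_cast h3
        have hS := sum_shift (fun n => Em (val a n)) (fun n => hEm0 _) hMN hNH
        have hS' : ∑ n ∈ Ioc N (2 * N), Em (val a n) ≤ cnt N a E :=
          sum_le_sum fun n _ => (hs _).1
        have hS1 : ∑ n ∈ Ioc M (M + H), Em (val a n)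
            ≤ C * Gw (wN W M) a * ((H : ℝ) / Real.log M) := by
          have h3 := ht M H (hηM1.trans (by rw [hHr]; linarith))
          rw [mul_div_assoc] at h3
          exact (sum_le_sum fun n _ => ((hs _).1.trans (hs _).2).trans (hEpr0 _)).trans h3
        -- the upper tail
        set K : ℕ := ⌈2 * (η * M)⌉₊ + 2 with hK
        have hK1 : 2 * (η * M) ≤ (⌈2 * (η * M)⌉₊ : ℝ) := Nat.le_ceil _
        have hK2 : (⌈2 * (η * M)⌉₊ : ℝ) < 2 * (η * M) + 1 := Nat.ceil_lt_add_one (by positivity)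
        have hKr : (K : ℝ) = (⌈2 * (η * M)⌉₊ : ℝ) + 2 := by rw [hK]; push_cast; ring
        have hNK : 2 * N ≤ 2 * M + K := by
          have h3 : (2 * N : ℝ) ≤ ((2 * M + K : ℕ) : ℝ) := by
            push_cast
            rw [hKr]
            linarith
          exact_mod_cast h3
        have hU := sum_up (fun n => Ep (val a n)) (fun n => hEp0 _) hMN hNK
        have hU' : cnt N a E ≤ ∑ n ∈ Ioc N (2 * N), Ep (val a n) :=
          sum_le_sum fun n _ => (hs _).2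
        have hU1 : ∑ n ∈ Ioc (2 * M) (2 * M + K), Ep (val a n)
            ≤ C * Gw (wN W M) a * ((K : ℝ) / Real.log M) := by
          have h3 := ht (2 * M) K (hηM1.trans (by rw [hKr]; linarith))
          rw [mul_div_assoc] at h3
          exact (sum_le_sum fun n _ => hEpr0 _).trans h3
        -- the model
        have mdl_mono : ∀ (f g : ℕ → ℝ), (∀ m, f m ≤ g m) → ∀ X : ℕ, model X f ≤ model X g := fun f g hfg X =>
          sum_le_sum fun m _ => div_le_div_of_nonneg_right (hfg m) (by positivity)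
        have q1 : model M Ep ≤ C0 * (M / Real.log M) := (mdl_mono _ _ hEpr M).trans (hmod M hN5)
        have q3 : model N E ≤ model M Ep + C0 * η * (M / Real.log M) := by
          have h3 := (abs_le.1 (hcmp M N hN6 hMN hN Ep hEp0 hEpr)).2
          have h4 := mdl_mono E Ep (fun m => (hs m).2) N
          linarith
        have q4 : model M Em ≤ model N E + C0 * η * (M / Real.log M) := by
          have h3 := (abs_le.1 (hcmp M N hN6 hMN hN Em hEm0
            (fun m => ((hs m).1.trans (hs m).2).trans (hEpr m)))).1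
          have h4 := mdl_mono Em E (fun m => (hs m).1) N
          linarith
        have hmU : 0 ≤ model M Ep :=
          sum_nonneg fun m _ => div_nonneg (hEp0 m) (by positivity)
        have hLL : (M : ℝ) / Real.log M ≤ N / Real.log N := by
          have h3 : (3 : ℝ) ≤ M := by exact_mod_cast hM3
          have h4 : Real.exp 1 ≤ M := (Real.exp_one_lt_three.le).trans h3
          have h5 : Real.log N / N ≤ Real.log M / M :=
            Real.log_div_self_antitoneOn h4 (h4.trans hNr) hNr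
          have h6 : 0 < Real.log N := hlog.trans_le (Real.log_le_log hM0 hNr)
          rw [div_le_div_iff₀ hlog h6]
          rw [div_le_div_iff₀ (by linarith) hM0] at h5
          linarith
        refine final2 (cU := cnt M a Ep) (cL := cnt M a Em)
          (mU := model M Ep) (mL := model M Em) (G := Gw (wN W M) a)
          (L := M / Real.log M) (C := C) (C0 := C0) (ε1 := ε1) (ε2 := ε / 16) (ε3 := ε / 8) (κ := C0 * η) (η := η)
          (S1 := ∑ n ∈ Ioc M (M + H), Em (val a n))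
          (S2 := ∑ n ∈ Ioc (2 * M) (2 * M + K), Ep (val a n))
          (H1 := (H : ℝ) / Real.log M) (H2 := (K : ℝ) / Real.log M)
          (by positivity) hLL hh hC hε hε1 hε11 (by positivity) (by positivity) (by positivity) hη hG0 hh1
          (hb.trans (le_of_eq (by ring))) (hb'.trans (le_of_eq (by ring))) ?_ ?_ hS1 ?_ hU1 ?_
          q1 (hNear M hN1) q3 q4 hmU ?_
        · exact hU'.trans hU
        · have h5 : cnt M a Em ≤ ∑ n ∈ Ioc M (M + H), Em (val a n) +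
            ∑ n ∈ Ioc N (2 * N), Em (val a n) := hS
          linarith
        · rw [← mul_div_assoc]
          refine div_le_div_of_nonneg_right ?_ hlog.le
          rw [hHr]
          linarith
        · rw [← mul_div_assoc]
          refine div_le_div_of_nonneg_right ?_ hlog.le
          rw [hKr]
          linarith
        · have h6 : 6 * C * η ≤ ε / 4 := by
            calc 6 * C * η ≤ 6 * C * (ε / (24 * C)) := mul_le_mul_of_nonneg_left hη2 (by positivity)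
              _ = ε / 4 := by field_simp; ring
          have h7 : C0 * η ≤ ε / 16 := by
            calc C0 * η ≤ C0 * (ε / (16 * C0)) := mul_le_mul_of_nonneg_left hη3 hC0.le
              _ = ε / 16 := by field_simp
          linarith
    refine hfin.trans ((exc_and A _ _).trans ?_)
    refine (add_le_add hX1 ((exc_and A _ _).trans (add_le_add hX2
      ((exc_and A _ _).trans (add_le_add hX4 hX3))))).trans ?_
    calc (A : ℝ) / (Real.log A) ^ (B + 1) + ((2 : ℝ) ^ (B + 1) * (A / (Real.log A) ^ (B + 1))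
          + ((2 : ℝ) ^ (B + 1) * (A / (Real.log A) ^ (B + 1)) +
          (2 : ℝ) ^ (B + 1) * (A / (Real.log A) ^ (B + 1))))
        = R * (A / (Real.log A) ^ (B + 1)) := by rw [hR]; ring
      _ ≤ Real.log A * (A / (Real.log A) ^ (B + 1)) :=
          mul_le_mul_of_nonneg_right hRT (by positivity)
      _ = A / (Real.log A) ^ B := by
          rw [Real.rpow_add hT0, Real.rpow_one]
          field_simp
  obtain ⟨N₀, hN₀⟩ := eventually_atTop.1 hev
  exact ⟨N₀, fun M A hM hA1 hA2 => hN₀ M hM A hA1 hA2⟩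

end

end Pool.Agent.Lib.MP391708.U.K
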