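import Pool.Agent.Lib.MP_391708_nt.U.K.SpecX5
import Pool.Agent.Lib.MP_391708_nt.U.MAINUR

/-!
# MAINA: one exceptional set for the asymptotic formulas of all types
-/

set_option autoImplicit false

namespace Pool.Agent.Lib.MP391708.U.K

open Finset Filter Topology Pool.Agent.Lib.MP391708.QPA Pool.Agent.Lib.MP391708.QPA.H
open Pool.Agent.Lib.MP391708.U
open scoped Classical

namespace MAINAM

/-- the index set of the family of properties -/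
abbrev Idx : Type := ℕ × (Fin 7 → ℚ)

/-- the property with the index `i`: `θ, τ, δ, α, β, e, ε` are the components `0, .., 6` -/
def Pr (i : Idx) (a : ℤ) : Prop :=
  Par (i.2 0) (i.2 2) (i.2 3) (i.2 4) (i.2 5) (i.2 6) →
  Near i.1 (i.2 2) (i.2 3) (i.2 4) (i.2 5) (((i.2 6 : ℚ) : ℝ) / 8) →
  1 < ((i.2 1 : ℚ) : ℝ) → ((i.2 1 : ℚ) : ℝ) * ((i.2 0 : ℚ) : ℝ) < 1 →
  ∃ h : ℝ, 0 < h ∧ IsC a h ∧ ∀ N : ℕ, |(a : ℝ)| ≤ N * (Real.log N) ^ (1 / 4 : ℝ) →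
    (N : ℝ) ≤ |(a : ℝ)| ^ ((i.2 1 : ℚ) : ℝ) →
    Fm i.1 (i.2 2) (i.2 3) (i.2 4) (i.2 5) (i.2 6) N a h

/-- the type is monotone in the parameters -/
lemma EInd_mono {M k : ℕ} {δ α β δ' α' β' : ℝ} (hM : 1 ≤ M) (hδ : δ' ≤ δ) (hα : α' ≤ α)
    (hβ : β ≤ β') (m : ℕ) : EInd M k δ α β m ≤ EInd M k δ' α' β' m := by
  have hM1 : (1 : ℝ) ≤ M := by exact_mod_cast hM
  unfold EInd
  split_ifs with h1 h2 h2
  · exact le_rfl
  · exfalso
    apply h2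
    obtain ⟨g1, g2, g3, d, g4, g5, g6⟩ := h1
    refine ⟨g1, g2, fun p hp hpm => ?_, d, g4, ?_, ?_⟩
    · exact (Real.rpow_le_rpow_of_exponent_le hM1 hδ).trans (g3 p hp hpm)
    · exact (Real.rpow_le_rpow_of_exponent_le hM1 hα).trans_lt g5
    · exact g6.trans (Real.rpow_le_rpow_of_exponent_le hM1 hβ)
  · norm_num
  · exact le_rfl

lemma model_mono {M : ℕ} {f g : ℕ → ℝ} (h : ∀ m, f m ≤ g m) : model M f ≤ model M g := by
  unfold model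
  refine sum_le_sum fun m _ => ?_
  exact div_le_div_of_nonneg_right (h m) (by positivity)

end MAINAM

open MAINAM in
theorem specMAINA (hDIAG : SpecDIAG) (hUNIX : SpecUNIX) (hFINA : SpecFINA) (hMDEA : SpecMDEA) :
    SpecMAINA := by
  obtain ⟨f, hf⟩ := exists_surjective_nat Idx
  have hpos : ∀ (A : ℕ) (B : ℝ), 3 ≤ A → 0 ≤ (A : ℝ) / (Real.log A) ^ B := by
    intro A B hA
    have h1 := MAINUM.one_le_log hA
    have h2 : 0 < (Real.log A) ^ B := Real.rpow_pos_of_pos (by linarith) _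
    positivity
  obtain ⟨E, hE, hP⟩ := hDIAG (fun m a => Pr (f m) a) (by
    intro m B hB
    generalize f m = i
    by_cases h1 : Par (i.2 0) (i.2 2) (i.2 3) (i.2 4) (i.2 5) (i.2 6) ∧
      Near i.1 (i.2 2) (i.2 3) (i.2 4) (i.2 5) (((i.2 6 : ℚ) : ℝ) / 8) ∧
      1 < ((i.2 1 : ℚ) : ℝ) ∧ ((i.2 1 : ℚ) : ℝ) * ((i.2 0 : ℚ) : ℝ) < 1
    · obtain ⟨g1, g2, g3, g4⟩ := h1
      obtain ⟨η, hη0, hη1, hF⟩ := hFINA i.1 _ _ _ _ _ _ g1 g2
      obtain ⟨A₀, hA₀⟩ := hUNIX (fun N a h => Fm i.1 (i.2 2) (i.2 3) (i.2 4) (i.2 5) (i.2 6) N a h)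
        (i.2 0) η (i.2 1) g1.1 g1.2.1 hη0 hη1 g3 g4 hF B hB
      refine ⟨A₀, fun A hA => le_trans (UNIM.exc_mono A ?_) (hA₀ A hA)⟩
      intro a _ h1 h2 _ _ _ _
      exact h1 h2
    · refine ⟨3, fun A hA => ?_⟩
      rw [UNIM.exc_zero A (fun a _ _ g1 g2 g3 g4 => absurd ⟨g1, g2, g3, g4⟩ h1)]
      exact hpos A B hA)
  have hP' : ∀ i : Idx, ∃ a₀ : ℝ, ∀ a : ℤ, a ∉ E → a₀ ≤ |(a : ℝ)| → Pr i a := by
    intro i
    obtain ⟨m, rfl⟩ := hf i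
    exact hP m
  refine ⟨E, hE, fun k θ δ α β ε hθ hθ1 hδ hδ1 hα hθα hαβ hβ hε => ?_⟩
  obtain ⟨ε₀, hε0, hε1⟩ := exists_rat_btwn hε
  have hε0' : (0 : ℝ) < ε₀ := by exact_mod_cast hε0
  obtain ⟨e₀, he₀, hMD⟩ := hMDEA k δ α β (ε₀ / 8) hδ hδ1 hα hαβ hβ (by positivity)
  obtain ⟨e, he0, he1⟩ : ∃ e : ℚ, (0 : ℝ) < e ∧ (e : ℝ) < min (min (min e₀ (δ / 4)) (min ((1 / 10 - δ) / 4)
      ((α - 2 / 3) / 4))) (min (min ((θ + α - 3 / 2) / 12) ((β - α) / 8)) ((1 - β) / 4)) := by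
    obtain ⟨e, h1, h2⟩ := exists_rat_btwn (show (0 : ℝ) < min (min (min e₀ (δ / 4)) (min ((1 / 10 - δ) / 4)
      ((α - 2 / 3) / 4))) (min (min ((θ + α - 3 / 2) / 12) ((β - α) / 8)) ((1 - β) / 4)) by
        refine lt_min (lt_min (lt_min he₀ ?_) (lt_min ?_ ?_)) (lt_min (lt_min ?_ ?_) ?_) <;> linarith)
    exact ⟨e, by exact_mod_cast h1, h2⟩
  simp only [lt_min_iff] at he1
  obtain ⟨⟨⟨e1, e2⟩, e3, e4⟩, ⟨e5, e6⟩, e7⟩ := he1
  obtain ⟨δ₀, d1, d2⟩ := exists_rat_btwn (show δ - e < δ by linarith)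
  obtain ⟨α₀, a1, a2⟩ := exists_rat_btwn (show α - e < α by linarith)
  obtain ⟨β₀, b1, b2⟩ := exists_rat_btwn (show β - e < β by linarith)
  obtain ⟨θ₀, t1, t2⟩ := exists_rat_btwn (show max (1 / 2) (θ - (θ + α - 3 / 2) / 4) < θ from
    max_lt hθ (by linarith))
  have t3 : 1 / 2 < (θ₀ : ℝ) := (le_max_left _ _).trans_lt t1
  have t4 : θ - (θ + α - 3 / 2) / 4 < (θ₀ : ℝ) := (le_max_right _ _).trans_lt t1
  have hθ0 : 0 < θ := by linarith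
  have hθ00 : (0 : ℝ) < θ₀ := by linarith
  obtain ⟨τ, u1, u2⟩ := exists_rat_btwn (show 1 / θ < 1 / (θ₀ : ℝ) from
    one_div_lt_one_div_of_lt hθ00 t2)
  have u3 : (1 : ℝ) ≤ 1 / θ := by
    rw [le_div_iff₀ hθ0]
    linarith
  have u4 : (τ : ℝ) * θ₀ < 1 := by
    rw [lt_div_iff₀ hθ00] at u2
    exact u2
  obtain ⟨a₁, ha₁⟩ := hP' (k, ![θ₀, τ, δ₀, α₀, β₀, e, ε₀])
  refine ⟨max a₁ 2, fun a haE ha => ?_⟩
  have h1 := ha₁ a haE ((le_max_left _ _).trans ha)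
  have ha2 : (2 : ℝ) ≤ |(a : ℝ)| := (le_max_right _ _).trans ha
  have hPar : Par θ₀ δ₀ α₀ β₀ e ε₀ := by
    refine ⟨t3, by linarith, he0, by linarith, by linarith, by linarith, by linarith, by linarith,
      by linarith, hε0'⟩
  have hNear : Near k δ₀ α₀ β₀ e ((ε₀ : ℝ) / 8) := by
    obtain ⟨M₀, hM₀⟩ := hMD e he0 e1.le
    refine ⟨max M₀ 1, fun M hM => ?_⟩
    have g1 := hM₀ M ((le_max_left _ _).trans hM)
    have g2 : 1 ≤ M := (le_max_right _ _).trans hM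
    refine (model_mono (EInd_mono g2 (by linarith) (by linarith) (by linarith))).trans
      (g1.trans (add_le_add (model_mono (EInd_mono g2 (by linarith) (by linarith) (by linarith))) le_rfl))
  obtain ⟨h, hh, hI, hN⟩ := h1 hPar hNear (show (1 : ℝ) < (τ : ℝ) by linarith) u4
  refine ⟨h, hh, hI, fun N hN1 hN2 => ?_⟩
  have h2 := hN N hN1 (hN2.trans (Real.rpow_le_rpow_of_exponent_le (by linarith) u1.le)) δ α β
    (show |δ - (δ₀ : ℝ)| ≤ e by rw [abs_le]; constructor <;> linarith)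
    (show |α - (α₀ : ℝ)| ≤ e by rw [abs_le]; constructor <;> linarith)
    (show |β - (β₀ : ℝ)| ≤ e by rw [abs_le]; constructor <;> linarith)
  refine h2.trans ?_
  have h3 : 0 ≤ (N : ℝ) / Real.log N := div_nonneg (Nat.cast_nonneg _) (Real.log_natCast_nonneg _)
  exact mul_le_mul_of_nonneg_right (show (ε₀ : ℝ) ≤ ε from hε1.le) (by positivity)

end Pool.Agent.Lib.MP391708.U.K
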