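import Pool.Agent.Lib.MP_391708_nt.U.K.SpecX5

/-!
# Project X5, module MAINB: both theorems with one exceptional set (helper72)
-/

set_option autoImplicit false

namespace Pool.Agent.Lib.MP391708.U.K.MAINBM

open Finset Filter Topology Pool.Agent.Lib.MP391708.QPA Pool.Agent.Lib.MP391708.QPA.H
open scoped Classical

/-- `(log N)^(1/4) ≤ N/2`. -/
theorem log_quarter (N : ℕ) : (Real.log N) ^ (1 / 4 : ℝ) ≤ (N : ℝ) / 2 := by
  rcases Nat.lt_or_ge N 2 with hN | hN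
  · interval_cases N
    · simp
    · simp
  · have hN' : (2 : ℝ) ≤ N := by exact_mod_cast hN
    have hN0 : (0 : ℝ) < N := by linarith
    have hlog0 : 0 ≤ Real.log N := Real.log_nonneg (by linarith)
    have hlog : Real.log N ≤ (N : ℝ) / 2 := by
      have h1 : Real.log N = 2 * Real.log (√(N : ℝ)) := by
        rw [Real.log_sqrt hN0.le]; ring
      have h2 : Real.log (√(N : ℝ)) ≤ √(N : ℝ) - 1 :=
        Real.log_le_sub_one_of_pos (Real.sqrt_pos.2 hN0)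
      have h3 : √(N : ℝ) * √(N : ℝ) = N := Real.mul_self_sqrt hN0.le
      nlinarith [sq_nonneg (√(N : ℝ) - 2)]
    rcases le_total (Real.log N) 1 with h | h
    · calc (Real.log N) ^ (1 / 4 : ℝ) ≤ 1 := Real.rpow_le_one hlog0 h (by norm_num)
        _ ≤ (N : ℝ) / 2 := by linarith
    · calc (Real.log N) ^ (1 / 4 : ℝ) ≤ (Real.log N) ^ (1 : ℝ) :=
            Real.rpow_le_rpow_of_exponent_le h (by norm_num)
        _ = Real.log N := Real.rpow_one _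
        _ ≤ (N : ℝ) / 2 := hlog

/-- The bound for `a`. -/
theorem abs_le {N : ℕ} {a : ℤ} (ha : |(a : ℝ)| ≤ N * (Real.log N) ^ (1 / 4 : ℝ)) :
    |(a : ℝ)| ≤ (N : ℝ) ^ 2 / 2 := by
  have h := mul_le_mul_of_nonneg_left (log_quarter N) (Nat.cast_nonneg (α := ℝ) N)
  nlinarith

/-- The size of the values. -/
theorem val_bounds {N n : ℕ} {a : ℤ} (ha : |(a : ℝ)| ≤ (N : ℝ) ^ 2 / 2) (hn : n ∈ Ioc N (2 * N)) :
    (N : ℝ) ^ 2 / 2 ≤ val a n ∧ (val a n : ℝ) ≤ 5 * (N : ℝ) ^ 2 := by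
  rw [mem_Ioc] at hn
  have h1 : (N : ℝ) ≤ n := by exact_mod_cast hn.1.le
  have h2 : (n : ℝ) ≤ 2 * N := by exact_mod_cast hn.2
  have hN : (0 : ℝ) ≤ N := Nat.cast_nonneg N
  have h3 : (N : ℝ) ^ 2 ≤ (n : ℝ) ^ 2 := by nlinarith
  have h4 : (n : ℝ) ^ 2 ≤ 4 * (N : ℝ) ^ 2 := by nlinarith
  have ha' := _root_.abs_le.1 ha
  have h5 : (val a n : ℝ) = (n : ℝ) ^ 2 + a := by
    have h0 : (0 : ℝ) ≤ (((n : ℤ) ^ 2 + a : ℤ) : ℝ) := by
      push_cast
      nlinarith [sq_nonneg (N : ℝ)]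
    have h0' : (0 : ℤ) ≤ (n : ℤ) ^ 2 + a := by exact_mod_cast h0
    have h6 : ((val a n : ℕ) : ℤ) = (n : ℤ) ^ 2 + a := by
      unfold QPA.val
      exact Int.natAbs_of_nonneg h0'
    have h7 : (((val a n : ℕ) : ℤ) : ℝ) = (((n : ℤ) ^ 2 + a : ℤ) : ℝ) := by rw [h6]
    push_cast at h7
    exact h7
  rw [h5]
  constructor
  · linarith
  · nlinarith [sq_nonneg (N : ℝ)]

end Pool.Agent.Lib.MP391708.U.K.MAINBM

namespace Pool.Agent.Lib.MP391708.U.K

open Finset Filter Topology Pool.Agent.Lib.MP391708.QPA Pool.Agent.Lib.MP391708.QPA.H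
open scoped Classical

theorem specMAINB (hMAINA : SpecMAINA) (hE2W : SpecE2W) (hE2V : SpecE2V) (hE2M : SpecE2M) :
    SpecMAINB := by
  obtain ⟨E, hE, hmain⟩ := hMAINA
  refine ⟨E, hE, hmain, ?_⟩
  intro θ α β ε hθ hθ1 hα hθα hαβ hβ hε
  have hα' : 1 / 2 < α := by linarith
  obtain ⟨a₀, h1⟩ := hmain 2 θ (1 / 20) α β (ε / 2) hθ hθ1 (by norm_num) (by norm_num) hα hθα hαβ hβ
    (by positivity)
  obtain ⟨N₂, h2⟩ := hE2M α β (ε / 2) hα' hαβ hβ (by positivity)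
  obtain ⟨N₃, h3⟩ := hE2V α β hα' hαβ hβ
  obtain ⟨N₄, h4⟩ := hE2W α β hα' hαβ hβ
  set N₀ : ℕ := max N₂ (max N₃ N₄) with hN₀
  refine ⟨max a₀ ((N₀ : ℝ) ^ 2 + 1), fun a haE ha0 => ?_⟩
  obtain ⟨h, hh0, hC, hcnt⟩ := h1 a haE (le_trans (le_max_left _ _) ha0)
  refine ⟨h, hh0, hC, fun N hN1 hN2 => ?_⟩
  have hsq := MAINBM.abs_le hN1
  have hNN : N₀ ≤ N := by
    by_contra hcon
    push Not at hcon
    have h5 : (N : ℝ) < N₀ := by exact_mod_cast hcon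
    have h6 : (N₀ : ℝ) ^ 2 + 1 ≤ |(a : ℝ)| := le_trans (le_max_right _ _) ha0
    have h7 : (0 : ℝ) ≤ N := Nat.cast_nonneg N
    nlinarith
  have hNN2 : N₂ ≤ N := le_trans (le_max_left _ _) hNN
  have hNN3 : N₃ ≤ N := le_trans (le_trans (le_max_left _ _) (le_max_right _ _)) hNN
  have hNN4 : N₄ ≤ N := le_trans (le_trans (le_max_right _ _) (le_max_right _ _)) hNN
  have e1 : cnt N a (EInd N 2 (1 / 20) α β) = cpq N a α β := by
    unfold cpq
    rw [card_filter]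
    push_cast
    unfold cnt
    refine sum_congr rfl fun n hn => ?_
    obtain ⟨b1, b2⟩ := MAINBM.val_bounds hsq hn
    rw [h4 N (val a n) hNN4 b1 b2]
    rfl
  have e2 : model N (EInd N 2 (1 / 20) α β) = model N (EInd N 2 (1 / 10) α β) := by
    unfold model
    refine sum_congr rfl fun m hm => ?_
    rw [mem_Ioc] at hm
    have b1 : (N : ℝ) ^ 2 / 2 ≤ m := by
      have : ((N ^ 2 : ℕ) : ℝ) ≤ m := by exact_mod_cast hm.1.le
      push_cast at this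
      nlinarith [sq_nonneg (N : ℝ)]
    have b2 : (m : ℝ) ≤ 5 * (N : ℝ) ^ 2 := by
      have : (m : ℝ) ≤ ((4 * N ^ 2 : ℕ) : ℝ) := by exact_mod_cast hm.2
      push_cast at this
      nlinarith [sq_nonneg (N : ℝ)]
    rw [h3 N m hNN3 b1 b2, h4 N m hNN4 b1 b2]
  have hc := hcnt N hN1 hN2
  rw [e1, e2] at hc
  have hm := h2 N hNN2
  set m := model N (EInd N 2 (1 / 10) α β)
  set c := 1 / 2 * Real.log (β * (2 - α) / (α * (2 - β)))
  set x := (N : ℝ) / Real.log N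
  have e3 : cpq N a α β - c * (h * x) = (cpq N a α β - h * m) + h * (m - c * x) := by ring
  rw [e3]
  refine (abs_add_le _ _).trans ?_
  rw [abs_mul, abs_of_pos hh0]
  have h5 : h * |m - c * x| ≤ h * (ε / 2 * x) := mul_le_mul_of_nonneg_left hm hh0.le
  nlinarith

end Pool.Agent.Lib.MP391708.U.K
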