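import Pool.Agent.Lib.MP_391708_nt.U.K.SpecX5
import Pool.Agent.Lib.MP_391708_nt.QPA.WINM

/-!
# MDEA: the model of the types near a type
-/

set_option autoImplicit false

namespace Pool.Agent.Lib.MP391708.U.K

open Finset Filter Topology Pool.Agent.Lib.MP391708.QPA Pool.Agent.Lib.MP391708.QPA.H
open scoped Classical

noncomputable section

namespace MDEAM

/-- `m` has a prime divisor in `[N^(δ-e), N^(δ+e)]` -/
def PW (N : ℕ) (x e : ℝ) (m : ℕ) : Prop := ∃ p : ℕ, p.Prime ∧ p ∣ m ∧ (N : ℝ) ^ (x - e) ≤ p ∧ (p : ℝ) ≤ (N : ℝ) ^ (x + e)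

theorem rough_mono {z z' : ℝ} {m : ℕ} (h : z' ≤ z) (hr : Rough z m) : Rough z' m :=
  fun p hp hpm => h.trans (hr p hp hpm)

/-- for one divisor -/
theorem one_j (hBT : SpecBT) : ∃ C : ℝ, 0 < C ∧ ∀ e0 : ℝ, 0 < e0 → e0 ≤ 1 / 10 → ∃ N₀ : ℕ, ∀ N : ℕ, N₀ ≤ N →
    ∀ j : ℕ, 1 ≤ j → j ≤ 3 * N →
      (((Ioc (N ^ 2) (4 * N ^ 2)).filter (fun m => j ∣ m ∧ Rough ((N : ℝ) ^ e0) (m / j))).card : ℝ)
        ≤ C * (N : ℝ) ^ 2 / (e0 * Real.log N) * (1 / j) := by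
  obtain ⟨C, hC, hB⟩ := hBT
  refine ⟨9 * C, by positivity, ?_⟩
  intro e0 he0 he0'
  obtain ⟨N₂, hN₂⟩ := NSFM.eventually_rpow (9 / 10) 1 (by norm_num) (by norm_num)
  have ht : Tendsto (fun N : ℕ => (N : ℝ)) atTop atTop := tendsto_natCast_atTop_atTop
  have hev : ∀ᶠ N : ℕ in atTop, 2 ≤ (N : ℝ) ^ (e0 / 2) :=
    ht.eventually ((tendsto_rpow_atTop (by positivity)).eventually_ge_atTop _)
  obtain ⟨N₃, hN₃⟩ := eventually_atTop.1 hev
  refine ⟨max N₂ (max N₃ 3), fun N hN j hj1 hj2 => ?_⟩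
  have hNN2 : N₂ ≤ N := (le_max_left _ _).trans hN
  have hNN3 : N₃ ≤ N := ((le_max_left _ _).trans (le_max_right _ _)).trans hN
  have hN3 : 3 ≤ N := ((le_max_right _ _).trans (le_max_right _ _)).trans hN
  have h2 := hN₂ N hNN2
  have h3 := hN₃ N hNN3
  have hN3' : (3 : ℝ) ≤ N := by exact_mod_cast hN3
  have hNp : (0 : ℝ) < N := by linarith
  have hN1 : (1 : ℝ) < N := by linarith
  have hlogp : 0 < Real.log N := Real.log_pos hN1
  set z : ℝ := (N : ℝ) ^ e0 with hz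
  have hjp : (0 : ℝ) < j := by exact_mod_cast hj1
  have hj3 : (j : ℝ) ≤ 3 * N := by exact_mod_cast hj2
  have h4 := WINM.one z (N ^ 2) (4 * N ^ 2) j hj1 (by omega)
  have h5 := hB ((N : ℝ) ^ (e0 / 2)) z 1 0 (N ^ 2 / j) (4 * N ^ 2 / j - N ^ 2 / j) h3
    (Real.rpow_lt_rpow_of_exponent_lt hN1 (by linarith)) le_rfl
  have h6 : Real.log ((N : ℝ) ^ (e0 / 2)) = e0 / 2 * Real.log N := Real.log_rpow hNp _
  have h7 : ((N : ℝ) ^ (e0 / 2)) ^ 2 = z := by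
    rw [hz, ← Real.rpow_natCast, ← Real.rpow_mul hNp.le]
    congr 1
    push_cast
    ring
  rw [h6, h7] at h5
  have h8 : (((4 * N ^ 2 / j - N ^ 2 / j : ℕ)) : ℝ) ≤ 4 * (N : ℝ) ^ 2 / j := by
    calc (((4 * N ^ 2 / j - N ^ 2 / j : ℕ)) : ℝ) ≤ ((4 * N ^ 2 / j : ℕ) : ℝ) := by
          exact_mod_cast Nat.sub_le _ _
      _ ≤ ((4 * N ^ 2 : ℕ) : ℝ) / j := Nat.cast_div_le
      _ = _ := by push_cast; ring
  have h9 : z ≤ (N : ℝ) ^ 2 / (e0 * Real.log N) * (1 / j) := by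
    rw [div_mul_div_comm, mul_one, le_div_iff₀ (by positivity)]
    have hz' : z ≤ (N : ℝ) ^ (1 / 10 : ℝ) := Real.rpow_le_rpow_of_exponent_le hN1.le he0'
    calc z * (e0 * Real.log N * j)
        ≤ (N : ℝ) ^ (1 / 10 : ℝ) * (1 / 10 * (1 * (N : ℝ) ^ (9 / 10 : ℝ)) * (3 * N)) := by
          gcongr
      _ = 3 / 10 * ((N : ℝ) ^ (1 / 10 : ℝ) * (N : ℝ) ^ (9 / 10 : ℝ)) * N := by ring
      _ = 3 / 10 * (N : ℝ) ^ 2 := by
          rw [← Real.rpow_add hNp]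
          norm_num
          ring
      _ ≤ (N : ℝ) ^ 2 := by nlinarith [sq_nonneg (N : ℝ)]
  calc (((Ioc (N ^ 2) (4 * N ^ 2)).filter (fun m => j ∣ m ∧ Rough z (m / j))).card : ℝ)
      ≤ (((Ioc (N ^ 2 / j) (N ^ 2 / j + (4 * N ^ 2 / j - N ^ 2 / j))).filter
          (fun u => u % 1 = 0 ∧ Rough z u)).card : ℝ) := by exact_mod_cast h4
    _ ≤ C * ((4 * N ^ 2 / j - N ^ 2 / j : ℕ) : ℝ) / (((1 : ℕ).totient : ℝ)
          * (e0 / 2 * Real.log N)) + C * z := h5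
    _ ≤ C * (4 * (N : ℝ) ^ 2 / j) / (1 * (e0 / 2 * Real.log N))
          + C * ((N : ℝ) ^ 2 / (e0 * Real.log N) * (1 / j)) := by
        rw [Nat.totient_one, Nat.cast_one]
        gcongr
    _ = 9 * C * (N : ℝ) ^ 2 / (e0 * Real.log N) * (1 / j) := by
        field_simp
        ring

/-- the sum over the primes of a window -/
theorem psum (hR : SpecRSUM) : ∃ C : ℝ, 0 < C ∧ ∀ e0 x e : ℝ, 0 < e0 → 0 < e → e0 ≤ x - e → x + e ≤ 1 →
    ∃ N₀ : ℕ, ∀ N : ℕ, N₀ ≤ N →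
    ∑ j ∈ (Icc 1 (3 * N)).filter (fun j : ℕ => j.Prime ∧ (N : ℝ) ^ (x - e) ≤ j ∧ (j : ℝ) ≤ (N : ℝ) ^ (x + e)),
      1 / (j : ℝ) ≤ C * (e / e0) := by
  obtain ⟨C, hC, h⟩ := hR
  refine ⟨3 * C, by positivity, ?_⟩
  intro e0 x e he0 he hx1 hx2
  have ht : Tendsto (fun N : ℕ => (N : ℝ)) atTop atTop := tendsto_natCast_atTop_atTop
  have hev : ∀ᶠ N : ℕ in atTop, 1 / e ≤ Real.log N ∧ 2 ≤ (N : ℝ) ^ e0 ∧ (2 : ℝ) ≤ N := by
    refine Eventually.and (ht.eventually (Real.tendsto_log_atTop.eventually_ge_atTop _))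
      (Eventually.and (ht.eventually ((tendsto_rpow_atTop he0).eventually_ge_atTop _))
          (ht.eventually_ge_atTop _))
  obtain ⟨N₀, hN₀⟩ := eventually_atTop.1 hev
  refine ⟨N₀, fun N hN => ?_⟩
  obtain ⟨hlog, hz2, hN2⟩ := hN₀ N hN
  have hNp : (0 : ℝ) < N := by linarith
  have hN1 : (1 : ℝ) ≤ N := by linarith
  have hlogp : 0 < Real.log N := lt_of_lt_of_le (by positivity) hlog
  have hel : 1 ≤ e * Real.log N := by
    rw [div_le_iff₀ he] at hlog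
    linarith
  have hlz : Real.log ((N : ℝ) ^ e0) = e0 * Real.log N := Real.log_rpow hNp _
  have h1 := h ((N : ℝ) ^ e0) ((N : ℝ) ^ (x - e)) ((N : ℝ) ^ (x + e)) hz2
    (Real.rpow_le_rpow_of_exponent_le hN1 hx1)
    (Real.rpow_le_rpow_of_exponent_le hN1 (by linarith))
  have hl1 : Real.log ((N : ℝ) ^ (x + e) / (N : ℝ) ^ (x - e)) = 2 * e * Real.log N := by
    rw [← Real.rpow_sub hNp, Real.log_rpow hNp]; ring
  rw [hl1, hlz] at h1
  have hzx : (N : ℝ) ^ e0 ≤ (N : ℝ) ^ (x - e) := Real.rpow_le_rpow_of_exponent_le hN1 hx1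
  calc ∑ j ∈ (Icc 1 (3 * N)).filter (fun j : ℕ => j.Prime ∧ (N : ℝ) ^ (x - e) ≤ j ∧ (j : ℝ) ≤ (N : ℝ) ^ (x + e)), 1 / (j : ℝ)
      = ∑ j ∈ (Icc 1 (3 * N)).filter (fun j : ℕ => j.Prime ∧ (N : ℝ) ^ (x - e) ≤ j ∧ (j : ℝ) ≤ (N : ℝ) ^ (x + e)),
        rInd ((N : ℝ) ^ e0) j / (j : ℝ) := by
        refine sum_congr rfl fun j hj => ?_
        rw [mem_filter] at hj
        obtain ⟨_, hjp, hj1, hj2⟩ := hj
        have : Rough ((N : ℝ) ^ e0) j := by
          intro p hp hpj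
          have : p = j := (Nat.prime_dvd_prime_iff_eq hp hjp).1 hpj
          rw [this]
          exact hzx.trans hj1
        unfold rInd
        rw [if_pos this]
    _ ≤ ∑ j ∈ Icc ⌈(N : ℝ) ^ (x - e)⌉₊ ⌊(N : ℝ) ^ (x + e)⌋₊, rInd ((N : ℝ) ^ e0) j / (j : ℝ) := by
        refine sum_le_sum_of_subset_of_nonneg ?_ ?_
        · intro j hj
          rw [mem_filter] at hj
          obtain ⟨_, hjp, hj1, hj2⟩ := hj
          rw [mem_Icc]
          exact ⟨Nat.ceil_le.2 hj1, Nat.le_floor hj2⟩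
        · intro j _ _
          unfold rInd
          split_ifs <;> positivity
    _ ≤ C * (2 * e * Real.log N + 1) / (e0 * Real.log N) := h1
    _ ≤ 3 * C * (e / e0) := by
        rw [div_le_iff₀ (by positivity)]
        have : 3 * C * (e / e0) * (e0 * Real.log N) = 3 * C * (e * Real.log N) := by
          field_simp
        rw [this]
        nlinarith

/-- the model of the rough integers with a prime divisor in a window -/
theorem pmodel (hBT : SpecBT) (hR : SpecRSUM) : ∃ C : ℝ, 0 < C ∧ ∀ e0 x e : ℝ, 0 < e0 → e0 ≤ 1 / 10 → 0 < e →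
    e0 ≤ x - e → x + e ≤ 1 → ∃ N₀ : ℕ, ∀ N : ℕ, N₀ ≤ N →
      model N (fun m => if Rough ((N : ℝ) ^ e0) m ∧ PW N x e m then 1 else 0) ≤ C * (e / e0 ^ 2) * N / Real.log N := by
  obtain ⟨C, hC, hB⟩ := one_j hBT
  obtain ⟨C', hC', hP⟩ := psum hR
  refine ⟨C * C' / 2, by positivity, ?_⟩
  intro e0 x e he0 he0' he hx1 hx2
  obtain ⟨N₁, hN₁⟩ := hB e0 he0 he0'
  obtain ⟨N₂, hN₂⟩ := hP e0 x e he0 he hx1 hx2
  refine ⟨max (max N₁ N₂) 3, fun N hN => ?_⟩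
  have hNN1 : N₁ ≤ N := ((le_max_left _ _).trans (le_max_left _ _)).trans hN
  have hNN2 : N₂ ≤ N := ((le_max_right _ _).trans (le_max_left _ _)).trans hN
  have hN3 : 3 ≤ N := (le_max_right _ _).trans hN
  have hN3' : (3 : ℝ) ≤ N := by exact_mod_cast hN3
  have hNp : (0 : ℝ) < N := by linarith
  have hN1 : (1 : ℝ) < N := by linarith
  have hlogp : 0 < Real.log N := Real.log_pos hN1
  set S := (Icc 1 (3 * N)).filter (fun j : ℕ => j.Prime ∧ (N : ℝ) ^ (x - e) ≤ j ∧ (j : ℝ) ≤ (N : ℝ) ^ (x + e)) with hS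
  have hcard : ((Ioc (N ^ 2) (4 * N ^ 2)).filter (fun m => Rough ((N : ℝ) ^ e0) m ∧ PW N x e m)).card
      ≤ ∑ j ∈ S, ((Ioc (N ^ 2) (4 * N ^ 2)).filter (fun m => j ∣ m ∧ Rough ((N : ℝ) ^ e0) (m / j))).card := by
    refine le_trans (card_le_card ?_) card_biUnion_le
    intro m hm
    simp only [mem_filter, mem_Ioc, mem_biUnion] at hm ⊢
    obtain ⟨⟨hm1, hm2⟩, hr, p, hp, hpm, hp1, hp2⟩ := hm
    refine ⟨p, ?_, ⟨hm1, hm2⟩, hpm, ?_⟩
    · rw [hS, mem_filter, mem_Icc]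
      refine ⟨⟨hp.one_lt.le, ?_⟩, hp, hp1, hp2⟩
      have h1 : (p : ℝ) ≤ N := hp2.trans (by
        calc (N : ℝ) ^ (x + e) ≤ (N : ℝ) ^ (1 : ℝ) := Real.rpow_le_rpow_of_exponent_le hN1.le hx2
          _ = N := Real.rpow_one _)
      have h2 : p ≤ N := by exact_mod_cast h1
      omega
    · obtain ⟨l, rfl⟩ := hpm
      rw [Nat.mul_div_cancel_left l hp.pos]
      exact WINM.rough_dvd _ _ _ hr (dvd_mul_left l p)
  calc model N (fun m => if Rough ((N : ℝ) ^ e0) m ∧ PW N x e m then 1 else 0)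
      ≤ (((Ioc (N ^ 2) (4 * N ^ 2)).filter (fun m => Rough ((N : ℝ) ^ e0) m ∧ PW N x e m)).card : ℝ) / (2 * N) := by
        have hm := NSFM.model_le N (by omega) (fun m => Rough ((N : ℝ) ^ e0) m ∧ PW N x e m)
        convert hm
    _ ≤ (∑ j ∈ S, C * (N : ℝ) ^ 2 / (e0 * Real.log N) * (1 / (j : ℝ))) / (2 * N) := by
        gcongr
        calc (((Ioc (N ^ 2) (4 * N ^ 2)).filter (fun m => Rough ((N : ℝ) ^ e0) m ∧ PW N x e m)).card : ℝ)
            ≤ ∑ j ∈ S, (((Ioc (N ^ 2) (4 * N ^ 2)).filter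
                (fun m => j ∣ m ∧ Rough ((N : ℝ) ^ e0) (m / j))).card : ℝ) := by exact_mod_cast hcard
          _ ≤ _ := by
              refine sum_le_sum fun j hj => ?_
              rw [hS, mem_filter, mem_Icc] at hj
              exact hN₁ N hNN1 j hj.1.1 hj.1.2
    _ = C * (N : ℝ) ^ 2 / (e0 * Real.log N) * (∑ j ∈ S, 1 / (j : ℝ)) / (2 * N) := by
        rw [mul_sum]
    _ ≤ C * (N : ℝ) ^ 2 / (e0 * Real.log N) * (C' * (e / e0)) / (2 * N) := by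
        gcongr
        exact hN₂ N hNN2
    _ = C * C' / 2 * (e / e0 ^ 2) * N / Real.log N := by
        field_simp

theorem model_add (N : ℕ) (f g : ℕ → ℝ) : model N (fun m => f m + g m) = model N f + model N g := by
  unfold model
  rw [← sum_add_distrib]
  refine sum_congr rfl fun m _ => ?_
  ring

theorem model_mono (N : ℕ) (f g : ℕ → ℝ) (h : ∀ m, f m ≤ g m) : model N f ≤ model N g := by
  unfold model
  refine sum_le_sum fun m _ => ?_
  have := h m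
  gcongr

/-- pointwise comparison -/
theorem pointwise (M k : ℕ) (δ α β e : ℝ) (hM : (1 : ℝ) ≤ M) (he : δ / 2 ≤ δ - 3 * e) (m : ℕ) :
    EInd M k (δ - 3 * e) (α - 3 * e) (β + 3 * e) m ≤
      ((EInd M k (δ + 3 * e) (α + 3 * e) (β - 3 * e) m
        + (if Rough ((M : ℝ) ^ (δ / 2)) m ∧ Win M α (3 * e) m then 1 else 0))
        + (if Rough ((M : ℝ) ^ (δ / 2)) m ∧ Win M β (3 * e) m then 1 else 0))
        + (if Rough ((M : ℝ) ^ (δ / 2)) m ∧ PW M δ (3 * e) m then 1 else 0) := by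
  have hE : 0 ≤ EInd M k (δ + 3 * e) (α + 3 * e) (β - 3 * e) m := by
    unfold EInd
    split_ifs <;> norm_num
  have h0 : ∀ (P : Prop) [Decidable P], (0 : ℝ) ≤ if P then 1 else 0 := fun P _ => by split_ifs <;> norm_num
  have hA := h0 (Rough ((M : ℝ) ^ (δ / 2)) m ∧ Win M α (3 * e) m)
  have hB := h0 (Rough ((M : ℝ) ^ (δ / 2)) m ∧ Win M β (3 * e) m)
  have hC := h0 (Rough ((M : ℝ) ^ (δ / 2)) m ∧ PW M δ (3 * e) m)
  by_cases h : Squarefree m ∧ m.primeFactors.card = k ∧ Rough ((M : ℝ) ^ (δ - 3 * e)) m ∧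
    ∃ d : ℕ, d ∣ m ∧ (M : ℝ) ^ (α - 3 * e) < d ∧ (d : ℝ) ≤ (M : ℝ) ^ (β + 3 * e)
  · have h1 : EInd M k (δ - 3 * e) (α - 3 * e) (β + 3 * e) m = 1 := by
      unfold EInd
      rw [if_pos h]
    obtain ⟨hsq, hk, hr, d, hdm, hd1, hd2⟩ := h
    have hr2 : Rough ((M : ℝ) ^ (δ / 2)) m :=
      rough_mono (Real.rpow_le_rpow_of_exponent_le hM he) hr
    rw [h1]
    by_cases hr3 : Rough ((M : ℝ) ^ (δ + 3 * e)) m
    · by_cases hd3 : (M : ℝ) ^ (α + 3 * e) < d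
      · by_cases hd4 : (d : ℝ) ≤ (M : ℝ) ^ (β - 3 * e)
        · have h2 : EInd M k (δ + 3 * e) (α + 3 * e) (β - 3 * e) m = 1 := by
            unfold EInd
            rw [if_pos ⟨hsq, hk, hr3, d, hdm, hd3, hd4⟩]
          linarith
        · push Not at hd4
          have h2 : (if Rough ((M : ℝ) ^ (δ / 2)) m ∧ Win M β (3 * e) m then (1 : ℝ) else 0) = 1 :=
            if_pos ⟨hr2, d, hdm, hd4.le, hd2⟩
          linarith
      · push Not at hd3
        have h2 : (if Rough ((M : ℝ) ^ (δ / 2)) m ∧ Win M α (3 * e) m then (1 : ℝ) else 0) = 1 :=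
          if_pos ⟨hr2, d, hdm, hd1.le, hd3⟩
        linarith
    · have h2 : (if Rough ((M : ℝ) ^ (δ / 2)) m ∧ PW M δ (3 * e) m then (1 : ℝ) else 0) = 1 := by
        refine if_pos ⟨hr2, ?_⟩
        unfold Rough at hr3
        push Not at hr3
        obtain ⟨p, hp, hpm, hpz⟩ := hr3
        exact ⟨p, hp, hpm, hr p hp hpm, hpz.le⟩
      linarith
  · have h1 : EInd M k (δ - 3 * e) (α - 3 * e) (β + 3 * e) m = 0 := by
      unfold EInd
      rw [if_neg h]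
    rw [h1]
    linarith

end MDEAM

theorem specMDEA (hBT : SpecBT) (hR : SpecRSUM) (hW : SpecWINM) : SpecMDEA := by
  obtain ⟨C, hC, hP⟩ := MDEAM.pmodel hBT hR
  obtain ⟨D, hD, hW⟩ := hW
  intro k δ α β ε hδ hδ' hα hαβ hβ hε
  set K : ℝ := 12 * (C + 2 * D) / δ ^ 2 with hK
  have hKp : 0 < K := by positivity
  refine ⟨min (δ / 6) (min (1 / 30) (ε / K)), by positivity, ?_⟩
  intro e he he'
  have he1 : e ≤ δ / 6 := he'.trans (min_le_left _ _)
  have he2 : e ≤ 1 / 30 := he'.trans ((min_le_right _ _).trans (min_le_left _ _))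
  have he3 : e ≤ ε / K := he'.trans ((min_le_right _ _).trans (min_le_right _ _))
  obtain ⟨N₁, hN₁⟩ := hP (δ / 2) δ (3 * e) (by positivity) (by linarith) (by positivity) (by linarith) (by linarith)
  obtain ⟨N₂, hN₂⟩ := hW (δ / 2) (3 * e) (by positivity) (by linarith) (by positivity) (by linarith)
  refine ⟨max (max N₁ N₂) 3, fun M hM => ?_⟩
  have hMM1 : N₁ ≤ M := ((le_max_left _ _).trans (le_max_left _ _)).trans hM
  have hMM2 : N₂ ≤ M := ((le_max_right _ _).trans (le_max_left _ _)).trans hM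
  have hM3 : 3 ≤ M := (le_max_right _ _).trans hM
  have hM3' : (3 : ℝ) ≤ M := by exact_mod_cast hM3
  have hMp : (0 : ℝ) < M := by linarith
  have hlogp : 0 < Real.log M := Real.log_pos (by linarith)
  have h1 := hN₁ M hMM1
  have h2 := hN₂ M hMM2 α (by linarith) (by linarith)
  have h3 := hN₂ M hMM2 β (by linarith) (by linarith)
  have h4 := MDEAM.model_mono M _ _ (MDEAM.pointwise M k δ α β e (by linarith) (by linarith))
  rw [MDEAM.model_add, MDEAM.model_add, MDEAM.model_add] at h4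
  have h5 : C * (3 * e / (δ / 2) ^ 2) * M / Real.log M + 2 * (D * (3 * e / (δ / 2) ^ 2) * M / Real.log M)
      = K * e * (M / Real.log M) := by
    rw [hK]
    field_simp
    ring
  have h6 : K * e ≤ ε := by
    rw [le_div_iff₀ hKp] at he3
    linarith
  have h7 : K * e * (M / Real.log M) ≤ ε * (M / Real.log M) := by gcongr
  linarith

end

end Pool.Agent.Lib.MP391708.U.K
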