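import Pool.Agent.Lib.MP_391708_nt.U.K.SpecX5
import Pool.Agent.Lib.MP_391708_nt.QPA.H.FINE

/-!
# MDEB: the model sums of rough numbers, upper bound and comparison of two scales
-/

set_option autoImplicit false

namespace Pool.Agent.Lib.MP391708.U.K

open Finset Filter Topology Pool.Agent.Lib.MP391708.QPA Pool.Agent.Lib.MP391708.QPA.H
open scoped Classical

noncomputable section

namespace MDEBM

/-- a short sum -/
theorem short {C : ℝ} (hC : 0 < C) (hB : ∀ (y z : ℝ) (q c x H : ℕ), 2 ≤ y → y < z → 1 ≤ q →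
    (((Ioc x (x + H)).filter (fun u => u % q = c ∧ Rough z u)).card : ℝ)
      ≤ C * H / ((q.totient : ℝ) * Real.log y) + C * y ^ 2) {δ η : ℝ} (hδ : 0 < δ)
    (hη : 0 < η) {M x y : ℕ} (hM : 3 ≤ M) (hp : 2 ≤ (M : ℝ) ^ (δ / 2))
    (hp2 : (M : ℝ) ^ δ ≤ η * (M : ℝ) ^ 2 / Real.log M) (hx : M ^ 2 ≤ x) (hxy : x ≤ y)
    (hy : ((y - x : ℕ) : ℝ) ≤ 10 * η * (M : ℝ) ^ 2) {f : ℕ → ℝ}
    (hf : ∀ m, f m ≤ rInd ((M : ℝ) ^ δ) m) :
    ∑ m ∈ Ioc x y, f m / (2 * √(m : ℝ)) ≤ C * (10 / δ + 1 / 2) * η * (M / Real.log M) := by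
  have hM3 : (3 : ℝ) ≤ M := by exact_mod_cast hM
  have hM0 : (0 : ℝ) < M := by linarith
  have hM1 : (1 : ℝ) < M := by linarith
  have hlog : 0 < Real.log M := Real.log_pos hM1
  obtain ⟨H, rfl⟩ := Nat.exists_eq_add_of_le hxy
  rw [Nat.add_sub_cancel_left] at hy
  have h4 := hB ((M : ℝ) ^ (δ / 2)) ((M : ℝ) ^ δ) 1 0 x H hp
    (Real.rpow_lt_rpow_of_exponent_lt hM1 (by linarith)) le_rfl
  rw [Real.log_rpow hM0, Nat.totient_one] at h4
  have h6 : ((M : ℝ) ^ (δ / 2)) ^ 2 = (M : ℝ) ^ δ := by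
    rw [← Real.rpow_natCast, ← Real.rpow_mul hM0.le]
    congr 1
    push_cast
    ring
  rw [h6] at h4
  have h7 : ∑ m ∈ Ioc x (x + H), f m / (2 * √(m : ℝ))
      ≤ ∑ m ∈ Ioc x (x + H), rInd ((M : ℝ) ^ δ) m / (2 * M) := by
    refine sum_le_sum fun m hm => ?_
    rw [mem_Ioc] at hm
    have h8 : ((M : ℝ)) ^ 2 ≤ m := by
      have : M ^ 2 ≤ m := hx.trans hm.1.le
      exact_mod_cast this
    have h9 : (M : ℝ) ≤ √(m : ℝ) := Real.le_sqrt_of_sq_le h8
    have h10 : 0 ≤ rInd ((M : ℝ) ^ δ) m := by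
      unfold rInd
      split_ifs <;> norm_num
    calc f m / (2 * √(m : ℝ)) ≤ rInd ((M : ℝ) ^ δ) m / (2 * √(m : ℝ)) :=
          div_le_div_of_nonneg_right (hf m) (by positivity)
      _ ≤ rInd ((M : ℝ) ^ δ) m / (2 * M) :=
          div_le_div_of_nonneg_left h10 (by positivity) (by linarith)
  have h8 : ∑ m ∈ Ioc x (x + H), rInd ((M : ℝ) ^ δ) m / (2 * M)
      = (((Ioc x (x + H)).filter (fun u => u % 1 = 0 ∧ Rough ((M : ℝ) ^ δ) u)).card : ℝ)
        / (2 * M) := by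
    rw [← sum_div]
    congr 1
    rw [card_eq_sum_ones, Nat.cast_sum, sum_filter]
    refine sum_congr rfl fun m _ => ?_
    unfold rInd
    simp [Nat.mod_one]
  rw [h8] at h7
  refine h7.trans ?_
  rw [div_le_iff₀ (by positivity)]
  refine h4.trans ?_
  calc C * (H : ℝ) / (((1 : ℕ) : ℝ) * (δ / 2 * Real.log M)) + C * (M : ℝ) ^ δ
      ≤ C * (10 * η * (M : ℝ) ^ 2) / (((1 : ℕ) : ℝ) * (δ / 2 * Real.log M))
        + C * (η * (M : ℝ) ^ 2 / Real.log M) := by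
        have : 0 < ((1 : ℕ) : ℝ) * (δ / 2 * Real.log M) := by
          rw [Nat.cast_one, one_mul]
          positivity
        gcongr
    _ = C * (10 / δ + 1 / 2) * η * (M / Real.log M) * (2 * M) := by
        rw [Nat.cast_one, one_mul]
        field_simp

end MDEBM

open MDEBM in
theorem specMDEB (hBT : SpecBT) : SpecMDEB := by
  intro δ hδ hδ1
  obtain ⟨C₁, hC₁, M₁, hM₁⟩ := FINEM.model_rough hBT δ hδ hδ1
  obtain ⟨C, hC, hB⟩ := hBT
  have hC2 : 0 < C * (10 / δ + 1 / 2) := by positivity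
  refine ⟨max C₁ (C * (10 / δ + 1 / 2)), lt_max_of_lt_left hC₁, ⟨max M₁ 3, fun M hM => ?_⟩,
    fun η hη hη1 => ?_⟩
  · have h1 := hM₁ M ((le_max_left _ _).trans hM)
    have h3 : 3 ≤ M := (le_max_right _ _).trans hM
    have hM3 : (3 : ℝ) ≤ M := by exact_mod_cast h3
    have hlog : 0 < Real.log M := Real.log_pos (by linarith)
    exact h1.trans (mul_le_mul_of_nonneg_right (le_max_left _ _) (by positivity))
  · have ht : Tendsto (fun N : ℕ => (N : ℝ)) atTop atTop := tendsto_natCast_atTop_atTop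
    obtain ⟨M₂, hM₂⟩ := eventually_atTop.1
      (ht.eventually ((tendsto_rpow_atTop (show 0 < δ / 2 by positivity)).eventually_ge_atTop 2))
    obtain ⟨M₃, hM₃⟩ := NSFM.eventually_rpow 1 1 (by norm_num) (by norm_num)
    obtain ⟨M₄, hM₄⟩ := eventually_atTop.1
      (ht.eventually ((tendsto_rpow_atTop (show (0 : ℝ) < 9 / 10 by norm_num)).eventually_ge_atTop
        (1 / η)))
    obtain ⟨M₅, hM₅⟩ := exists_nat_ge (8 / η)
    refine ⟨max (max M₂ M₃) (max (max M₄ M₅) 3), fun M N hM hMN hN f hf0 hf1 => ?_⟩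
    have g2 := hM₂ M (((le_max_left _ _).trans (le_max_left _ _)).trans hM)
    have g3 := hM₃ M (((le_max_right _ _).trans (le_max_left _ _)).trans hM)
    have g4 := hM₄ M ((((le_max_left _ _).trans (le_max_left _ _)).trans (le_max_right _ _)).trans hM)
    have g5 : M₅ ≤ M := (((le_max_right _ _).trans (le_max_left _ _)).trans (le_max_right _ _)).trans hM
    have h3 : 3 ≤ M := ((le_max_right _ _).trans (le_max_right _ _)).trans hM
    have hM3 : (3 : ℝ) ≤ M := by exact_mod_cast h3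
    have hM0 : (0 : ℝ) < M := by linarith
    have hM1 : (1 : ℝ) < M := by linarith
    have hlog : 0 < Real.log M := Real.log_pos hM1
    have hη8 : 8 ≤ η * M := by
      have : 8 / η ≤ M := hM₅.trans (by exact_mod_cast g5)
      rw [div_le_iff₀ hη] at this
      linarith
    rw [Real.rpow_one, one_mul] at g3
    -- the error term of the sieve
    have hp2 : (M : ℝ) ^ δ ≤ η * (M : ℝ) ^ 2 / Real.log M := by
      rw [le_div_iff₀ hlog]
      have e1 : (M : ℝ) ^ δ ≤ (M : ℝ) ^ (1 / 10 : ℝ) := Real.rpow_le_rpow_of_exponent_le hM1.le hδ1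
      have e2 : 1 ≤ η * (M : ℝ) ^ (9 / 10 : ℝ) := by
        rw [div_le_iff₀ hη] at g4
        linarith
      have e3 : (M : ℝ) ^ (1 / 10 : ℝ) * (M : ℝ) ^ (9 / 10 : ℝ) = M := by
        rw [← Real.rpow_add hM0]
        norm_num
      calc (M : ℝ) ^ δ * Real.log M ≤ (M : ℝ) ^ (1 / 10 : ℝ) * M :=
            mul_le_mul e1 g3 hlog.le (by positivity)
        _ = (M : ℝ) ^ (1 / 10 : ℝ) * M * 1 := by ring
        _ ≤ (M : ℝ) ^ (1 / 10 : ℝ) * M * (η * (M : ℝ) ^ (9 / 10 : ℝ)) :=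
            mul_le_mul_of_nonneg_left e2 (by positivity)
        _ = η * M * ((M : ℝ) ^ (1 / 10 : ℝ) * (M : ℝ) ^ (9 / 10 : ℝ)) := by ring
        _ = η * (M : ℝ) ^ 2 := by rw [e3]; ring
    -- sizes
    have hMNr : (M : ℝ) ≤ N := by exact_mod_cast hMN
    have hd : (N : ℝ) ^ 2 - (M : ℝ) ^ 2 ≤ 5 / 2 * η * (M : ℝ) ^ 2 := by
      have e1 : (N : ℝ) ^ 2 ≤ ((1 + η) * M + 1) ^ 2 := pow_le_pow_left₀ (by linarith) hN 2
      nlinarith [mul_le_mul_of_nonneg_right hη8 hM0.le, mul_pos hη hM0, mul_pos hη (pow_pos hM0 2),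
        mul_le_mul_of_nonneg_right hη1 (mul_pos hη (pow_pos hM0 2)).le]
    have hN2M : N ≤ 2 * M := by
      have e1 : (N : ℝ) ≤ 2 * M := by nlinarith
      exact_mod_cast e1
    have q1 : M ^ 2 ≤ N ^ 2 := Nat.pow_le_pow_left hMN 2
    have q2 : N ^ 2 ≤ 4 * M ^ 2 := by
      calc N ^ 2 ≤ (2 * M) ^ 2 := Nat.pow_le_pow_left hN2M 2
        _ = 4 * M ^ 2 := by ring
    have q3 : 4 * M ^ 2 ≤ 4 * N ^ 2 := by omega
    have s1 := sum_Ioc_consecutive (fun m => f m / (2 * √(m : ℝ))) q1 (show N ^ 2 ≤ 4 * N ^ 2 by omega)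
    have s2 := sum_Ioc_consecutive (fun m => f m / (2 * √(m : ℝ))) (show M ^ 2 ≤ 4 * M ^ 2 by omega) q3
    have b1 := short hC hB hδ hη h3 g2 hp2 (x := M ^ 2) (y := N ^ 2) le_rfl q1 (by
      rw [Nat.cast_sub q1]
      push_cast
      nlinarith [mul_pos hη (pow_pos hM0 2)]) hf1
    have b2 := short hC hB hδ hη h3 g2 hp2 (x := 4 * M ^ 2) (y := 4 * N ^ 2) (by omega) q3 (by
      rw [Nat.cast_sub q3]
      push_cast
      linarith) hf1
    have n1 : 0 ≤ ∑ m ∈ Ioc (M ^ 2) (N ^ 2), f m / (2 * √(m : ℝ)) :=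
      sum_nonneg fun m _ => div_nonneg (hf0 m) (by positivity)
    have n2 : 0 ≤ ∑ m ∈ Ioc (4 * M ^ 2) (4 * N ^ 2), f m / (2 * √(m : ℝ)) :=
      sum_nonneg fun m _ => div_nonneg (hf0 m) (by positivity)
    have hL : 0 ≤ η * ((M : ℝ) / Real.log M) := by positivity
    have hmx : C * (10 / δ + 1 / 2) * η * (M / Real.log M)
        ≤ max C₁ (C * (10 / δ + 1 / 2)) * η * (M / Real.log M) := by
      rw [mul_assoc, mul_assoc _ η]
      exact mul_le_mul_of_nonneg_right (le_max_right _ _) hL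
    unfold model
    rw [abs_le]
    constructor <;> linarith

end

end Pool.Agent.Lib.MP391708.U.K
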