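import Pool.Agent.Lib.MP_391708_nt.U.K.AllK
import Pool.Agent.Lib.MP_391708_nt.U.K.UNIX
import Pool.Agent.Lib.MP_391708_nt.U.K.MAINA
import Pool.Agent.Lib.MP_391708_nt.U.K.FINA
import Pool.Agent.Lib.MP_391708_nt.U.K.FIN5
import Pool.Agent.Lib.MP_391708_nt.U.K.MDEA
import Pool.Agent.Lib.MP_391708_nt.U.K.MDEB
import Pool.Agent.Lib.MP_391708_nt.U.K.MAINB
import Pool.Agent.Lib.MP_391708_nt.U.K.E2W

/-!
# Project X5 (MP_391708): assembly
-/

set_option autoImplicit false

namespace Pool.Agent.Lib.MP391708.U.K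

open Pool.Agent.Lib.MP391708.QPA Pool.Agent.Lib.MP391708.QPA.H Pool.Agent.Lib.MP391708.U

/-- the formulas -/
theorem mainb : SpecMAINB := by
  have hSELB := specSELB
  have hBT := specBT hSELB
  have hRSUM := specRSUM hBT
  have hQG := specQG
  have hRAV := specRAV hQG
  have hSML := specSML specPVA
  have hLRG := specLRG specPVE
  have hCOUNT := specCOUNT
  have hSEC := specSEC (specKER (specBIL specDLS) specPOI hCOUNT) hCOUNT
  have hPNT := specPNT specPNTAP
  have hG := specGMAXU specRHO2 specRHOP
  have hRHB := specRHB specRHOM specRHOS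
  have hF6 := specF6U specEUL (specCONV specEUL specRHOP specRHO2) specPVA specPVE specRHOP
    specRHO2 (specTLU specIEU)
  -- averages over `a`
  have hPROD := specPRODV specRHOP specPVA
  have hRHOW := specRHOWV (specRWAV hSML hLRG specTAUM) specTAUM specRHOD
  have hNSF := specNSFV hQG
  have hWPT := specWPT specFL (specTYW (typeI_of R.rootw) specRSU) specBRU specMKF
    (specMAI specBRU specTAUM hRHB specRHOM) specTAUM specTNT specRHOM specRHOS specRHO2
  have hWIN := specWINV hWPT (specWMSV hRHOW specBRU specTAUM hRHB) (specSLM hSELB) hPROD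
    specWMER hG specWIC
  have hWINM := specWINM hBT hRSUM
  have hTAIL := specTAILV specFL specRHO1 specRHOM specRHOP specRHO2 specRHOS specRHOC specWMER
    hPROD hG
  -- Type II
  have hTWO := specTWOV hSEC (specFIRSTH hRAV hBT)
  have hBLK2 := specBLK2V hTWO wbu balu equ
    (specMTAV specFL specRHOC specRHOM specRHOP specRHO2 hRAV)
    (specMTBV (specBKH hSML hLRG) hRAV specRHOD) specSHM specFFB hG
  have hTII := specTIIV hBLK2 specFFB hG
  -- blocks
  have hBKE := specBKEV specT2E hTII hWIN hWINM hNSF specNSFM hG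
  -- one scale
  have hFINA := specFINA hBKE hTAIL hF6 specRHOP specRHO2 hG (specMDEB hBT)
  -- all scales
  have hMAINA := specMAINA specDIAG specUNIX hFINA (specMDEA hBT hRSUM hWINM)
  have hE2V := specE2V
  exact specMAINB hMAINA specE2W hE2V (specE2M hPNT specMER hE2V)

end Pool.Agent.Lib.MP391708.U.K
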