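import Pool.Agent.Lib.MP_391708_nt.U.SpecUK
import Pool.Agent.Lib.MP_391708_nt.U.BLKU
import Pool.Agent.Lib.MP_391708_nt.QPA.BLKK

/-!
# Project UK, module BLKV: the block theorem for the lower bound
-/

set_option autoImplicit false

namespace Pool.Agent.Lib.MP391708.U.K

open Finset Filter Topology Pool.Agent.Lib.MP391708.QPA Pool.Agent.Lib.MP391708.QPA.H
open Pool.Agent.Lib.MP391708.U
open scoped Classical

noncomputable section

namespace BLKVM

open BLKUM BasM BLK BLKK Bas

lemma cnt_errK_le (N : ℕ) (a : ℤ) {e0 e C κ α : ℝ} (hC : 0 ≤ C) :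
    cnt N a (errK N e0 e C κ α)
      ≤ C * (6 * cnt N a (nsq N e0) + ∑ x ∈ critK κ α, cnt N a (winS N e0 x (2 * e))) := by
  rw [cnt_errK]
  refine mul_le_mul_of_nonneg_left ?_ hC
  have hn : 0 ≤ cnt N a (nsq N e0) := cnt_nonneg (fun m => by unfold nsq; split_ifs <;> norm_num)
  have h1 : ∑ x ∈ critK κ α, cnt N a (win N e0 x (2 * e))
      ≤ ∑ x ∈ critK κ α, (cnt N a (nsq N e0) + cnt N a (winS N e0 x (2 * e))) := by
    refine sum_le_sum fun x _ => ?_
    rw [← cnt_add]
    exact cnt_mono (fun m => win_le N e0 x (2 * e) m)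
  rw [sum_add_distrib, sum_const, nsmul_eq_mul] at h1
  have h2 : ((critK κ α).card : ℝ) ≤ 5 := by
    have : (critK κ α).card ≤ 5 := by
      unfold critK
      exact Finset.card_le_five
    exact_mod_cast this
  have h3 : ((critK κ α).card : ℝ) * cnt N a (nsq N e0) ≤ 5 * cnt N a (nsq N e0) :=
    mul_le_mul_of_nonneg_right h2 hn
  linarith

end BLKVM

open BLKVM BLKUM BLK BLKK Bas BasM in
theorem specBLKV (hTI : SpecTIV) (hT2 : SpecT2K) (hTII : SpecTIIV) (hWIN : SpecWINV)
    (hWINM : SpecWINM) (hNSF : SpecNSFV) (hNSFM : SpecNSFM) (hGMAX : SpecGMAXU) : SpecBLKV := by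
  intro θ κ ε B hθ hκ1 hκ2 hθκ hε hB
  have hθh : 1 / 2 < θ := by linarith
  obtain ⟨e1, he1, hTI⟩ := hTI θ κ (ε / 2) hθh hκ1 hκ2 (by positivity)
  obtain ⟨CW, e1', e2', hCW, he1', he2', hWIN⟩ := hWIN θ hθh
  set e0 : ℝ := min (min e1 e1') (1 / 10) with he0
  have he0p : 0 < e0 := lt_min (lt_min he1 he1') (by norm_num)
  have he0u : e0 ≤ 1 / 10 := min_le_right _ _
  have he0a : e0 ≤ e1 := (min_le_left _ _).trans (min_le_left _ _)
  have he0b : e0 ≤ e1' := (min_le_left _ _).trans (min_le_right _ _)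
  obtain ⟨W₁, hW₁, hTI⟩ := hTI e0 (B + 1) he0p he0a (by linarith)
  obtain ⟨C, hC, hT2⟩ := hT2 κ e0 hκ1 hκ2 he0p he0u
  obtain ⟨CM, hCM, hWINM⟩ := hWINM
  obtain ⟨cG, CG, hcG, hCG, hG⟩ := hGMAX
  set D : ℝ := C * 5 * (CW + CM) * 2 / e0 ^ 2 with hD
  have hD0 : 0 < D := by positivity
  set e : ℝ := min (min (1 / 40) (e2' / 2)) (ε / (8 * D)) with he
  have hep : 0 < e := lt_min (lt_min (by norm_num) (by positivity)) (by positivity)
  have heu : e ≤ 1 / 40 := (min_le_left _ _).trans (min_le_left _ _)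
  have heu2 : 2 * e ≤ e2' := by
    have : e ≤ e2' / 2 := (min_le_left _ _).trans (min_le_right _ _)
    linarith
  have heD : D * e ≤ ε / 8 := by
    calc D * e ≤ D * (ε / (8 * D)) := mul_le_mul_of_nonneg_left (min_le_right _ _) hD0.le
      _ = ε / 8 := by field_simp
  set κn : ℝ := ε / (8 * C) with hκn
  have hκn0 : 0 < κn := by positivity
  obtain ⟨Q, hQ, T, t, hTQ, htC, N2, hT2⟩ := hT2 e hep heu
  set B' : ℝ := B + 4 with hB'
  -- the Type II sums
  have hII : ∀ c ∈ T, ∀ᶠ W : ℝ in atTop, ∀ᶠ N : ℕ in atTop, ∀ A : ℕ, Adm θ N A →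
      GoodK κ (e0 / Q) e (Real.logb N A) c → (∃ c₁ : Multiset ℕ, c₁ ≤ c ∧ MidK κ (e0 / Q) e c₁) →
      ∑ a ∈ IA A, |cnt N a (fun m => FF N (e0 / Q) c m)
        - Gw (wN W N) a * model N (fun m => FF N (e0 / Q) c m)| ≤ A * N / (Real.log N) ^ B' := by
    intro c hc
    by_cases H : ∃ c₁ : Multiset ℕ, c₁ ≤ c ∧ MidK κ (e0 / Q) e c₁
    · obtain ⟨c₁, hc1, hmid⟩ := H
      have hq1 : ∀ i ∈ c₁, Q ≤ i := fun i hi => hTQ c hc i (Multiset.mem_of_le hc1 hi)
      have hq2 : ∀ i ∈ c - c₁, Q ≤ i := fun i hi =>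
        hTQ c hc i (Multiset.mem_of_le (Multiset.sub_le_self c c₁) hi)
      obtain ⟨W₀, _, hw⟩ := hTII θ κ e e0 B' Q c₁ (c - c₁) hθh hκ1 hθκ hep he0p he0u (by linarith) hQ hq1 hq2 hmid
      have hcc : c₁ + (c - c₁) = c := by
        rw [add_comm]
        exact Multiset.sub_add_cancel hc1
      rw [hcc] at hw
      refine eventually_atTop.2 ⟨W₀, fun W hww => ?_⟩
      obtain ⟨N₀, hN⟩ := hw W hww
      refine eventually_atTop.2 ⟨N₀, fun N hNN A hA hgood _ => ?_⟩
      exact hN N A hNN hA (BLKK.nearA_of_good hgood hc1)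
    · exact Eventually.of_forall (fun W => Eventually.of_forall (fun N A _ _ h => absurd h H))
  have hII' : ∀ᶠ W : ℝ in atTop, ∀ᶠ N : ℕ in atTop, ∀ c ∈ T, ∀ A : ℕ, Adm θ N A →
      GoodK κ (e0 / Q) e (Real.logb N A) c → (∃ c₁ : Multiset ℕ, c₁ ≤ c ∧ MidK κ (e0 / Q) e c₁) →
      ∑ a ∈ IA A, |cnt N a (fun m => FF N (e0 / Q) c m)
        - Gw (wN W N) a * model N (fun m => FF N (e0 / Q) c m)| ≤ A * N / (Real.log N) ^ B' := by
    have h1 := (Filter.eventually_all_finset T).2 hII
    filter_upwards [h1] with W hW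
    exact (Filter.eventually_all_finset T).2 hW
  obtain ⟨W₂, hW₂⟩ := eventually_atTop.1 hII'
  -- windows and squares
  obtain ⟨W₃, hW₃, hWIN⟩ := hWIN e0 (2 * e) (B + 1) he0p he0b (by positivity) heu2 (by linarith)
  obtain ⟨N4, hWINM⟩ := hWINM e0 (2 * e) he0p he0u (by positivity) (by linarith)
  obtain ⟨σ, hσ, N5, hNSF⟩ := hNSF θ e0 hθh he0p he0u
  obtain ⟨N6, hNSFM⟩ := hNSFM e0 κn he0p hκn0
  refine ⟨max (max W₁ W₂) W₃, lt_of_lt_of_le hW₃ (le_max_right _ _), fun W hW => ?_⟩
  have hWa : W₁ ≤ W := ((le_max_left _ _).trans (le_max_left _ _)).trans hW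
  have hWb : W₂ ≤ W := ((le_max_right _ _).trans (le_max_left _ _)).trans hW
  have hWc : W₃ ≤ W := (le_max_right _ _).trans hW
  have hW0 : 0 < W := by linarith
  obtain ⟨N1, hN1⟩ := hTI W hWa
  obtain ⟨N3, hN3⟩ := hWIN W hWc
  have hev : ∀ᶠ N : ℕ in atTop, ∀ A : ℕ, Adm θ N A →
      exc A (fun a => |cnt N a (FK N κ) - Gw (wN W N) a * model N (FK N κ)|
        ≤ ε * Gw (wN W N) a * N / Real.log N) ≤ A / (Real.log N) ^ B := by
    filter_upwards [hW₂ W hWb, BLKK.adm_ev θ hθ, eventually_ge_atTop N1, eventually_ge_atTop N2,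
      eventually_ge_atTop N3, eventually_ge_atTop N4, eventually_ge_atTop N5, eventually_ge_atTop N6,
      ev_wN hW0 2, ev_logw hW0 one_pos (4 / (ε * cG)), ev_log 7, ev_log (T.card * C + 6 * C),
      ev_lN B' hσ 1] with
      N hE2 hadm hNN1 hNN2 hNN3 hNN4 hNN5 hNN6 hw2 hlw hl7 hlC hNσ A hA
    obtain ⟨hNN, hα1, hα2, hAN⟩ := hadm A hA
    have hlog : 0 < Real.log N := by linarith
    have hN0 : (0 : ℝ) < N := by exact_mod_cast (by omega : 0 < N)
    obtain ⟨hT2a, hT2b⟩ := hT2 N hNN2 (Real.logb N A) hα1 hα2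
    set w : ℕ := wN W N with hw
    have hw2' : (2 : ℝ) ≤ w := by exact_mod_cast hw2
    have hlw0 : 0 < Real.log ((w : ℝ) + 1) := Real.log_pos (by linarith)
    have hG0 : ∀ a, 0 < Gw w a := fun a => lt_of_lt_of_le (by positivity) (hG w hw2 a).1
    set α : ℝ := Real.logb N A with hα
    set T' : Finset (Multiset ℕ) := T.filter (fun c => GoodK κ (e0 / Q) e α c) with hT'
    have hT2c : ∀ m : ℕ, (N : ℝ) ^ 2 / 2 ≤ m → (m : ℝ) ≤ 5 * (N : ℝ) ^ 2 →
        |FK N κ m - psiK N e0 κ m - ∑ c ∈ T', t c * FF N (e0 / Q) c m| ≤ errK N e0 e C κ α m := by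
      intro m hm1 hm2
      refine (hT2a m hm1 hm2).trans ?_
      unfold errK nsq win
      apply mul_le_mul_of_nonneg_left _ hC.le
      apply add_le_add _ le_rfl
      by_cases h : NSq ((N : ℝ) ^ e0) m
      · rw [if_pos h]
        split_ifs <;> norm_num
      · rw [if_neg h, if_neg (fun h' => h h'.2)]
    have hnsq0 : ∀ m, 0 ≤ nsq N e0 m := fun m => by unfold nsq; split_ifs <;> norm_num
    have hwin0 : ∀ x y m, 0 ≤ win N e0 x y m := fun x y m => by unfold win; split_ifs <;> norm_num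
    have herr0 : ∀ m, 0 ≤ errK N e0 e C κ α m := fun m => by
      unfold errK
      exact mul_nonneg hC.le (add_nonneg (hnsq0 m) (Finset.sum_nonneg (fun x _ => hwin0 x _ m)))
    have hT : ∀ b : ℝ, 0 < (Real.log N) ^ b := fun b => Real.rpow_pos_of_pos hlog _
    have hTa : ∀ b : ℝ, (Real.log N) ^ (b + 1) = (Real.log N) ^ b * Real.log N := fun b => by
      rw [Real.rpow_add hlog, Real.rpow_one]
    -- the function for Markov's inequality
    set f : ℤ → ℝ := fun a =>
      ∑ c ∈ T', |t c| * |cnt N a (fun m => FF N (e0 / Q) c m)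
          - Gw w a * model N (fun m => FF N (e0 / Q) c m)|
        + C * (6 * cnt N a (nsq N e0)) with hf
    have hf0 : ∀ a ∈ IA A, 0 ≤ f a := by
      intro a _
      simp only [hf]
      have h1 := cnt_nonneg (N := N) (a := a) hnsq0
      have h3 : 0 ≤ ∑ c ∈ T', |t c| * |cnt N a (fun m => FF N (e0 / Q) c m)
          - Gw w a * model N (fun m => FF N (e0 / Q) c m)| :=
        Finset.sum_nonneg (fun c _ => by positivity)
      have h4 : 0 ≤ C * (6 * cnt N a (nsq N e0)) := by positivity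
      linarith
    set U : ℝ := A * N / (Real.log N) ^ B' with hU
    have hU0 : 0 ≤ U := by have := hT B'; positivity
    have hS1 : ∑ a ∈ IA A, ∑ c ∈ T', |t c| * |cnt N a (fun m => FF N (e0 / Q) c m)
          - Gw w a * model N (fun m => FF N (e0 / Q) c m)| ≤ T.card * C * U := by
      rw [Finset.sum_comm]
      calc ∑ c ∈ T', ∑ a ∈ IA A, |t c| * |cnt N a (fun m => FF N (e0 / Q) c m)
          - Gw w a * model N (fun m => FF N (e0 / Q) c m)|
          ≤ ∑ c ∈ T', C * U := by
            apply Finset.sum_le_sum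
            intro c hc
            rw [hT', Finset.mem_filter] at hc
            rw [← Finset.mul_sum]
            by_cases ht0 : t c = 0
            · rw [ht0, abs_zero, zero_mul]
              positivity
            · have h1 := hE2 c hc.1 A hA hc.2 (hT2b c hc.1 hc.2 ht0)
              exact mul_le_mul (htC c hc.1) h1 (Finset.sum_nonneg (fun _ _ => abs_nonneg _)) hC.le
        _ = T'.card * (C * U) := by rw [Finset.sum_const, nsmul_eq_mul]
        _ ≤ T.card * (C * U) := by
            apply mul_le_mul_of_nonneg_right _ (by positivity)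
            have : T'.card ≤ T.card := Finset.card_filter_le _ _
            exact_mod_cast this
        _ = T.card * C * U := by ring
    have hS2 : ∑ a ∈ IA A, C * (6 * cnt N a (nsq N e0)) ≤ 6 * C * U := by
      rw [← Finset.mul_sum, ← Finset.mul_sum]
      have h1 := hNSF N A hNN5 hA
      have h2 : (A : ℝ) * (N : ℝ) ^ (1 - σ) ≤ U := by
        rw [hU, le_div_iff₀ (hT B')]
        have h3 : (Real.log N) ^ B' ≤ (N : ℝ) ^ σ := by linarith
        calc (A : ℝ) * (N : ℝ) ^ (1 - σ) * (Real.log N) ^ B'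
            ≤ (A : ℝ) * (N : ℝ) ^ (1 - σ) * (N : ℝ) ^ σ := by gcongr
          _ = A * ((N : ℝ) ^ (1 - σ) * (N : ℝ) ^ σ) := by ring
          _ = A * N := by rw [← Real.rpow_add hN0]; norm_num
      have h4 : ∑ a ∈ IA A, cnt N a (nsq N e0) ≤ U := h1.trans h2
      have h5 : C * (6 * ∑ a ∈ IA A, cnt N a (nsq N e0)) ≤ C * (6 * U) := by gcongr
      linarith
    have hSum : ∑ a ∈ IA A, f a ≤ Real.log N * U := by
      have h1 : ∑ a ∈ IA A, f a = ∑ a ∈ IA A, ∑ c ∈ T', |t c| * |cnt N a (fun m => FF N (e0 / Q) c m)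
              - Gw w a * model N (fun m => FF N (e0 / Q) c m)|
            + ∑ a ∈ IA A, C * (6 * cnt N a (nsq N e0)) := by
        simp only [hf]
        rw [Finset.sum_add_distrib]
      rw [h1]
      have h2 : (T.card * C + 6 * C) * U ≤ Real.log N * U := mul_le_mul_of_nonneg_right hlC hU0
      linarith
    -- the exceptional sets
    have hX1 : exc A (fun a => |cnt N a (psiK N e0 κ) - Gw w a * model N (psiK N e0 κ)|
        ≤ ε / 2 * Gw w a * N / Real.log N) ≤ A / (Real.log N) ^ (B + 1) := hN1 N A hNN1 hA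
    have hX2 : exc A (fun a => f a ≤ N / (Real.log N * Real.log N)) ≤ A / (Real.log N) ^ (B + 1) := by
      refine (exc_markov hf0 (by positivity) hSum).trans (le_of_eq ?_)
      have h1 : (Real.log N) ^ B' = (Real.log N) ^ (B + 1) * Real.log N * Real.log N * Real.log N := by
        rw [← hTa, ← hTa, ← hTa]
        congr 1
        rw [hB']; ring
      rw [hU, h1]
      have h2 := hT (B + 1)
      field_simp
    have hX3 : exc A (fun a => ∀ x ∈ critK κ α, cnt N a (winS N e0 x (2 * e))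
        ≤ CW * (2 * e / e0 ^ 2) * Gw w a * N / Real.log N) ≤ 5 * (A / (Real.log N) ^ (B + 1)) := by
      have h0 : (0 : ℝ) ≤ A / (Real.log N) ^ (B + 1) := by have := hT (B + 1); positivity
      refine (exc_finset (M := (A : ℝ) / (Real.log N) ^ (B + 1)) A (critK κ α)
        (fun x a => cnt N a (winS N e0 x (2 * e))
          ≤ CW * (2 * e / e0 ^ 2) * Gw w a * N / Real.log N) ?_).trans ?_
      · intro x hx
        obtain ⟨hx1, hx2⟩ := BLKK.crit_range hκ1 hκ2 hα1 hα2 hx
        exact hN3 N A hNN3 hA x hx1 hx2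
      · refine mul_le_mul_of_nonneg_right ?_ h0
        have : (critK κ α).card ≤ 5 := by
          unfold critK
          exact Finset.card_le_five
        exact_mod_cast this
    have hfin : exc A (fun a => |cnt N a (FK N κ) - Gw w a * model N (FK N κ)|
        ≤ ε * Gw w a * N / Real.log N) ≤
        exc A (fun a => (|cnt N a (psiK N e0 κ) - Gw w a * model N (psiK N e0 κ)|
          ≤ ε / 2 * Gw w a * N / Real.log N) ∧ (f a ≤ N / (Real.log N * Real.log N)
          ∧ ∀ x ∈ critK κ α, cnt N a (winS N e0 x (2 * e))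
            ≤ CW * (2 * e / e0 ^ 2) * Gw w a * N / Real.log N)) := by
      refine exc_mono ?_
      rintro a ha ⟨h1, h2, h3⟩
      have h4 := BLKK.pointwise (w := w) _ _ _ T' t ha hAN (hG0 a).le hT2c
      set Y : ℝ := Gw w a * N / Real.log N with hY
      have hY0 : 0 ≤ Y := by have := (hG0 a).le; positivity
      have e1 : ε / 2 * Gw w a * N / Real.log N = ε / 2 * Y := by rw [hY]; ring
      have e2 : ε * Gw w a * N / Real.log N = ε * Y := by rw [hY]; ring
      rw [e1] at h1
      rw [e2]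
      -- the threshold
      have h5 : N / (Real.log N * Real.log N) ≤ ε / 4 * Y := by
        have h6 := (hG w hw2 a).1
        rw [Real.rpow_one] at hlw
        have h7 : 1 / Real.log N ≤ ε / 4 * Gw w a := by
          rw [div_le_iff₀ hlog]
          have h8 : cG / Real.log ((w : ℝ) + 1) * Real.log ((w : ℝ) + 1) = cG := by field_simp
          have h9 : 4 / (ε * cG) * Real.log ((w : ℝ) + 1) * (ε / 4 * Gw w a) ≤
              Real.log N * (ε / 4 * Gw w a) := by
            have := (hG0 a).le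
            gcongr
          have h10 : 4 / (ε * cG) * Real.log ((w : ℝ) + 1) * (ε / 4 * Gw w a)
              = Real.log ((w : ℝ) + 1) * Gw w a / cG := by field_simp
          have h11 : 1 ≤ Real.log ((w : ℝ) + 1) * Gw w a / cG := by
            rw [le_div_iff₀ hcG, one_mul]
            calc cG = Real.log ((w : ℝ) + 1) * (cG / Real.log ((w : ℝ) + 1)) := by field_simp
              _ ≤ Real.log ((w : ℝ) + 1) * Gw w a := mul_le_mul_of_nonneg_left h6 hlw0.le
          linarith
        calc N / (Real.log N * Real.log N) = 1 / Real.log N * (N / Real.log N) := by field_simp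
          _ ≤ ε / 4 * Gw w a * (N / Real.log N) := mul_le_mul_of_nonneg_right h7 (by positivity)
          _ = ε / 4 * Y := by rw [hY]; ring
      -- the windows
      have h6 := cnt_errK_le N a (e0 := e0) (e := e) (κ := κ) (α := α) hC.le
      have h7 : ∑ x ∈ critK κ α, cnt N a (winS N e0 x (2 * e)) ≤ 5 * (CW * (2 * e / e0 ^ 2) * Y) := by
        refine BLKK.sum_crit_le κ α _ _ (by positivity) ?_
        intro x hx
        refine (h3 x hx).trans (le_of_eq ?_)
        rw [hY]; ring
      have h8 : model N (errK N e0 e C κ α)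
          ≤ C * (κn * (N / Real.log N) + 5 * (CM * (2 * e / e0 ^ 2) * (N / Real.log N))) := by
        rw [model_errK]
        apply mul_le_mul_of_nonneg_left _ hC.le
        apply add_le_add
        · have h1 := hNSFM N hNN6
          have h2 : κn * N / Real.log N = κn * (N / Real.log N) := by ring
          rw [h2] at h1
          exact h1
        · refine BLKK.sum_crit_le κ α _ _ (by positivity) ?_
          intro x hx
          obtain ⟨hx1, hx2⟩ := BLKK.crit_range hκ1 hκ2 hα1 hα2 hx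
          have h1 := hWINM N hNN4 x hx1 hx2
          have h2 : CM * (2 * e / e0 ^ 2) * N / Real.log N
              = CM * (2 * e / e0 ^ 2) * (N / Real.log N) := by ring
          rw [h2] at h1
          exact h1
      have h9 : Gw w a * model N (errK N e0 e C κ α) ≤ C * κn * Y + C * (5 * (CM * (2 * e / e0 ^ 2))) * Y := by
        refine (mul_le_mul_of_nonneg_left h8 (hG0 a).le).trans (le_of_eq ?_)
        rw [hY]; ring
      have h10 : C * (∑ x ∈ critK κ α, cnt N a (winS N e0 x (2 * e)))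
          ≤ C * (5 * (CW * (2 * e / e0 ^ 2) * Y)) := mul_le_mul_of_nonneg_left h7 hC.le
      have h11 : C * (5 * (CW * (2 * e / e0 ^ 2) * Y)) + C * (5 * (CM * (2 * e / e0 ^ 2))) * Y
          = D * e * Y := by rw [hD]; field_simp
      have h12 : D * e * Y ≤ ε / 8 * Y := mul_le_mul_of_nonneg_right heD hY0
      have h13 : C * κn * Y = ε / 8 * Y := by rw [hκn]; field_simp
      simp only [hf] at h2
      have h14 : C * (6 * cnt N a (nsq N e0) + ∑ x ∈ critK κ α, cnt N a (winS N e0 x (2 * e)))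
          = C * (6 * cnt N a (nsq N e0)) + C * (∑ x ∈ critK κ α, cnt N a (winS N e0 x (2 * e))) := by ring
      rw [h14] at h6
      linarith
    refine hfin.trans ((exc_and A _ _).trans ?_)
    refine (add_le_add hX1 ((exc_and A _ _).trans (add_le_add hX2 hX3))).trans ?_
    have h1 : (A : ℝ) / (Real.log N) ^ (B + 1) = 1 / Real.log N * (A / (Real.log N) ^ B) := by
      rw [hTa]
      have := hT B
      field_simp
    rw [h1]
    have h2 : 0 ≤ (A : ℝ) / (Real.log N) ^ B := by have := hT B; positivity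
    have h3 : 7 * (1 / Real.log N) ≤ 1 := by
      rw [mul_one_div, div_le_one hlog]; exact hl7
    nlinarith
  obtain ⟨N₀, hN₀⟩ := eventually_atTop.1 hev
  exact ⟨N₀, fun N A hN hA => hN₀ N hN A hA⟩

end

end Pool.Agent.Lib.MP391708.U.K
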