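import Pool.Agent.Lib.MP_391708_nt.U.SpecUK
import Pool.Agent.Lib.MP_391708_nt.U.MAINU

/-!
# Project UK (MP_391708), module DIAG: one exceptional set for countably many properties
-/

set_option autoImplicit false

namespace Pool.Agent.Lib.MP391708.U.K

open Finset Filter Topology Pool.Agent.Lib.MP391708.QPA Pool.Agent.Lib.MP391708.QPA.H
open Pool.Agent.Lib.MP391708.U
open scoped Classical

namespace DIAGM

/-- the first `k + 1` properties -/
def Pr (P : ℕ → ℤ → Prop) (k : ℕ) (a : ℤ) : Prop := ∀ j : ℕ, j ≤ k → P j a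

lemma Pr.mono {P : ℕ → ℤ → Prop} {k k' : ℕ} {a : ℤ} (hk : k ≤ k') (h : Pr P k' a) : Pr P k a :=
  fun j hj => h j (hj.trans hk)

/-- union bound for exceptional sets -/
lemma exc_union (A k : ℕ) (Q : ℤ → Prop) (R : ℕ → ℤ → Prop)
    (h : ∀ a, (∀ j, j ≤ k → R j a) → Q a) :
    exc A Q ≤ ∑ j ∈ range (k + 1), exc A (R j) := by
  unfold exc
  rw [← Nat.cast_sum, Nat.cast_le]
  refine le_trans (Finset.card_le_card ?_) Finset.card_biUnion_le
  intro a ha
  rw [Finset.mem_filter] at ha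
  obtain ⟨h1, h2⟩ := ha
  rw [Finset.mem_biUnion]
  by_contra hc
  apply h2
  apply h
  intro j hj
  by_contra h4
  apply hc
  refine ⟨j, Finset.mem_range.2 (by omega), ?_⟩
  rw [Finset.mem_filter]
  exact ⟨h1, h4⟩

/-- the exceptional set of the first `k + 1` properties -/
lemma exc_le (P : ℕ → ℤ → Prop) (A k : ℕ) :
    exc A (fun a => (A : ℝ) / 2 < |(a : ℝ)| → Pr P k a)
      ≤ ∑ j ∈ range (k + 1), exc A (fun a => (A : ℝ) / 2 < |(a : ℝ)| → P j a) :=
  exc_union A k (fun a => (A : ℝ) / 2 < |(a : ℝ)| → Pr P k a)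
    (fun j a => (A : ℝ) / 2 < |(a : ℝ)| → P j a) (fun _ h h3 j hj => h j hj h3)

/-- the thresholds -/
lemma thr (P : ℕ → ℤ → Prop) (hP : ∀ (k : ℕ) (B : ℝ), 0 < B → ∃ A₀ : ℕ, ∀ A : ℕ, A₀ ≤ A →
    exc A (fun a => (A : ℝ) / 2 < |(a : ℝ)| → P k a) ≤ A / (Real.log A) ^ B) (k : ℕ) :
    ∃ A₀ : ℕ, ∀ A : ℕ, A₀ ≤ A →
      exc A (fun a => (A : ℝ) / 2 < |(a : ℝ)| → Pr P k a) ≤ A / (Real.log A) ^ ((k : ℝ) + 1) := by
  have h1 : ∀ j : ℕ, ∃ A₀ : ℕ, ∀ A : ℕ, A₀ ≤ A →
      exc A (fun a => (A : ℝ) / 2 < |(a : ℝ)| → P j a) ≤ A / (Real.log A) ^ ((k : ℝ) + 2) :=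
    fun j => hP j ((k : ℝ) + 2) (by positivity)
  choose T hT using h1
  have h2 : Tendsto (fun A : ℕ => Real.log (A : ℝ)) atTop atTop :=
    Real.tendsto_log_atTop.comp tendsto_natCast_atTop_atTop
  obtain ⟨A₁, hA₁⟩ := eventually_atTop.1 (h2.eventually_ge_atTop ((k : ℝ) + 1))
  refine ⟨max A₁ ((range (k + 1)).sup T), fun A hA => ?_⟩
  have h3 : (k : ℝ) + 1 ≤ Real.log A := hA₁ A ((le_max_left _ _).trans hA)
  have h4 : ∀ j ∈ range (k + 1), exc A (fun a => (A : ℝ) / 2 < |(a : ℝ)| → P j a)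
      ≤ A / (Real.log A) ^ ((k : ℝ) + 2) := by
    intro j hj
    apply hT j A
    exact (Finset.le_sup (f := T) hj).trans ((le_max_right _ _).trans hA)
  have hl0 : 0 < Real.log A := by
    have : (0 : ℝ) ≤ k := Nat.cast_nonneg k
    linarith
  refine (exc_le P A k).trans ((Finset.sum_le_sum h4).trans ?_)
  rw [Finset.sum_const, Finset.card_range, nsmul_eq_mul]
  push_cast
  have e1 : (Real.log A) ^ ((k : ℝ) + 2) = (Real.log A) ^ ((k : ℝ) + 1) * Real.log A := by
    rw [show (k : ℝ) + 2 = ((k : ℝ) + 1) + 1 by ring, Real.rpow_add_one hl0.ne']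
  have hp : 0 < (Real.log A) ^ ((k : ℝ) + 1) := Real.rpow_pos_of_pos hl0 _
  rw [e1, mul_div_assoc', div_le_div_iff₀ (by positivity) hp]
  have hA0 : (0 : ℝ) ≤ A := Nat.cast_nonneg A
  calc ((k : ℝ) + 1) * A * (Real.log A) ^ ((k : ℝ) + 1)
      ≤ Real.log A * A * (Real.log A) ^ ((k : ℝ) + 1) := by gcongr
    _ = A * ((Real.log A) ^ ((k : ℝ) + 1) * Real.log A) := by ring

end DIAGM

open DIAGM MAINUM in
theorem specDIAG : SpecDIAG := by
  intro P hP
  -- thresholds
  have hT := thr P hP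
  choose T hT using hT
  -- `S k` is at least `T k` and at least `k + 3`
  let S : ℕ → ℕ := fun k => max (T k) (k + 3)
  have hS1 : ∀ k, T k ≤ S k := fun k => le_max_left _ _
  have hS2 : ∀ k, k + 3 ≤ S k := fun k => le_max_right _ _
  let E : Set ℤ := {a | ∃ k : ℕ, S k ≤ a.natAbs ∧ ¬ Pr P k a}
  have habs : ∀ a : ℤ, ((a.natAbs : ℕ) : ℝ) = |(a : ℝ)| := by
    intro a
    rw [Nat.cast_natAbs]; push_cast; rfl
  refine ⟨E, ?_, ?_⟩
  · intro B
    -- one step
    have step : ∀ k₀ M : ℕ, S k₀ ≤ M → nE E M ≤ M / (Real.log M) ^ ((k₀ : ℝ) + 1) + nE E (M / 2) := by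
      intro k₀ M hM
      obtain ⟨K, hK⟩ : ∃ K, K = Nat.findGreatest (fun k => S k ≤ M) M := ⟨_, rfl⟩
      have hk₀M : k₀ ≤ M := by have := hS2 k₀; omega
      have hK1 : S K ≤ M := by
        rw [hK]
        exact Nat.findGreatest_spec (P := fun k => S k ≤ M) hk₀M hM
      have hK2 : k₀ ≤ K := by
        rw [hK]
        exact Nat.le_findGreatest hk₀M hM
      have h1 := nE_half E M (fun a => (M : ℝ) / 2 < |(a : ℝ)| → Pr P K a) (by
          rintro a ⟨k, hk1, hk2⟩ ha1 ha2 hc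
          have hkM : S k ≤ M := by
            have h2 : ((a.natAbs : ℕ) : ℝ) ≤ M := by rw [habs]; exact ha2
            have h3 : a.natAbs ≤ M := by exact_mod_cast h2
            omega
          have hkK : k ≤ K := by
            rw [hK]
            apply Nat.le_findGreatest (P := fun k => S k ≤ M) _ hkM
            have := hS2 k
            omega
          exact hk2 ((hc ha1).mono hkK))
      have h2 := hT K M ((hS1 K).trans hK1)
      refine h1.trans (add_le_add (h2.trans ?_) le_rfl)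
      have h3M : 3 ≤ M := by have := hS2 k₀; omega
      have hl := one_le_log h3M
      apply div_le_div_of_nonneg_left (Nat.cast_nonneg M) (Real.rpow_pos_of_pos (by linarith) _)
      apply Real.rpow_le_rpow_of_exponent_le hl
      have : (k₀ : ℝ) ≤ K := by exact_mod_cast hK2
      linarith
    obtain ⟨k₀, hk₀⟩ := exists_nat_ge (max B 1)
    obtain ⟨A₁, hA₁⟩ := growth (max B 1)
    refine ⟨max A₁ ((S k₀ + 1) ^ 2), fun A hA => ?_⟩
    have hAA : A₁ ≤ A := (le_max_left _ _).trans hA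
    have hAS : (S k₀ + 1) ^ 2 ≤ A := (le_max_right _ _).trans hA
    have hS3 : 3 ≤ S k₀ := by have := hS2 k₀; omega
    have h3A : 3 ≤ A := by nlinarith
    have hsq : (S k₀ : ℝ) + 1 ≤ √(A : ℝ) := by
      apply Real.le_sqrt_of_sq_le
      exact_mod_cast hAS
    have hS3' : (3 : ℝ) ≤ S k₀ := by exact_mod_cast hS3
    have hB1 : (1 : ℝ) ≤ max B 1 := le_max_right _ _
    have hls : 0 < Real.log (√(A : ℝ)) := Real.log_pos (by linarith)
    have hb := nE_bound E (√(A : ℝ)) ((Real.log (√(A : ℝ))) ^ (max B 1 + 1)) (Real.sqrt_nonneg _)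
      (Real.rpow_pos_of_pos hls _) (by
        intro M hM
        have hSM : S k₀ ≤ M := by
          have : (S k₀ : ℝ) ≤ M := by linarith
          exact_mod_cast this
        refine (step k₀ M hSM).trans (add_le_add ?_ le_rfl)
        have h3M : 3 ≤ M := hS3.trans hSM
        have hl := one_le_log h3M
        apply div_le_div_of_nonneg_left (Nat.cast_nonneg M) (Real.rpow_pos_of_pos hls _)
        calc (Real.log (√(A : ℝ))) ^ (max B 1 + 1) ≤ (Real.log M) ^ (max B 1 + 1) := by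
              apply Real.rpow_le_rpow hls.le _ (by linarith)
              exact Real.log_le_log (by linarith) hM.le
          _ ≤ (Real.log M) ^ ((k₀ : ℝ) + 1) := by
              apply Real.rpow_le_rpow_of_exponent_le hl
              linarith) A
    refine le_trans (show _ ≤ nE E A from le_rfl) (hb.trans ((hA₁ A hAA).trans ?_))
    have hl := one_le_log h3A
    apply div_le_div_of_nonneg_left (Nat.cast_nonneg A) (Real.rpow_pos_of_pos (by linarith) _)
    exact Real.rpow_le_rpow_of_exponent_le hl (le_max_left _ _)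
  · intro k
    refine ⟨(S k : ℝ), fun a ha hSa => ?_⟩
    have hSk : S k ≤ a.natAbs := by
      rw [← habs] at hSa
      exact_mod_cast hSa
    by_contra hc
    exact ha ⟨k, hSk, fun h => hc (h k le_rfl)⟩

end Pool.Agent.Lib.MP391708.U.K
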