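import Pool.Agent.Lib.MP_391708_nt.U.SpecUK
import Pool.Agent.Lib.MP_391708_nt.U.FINB
import Pool.Agent.Lib.MP_391708_nt.QPA.FINK

/-!
# FINP: lower bound for the primes, one scale, `N^θ ≤ A ≤ N √(log N)`, `7/10 < θ ≤ 5/6`

As FINBX, with `F_i = 1_P - 2·p3Ind` in place of `1_P` in the blocks `(N_i, 2N_i]`, `N_i = ⌊N/2^(i+1)⌋`, `i < I`, and
without an upper bound for the rest.
-/

set_option autoImplicit false

namespace Pool.Agent.Lib.MP391708.U.K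

open Finset Filter Topology Pool.Agent.Lib.MP391708.QPA Pool.Agent.Lib.MP391708.QPA.H
open Pool.Agent.Lib.MP391708.U
open scoped Classical

namespace FINPM

/-- the sizes of the `w_i` -/
theorem ev_w (k : ℕ) (W : ℝ) (hW : 1 ≤ W) : ∀ᶠ N : ℕ in atTop, ∀ A : ℕ,
    (N : ℝ) ^ (1 / 2 : ℝ) ≤ A → (A : ℝ) ≤ N * √(Real.log N) →
    (Real.log A) ^ (W - 1) ≤ wN W (N / 2 ^ k) ∧
    (wN W (N / 2 ^ k) : ℝ) ≤ (Real.log A) ^ (W + 1) ∧
    Real.log A ≤ 4 * Real.log ((N / 2 ^ k : ℕ) : ℝ) ∧ 1 ≤ Real.log A := by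
  have hlogN : Tendsto (fun N : ℕ => Real.log (N : ℝ)) atTop atTop :=
    Real.tendsto_log_atTop.comp tendsto_natCast_atTop_atTop
  have h0 : ∀ᶠ N : ℕ in atTop,
      (1 / 2 : ℝ) < Real.log ((N / 2 ^ k : ℕ) : ℝ) / Real.log N :=
    (FIN.tendsto_log_ratio k).eventually_const_lt (by norm_num)
  filter_upwards [h0, hlogN.eventually_ge_atTop (2 * (4 : ℝ) ^ (W - 1) + 2),
    hlogN.eventually_ge_atTop (2 * (2 : ℝ) ^ (W + 1) + 2), eventually_ge_atTop 3,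
    (FIN.tendsto_Nk k).eventually_gt_atTop 0]
    with N h0 h1 h2 hN3 hNk A hA1 hA2
  have hN1 : (1 : ℝ) < N := by exact_mod_cast (by omega : 1 < N)
  have hN0 : (0 : ℝ) < N := by linarith
  have hlog : 0 < Real.log N := Real.log_pos hN1
  set l : ℝ := Real.log ((N / 2 ^ k : ℕ) : ℝ) with hl
  have hl1 : Real.log N < 2 * l := by
    rw [lt_div_iff₀ hlog] at h0
    linarith
  have hNk' : (0 : ℝ) < ((N / 2 ^ k : ℕ) : ℝ) := by exact_mod_cast hNk
  have hl2 : l ≤ Real.log N := by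
    rw [hl]
    apply Real.log_le_log hNk'
    exact_mod_cast Nat.div_le_self N (2 ^ k)
  have h4W : (1 : ℝ) ≤ (4 : ℝ) ^ (W - 1) := Real.one_le_rpow (by norm_num) (by linarith)
  have h2W : (1 : ℝ) ≤ (2 : ℝ) ^ (W + 1) := Real.one_le_rpow (by norm_num) (by linarith)
  have hl3 : (4 : ℝ) ^ (W - 1) ≤ l := by linarith
  have hl4 : 1 ≤ l := by linarith
  have hApos : (0 : ℝ) < A := (Real.rpow_pos_of_pos hN0 _).trans_le hA1
  have hsq : √(Real.log N) ≤ N := by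
    have h3 : √(Real.log N) ≤ Real.log N := by
      rw [Real.sqrt_le_left hlog.le]
      nlinarith
    exact h3.trans ((Real.log_le_sub_one_of_pos hN0).trans (by linarith))
  have hA3 : Real.log A ≤ 2 * Real.log N := by
    have h3 : (A : ℝ) ≤ (N : ℝ) ^ 2 := by
      rw [pow_two]
      exact hA2.trans (mul_le_mul_of_nonneg_left hsq hN0.le)
    have h4 := Real.log_le_log hApos h3
    rw [Real.log_pow] at h4
    exact_mod_cast h4
  have hA4 : 1 / 2 * Real.log N ≤ Real.log A := by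
    have h3 := Real.log_le_log (Real.rpow_pos_of_pos hN0 _) hA1
    rwa [Real.log_rpow hN0] at h3
  have hA5 : 1 ≤ Real.log A := by linarith
  have hA6 : Real.log A ≤ 4 * l := by linarith
  refine ⟨?_, ?_, hA6, hA5⟩
  · unfold wN
    refine le_trans ?_ (Nat.le_ceil _)
    calc (Real.log A) ^ (W - 1) ≤ (4 * l) ^ (W - 1) :=
          Real.rpow_le_rpow (by linarith) hA6 (by linarith)
      _ = (4 : ℝ) ^ (W - 1) * l ^ (W - 1) := Real.mul_rpow (by norm_num) (by linarith)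
      _ ≤ l * l ^ (W - 1) := mul_le_mul_of_nonneg_right hl3 (by positivity)
      _ = l ^ W := by
          nth_rewrite 1 [← Real.rpow_one l]
          rw [← Real.rpow_add (by linarith)]
          congr 1
          ring
  · have h5 : (wN W (N / 2 ^ k) : ℝ) ≤ l ^ W + 1 := by
      unfold wN
      exact (Nat.ceil_lt_add_one (by positivity)).le
    have h6 : (1 : ℝ) ≤ l ^ W := Real.one_le_rpow hl4 (by linarith)
    have h7 : l ^ W ≤ (2 * Real.log A) ^ W :=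
      Real.rpow_le_rpow (by linarith) (by linarith) (by linarith)
    rw [Real.mul_rpow (by norm_num) (by linarith)] at h7
    have h8 : 2 * (2 : ℝ) ^ W = (2 : ℝ) ^ (W + 1) := by
      rw [Real.rpow_add (by norm_num), Real.rpow_one]
      ring
    have h9 : (2 : ℝ) ^ (W + 1) ≤ Real.log A := by linarith
    have h10 : (0 : ℝ) < (Real.log A) ^ W := Real.rpow_pos_of_pos (by linarith) _
    calc (wN W (N / 2 ^ k) : ℝ) ≤ 2 * l ^ W := by linarith
      _ ≤ 2 * ((2 : ℝ) ^ W * (Real.log A) ^ W) := by linarith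
      _ = (2 : ℝ) ^ (W + 1) * (Real.log A) ^ W := by rw [← h8]; ring
      _ ≤ Real.log A * (Real.log A) ^ W := mul_le_mul_of_nonneg_right h9 h10.le
      _ = (Real.log A) ^ (W + 1) := by
          rw [Real.rpow_add (by linarith), Real.rpow_one]
          ring

/-- the final inequality, all errors relative to `h L` -/
theorem final_low {S Cn h M L Li ε q c₀ c' M' Ls : ℝ} (hε : 0 < ε) (hε1 : ε ≤ 1) (hL : 0 < L)
    (hh : 0 < h) (hS : Cn ≤ S) (hS0 : 0 ≤ S) (hc₀ : 0 ≤ c₀)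
    (hCn : c' ≤ 1 → h * M' - ε / 10 * (h * L) ≤ Cn)
    (hM : |M - (1 - q) / 2 * L| ≤ ε / 40 * L)
    (hM' : M - c' * Ls ≤ M') (hLs : Ls ≤ (1 / 2 + ε / 40) * L) (hc'0 : 0 ≤ c')
    (hLi : |Li - L| ≤ ε / 40 * L) (hc' : c' ≤ c₀ + ε / 4) (hq : q ≤ ε / 20) :
    (1 - c₀ - ε) * (1 / 2 * h * Li) ≤ S := by
  have hLi0 : 0 ≤ Li := by
    have := (abs_le.1 hLi).1
    nlinarith
  have hhL : 0 < h * L := by positivity
  rcases le_or_gt (1 - c₀ - ε) 0 with hneg | hpos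
  · have : (1 - c₀ - ε) * (1 / 2 * h * Li) ≤ 0 :=
      mul_nonpos_of_nonpos_of_nonneg hneg (by positivity)
    linarith
  · have hc'1 : c' ≤ 1 := by linarith
    have hCn := hCn hc'1
    -- lower bound for `M'`
    have hM1 : ((1 - c₀) / 2 - ε / 5) * L ≤ M' := by
      have h1 := (abs_le.1 hM).1
      have h2 : c' * Ls ≤ c' * ((1 / 2 + ε / 40) * L) := mul_le_mul_of_nonneg_left hLs hc'0
      have h3 : ((1 - c₀) / 2 - ε / 5) * L
          ≤ ((1 - q) / 2 - ε / 40 - c' * (1 / 2 + ε / 40)) * L := by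
        apply mul_le_mul_of_nonneg_right _ hL.le
        have h4 : c' * (ε / 40) ≤ 1 * (ε / 40) := mul_le_mul_of_nonneg_right hc'1 (by positivity)
        linarith
      have h5 : ((1 - q) / 2 - ε / 40 - c' * (1 / 2 + ε / 40)) * L
          = (1 - q) / 2 * L - ε / 40 * L - c' * ((1 / 2 + ε / 40) * L) := by ring
      linarith
    have e1 : ((1 - c₀) / 2 - ε / 5) * (h * L) ≤ h * M' := by
      calc ((1 - c₀) / 2 - ε / 5) * (h * L) = h * (((1 - c₀) / 2 - ε / 5) * L) := by ring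
        _ ≤ h * M' := mul_le_mul_of_nonneg_left hM1 hh.le
    have e4 : Li ≤ (1 + ε / 40) * L := by
      have := (abs_le.1 hLi).2
      linarith
    have e5 : (1 - c₀ - ε) * (1 / 2 * h * Li) ≤ (1 - c₀ - ε) * (1 / 2 * h * ((1 + ε / 40) * L)) :=
      mul_le_mul_of_nonneg_left (mul_le_mul_of_nonneg_left e4 (by positivity)) hpos.le
    have e6 : (1 - c₀ - ε) * (1 / 2 * h * ((1 + ε / 40) * L))
        = ((1 - c₀ - ε) + (1 - c₀ - ε) * (ε / 40)) / 2 * (h * L) := by ring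
    have e8 : ((1 - c₀ - ε) + (1 - c₀ - ε) * (ε / 40)) / 2 ≤ (1 - c₀) / 2 - ε / 5 - ε / 10 := by
      have h1 : (1 - c₀ - ε) * (ε / 40) ≤ 1 * (ε / 40) :=
        mul_le_mul_of_nonneg_right (by linarith) (by positivity)
      linarith
    have e9 := mul_le_mul_of_nonneg_right e8 hhL.le
    have e10 : ((1 - c₀) / 2 - ε / 5 - ε / 10) * (h * L)
        = ((1 - c₀) / 2 - ε / 5) * (h * L) - ε / 10 * (h * L) := by ring
    linarith

/-- the blocks together -/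
theorem sum_blocks {I : ℕ} (c m G l mm : ℕ → ℝ) {h ε ε₁ L : ℝ} (hε : 0 < ε) (hε1 : ε ≤ 1)
    (hε₁ : 0 < ε₁) (hI : (I : ℝ) * ε₁ ≤ ε / 40) (hh : 0 < h) (hL : 0 < L)
    (hm : ∀ i ∈ range I, |m i| ≤ mm i) (hl : ∀ i ∈ range I, 0 ≤ l i) (hlL : ∀ i ∈ range I, l i ≤ L)
    (h1 : ∀ i ∈ range I, |c i - G i * m i| ≤ ε₁ * G i * l i)
    (h2 : ∀ i ∈ range I, |G i - h| ≤ ε / 40 * h) (hML : ∑ i ∈ range I, mm i ≤ 2 * L) :
    h * (∑ i ∈ range I, m i) - ε / 10 * (h * L) ≤ ∑ i ∈ range I, c i := by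
  have hkey : ∀ i ∈ range I, h * m i - c i ≤ 2 * ε₁ * (h * L) + ε / 40 * h * mm i := by
    intro i hi
    have hG : G i ≤ 2 * h := by
      have := (abs_le.1 (h2 i hi)).2
      nlinarith
    have h3 := (abs_le.1 (h1 i hi)).1
    have h4 : |(h - G i) * m i| ≤ ε / 40 * h * mm i := by
      rw [abs_mul, abs_sub_comm]
      exact mul_le_mul (h2 i hi) (hm i hi) (abs_nonneg _) (by positivity)
    have h5 : ε₁ * G i * l i ≤ 2 * ε₁ * (h * L) := by
      calc ε₁ * G i * l i ≤ ε₁ * (2 * h) * l i :=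
            mul_le_mul_of_nonneg_right (mul_le_mul_of_nonneg_left hG hε₁.le) (hl i hi)
        _ ≤ ε₁ * (2 * h) * L := mul_le_mul_of_nonneg_left (hlL i hi) (by positivity)
        _ = 2 * ε₁ * (h * L) := by ring
    have h6 := le_abs_self ((h - G i) * m i)
    have h7 : h * m i - c i = (h - G i) * m i - (c i - G i * m i) := by ring
    linarith
  have hsum := Finset.sum_le_sum hkey
  rw [Finset.sum_sub_distrib, ← Finset.mul_sum] at hsum
  have h8 : ∑ i ∈ range I, (2 * ε₁ * (h * L) + ε / 40 * h * mm i)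
      = 2 * (I * ε₁) * (h * L) + ε / 40 * h * ∑ i ∈ range I, mm i := by
    rw [Finset.sum_add_distrib, Finset.sum_const, nsmul_eq_mul, Finset.card_range, ← Finset.mul_sum]
    ring
  rw [h8] at hsum
  have h9 : 2 * (I * ε₁) * (h * L) ≤ 2 * (ε / 40) * (h * L) := by
    apply mul_le_mul_of_nonneg_right _ (by positivity)
    linarith
  have h10 : ε / 40 * h * ∑ i ∈ range I, mm i ≤ ε / 40 * h * (2 * L) :=
    mul_le_mul_of_nonneg_left hML (by positivity)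
  have h11 : 0 ≤ ε * (h * L) := by positivity
  have h12 : ε / 40 * h * (2 * L) = 2 * (ε / 40) * (h * L) := by ring
  linarith

/-- the blocks are disjoint -/
theorem low_blocks (a : ℤ) (N I : ℕ) (F : ℕ → ℕ → ℝ) (hF : ∀ i m, F i m ≤ primeInd m) :
    ∑ i ∈ range I, cnt (N / 2 ^ (i + 1)) a (F i) ≤ ∑ n ∈ Ioc 0 N, primeInd (val a n) := by
  have h3 : ∀ J : ℕ, ∑ i ∈ range J, cnt (N / 2 ^ (i + 1)) a primeInd
      + ∑ n ∈ Ioc 0 (N / 2 ^ J), primeInd (val a n) ≤ ∑ n ∈ Ioc 0 N, primeInd (val a n) := by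
    intro J
    induction J with
    | zero => simp
    | succ J ih =>
      rw [Finset.sum_range_succ]
      have hM2 : N / 2 ^ (J + 1) = (N / 2 ^ J) / 2 := by
        rw [Nat.div_div_eq_div_mul, pow_succ]
      have h4 : cnt (N / 2 ^ (J + 1)) a primeInd
          + ∑ n ∈ Ioc 0 (N / 2 ^ (J + 1)), primeInd (val a n)
          ≤ ∑ n ∈ Ioc 0 (N / 2 ^ J), primeInd (val a n) := by
        rw [hM2]
        set M := N / 2 ^ J
        have h5 : ∑ n ∈ Ioc 0 M, primeInd (val a n) = ∑ n ∈ Ioc 0 (M / 2), primeInd (val a n)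
            + cnt (M / 2) a primeInd + ∑ n ∈ Ioc (2 * (M / 2)) M, primeInd (val a n) := by
          unfold cnt
          rw [Finset.sum_Ioc_consecutive _ (Nat.zero_le _) (by omega),
            Finset.sum_Ioc_consecutive _ (Nat.zero_le _) (by omega)]
        have h6 : 0 ≤ ∑ n ∈ Ioc (2 * (M / 2)) M, primeInd (val a n) :=
          Finset.sum_nonneg (fun _ _ => FIN.primeInd_nonneg _)
        linarith
      linarith
  have h4 := h3 I
  have h5 : ∑ i ∈ range I, cnt (N / 2 ^ (i + 1)) a (F i)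
      ≤ ∑ i ∈ range I, cnt (N / 2 ^ (i + 1)) a primeInd := by
    apply Finset.sum_le_sum
    intro i _
    apply BLK.cnt_mono
    intro m
    exact hF i m
  have h6 : 0 ≤ ∑ n ∈ Ioc 0 (N / 2 ^ I), primeInd (val a n) :=
    Finset.sum_nonneg (fun _ _ => FIN.primeInd_nonneg _)
  linarith

/-- the model of one block -/
theorem model_F (N : ℕ) (Y : ℝ) : model N (fun m => primeInd m - 2 * p3Ind Y m)
    = model N primeInd - 2 * model N (p3Ind Y) := by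
  have h5 : (fun m => primeInd m - 2 * p3Ind Y m) = fun m => primeInd m + (-2) * p3Ind Y m := by
    funext m
    ring
  rw [h5, BLK.model_add, BLK.model_smul]
  ring

/-- the deterministic part, for one `a` -/
theorem point (hP : SpecRHOP) (h2 : SpecRHO2) {N I : ℕ} {W ε ε' ε₁ κ c₀ : ℝ} {a : ℤ}
    (hN3 : 3 ≤ N) (hε : 0 < ε) (hε1 : ε ≤ 1) (hεε : ε ≤ ε') (hε₁ : 0 < ε₁)
    (hI : (I : ℝ) * ε₁ ≤ ε / 40) (hc₀ : 0 ≤ c₀) (hcK0 : 0 ≤ FINK.cK κ)
    (hcK : FINK.cK κ ≤ c₀ + ε / 8) (hq1 : (1 : ℝ) / 2 ^ I ≤ ε / 20)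
    (hevM : |(∑ i ∈ range I, model (N / 2 ^ (i + 1)) primeInd)
      - (1 - 1 / 2 ^ I) / 2 * ((N : ℝ) / Real.log N)| ≤ ε / 40 * ((N : ℝ) / Real.log N))
    (hevLs : (∑ i ∈ range I, ((N / 2 ^ (i + 1) : ℕ) : ℝ)
      / (2 * Real.log ((N / 2 ^ (i + 1) : ℕ) : ℝ))) ≤ (1 / 2 + ε / 40) * ((N : ℝ) / Real.log N))
    (hevLi : |(∫ t in (2 : ℝ)..(N : ℝ), 1 / Real.log t) - (N : ℝ) / Real.log N|
      ≤ ε / 40 * ((N : ℝ) / Real.log N))
    (hl : ∀ i ∈ range I, 0 ≤ ((N / 2 ^ (i + 1) : ℕ) : ℝ) / Real.log ((N / 2 ^ (i + 1) : ℕ) : ℝ) ∧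
      ((N / 2 ^ (i + 1) : ℕ) : ℝ) / Real.log ((N / 2 ^ (i + 1) : ℕ) : ℝ)
        ≤ (N : ℝ) / Real.log N)
    (hP3 : ∀ i ∈ range I, 2 * model (N / 2 ^ (i + 1)) (p3Ind (YK (N / 2 ^ (i + 1)) κ))
      ≤ (FINK.cK κ + ε / 8) * (((N / 2 ^ (i + 1) : ℕ) : ℝ)
        / (2 * Real.log ((N / 2 ^ (i + 1) : ℕ) : ℝ))))
    (n1 : ∃ h : ℝ, 0 < h ∧ Tendsto (fun v : ℕ => Gw v a) atTop (𝓝 h) ∧
      |Gw (wN W N) a - h| ≤ ε / 40 * h)
    (n2 : ∀ i ∈ range I, ∃ h : ℝ, 0 < h ∧ Tendsto (fun v : ℕ => Gw v a) atTop (𝓝 h) ∧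
      |Gw (wN W (N / 2 ^ (i + 1))) a - h| ≤ ε / 40 * h)
    (n3 : ∀ i ∈ range I, |cnt (N / 2 ^ (i + 1)) a
        (fun m => primeInd m - 2 * p3Ind (YK (N / 2 ^ (i + 1)) κ) m)
        - Gw (wN W (N / 2 ^ (i + 1))) a * model (N / 2 ^ (i + 1))
          (fun m => primeInd m - 2 * p3Ind (YK (N / 2 ^ (i + 1)) κ) m)|
      ≤ ε₁ * Gw (wN W (N / 2 ^ (i + 1))) a * ((N / 2 ^ (i + 1) : ℕ) : ℝ)
        / Real.log ((N / 2 ^ (i + 1) : ℕ) : ℝ)) :
    ∃ h : ℝ, 0 < h ∧ IsC a h ∧ LowP (1 - c₀ - ε') N a h := by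
  obtain ⟨h, hh0, hht, hh1⟩ := n1
  have hN1 : (1 : ℝ) < N := by exact_mod_cast (by omega : 1 < N)
  have hN0 : (0 : ℝ) < N := by linarith
  have hlog : 0 < Real.log N := Real.log_pos hN1
  have hL : 0 < (N : ℝ) / Real.log N := by positivity
  refine ⟨h, hh0, ?_, ?_⟩
  · unfold IsC
    refine hht.congr ?_
    intro X
    exact FIN.Gw_eq hP h2 X a
  · unfold LowP
    rw [FIN.count_eq]
    have hSlow := low_blocks a N I
      (fun i m => primeInd m - 2 * p3Ind (YK (N / 2 ^ (i + 1)) κ) m) (fun i m => by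
        have := FINK.p3Ind_nonneg (YK (N / 2 ^ (i + 1)) κ) m
        linarith)
    have hM' : (∑ i ∈ range I, model (N / 2 ^ (i + 1)) primeInd)
        - (FINK.cK κ + ε / 8) * (∑ i ∈ range I, ((N / 2 ^ (i + 1) : ℕ) : ℝ)
          / (2 * Real.log ((N / 2 ^ (i + 1) : ℕ) : ℝ)))
        ≤ ∑ i ∈ range I, model (N / 2 ^ (i + 1))
          (fun m => primeInd m - 2 * p3Ind (YK (N / 2 ^ (i + 1)) κ) m) := by
      rw [Finset.mul_sum, ← Finset.sum_sub_distrib]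
      apply Finset.sum_le_sum
      intro i hi
      rw [model_F]
      linarith [hP3 i hi]
    have hCn : FINK.cK κ + ε / 8 ≤ 1 → h * (∑ i ∈ range I, model (N / 2 ^ (i + 1))
          (fun m => primeInd m - 2 * p3Ind (YK (N / 2 ^ (i + 1)) κ) m))
        - ε / 10 * (h * ((N : ℝ) / Real.log N))
        ≤ ∑ i ∈ range I, cnt (N / 2 ^ (i + 1)) a
          (fun m => primeInd m - 2 * p3Ind (YK (N / 2 ^ (i + 1)) κ) m) := by
      intro hc1
      refine sum_blocks _ _ (fun i => Gw (wN W (N / 2 ^ (i + 1))) a)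
        (fun i => ((N / 2 ^ (i + 1) : ℕ) : ℝ) / Real.log ((N / 2 ^ (i + 1) : ℕ) : ℝ))
        (fun i => model (N / 2 ^ (i + 1)) primeInd
          + 2 * model (N / 2 ^ (i + 1)) (p3Ind (YK (N / 2 ^ (i + 1)) κ)))
        hε hε1 hε₁ hI hh0 hL ?_ (fun i hi => (hl i hi).1) (fun i hi => (hl i hi).2) ?_ ?_ ?_
      · intro i hi
        rw [model_F]
        have h3 : 0 ≤ model (N / 2 ^ (i + 1)) primeInd := BLK.model_nonneg FIN.primeInd_nonneg
        have h4 : 0 ≤ model (N / 2 ^ (i + 1)) (p3Ind (YK (N / 2 ^ (i + 1)) κ)) :=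
          BLK.model_nonneg (FINK.p3Ind_nonneg _)
        rw [abs_le]
        constructor <;> linarith
      · intro i hi
        have h3 := n3 i hi
        rw [mul_div_assoc] at h3
        exact h3
      · intro i hi
        obtain ⟨h', _, hht', hh2⟩ := n2 i hi
        have heq : h' = h := tendsto_nhds_unique hht' hht
        rw [heq] at hh2
        exact hh2
      · rw [Finset.sum_add_distrib]
        have h3 : ∑ i ∈ range I, 2 * model (N / 2 ^ (i + 1)) (p3Ind (YK (N / 2 ^ (i + 1)) κ))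
            ≤ (FINK.cK κ + ε / 8) * ∑ i ∈ range I, ((N / 2 ^ (i + 1) : ℕ) : ℝ)
              / (2 * Real.log ((N / 2 ^ (i + 1) : ℕ) : ℝ)) := by
          rw [Finset.mul_sum]
          exact Finset.sum_le_sum hP3
        have h4 : (FINK.cK κ + ε / 8) * (∑ i ∈ range I, ((N / 2 ^ (i + 1) : ℕ) : ℝ)
              / (2 * Real.log ((N / 2 ^ (i + 1) : ℕ) : ℝ)))
            ≤ 1 * ((1 / 2 + ε / 40) * ((N : ℝ) / Real.log N)) := by
          have h5 : (FINK.cK κ + ε / 8) * (∑ i ∈ range I, ((N / 2 ^ (i + 1) : ℕ) : ℝ)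
                / (2 * Real.log ((N / 2 ^ (i + 1) : ℕ) : ℝ)))
              ≤ (FINK.cK κ + ε / 8) * ((1 / 2 + ε / 40) * ((N : ℝ) / Real.log N)) :=
            mul_le_mul_of_nonneg_left hevLs (by positivity)
          exact h5.trans (mul_le_mul_of_nonneg_right hc1 (by positivity))
        have h6 := (abs_le.1 hevM).2
        have h7 : (0 : ℝ) ≤ 1 / 2 ^ I := by positivity
        have h8 : (1 - 1 / 2 ^ I) / 2 * ((N : ℝ) / Real.log N) ≤ 1 / 2 * ((N : ℝ) / Real.log N) :=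
          mul_le_mul_of_nonneg_right (by linarith) hL.le
        have h9 : ε / 40 * ((N : ℝ) / Real.log N) ≤ 1 / 40 * ((N : ℝ) / Real.log N) :=
          mul_le_mul_of_nonneg_right (by linarith) hL.le
        have h10 : 1 * ((1 / 2 + ε / 40) * ((N : ℝ) / Real.log N))
            = 1 / 2 * ((N : ℝ) / Real.log N) + ε / 40 * ((N : ℝ) / Real.log N) := by ring
        linarith
    have hS0 : 0 ≤ ∑ n ∈ Ioc 0 N, primeInd (val a n) :=
      Finset.sum_nonneg (fun _ _ => FIN.primeInd_nonneg _)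
    have hfin := final_low (c₀ := c₀) (c' := FINK.cK κ + ε / 8) hε hε1 hL hh0 hSlow hS0 hc₀ hCn
      hevM hM' hevLs (by positivity) hevLi (by linarith) hq1
    refine le_trans ?_ hfin
    apply mul_le_mul_of_nonneg_right (by linarith)
    have h4 := FINBXM.Li_nonneg hL hε1 hevLi
    positivity

/-- the number of the blocks -/
theorem params {ε : ℝ} (hε : 0 < ε) : ∃ I : ℕ, (1 : ℝ) / 2 ^ I ≤ ε / 20 ∧
    (I : ℝ) * (ε / (40 * (I + 1))) ≤ ε / 40 := by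
  obtain ⟨I, hI⟩ : ∃ I : ℕ, (1 / 2 : ℝ) ^ I < ε / 20 :=
    exists_pow_lt_of_lt_one (by positivity) (by norm_num)
  rw [one_div_pow] at hI
  refine ⟨I, hI.le, ?_⟩
  have h3 : (I : ℝ) * (ε / (40 * (I + 1))) = ε / 40 * (I / (I + 1)) := by
    field_simp
  rw [h3]
  have h4 : (I : ℝ) / (I + 1) ≤ 1 := by
    rw [div_le_one (by positivity)]
    linarith
  exact mul_le_of_le_one_right (by positivity) h4

end FINPM

open FINPM FINBXM FIN in
theorem specFINP (hBLK : SpecBLKV) (hP3 : SpecP3M) (hF6 : SpecF6U) (hMODP : SpecMODP)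
    (hLI : SpecLI) (hP : SpecRHOP) (h2 : SpecRHO2) (_hG : SpecGMAXU) : SpecFINP := by
  intro θ ε' B hθ1 hθ2 hε' hB
  obtain ⟨ε, hε, hε1, hεε⟩ : ∃ ε : ℝ, 0 < ε ∧ ε ≤ 1 ∧ ε ≤ ε' :=
    ⟨min ε' 1, lt_min hε' one_pos, min_le_right _ _, min_le_left _ _⟩
  -- the parameter `κ`
  obtain ⟨c₀, hc₀, hc₀0⟩ : ∃ c₀ : ℝ,
      c₀ = (5 / 2 - 3 * θ) ^ 2 / (6 * (3 / 2 - θ) ^ 2 * (θ - 1 / 2)) ∧ 0 ≤ c₀ := by
    refine ⟨_, rfl, ?_⟩
    have h3 : (0 : ℝ) < θ - 1 / 2 := by linarith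
    positivity
  obtain ⟨κ, hκ1, hκ2, hκ3, hκ4⟩ := FINK.exists_kappa θ (ε / 8) hθ1 hθ2 (by positivity)
  rw [← hc₀] at hκ4
  have hcK0 : 0 ≤ FINK.cK κ := by
    unfold FINK.cK
    have h3 : (0 : ℝ) < 1 - κ := by linarith
    positivity
  have hB1 : 0 < B + 1 := by linarith
  obtain ⟨I, hq1, hIε₁⟩ := FINPM.params hε
  obtain ⟨ε₁, hε₁, hε₁0⟩ : ∃ ε₁ : ℝ, ε₁ = ε / (40 * (I + 1)) ∧ 0 < ε₁ := ⟨_, rfl, by positivity⟩
  rw [← hε₁] at hIε₁
  obtain ⟨W2, hW2, hBLK⟩ := hBLK θ κ ε₁ (B + 1) (by linarith) hκ1 hκ2 hκ3 hε₁0 hB1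
  obtain ⟨W3, hW3, hF6⟩ := hF6 (ε / 40) (B + 1) (by positivity) hB1
  obtain ⟨W, hWW2, hWW3⟩ : ∃ W : ℝ, W2 ≤ W ∧ W3 + 1 ≤ W :=
    ⟨max W2 (W3 + 1), le_max_left _ _, le_max_right _ _⟩
  have hW1' : 1 ≤ W := by linarith
  obtain ⟨N2, hBLK⟩ := hBLK W hWW2
  obtain ⟨A3, hF6⟩ := hF6 (W - 1) (by linarith)
  obtain ⟨NP, hP3⟩ := hP3 κ (ε / 8) hκ1 hκ2 (by positivity)
  -- eventual facts
  have hevB : ∀ᶠ N : ℕ in atTop, ∀ i ∈ range I,
      (N2 ≤ N / 2 ^ (i + 1) ∧ NP ≤ N / 2 ^ (i + 1)) ∧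
      (N : ℝ) * √(Real.log N)
        ≤ ((N / 2 ^ (i + 1) : ℕ) : ℝ) * Real.log ((N / 2 ^ (i + 1) : ℕ) : ℝ) ∧
      ((N / 2 ^ (i + 1) : ℕ) : ℝ) / Real.log ((N / 2 ^ (i + 1) : ℕ) : ℝ)
        ≤ (N : ℝ) / Real.log N ∧ ∀ A : ℕ,
      (N : ℝ) ^ (1 / 2 : ℝ) ≤ A → (A : ℝ) ≤ N * √(Real.log N) →
      (Real.log A) ^ (W - 1) ≤ wN W (N / 2 ^ (i + 1)) ∧
      (wN W (N / 2 ^ (i + 1)) : ℝ) ≤ (Real.log A) ^ (W + 1) ∧
      Real.log A ≤ 4 * Real.log ((N / 2 ^ (i + 1) : ℕ) : ℝ) ∧ 1 ≤ Real.log A := by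
    rw [Filter.eventually_all_finset]
    intro i _
    exact (((tendsto_Nk (i + 1)).eventually_ge_atTop N2).and
      ((tendsto_Nk (i + 1)).eventually_ge_atTop NP)).and ((ev_blockS (i + 1)).and
      ((ev_L i).and (ev_w (i + 1) W hW1')))
  obtain ⟨R, hR⟩ : ∃ R : ℝ, R = (2 * (I : ℝ) + 2) * (4 : ℝ) ^ (B + 1) := ⟨_, rfl⟩
  have hθ0 : 0 < θ := by linarith
  obtain ⟨N₀, hN₀⟩ := eventually_atTop.1 (hevB.and ((ev_large θ hθ0 A3).and
    ((ev_large θ hθ0 ⌈Real.exp R⌉₊).and ((ev_w 0 W hW1').and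
    ((ev_model hMODP I (ε / 40) (by positivity)).and ((ev_li hLI (ε / 40) (by positivity)).and
    ((FINK.ev_Lsum I (ε / 40) (by positivity)).and (eventually_ge_atTop 3))))))))
  clear hevB
  refine ⟨N₀, fun N A hN hA1 hA2 => ?_⟩
  obtain ⟨hblk, hlA3, hlAR, hw0, hevM, hevLi, hevLs, hN3⟩ := hN₀ N hN
  clear hN₀
  have hN1 : (1 : ℝ) < N := by exact_mod_cast (by omega : 1 < N)
  have hN0 : (0 : ℝ) < N := by linarith
  have hA12 : (N : ℝ) ^ (1 / 2 : ℝ) ≤ A :=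
    (Real.rpow_le_rpow_of_exponent_le hN1.le (by linarith)).trans hA1
  have hApos : (0 : ℝ) < A := (Real.rpow_pos_of_pos hN0 _).trans_le hA1
  have hw0' := hw0 A hA12 hA2
  rw [pow_zero, Nat.div_one] at hw0'
  obtain ⟨hw0a, hw0b, hw0c, hlA1⟩ := hw0'
  have hT0 : 0 < Real.log A := by linarith
  have hRT : R ≤ Real.log A := by
    have h3 := hlAR A hA1
    have h4 : Real.exp R ≤ A := (Nat.le_ceil _).trans (by exact_mod_cast h3)
    rw [Real.le_log_iff_exp_le hApos]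
    exact h4
  have hKF : (A : ℝ) / (Real.log A) ^ (B + 1)
      ≤ (4 : ℝ) ^ (B + 1) * (A / (Real.log A) ^ (B + 1)) :=
    one_exc hApos hT0 hB (by linarith)
  have hW12 : W - 1 + 2 = W + 1 := by ring
  have hAdm : ∀ i ∈ range I, Adm θ (N / 2 ^ (i + 1)) A := by
    intro i hi
    refine ⟨le_trans ?_ hA1, hA2.trans (hblk i hi).2.1⟩
    apply Real.rpow_le_rpow (Nat.cast_nonneg _) _ hθ0.le
    exact_mod_cast Nat.div_le_self N _
  have hcP : cP θ - ε' = 1 - c₀ - ε' := by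
    rw [hc₀]
    rfl
  rw [hcP]
  have hmain := exc_le (A := A) (I := I) (K := (4 : ℝ) ^ (B + 1) * (A / (Real.log A) ^ (B + 1)))
    (fun a => ∃ h : ℝ, 0 < h ∧ IsC a h ∧ LowP (1 - c₀ - ε') N a h)
    (fun a => ∃ h : ℝ, 0 < h ∧ Tendsto (fun v : ℕ => Gw v a) atTop (𝓝 h) ∧
      |Gw (wN W N) a - h| ≤ ε / 40 * h)
    (fun _ => True)
    (fun i a => ∃ h : ℝ, 0 < h ∧ Tendsto (fun v : ℕ => Gw v a) atTop (𝓝 h) ∧
      |Gw (wN W (N / 2 ^ (i + 1))) a - h| ≤ ε / 40 * h)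
    (fun i a => |cnt (N / 2 ^ (i + 1)) a
        (fun m => primeInd m - 2 * p3Ind (YK (N / 2 ^ (i + 1)) κ) m)
        - Gw (wN W (N / 2 ^ (i + 1))) a * model (N / 2 ^ (i + 1))
          (fun m => primeInd m - 2 * p3Ind (YK (N / 2 ^ (i + 1)) κ) m)|
      ≤ ε₁ * Gw (wN W (N / 2 ^ (i + 1))) a * ((N / 2 ^ (i + 1) : ℕ) : ℝ)
        / Real.log ((N / 2 ^ (i + 1) : ℕ) : ℝ))
    ((hF6 A (wN W N) (hlA3 A hA1) hw0a (by rw [hW12]; exact hw0b)).trans hKF)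
    (fun i hi => by
      obtain ⟨u1, u2, _, _⟩ := (hblk i hi).2.2.2 A hA12 hA2
      exact (hF6 A (wN W (N / 2 ^ (i + 1))) (hlA3 A hA1) u1 (by rw [hW12]; exact u2)).trans hKF)
    (fun i hi => by
      obtain ⟨_, _, u3, _⟩ := (hblk i hi).2.2.2 A hA12 hA2
      exact (hBLK (N / 2 ^ (i + 1)) A (hblk i hi).1.1 (hAdm i hi)).trans
        (one_exc hApos hT0 hB u3))
    (by
      have h3 : exc A (fun _ => True) = 0 := by
        unfold exc
        simp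
      rw [h3]
      positivity)
    (fun a _ n1 n2 n3 _ => point hP h2 hN3 hε hε1 hεε hε₁0 hIε₁ hc₀0 hcK0 hκ4 hq1 hevM hevLs hevLi
      (fun i hi => by
        obtain ⟨_, _, u3, _⟩ := (hblk i hi).2.2.2 A hA12 hA2
        have : 0 < Real.log ((N / 2 ^ (i + 1) : ℕ) : ℝ) := by linarith
        exact ⟨by positivity, (hblk i hi).2.2.1⟩)
      (fun i hi => by
        have h3 := hP3 (N / 2 ^ (i + 1)) (hblk i hi).1.2
        exact h3) n1 n2 n3)
  refine hmain.trans ?_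
  calc (2 * (I : ℝ) + 2) * ((4 : ℝ) ^ (B + 1) * (A / (Real.log A) ^ (B + 1)))
      = R * (A / (Real.log A) ^ (B + 1)) := by rw [hR]; ring
    _ ≤ Real.log A * (A / (Real.log A) ^ (B + 1)) :=
        mul_le_mul_of_nonneg_right hRT (by positivity)
    _ = A / (Real.log A) ^ B := by
        rw [Real.rpow_add hT0, Real.rpow_one]
        field_simp

end Pool.Agent.Lib.MP391708.U.K
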