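import Pool.Agent.Lib.MP_391708_nt.U.SpecUK2
import Pool.Agent.Lib.MP_391708_nt.U.K.FINQ
import Pool.Agent.Lib.MP_391708_nt.U.K.FINP

/-!
# Project UK, module FINR: primes in `(N, 2N]`, one scale

As FINQ, with `F = 1_P - 2·p3Ind` in place of `EInd`.
-/

set_option autoImplicit false

namespace Pool.Agent.Lib.MP391708.U.K

open Finset Filter Topology Pool.Agent.Lib.MP391708.QPA Pool.Agent.Lib.MP391708.QPA.H
open Pool.Agent.Lib.MP391708.U
open scoped Classical

noncomputable section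

namespace FINRM

open BasM Bas

/-- the constant -/
lemma c0_le {θ : ℝ} (h1 : 7 / 10 < θ) (h2 : θ ≤ 5 / 6) :
    (5 / 2 - 3 * θ) ^ 2 / (6 * (3 / 2 - θ) ^ 2 * (θ - 1 / 2)) ≤ 3 / 10 := by
  have e1 : (5 / 2 - 3 * θ) ^ 2 ≤ 4 / 25 := by nlinarith
  have e2 : (4 / 9 : ℝ) ≤ (3 / 2 - θ) ^ 2 := by nlinarith
  have e3 : (1 / 5 : ℝ) ≤ θ - 1 / 2 := by linarith
  have e4 : (8 / 15 : ℝ) ≤ 6 * (3 / 2 - θ) ^ 2 * (θ - 1 / 2) := by
    calc (8 / 15 : ℝ) = 6 * (4 / 9) * (1 / 5) := by norm_num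
      _ ≤ 6 * (3 / 2 - θ) ^ 2 * (θ - 1 / 2) :=
          mul_le_mul (mul_le_mul_of_nonneg_left e2 (by norm_num)) e3 (by norm_num) (by positivity)
  rw [div_le_iff₀ (by linarith)]
  linarith

/-- the primes are products of exactly one prime -/
lemma sum_prime_le (N : ℕ) (a : ℤ) : ∑ n ∈ Ioc N (2 * N), primeInd (val a n) ≤ cntk 1 N a := by
  unfold cntk
  rw [card_filter]
  push_cast
  refine sum_le_sum fun n _ => ?_
  unfold primeInd QPA.val
  by_cases h : Nat.Prime ((n : ℤ) ^ 2 + a).natAbs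
  · rw [if_pos h, if_pos ⟨h.squarefree, by rw [h.primeFactors, card_singleton]⟩]
  · rw [if_neg h]
    split_ifs <;> norm_num

/-- the prime values are rough -/
lemma prime_le_rInd {M A : ℕ} {e0 : ℝ} (hM : 4 ≤ M) (he : e0 ≤ 1) (hA : (A : ℝ) ≤ 1 / 2 * (M : ℝ) ^ 2)
    {a : ℤ} (ha : a ∈ IA A) {n : ℕ} (hn : M < n) :
    primeInd (val a n) ≤ rInd ((M : ℝ) ^ e0) (val a n) := by
  unfold primeInd
  split_ifs with h
  · rw [rInd_of]
    intro p hp hpm
    rw [(Nat.prime_dvd_prime_iff_eq hp h).1 hpm]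
    have hM1 : (1 : ℝ) ≤ M := by exact_mod_cast (by omega : 1 ≤ M)
    have hM4 : (4 : ℝ) ≤ M := by exact_mod_cast hM
    have h1 : (M : ℝ) ^ e0 ≤ M := by
      calc (M : ℝ) ^ e0 ≤ (M : ℝ) ^ (1 : ℝ) := Real.rpow_le_rpow_of_exponent_le hM1 he
        _ = M := Real.rpow_one _
    have h2 : (M : ℝ) ≤ 1 / 2 * (M : ℝ) ^ 2 := by nlinarith
    have h3 : -(A : ℝ) ≤ a := by
      have := (mem_Icc.1 ha).1
      exact_mod_cast this
    have h4 : (M : ℝ) ≤ n := by exact_mod_cast hn.le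
    have h5 : (M : ℝ) ^ 2 ≤ (n : ℝ) ^ 2 := pow_le_pow_left₀ (by linarith) h4 2
    have h6 : (n : ℝ) ^ 2 + a ≤ (QPA.val a n : ℝ) := by
      unfold QPA.val
      rw [Nat.cast_natAbs]
      push_cast
      exact le_abs_self _
    linarith
  · exact rInd_nonneg _ _

/-- `A ≤ M √(log M) ≤ M²/2` -/
lemma ev_half : ∀ᶠ M : ℕ in atTop, (M : ℝ) * √(Real.log M) ≤ 1 / 2 * (M : ℝ) ^ 2 := by
  filter_upwards [ev_log 4] with M h1
  have hl : 0 < Real.log (M : ℝ) := by linarith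
  have hM0 : (0 : ℝ) < M := by
    rcases Nat.eq_zero_or_pos M with h | h
    · rw [h] at hl
      simp at hl
    · exact_mod_cast h
  have h2 : √(Real.log M) ≤ 1 / 2 * Real.log M := by
    rw [Real.sqrt_le_left (by linarith)]
    nlinarith
  have h3 : Real.log M ≤ M := (Real.log_le_sub_one_of_pos hM0).trans (by linarith)
  calc (M : ℝ) * √(Real.log M) ≤ M * (1 / 2 * M) :=
        mul_le_mul_of_nonneg_left (h2.trans (by linarith)) hM0.le
    _ = 1 / 2 * (M : ℝ) ^ 2 := by ring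

end FINRM

open FINRM FINQM BasM Bas in
theorem specFINR (hBLK : SpecBLKV) (hP3 : SpecP3M) (hT : SpecTAILV) (hF6 : SpecF6U) (hMODP : SpecMODP)
    (hP : SpecRHOP) (h2 : SpecRHO2) (hGMAX : SpecGMAXU) : SpecFINR := by
  intro θ hθ hθ1
  obtain ⟨κ, hκ1, hκ2, hκ3, hκ4⟩ := FINK.exists_kappa θ (1 / 10) hθ hθ1 (by norm_num)
  have hcK : FINK.cK κ ≤ 2 / 5 := hκ4.trans (by linarith [c0_le hθ hθ1])
  obtain ⟨NP, hP3⟩ := hP3 κ (1 / 10) hκ1 hκ2 (by norm_num)
  obtain ⟨NM, hMODP⟩ := hMODP (1 / 20) (by norm_num)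
  obtain ⟨C, hC, hT⟩ := hT (1 / 100) (by norm_num) le_rfl
  obtain ⟨cG, CG, hcG, hCG, hG⟩ := hGMAX
  obtain ⟨c₁, hc₁e⟩ : ∃ c₁ : ℝ, c₁ = 1 / 5 := ⟨_, rfl⟩
  have hc₁ : 0 < c₁ := by rw [hc₁e]; norm_num
  obtain ⟨η, hη, hη1, hη2⟩ : ∃ η : ℝ, 0 < η ∧ η ≤ 1 / 10 ∧ η ≤ c₁ / (16 * C) :=
    ⟨min (1 / 10) (c₁ / (16 * C)), lt_min (by norm_num) (by positivity), min_le_left _ _,
      min_le_right _ _⟩
  refine ⟨c₁ / 16, η, by positivity, hη, hη1, fun B hB => ?_⟩
  have hB1 : 0 < B + 1 := by linarith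
  obtain ⟨W1, hW1, hT⟩ := hT (B + 1) hB1
  obtain ⟨W2, hW2, hBLK⟩ := hBLK θ κ (c₁ / 8) (B + 1) (by linarith) hκ1 hκ2 hκ3 (by positivity) hB1
  obtain ⟨W3, hW3, hF6⟩ := hF6 (1 / 10) (B + 1) (by norm_num) hB1
  obtain ⟨W, hWW1, hWW2, hWW3⟩ : ∃ W : ℝ, W1 ≤ W ∧ W2 ≤ W ∧ W3 + 1 ≤ W :=
    ⟨max W1 (max W2 (W3 + 1)), le_max_left _ _, (le_max_left _ _).trans (le_max_right _ _),
      (le_max_right _ _).trans (le_max_right _ _)⟩
  have hW1' : 1 ≤ W := by linarith
  obtain ⟨N2, hT⟩ := hT W hWW1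
  obtain ⟨N3, hBLK⟩ := hBLK W hWW2
  obtain ⟨A3, hF6⟩ := hF6 (W - 1) (by linarith)
  have hθ0 : 0 < θ := by linarith
  obtain ⟨R, hR⟩ : ∃ R : ℝ, R = 1 + 2 * (2 : ℝ) ^ (B + 1) := ⟨_, rfl⟩
  have hev : ∀ᶠ M : ℕ in atTop, ∀ A : ℕ, (M : ℝ) ^ θ ≤ A → (A : ℝ) ≤ M * √(Real.log M) →
      exc A (fun a => ∃ h : ℝ, 0 < h ∧ IsC a h ∧ ∀ N : ℕ, M ≤ N → (N : ℝ) ≤ (1 + η) * M + 1 →
        c₁ / 16 * (h * (N / Real.log N)) ≤ cntk 1 N a) ≤ A / (Real.log A) ^ B := by
    filter_upwards [eventually_ge_atTop NP, eventually_ge_atTop NM, eventually_ge_atTop N2,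
      eventually_ge_atTop N3,
      FIN.ev_large θ hθ0 A3, FIN.ev_large θ hθ0 ⌈Real.exp R⌉₊, ev_w W hW1', ev_adm θ,
      ev_wN (show 0 < W by linarith) 2, ev_log 1, ev_pow (show (9 / 10 : ℝ) < 1 by norm_num) (1 / η),
      ev_pow (show (0 : ℝ) < 1 by norm_num) (2 / η), ev_half, eventually_ge_atTop 4] with
      M hNP hNM hN2 hN3 hlA3 hlAR hw hadm hw2 hl1 hp1 hp2 hhalf hM3 A hA1 hA2
    have hM1 : (1 : ℝ) < M := by exact_mod_cast (by omega : 1 < M)
    have hM0 : (0 : ℝ) < M := by linarith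
    have hlog : 0 < Real.log M := by linarith
    rw [Real.rpow_one] at hp1 hp2
    rw [Real.rpow_zero, mul_one] at hp2
    have hηM1 : (M : ℝ) ^ (9 / 10 : ℝ) ≤ η * M := by
      rw [one_div, inv_mul_le_iff₀ hη] at hp1
      exact hp1
    have hηM2 : 2 ≤ η * M := by
      rw [div_le_iff₀ hη] at hp2
      linarith
    have hA12 : (M : ℝ) ^ (1 / 2 : ℝ) ≤ A :=
      (Real.rpow_le_rpow_of_exponent_le hM1.le (by linarith)).trans hA1
    have hApos : (0 : ℝ) < A := (Real.rpow_pos_of_pos hM0 _).trans_le hA1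
    obtain ⟨hwa, hwb, hwc, hlA1⟩ := hw A hA12 hA2
    have hT0 : 0 < Real.log A := by linarith
    have hRT : R ≤ Real.log A := by
      have h3 := hlAR A hA1
      have h4 : Real.exp R ≤ A := (Nat.le_ceil _).trans (by exact_mod_cast h3)
      rw [Real.le_log_iff_exp_le hApos]
      exact h4
    have hAdm : Adm θ M A := hadm A hA1 hA2
    have hW12 : W - 1 + 2 = W + 1 := by ring
    have hAh : (A : ℝ) ≤ 1 / 2 * (M : ℝ) ^ 2 := hA2.trans hhalf
    -- the model
    have hmod : c₁ * ((M : ℝ) / Real.log M)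
        ≤ model M (fun m => primeInd m - 2 * p3Ind (YK M κ) m) := by
      rw [FINPM.model_F]
      have h3 := (abs_le.1 (hMODP M hNM)).1
      have h4 := hP3 M hNP
      have h5 : (3 * κ - 2) ^ 2 / (6 * κ ^ 2 * (1 - κ)) ≤ 2 / 5 := hcK
      have h6 : (M : ℝ) / (2 * Real.log M) = 1 / 2 * (M / Real.log M) := by
        field_simp
      have h7 : (0 : ℝ) < M / Real.log M := by positivity
      have h8 : 1 / 20 * (M : ℝ) / Real.log M = 1 / 20 * (M / Real.log M) := by ring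
      rw [h6, h8] at h3
      rw [h6] at h4
      have h9 : ((3 * κ - 2) ^ 2 / (6 * κ ^ 2 * (1 - κ)) + 1 / 10) * (1 / 2 * (M / Real.log M))
          ≤ (2 / 5 + 1 / 10) * (1 / 2 * (M / Real.log M)) :=
        mul_le_mul_of_nonneg_right (by linarith) (by positivity)
      rw [hc₁e]
      linarith
    -- the exceptional sets
    have hX1 := hF6 A (wN W M) (hlA3 A hA1) hwa (by rw [hW12]; exact hwb)
    have hX2 := (hBLK M A hN3 hAdm).trans (one_exc hApos hT0 hB hwc)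
    have hX3 := (hT M A hN2 hA12).trans (one_exc hApos hT0 hB hwc)
    have hfin : exc A (fun a => ∃ h : ℝ, 0 < h ∧ IsC a h ∧ ∀ N : ℕ, M ≤ N →
        (N : ℝ) ≤ (1 + η) * M + 1 → c₁ / 16 * (h * (N / Real.log N)) ≤ cntk 1 N a) ≤
        exc A (fun a => (∃ h : ℝ, 0 < h ∧ Tendsto (fun v : ℕ => Gw v a) atTop (𝓝 h) ∧
          |Gw (wN W M) a - h| ≤ 1 / 10 * h) ∧
          ((|cnt M a (fun m => primeInd m - 2 * p3Ind (YK M κ) m)
            - Gw (wN W M) a * model M (fun m => primeInd m - 2 * p3Ind (YK M κ) m)|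
            ≤ c₁ / 8 * Gw (wN W M) a * M / Real.log M) ∧
          ∀ X H : ℕ, (M : ℝ) ^ (9 / 10 : ℝ) ≤ H →
            ∑ n ∈ Ioc X (X + H), rInd ((M : ℝ) ^ (1 / 100 : ℝ)) (val a n)
              ≤ C * Gw (wN W M) a * H / Real.log M)) := by
      refine exc_mono ?_
      rintro a haA ⟨⟨h, hh, hht, hh1⟩, hb, ht⟩
      refine ⟨h, hh, ?_, ?_⟩
      · unfold IsC
        refine hht.congr ?_
        intro X
        exact FIN.Gw_eq hP h2 X a
      · intro N hMN hN
        have hG0 : 0 < Gw (wN W M) a := by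
          refine lt_of_lt_of_le ?_ (hG (wN W M) hw2 a).1
          have h3 : (2 : ℝ) ≤ wN W M := by exact_mod_cast hw2
          have h4 : 0 < Real.log ((wN W M : ℝ) + 1) := Real.log_pos (by linarith)
          positivity
        set H : ℕ := ⌈η * M⌉₊ + 1 with hH
        have hH1 : η * M ≤ (⌈η * M⌉₊ : ℝ) := Nat.le_ceil _
        have hH2 : (⌈η * M⌉₊ : ℝ) < η * M + 1 := Nat.ceil_lt_add_one (by positivity)
        have hHr : (H : ℝ) = (⌈η * M⌉₊ : ℝ) + 1 := by rw [hH]; push_cast; ring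
        have hNH : N ≤ M + H := by
          have h3 : (N : ℝ) ≤ ((M + H : ℕ) : ℝ) := by
            rw [Nat.cast_add, hHr]
            linarith
          exact_mod_cast h3
        have hS := sum_shift (fun n => primeInd (val a n)) (fun n => FIN.primeInd_nonneg _)
          hMN hNH
        have hS0 : cnt M a (fun m => primeInd m - 2 * p3Ind (YK M κ) m)
            ≤ ∑ n ∈ Ioc M (2 * M), primeInd (val a n) := by
          unfold cnt
          refine sum_le_sum fun n _ => ?_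
          have h3 : 0 ≤ p3Ind (YK M κ) (val a n) := by
            unfold p3Ind
            split_ifs <;> norm_num
          show primeInd (val a n) - 2 * p3Ind (YK M κ) (val a n) ≤ primeInd (val a n)
          linarith
        have hS1 : ∑ n ∈ Ioc M (M + H), primeInd (val a n)
            ≤ C * Gw (wN W M) a * ((H : ℝ) / Real.log M) := by
          have h3 := ht M H (hηM1.trans (by rw [hHr]; linarith))
          rw [mul_div_assoc] at h3
          refine (sum_le_sum fun n hn => ?_).trans h3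
          exact prime_le_rInd hM3 (by norm_num) hAh haA (mem_Ioc.1 hn).1
        have hNr : (M : ℝ) ≤ N := by exact_mod_cast hMN
        refine (final_ineq (S := ∑ n ∈ Ioc N (2 * N), primeInd (val a n))
          (S1 := ∑ n ∈ Ioc M (M + H), primeInd (val a n))
          (cM := cnt M a (fun m => primeInd m - 2 * p3Ind (YK M κ) m))
          (G := Gw (wN W M) a) (h := h) (L := M / Real.log M) (C := C) (η := η)
          (Hr := (H : ℝ) / Real.log M)
          (m := model M (fun m => primeInd m - 2 * p3Ind (YK M κ) m)) (c₁ := c₁)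
          (L' := N / Real.log N) hc₁ hC hG0 (by positivity) hη2 hh hh1 ?_ hmod hS1 ?_
          (hS0.trans hS) ?_).trans
          (sum_prime_le N a)
        · refine hb.trans (le_of_eq ?_)
          ring
        · rw [← mul_div_assoc]
          refine div_le_div_of_nonneg_right ?_ hlog.le
          rw [hHr]
          linarith
        · rw [← mul_div_assoc]
          have h3 : Real.log M ≤ Real.log N := Real.log_le_log hM0 hNr
          have h4 : (N : ℝ) ≤ 2 * M := by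
            have : η * M ≤ 1 / 10 * M := mul_le_mul_of_nonneg_right hη1 hM0.le
            have hM3' : (4 : ℝ) ≤ M := by exact_mod_cast hM3
            linarith
          exact div_le_div₀ (by positivity) h4 hlog h3
    refine hfin.trans ((exc_and A _ _).trans ?_)
    refine (add_le_add hX1 ((exc_and A _ _).trans (add_le_add hX2 hX3))).trans ?_
    calc (A : ℝ) / (Real.log A) ^ (B + 1) + ((2 : ℝ) ^ (B + 1) * (A / (Real.log A) ^ (B + 1))
          + (2 : ℝ) ^ (B + 1) * (A / (Real.log A) ^ (B + 1)))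
        = R * (A / (Real.log A) ^ (B + 1)) := by rw [hR]; ring
      _ ≤ Real.log A * (A / (Real.log A) ^ (B + 1)) :=
          mul_le_mul_of_nonneg_right hRT (by positivity)
      _ = A / (Real.log A) ^ B := by
          rw [Real.rpow_add hT0, Real.rpow_one]
          field_simp
  obtain ⟨N₀, hN₀⟩ := eventually_atTop.1 hev
  exact ⟨N₀, fun M A hM hA1 hA2 => hN₀ M hM A hA1 hA2⟩

end

end Pool.Agent.Lib.MP391708.U.K
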