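import Pool.Agent.Lib.MP_391708_nt.U.SpecUK
import Pool.Agent.Lib.MP_391708_nt.U.MAINUR

/-!
# MAINV: one exceptional set for the primes and for the products of `k` primes
-/

set_option autoImplicit false

namespace Pool.Agent.Lib.MP391708.U.K

open Finset Filter Topology Pool.Agent.Lib.MP391708.QPA Pool.Agent.Lib.MP391708.QPA.H
open Pool.Agent.Lib.MP391708.U
open scoped Classical

namespace MAINVM

/-- the lower bound for the primes, with the parameters `θ`, `ε` -/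
def GdP (θ ε : ℝ) (a : ℤ) : Prop := ∃ h : ℝ, 0 < h ∧ IsC a h ∧
  ∀ N : ℕ, |(a : ℝ)| ≤ N * (Real.log N) ^ (1 / 4 : ℝ) → (N : ℝ) ≤ |(a : ℝ)| ^ (1 / θ) →
    LowP (cP θ - ε) N a h

/-- the lower bound for the products of `k` primes -/
def GdQ (k : ℕ) (δ c : ℝ) (a : ℤ) : Prop := ∃ h : ℝ, 0 < h ∧ IsC a h ∧
  ∀ N : ℕ, |(a : ℝ)| ≤ N * (Real.log N) ^ (1 / 4 : ℝ) → (N : ℝ) ≤ |(a : ℝ)| ^ (2 - δ) →
    c * (h * (N / Real.log N)) ≤ cntk k N a

/-- the index set of the family of properties -/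
abbrev Idx : Type := ℕ ⊕ (ℚ × ℚ) ⊕ (ℕ × ℕ)

/-- the property with the index `i` -/
def Pr (c : ℕ → ℕ → ℝ) : Idx → ℤ → Prop
  | Sum.inl n, a => MAINURM.GdR (1 / ((n : ℝ) + 6)) (1 / ((n : ℝ) + 1)) a
  | Sum.inr (Sum.inl x), a =>
      7 / 10 < ((x.1 : ℚ) : ℝ) → ((x.1 : ℚ) : ℝ) ≤ 5 / 6 → 0 < ((x.2 : ℚ) : ℝ) → GdP x.1 x.2 a
  | Sum.inr (Sum.inr x), a => 2 ≤ x.1 → GdQ x.1 (1 / ((x.2 : ℝ) + 2)) (c x.1 x.2) a

lemma two_le_of {a : ℤ} {N : ℕ} (ha : (2 : ℝ) ≤ |(a : ℝ)|)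
    (h1 : |(a : ℝ)| ≤ N * (Real.log N) ^ (1 / 4 : ℝ)) : 2 ≤ N := by
  by_contra hc
  have hN1 : N = 0 ∨ N = 1 := by omega
  rcases hN1 with rfl | rfl
  · simp at h1
    rw [h1] at ha
    norm_num at ha
  · simp at h1
    rw [h1] at ha
    norm_num at ha

lemma int_nonneg {N : ℕ} (h : 2 ≤ N) : 0 ≤ ∫ t in (2 : ℝ)..(N : ℝ), 1 / Real.log t := by
  apply intervalIntegral.integral_nonneg (by exact_mod_cast h)
  intro u hu
  have : 0 ≤ Real.log u := Real.log_nonneg (by linarith [hu.1])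
  positivity

/-- a rational number below `θ` with almost the same constant -/
lemma exists_rat {θ ε : ℝ} (hθ : 7 / 10 < θ) (hε : 0 < ε) :
    ∃ q : ℚ, 7 / 10 < (q : ℝ) ∧ (q : ℝ) < θ ∧ (θ ≤ 5 / 6 → cP θ - ε / 2 ≤ cP q) := by
  by_cases hθ5 : θ ≤ 5 / 6
  · have hc : ContinuousAt cP θ := by
      unfold cP
      have h1 : 6 * (3 / 2 - θ) ^ 2 * (θ - 1 / 2) ≠ 0 := by
        have h2 : 0 < 3 / 2 - θ := by linarith
        have h3 : 0 < θ - 1 / 2 := by linarith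
        positivity
      apply ContinuousAt.sub continuousAt_const
      refine ContinuousAt.div (f := fun x : ℝ => (5 / 2 - 3 * x) ^ 2)
        (g := fun x : ℝ => 6 * (3 / 2 - x) ^ 2 * (x - 1 / 2)) ?_ ?_ h1
      · fun_prop
      · fun_prop
    have h1 : ∀ᶠ x in 𝓝 θ, cP θ - ε / 2 < cP x :=
      hc.eventually (lt_mem_nhds (by linarith))
    rw [Metric.eventually_nhds_iff] at h1
    obtain ⟨d, hd, h2⟩ := h1
    obtain ⟨q, hq1, hq2⟩ := exists_rat_btwn (show max (7 / 10) (θ - d) < θ from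
      max_lt hθ (by linarith))
    refine ⟨q, (le_max_left _ _).trans_lt hq1, hq2, fun _ => ?_⟩
    have h3 := (le_max_right _ _).trans_lt hq1
    apply (h2 _).le
    rw [Real.dist_eq, abs_lt]
    constructor <;> linarith
  · obtain ⟨q, hq1, hq2⟩ := exists_rat_btwn hθ
    exact ⟨q, hq1, hq2, fun h => absurd h hθ5⟩

lemma exists_nat (δ ε : ℝ) (hδ : 0 < δ) (hε : 0 < ε) :
    ∃ n : ℕ, 1 / ((n : ℝ) + 6) ≤ δ ∧ 1 / ((n : ℝ) + 2) ≤ δ ∧ 1 / ((n : ℝ) + 1) ≤ ε := by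
  obtain ⟨k, hk⟩ := exists_nat_ge (max (1 / δ) (1 / ε))
  have hk1 : 1 / δ ≤ k := (le_max_left _ _).trans hk
  have hk2 : 1 / ε ≤ k := (le_max_right _ _).trans hk
  rw [div_le_iff₀ hδ] at hk1
  rw [div_le_iff₀ hε] at hk2
  refine ⟨k, ?_, ?_, ?_⟩ <;> rw [div_le_iff₀ (by positivity)] <;> nlinarith

end MAINVM

open MAINVM in
theorem specMAINV (hDIAG : SpecDIAG) (hUNIR : SpecUNIR) (hUNIP : SpecUNIP) (hUNIQ : SpecUNIQ) :
    SpecMAINV := by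
  -- the constants of UNIQ
  have hc0 : ∀ k n : ℕ, ∃ c : ℝ, 0 < c ∧ (2 ≤ k → ∀ B : ℝ, 0 < B → ∃ A₀ : ℕ, ∀ A : ℕ, A₀ ≤ A →
      exc A (fun a => (A : ℝ) / 2 < |(a : ℝ)| → GdQ k (1 / ((n : ℝ) + 2)) c a)
        ≤ A / (Real.log A) ^ B) := by
    intro k n
    by_cases hk : 2 ≤ k
    · obtain ⟨c, hc, h⟩ := hUNIQ k (1 / ((n : ℝ) + 2)) hk (by positivity) (by
        rw [div_lt_one (by positivity)]
        have : (0 : ℝ) ≤ n := Nat.cast_nonneg n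
        linarith)
      exact ⟨c, hc, fun _ => h⟩
    · exact ⟨1, one_pos, fun h => absurd h hk⟩
  choose c hc hcQ using hc0
  obtain ⟨f, hf⟩ := exists_surjective_nat Idx
  have hpos : ∀ (A : ℕ) (B : ℝ), 3 ≤ A → 0 ≤ (A : ℝ) / (Real.log A) ^ B := by
    intro A B hA
    have h1 := MAINUM.one_le_log hA
    have h2 : 0 < (Real.log A) ^ B := Real.rpow_pos_of_pos (by linarith) _
    positivity
  obtain ⟨E, hE, hP⟩ := hDIAG (fun m a => Pr c (f m) a) (by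
    intro m B hB
    generalize f m = i
    rcases i with n | x | x
    · have h1 : (1 : ℝ) / ((n : ℝ) + 6) < 1 / 5 := by
        apply one_div_lt_one_div_of_lt (by norm_num)
        have : (0 : ℝ) ≤ n := Nat.cast_nonneg n
        linarith
      exact hUNIR (1 / ((n : ℝ) + 6)) (1 / ((n : ℝ) + 1)) B (by positivity) h1
        (by positivity) hB
    · by_cases hx : 7 / 10 < ((x.1 : ℚ) : ℝ) ∧ ((x.1 : ℚ) : ℝ) ≤ 5 / 6 ∧ 0 < ((x.2 : ℚ) : ℝ)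
      · obtain ⟨A₀, hA₀⟩ := hUNIP x.1 x.2 B hx.1 hx.2.1 hx.2.2 hB
        refine ⟨A₀, fun A hA => le_trans (UNIM.exc_mono A ?_) (hA₀ A hA)⟩
        intro a _ h1 h2 _ _ _
        exact h1 h2
      · refine ⟨3, fun A hA => ?_⟩
        rw [UNIM.exc_zero A (fun a _ _ h1 h2 h3 => absurd ⟨h1, h2, h3⟩ hx)]
        exact hpos A B hA
    · by_cases hx : 2 ≤ x.1
      · obtain ⟨A₀, hA₀⟩ := hcQ x.1 x.2 hx B hB
        refine ⟨A₀, fun A hA => le_trans (UNIM.exc_mono A ?_) (hA₀ A hA)⟩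
        intro a _ h1 h2 _
        exact h1 h2
      · refine ⟨3, fun A hA => ?_⟩
        rw [UNIM.exc_zero A (fun a _ _ h1 => absurd h1 hx)]
        exact hpos A B hA)
  have hP' : ∀ i : Idx, ∃ a₀ : ℝ, ∀ a : ℤ, a ∉ E → a₀ ≤ |(a : ℝ)| → Pr c i a := by
    intro i
    obtain ⟨m, rfl⟩ := hf i
    exact hP m
  refine ⟨E, hE, fun k δ hk hδ => ?_⟩
  obtain ⟨n, -, hn2, -⟩ := MAINVM.exists_nat δ 1 hδ one_pos
  refine ⟨c k n, hc k n, fun ε θ hε hθ hθ5 => ?_⟩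
  obtain ⟨m, hm1, -, hm3⟩ := MAINVM.exists_nat δ ε hδ hε
  obtain ⟨q, hq1, hq2, hq3⟩ := MAINVM.exists_rat hθ hε
  obtain ⟨r, hr1, hr2⟩ := exists_rat_btwn (show (0 : ℝ) < ε / 2 by linarith)
  obtain ⟨a₁, ha₁⟩ := hP' (Sum.inl m)
  obtain ⟨a₂, ha₂⟩ := hP' (Sum.inr (Sum.inl (q, r)))
  obtain ⟨a₃, ha₃⟩ := hP' (Sum.inr (Sum.inr (k, n)))
  refine ⟨max (max a₁ a₂) (max a₃ 2), fun a haE ha => ?_⟩
  have h1 := ha₁ a haE ((le_max_left _ _).trans ((le_max_left _ _).trans ha))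
  have h2 := ha₂ a haE ((le_max_right _ _).trans ((le_max_left _ _).trans ha))
  have h3 := ha₃ a haE ((le_max_left _ _).trans ((le_max_right _ _).trans ha))
  have ha2 : (2 : ℝ) ≤ |(a : ℝ)| := (le_max_right _ _).trans ((le_max_right _ _).trans ha)
  have h1' : MAINURM.GdR δ ε a := MAINURM.GdR.mono hm1 hm3 ha2 h1
  have h2' : GdP q r a := h2 hq1 (by linarith) (by exact_mod_cast hr1)
  have h3' : GdQ k (1 / ((n : ℝ) + 2)) (c k n) a := h3 hk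
  obtain ⟨h, hh, hI, hN1⟩ := h1'
  obtain ⟨h', -, hI', hN2⟩ := h2'
  obtain ⟨h'', -, hI'', hN3⟩ := h3'
  obtain rfl := UNIM.isC_unique hI hI'
  obtain rfl := UNIM.isC_unique hI hI''
  refine ⟨h, hh, hI, fun N hN => ⟨fun hA => hN1 N hN hA, fun hA => ?_, fun hA => ?_⟩⟩
  · have h4 : |(a : ℝ)| ^ (1 / θ) ≤ |(a : ℝ)| ^ (1 / (q : ℝ)) := by
      apply Real.rpow_le_rpow_of_exponent_le (by linarith)
      apply one_div_le_one_div_of_le (by linarith) hq2.le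
    have h5 := hN2 N hN (hA.trans h4)
    refine le_trans ?_ h5
    have h6 := int_nonneg (two_le_of ha2 hN)
    have h7 := hq3 hθ5
    apply mul_le_mul_of_nonneg_right _ (by positivity)
    linarith
  · have h4 : |(a : ℝ)| ^ (2 - δ) ≤ |(a : ℝ)| ^ (2 - 1 / ((n : ℝ) + 2)) :=
      Real.rpow_le_rpow_of_exponent_le (by linarith) (by linarith)
    exact hN3 N hN (hA.trans h4)

end Pool.Agent.Lib.MP391708.U.K
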