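import Pool.Agent.Lib.MP_391708_nt.U.SpecUK2
import Pool.Agent.Lib.MP_391708_nt.U.K.MAINV

/-!
# MAINW: MAINV with the case `k = 1`
-/

set_option autoImplicit false

namespace Pool.Agent.Lib.MP391708.U.K

open Finset Filter Topology Pool.Agent.Lib.MP391708.QPA Pool.Agent.Lib.MP391708.QPA.H
open Pool.Agent.Lib.MP391708.U
open scoped Classical

namespace MAINWM

open MAINVM

/-- the lower bound for the products of `k` primes -/
def GdE (k : ℕ) (δ c : ℝ) (a : ℤ) : Prop := ∃ h : ℝ, 0 < h ∧ IsC a h ∧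
  ∀ N : ℕ, |(a : ℝ)| ≤ N * (Real.log N) ^ (1 / 4 : ℝ) → (N : ℝ) ≤ |(a : ℝ)| ^ (eK k - δ) →
    c * (h * (N / Real.log N)) ≤ cntk k N a

/-- the property with the index `i` -/
def PrW (c : ℕ → ℕ → ℝ) : Idx → ℤ → Prop
  | Sum.inl n, a => MAINURM.GdR (1 / ((n : ℝ) + 6)) (1 / ((n : ℝ) + 1)) a
  | Sum.inr (Sum.inl x), a =>
      7 / 10 < ((x.1 : ℚ) : ℝ) → ((x.1 : ℚ) : ℝ) ≤ 5 / 6 → 0 < ((x.2 : ℚ) : ℝ) → GdP x.1 x.2 a
  | Sum.inr (Sum.inr x), a => 1 ≤ x.1 → GdE x.1 (1 / ((x.2 : ℝ) + 3)) (c x.1 x.2) a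

lemma exists_nat3 (δ : ℝ) (hδ : 0 < δ) : ∃ n : ℕ, 1 / ((n : ℝ) + 3) ≤ δ := by
  obtain ⟨k, hk⟩ := exists_nat_ge (1 / δ)
  rw [div_le_iff₀ hδ] at hk
  refine ⟨k, ?_⟩
  rw [div_le_iff₀ (by positivity)]
  nlinarith

end MAINWM

open MAINVM MAINWM in
theorem specMAINW (hDIAG : SpecDIAG) (hUNIR : SpecUNIR) (hUNIP : SpecUNIP) (hUNIQ : SpecUNIQ)
    (hUNIS : SpecUNIS) : SpecMAINW := by
  -- the constants of UNIQ
  have hc0 : ∀ k n : ℕ, ∃ c : ℝ, 0 < c ∧ (1 ≤ k → ∀ B : ℝ, 0 < B → ∃ A₀ : ℕ, ∀ A : ℕ, A₀ ≤ A →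
      exc A (fun a => (A : ℝ) / 2 < |(a : ℝ)| → GdE k (1 / ((n : ℝ) + 3)) c a)
        ≤ A / (Real.log A) ^ B) := by
    intro k n
    have hn0 : (0 : ℝ) ≤ n := Nat.cast_nonneg n
    by_cases hk : 2 ≤ k
    · obtain ⟨c, hc, h⟩ := hUNIQ k (1 / ((n : ℝ) + 3)) hk (by positivity) (by
        rw [div_lt_one (by positivity)]
        linarith)
      have hk1 : k ≠ 1 := by omega
      refine ⟨c, hc, fun _ => ?_⟩
      simpa only [GdE, eK, if_neg hk1] using h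
    · by_cases hk1 : k = 1
      · obtain ⟨c, hc, h⟩ := hUNIS (1 / ((n : ℝ) + 3)) (by positivity) (by
          rw [div_lt_iff₀ (by positivity)]
          linarith)
        refine ⟨c, hc, fun _ => ?_⟩
        subst hk1
        simpa only [GdE, eK, if_true] using h
      · exact ⟨1, one_pos, fun h => absurd h (by omega)⟩
  choose c hc hcQ using hc0
  obtain ⟨f, hf⟩ := exists_surjective_nat Idx
  have hpos : ∀ (A : ℕ) (B : ℝ), 3 ≤ A → 0 ≤ (A : ℝ) / (Real.log A) ^ B := by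
    intro A B hA
    have h1 := MAINUM.one_le_log hA
    have h2 : 0 < (Real.log A) ^ B := Real.rpow_pos_of_pos (by linarith) _
    positivity
  obtain ⟨E, hE, hP⟩ := hDIAG (fun m a => PrW c (f m) a) (by
    intro m B hB
    generalize f m = i
    rcases i with n | x | x
    · have h1 : (1 : ℝ) / ((n : ℝ) + 6) < 1 / 5 := by
        apply one_div_lt_one_div_of_lt (by norm_num)
        have : (0 : ℝ) ≤ n := Nat.cast_nonneg n
        linarith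
      exact hUNIR (1 / ((n : ℝ) + 6)) (1 / ((n : ℝ) + 1)) B (by positivity) h1
        (by positivity) hB
    · by_cases hx : 7 / 10 < ((x.1 : ℚ) : ℝ) ∧ ((x.1 : ℚ) : ℝ) ≤ 5 / 6 ∧ 0 < ((x.2 : ℚ) : ℝ)
      · obtain ⟨A₀, hA₀⟩ := hUNIP x.1 x.2 B hx.1 hx.2.1 hx.2.2 hB
        refine ⟨A₀, fun A hA => le_trans (UNIM.exc_mono A ?_) (hA₀ A hA)⟩
        intro a _ h1 h2 _ _ _
        exact h1 h2
      · refine ⟨3, fun A hA => ?_⟩
        rw [UNIM.exc_zero A (fun a _ _ h1 h2 h3 => absurd ⟨h1, h2, h3⟩ hx)]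
        exact hpos A B hA
    · by_cases hx : 1 ≤ x.1
      · obtain ⟨A₀, hA₀⟩ := hcQ x.1 x.2 hx B hB
        refine ⟨A₀, fun A hA => le_trans (UNIM.exc_mono A ?_) (hA₀ A hA)⟩
        intro a _ h1 h2 _
        exact h1 h2
      · refine ⟨3, fun A hA => ?_⟩
        rw [UNIM.exc_zero A (fun a _ _ h1 => absurd h1 hx)]
        exact hpos A B hA)
  have hP' : ∀ i : Idx, ∃ a₀ : ℝ, ∀ a : ℤ, a ∉ E → a₀ ≤ |(a : ℝ)| → PrW c i a := by
    intro i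
    obtain ⟨m, rfl⟩ := hf i
    exact hP m
  refine ⟨E, hE, fun k δ hk hδ => ?_⟩
  obtain ⟨n, hn2⟩ := exists_nat3 δ hδ
  refine ⟨c k n, hc k n, fun ε θ hε hθ hθ5 => ?_⟩
  obtain ⟨m, hm1, -, hm3⟩ := MAINVM.exists_nat δ ε hδ hε
  obtain ⟨q, hq1, hq2, hq3⟩ := MAINVM.exists_rat hθ hε
  obtain ⟨r, hr1, hr2⟩ := exists_rat_btwn (show (0 : ℝ) < ε / 2 by linarith)
  obtain ⟨a₁, ha₁⟩ := hP' (Sum.inl m)
  obtain ⟨a₂, ha₂⟩ := hP' (Sum.inr (Sum.inl (q, r)))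
  obtain ⟨a₃, ha₃⟩ := hP' (Sum.inr (Sum.inr (k, n)))
  refine ⟨max (max a₁ a₂) (max a₃ 2), fun a haE ha => ?_⟩
  have h1 := ha₁ a haE ((le_max_left _ _).trans ((le_max_left _ _).trans ha))
  have h2 := ha₂ a haE ((le_max_right _ _).trans ((le_max_left _ _).trans ha))
  have h3 := ha₃ a haE ((le_max_left _ _).trans ((le_max_right _ _).trans ha))
  have ha2 : (2 : ℝ) ≤ |(a : ℝ)| := (le_max_right _ _).trans ((le_max_right _ _).trans ha)
  have h1' : MAINURM.GdR δ ε a := MAINURM.GdR.mono hm1 hm3 ha2 h1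
  have h2' : GdP q r a := h2 hq1 (by linarith) (by exact_mod_cast hr1)
  have h3' : GdE k (1 / ((n : ℝ) + 3)) (c k n) a := h3 hk
  obtain ⟨h, hh, hI, hN1⟩ := h1'
  obtain ⟨h', -, hI', hN2⟩ := h2'
  obtain ⟨h'', -, hI'', hN3⟩ := h3'
  obtain rfl := UNIM.isC_unique hI hI'
  obtain rfl := UNIM.isC_unique hI hI''
  refine ⟨h, hh, hI, fun N hN => ⟨fun hA => hN1 N hN hA, fun hA => ?_, fun hA => ?_⟩⟩
  · have h4 : |(a : ℝ)| ^ (1 / θ) ≤ |(a : ℝ)| ^ (1 / (q : ℝ)) := by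
      apply Real.rpow_le_rpow_of_exponent_le (by linarith)
      apply one_div_le_one_div_of_le (by linarith) hq2.le
    have h5 := hN2 N hN (hA.trans h4)
    refine le_trans ?_ h5
    have h6 := int_nonneg (two_le_of ha2 hN)
    have h7 := hq3 hθ5
    apply mul_le_mul_of_nonneg_right _ (by positivity)
    linarith
  · have h4 : |(a : ℝ)| ^ (eK k - δ) ≤ |(a : ℝ)| ^ (eK k - 1 / ((n : ℝ) + 3)) :=
      Real.rpow_le_rpow_of_exponent_le (by linarith) (by linarith)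
    exact hN3 N hN (hA.trans h4)

end Pool.Agent.Lib.MP391708.U.K
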