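import Pool.Agent.Lib.MP_391708_nt.U.SpecUK

/-!
# MOBV: the Möbius sum for almost all `a` (helper45)
-/

set_option autoImplicit false

namespace Pool.Agent.Lib.MP391708.U.K

open Finset Filter Topology Pool.Agent.Lib.MP391708.QPA Pool.Agent.Lib.MP391708.QPA.H
open Pool.Agent.Lib.MP391708.U
open scoped Classical

namespace MOBVM

/-- powers of the logarithm -/
theorem ev_logpow (s e c : ℝ) (he : 0 < e) (hc : 0 < c) :
    ∀ᶠ N : ℕ in atTop, c * (Real.log N) ^ s ≤ (N : ℝ) ^ e := by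
  have h1 : (fun x : ℝ => Real.log x ^ s) =o[atTop] fun x => x ^ e :=
    isLittleO_log_rpow_rpow_atTop s he
  have h2 := h1.def (show (0 : ℝ) < 1 / c by positivity)
  have h3 := (tendsto_natCast_atTop_atTop (R := ℝ)).eventually h2
  have h4 : ∀ᶠ N : ℕ in atTop, (1 : ℝ) ≤ N :=
    (tendsto_natCast_atTop_atTop (R := ℝ)).eventually_ge_atTop 1
  filter_upwards [h3, h4] with N hN h5
  have h6 : 0 ≤ Real.log (N : ℝ) := Real.log_nonneg h5
  rw [Real.norm_eq_abs, Real.norm_eq_abs, abs_of_nonneg (Real.rpow_nonneg h6 _),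
    abs_of_nonneg (Real.rpow_nonneg (by linarith) _)] at hN
  calc c * (Real.log N) ^ s ≤ c * (1 / c * (N : ℝ) ^ e) := mul_le_mul_of_nonneg_left hN hc.le
    _ = _ := by field_simp

/-- the logarithm is large -/
theorem ev_log (c : ℝ) : ∀ᶠ N : ℕ in atTop, c ≤ Real.log (N : ℝ) :=
  ((Real.tendsto_log_atTop.comp (tendsto_natCast_atTop_atTop (R := ℝ))).eventually_ge_atTop c)

end MOBVM

theorem specMOBV (hRHOWV : SpecRHOWV) : SpecMOBV := by
  intro e0 δ B he0 he1 hδ hB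
  have hB' : 0 < max B 1 := lt_max_of_lt_left hB
  obtain ⟨V₀, hV₀, hV⟩ := hRHOWV 0 (max B 1) 1 hB' one_pos
  obtain ⟨N₁, hN₁⟩ := hV V₀ le_rfl
  obtain ⟨N₂, hN₂⟩ := eventually_atTop.1 (((MOBVM.ev_logpow V₀ e0 1 he0 one_pos).and
    (MOBVM.ev_logpow 0 e0 3 he0 (by norm_num))).and (MOBVM.ev_log (max 1 (1 / δ))))
  refine ⟨max (max N₁ N₂) 2, fun N A hN hA1 hA2 Y hY1 hYN => ?_⟩
  have hNN₁ : N₁ ≤ N := (le_max_left _ _).trans ((le_max_left _ _).trans hN)
  have hNN₂ : N₂ ≤ N := (le_max_right _ _).trans ((le_max_left _ _).trans hN)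
  obtain ⟨⟨hz1, hz3⟩, hl⟩ := hN₂ N hNN₂
  rw [one_mul] at hz1
  rw [Real.rpow_zero, mul_one] at hz3
  have hl1 : 1 ≤ Real.log (N : ℝ) := (le_max_left _ _).trans hl
  have hlδ : 1 / δ ≤ Real.log (N : ℝ) := (le_max_right _ _).trans hl
  have hl0 : 0 < Real.log (N : ℝ) := by linarith
  obtain ⟨z, hz⟩ : ∃ z : ℝ, z = (N : ℝ) ^ e0 := ⟨_, rfl⟩
  rw [← hz] at hz1 hz3 ⊢
  have hYf : ⌊Y⌋₊ ≤ N := by
    have h1 : ((⌊Y⌋₊ : ℕ) : ℝ) ≤ N := (Nat.floor_le (by linarith)).trans hYN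
    exact_mod_cast h1
  obtain ⟨β, hβ⟩ : ∃ β : ℕ → ℝ, β = fun k => if k ∈ (Icc 1 ⌊Y⌋₊).filter (fun k => Rough z k) then
    (ArithmeticFunction.moebius k : ℝ) / k else 0 := ⟨_, rfl⟩
  have hβ1 : ∀ k, β k ≠ 0 → 1 ≤ k ∧ k ≤ 4 * N ∧ Odd k ∧ Squarefree k ∧
      Rough ((Real.log N) ^ V₀) k := by
    intro k hk
    rw [hβ] at hk
    simp only at hk
    split_ifs at hk with h1
    · rw [mem_filter, mem_Icc] at h1
      obtain ⟨⟨h2, h3⟩, h4⟩ := h1
      have h5 : ArithmeticFunction.moebius k ≠ 0 := by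
        intro h6
        rw [h6] at hk
        simp at hk
      refine ⟨h2, by omega, ?_, ArithmeticFunction.moebius_ne_zero_iff_squarefree.1 h5, ?_⟩
      · by_contra h6
        rw [Nat.not_odd_iff_even] at h6
        have h7 := h4 2 Nat.prime_two h6.two_dvd
        push_cast at h7
        linarith
      · intro p hp hpk
        exact hz1.trans (h4 p hp hpk)
    · exact absurd rfl hk
  have hβ2 : ∀ k, |β k| ≤ (Real.log N) ^ (1 : ℝ) * ta k ^ 0 / k := by
    intro k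
    have h0 : (0 : ℝ) ≤ (Real.log N) ^ (1 : ℝ) * ta k ^ 0 / k := by
      rw [Real.rpow_one, pow_zero, mul_one]
      positivity
    rw [hβ]
    simp only
    split_ifs with h1
    · have hk0 : (0 : ℝ) < k := by
        rw [mem_filter, mem_Icc] at h1
        exact_mod_cast h1.1.1
      rw [abs_div, abs_of_pos hk0, Real.rpow_one, pow_zero, mul_one]
      apply div_le_div_of_nonneg_right _ hk0.le
      have h2 : |(ArithmeticFunction.moebius k : ℝ)| ≤ 1 := by
        have h3 : |ArithmeticFunction.moebius k| ≤ 1 := ArithmeticFunction.abs_moebius_le_one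
        exact_mod_cast h3
      exact h2.trans hl1
    · rw [abs_zero]
      exact h0
  have h1 := hN₁ N A hNN₁ hA1 hA2 β hβ1 hβ2
  have hsum : ∀ a : ℤ, ∑ k ∈ Icc 1 (4 * N), β k * ((rho a k : ℝ) - 1) =
      ∑ k ∈ (Icc 1 ⌊Y⌋₊).filter (fun k => Rough z k),
        (ArithmeticFunction.moebius k : ℝ) * ((rho a k : ℝ) - 1) / k := by
    intro a
    have hsub : (Icc 1 ⌊Y⌋₊).filter (fun k => Rough z k) ⊆ Icc 1 (4 * N) := by
      intro k hk
      rw [mem_filter, mem_Icc] at hk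
      rw [mem_Icc]
      omega
    rw [← sum_subset hsub (f := fun k => β k * ((rho a k : ℝ) - 1))]
    · refine sum_congr rfl fun k hk => ?_
      rw [hβ]
      simp only
      rw [if_pos hk]
      ring
    · intro k _ hk
      rw [hβ]
      simp only
      rw [if_neg hk, zero_mul]
  have hmono : exc A (fun a => |∑ k ∈ (Icc 1 ⌊Y⌋₊).filter (fun k => Rough z k),
      (ArithmeticFunction.moebius k : ℝ) * ((rho a k : ℝ) - 1) / k| ≤ δ) ≤
      exc A (fun a => |∑ k ∈ Icc 1 (4 * N), β k * ((rho a k : ℝ) - 1)|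
        ≤ 1 / (Real.log N) ^ (max B 1)) := by
    unfold exc
    apply Nat.cast_le.2
    apply card_le_card
    intro a ha
    rw [mem_filter] at ha ⊢
    refine ⟨ha.1, fun h2 => ha.2 ?_⟩
    simp only at h2 ⊢
    rw [hsum a] at h2
    refine h2.trans ?_
    have h3 : Real.log (N : ℝ) ≤ (Real.log N) ^ (max B 1) := by
      calc Real.log (N : ℝ) = (Real.log N) ^ (1 : ℝ) := (Real.rpow_one _).symm
        _ ≤ _ := Real.rpow_le_rpow_of_exponent_le hl1 (le_max_right _ _)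
    have h4 : 1 / δ ≤ (Real.log N) ^ (max B 1) := hlδ.trans h3
    rw [div_le_iff₀ (lt_of_lt_of_le hl0 h3)]
    rw [div_le_iff₀ hδ] at h4
    linarith
  refine hmono.trans (h1.trans ?_)
  apply div_le_div_of_nonneg_left (Nat.cast_nonneg A) (Real.rpow_pos_of_pos hl0 _)
  exact Real.rpow_le_rpow_of_exponent_le hl1 (le_max_left _ _)

end Pool.Agent.Lib.MP391708.U.K
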