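import Mathlib
import Pool.Agent.Lib.MP_391708_nt.U.SpecUK
import Pool.Agent.Lib.MP_391708_nt.QPA.NSF

/-!
# Project UK (MP_391708), module NSFV (helper77)
-/

set_option autoImplicit false

namespace Pool.Agent.Lib.MP391708.U.K

open Finset Filter Topology
open Pool.Agent.Lib.MP391708.QPA Pool.Agent.Lib.MP391708.QPA.H
open scoped Classical

namespace NSFVM

/-- a constant is absorbed by a power. -/
theorem absorb {N c r s t : ℝ} (hN : 1 ≤ N) (hc : c ≤ 1 / 4 * N ^ s) (h : r + s ≤ t) :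
    c * N ^ r ≤ 1 / 4 * N ^ t := by
  have hN0 : 0 < N := by linarith
  calc c * N ^ r ≤ 1 / 4 * N ^ s * N ^ r := mul_le_mul_of_nonneg_right hc (by positivity)
    _ = 1 / 4 * N ^ (r + s) := by rw [mul_assoc, ← Real.rpow_add hN0, add_comm s r]
    _ ≤ 1 / 4 * N ^ t :=
      mul_le_mul_of_nonneg_left (Real.rpow_le_rpow_of_exponent_le hN h) (by norm_num)

end NSFVM

/-- **Module NSFV.** -/
theorem specNSFV (hQG : SpecQG) : SpecNSFV := by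
  intro θ e0 hθ he0 _
  set τ : ℝ := min (θ - 1 / 2) (1 / 2) with hτdef
  have hτ0 : 0 < τ := lt_min (by linarith) (by norm_num)
  have hτ1 : τ ≤ θ - 1 / 2 := min_le_left _ _
  have hτ2 : τ ≤ 1 / 2 := min_le_right _ _
  have hτ20 : 0 < τ / 20 := by positivity
  set σ : ℝ := min (e0 / 2) (τ / 5) with hσdef
  have hσ0 : 0 < σ := lt_min (by linarith) (by linarith)
  have hσ1 : σ ≤ e0 / 2 := min_le_left _ _
  have hσ2 : σ ≤ τ / 5 := min_le_right _ _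
  refine ⟨σ, hσ0, ?_⟩
  obtain ⟨C, hC, hQ⟩ := hQG (τ / 20) hτ20
  have hev : ∀ᶠ N : ℕ in atTop, 4 ≤ (N : ℝ) ^ (2 / 5 : ℝ) ∧ 24 ≤ (N : ℝ) ^ (e0 / 2) ∧
      8 * C ≤ (N : ℝ) ^ (τ / 5) ∧ 1 * (1 + Real.log N) ≤ (N : ℝ) ^ (1 / 2 + τ / 2) ∧
      420 ≤ (N : ℝ) ^ (4 * τ / 5) ∧ 1 ≤ Real.log N ∧ 1 ≤ N ∧ 1 ≤ (N : ℝ) ^ e0 :=
    (RHOMEAN.ev_rpow _ (by norm_num) _).and
      ((RHOMEAN.ev_rpow _ (by positivity) _).and
      ((RHOMEAN.ev_rpow _ (by positivity) _).and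
      ((RHOMEAN.ev_log_rpow _ (by positivity) _ (by positivity)).and
      ((RHOMEAN.ev_rpow _ (by positivity) _).and
      ((RHOMEAN.ev_log 1).and ((eventually_ge_atTop 1).and (RHOMEAN.ev_rpow e0 he0 1)))))))
  obtain ⟨N₀, hN₀⟩ := eventually_atTop.mp hev
  refine ⟨N₀, ?_⟩
  intro N A hN hAdm
  obtain ⟨ha, hb, hc, hd, hf, hL, hN1, hz1⟩ := hN₀ N hN
  obtain ⟨hA1, hA2⟩ := hAdm
  have hNR : (1 : ℝ) ≤ N := by exact_mod_cast hN1
  have hNpos : (0 : ℝ) < N := by linarith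
  set L : ℝ := Real.log N with hLdef
  set z : ℝ := (N : ℝ) ^ e0 with hzdef
  set B : ℝ := (N : ℝ) ^ (3 / 4 + τ / 4) with hBdef
  have hLpos : 0 < L := by linarith
  have hzpos : 0 < z := by linarith
  have hBpos : 0 < B := by rw [hBdef]; positivity
  have hA56 : (N : ℝ) ^ (1 / 2 + τ) ≤ A :=
    (Real.rpow_le_rpow_of_exponent_le hNR (by linarith)).trans hA1
  have hA12 : (N : ℝ) ^ (1 / 2 : ℝ) ≤ A :=
    (Real.rpow_le_rpow_of_exponent_le hNR (by linarith)).trans hA1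
  have hA0 : (1 : ℝ) ≤ A := (Real.one_le_rpow hNR (by norm_num)).trans hA12
  have hB2 : B ^ 2 = (N : ℝ) ^ (3 / 2 + τ / 2) := by
    rw [hBdef, ← Real.rpow_natCast, ← Real.rpow_mul hNpos.le]
    congr 1
    push_cast
    ring
  have hpw : ∀ r s : ℝ, (N : ℝ) ^ r * (N : ℝ) ^ s = (N : ℝ) ^ (r + s) := fun r s =>
    (Real.rpow_add hNpos r s).symm
  have hN1' : (N : ℝ) ^ (1 : ℝ) = N := Real.rpow_one _
  have hN2' : (N : ℝ) ^ (2 : ℝ) = (N : ℝ) ^ 2 := by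
    rw [← Real.rpow_natCast]
    norm_num
  have hLN : L < (N : ℝ) ^ (1 / 2 + τ / 2) := by linarith
  have hAB : (A : ℝ) < B ^ 2 := by
    rw [hB2]
    calc (A : ℝ) ≤ N * L := hA2
      _ < N * (N : ℝ) ^ (1 / 2 + τ / 2) := mul_lt_mul_of_pos_left hLN hNpos
      _ = (N : ℝ) ^ (3 / 2 + τ / 2) := by
        nth_rewrite 1 [← hN1']
        rw [hpw]
        congr 1
        ring
  have hAN : (A : ℝ) ≤ (N : ℝ) ^ 2 := by
    refine hAB.le.trans ?_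
    rw [hB2, ← hN2']
    exact Real.rpow_le_rpow_of_exponent_le hNR (by linarith)
  rw [NSF.sum_eq_card]
  refine (NSF.cover N A z B).trans ?_
  have hBN : B ≤ N := by
    calc B ≤ (N : ℝ) ^ (1 : ℝ) := Real.rpow_le_rpow_of_exponent_le hNR (by linarith)
      _ = N := hN1'
  have hPN : ⌊B⌋₊ ≤ N := Nat.floor_le_of_le hBN
  have hs := NSF.sum_small (A := A) hC hτ20 hQ hN1 hz1 hPN
  have hl := NSF.card_large hN1 hAN hAB hBpos
  have hAnn : (0 : ℝ) ≤ A := by linarith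
  have h1 : (N : ℝ) ≤ A * (1 / 4 * (N : ℝ) ^ (1 - σ)) := by
    calc (N : ℝ) = (N : ℝ) ^ (1 / 2 : ℝ) * (1 * (N : ℝ) ^ (1 / 2 : ℝ)) := by
          rw [one_mul, hpw]
          norm_num
      _ ≤ A * (1 / 4 * (N : ℝ) ^ (1 - σ)) :=
          mul_le_mul hA12 (NSFVM.absorb hNR (s := 2 / 5) (by linarith) (by linarith))
            (by positivity) hAnn
  have h2 : 2 * (2 * (A : ℝ) + 1) * N / z ≤ A * (1 / 4 * (N : ℝ) ^ (1 - σ)) := by
    have e1 : (N : ℝ) / z = (N : ℝ) ^ (1 - e0) := by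
      rw [hzdef, Real.rpow_sub hNpos, Real.rpow_one]
    have e2 : 2 * (2 * (A : ℝ) + 1) * N / z ≤ A * (6 * (N : ℝ) ^ (1 - e0)) := by
      rw [← e1, mul_div_assoc]
      have e3 : (0 : ℝ) ≤ N / z := by positivity
      nlinarith
    exact e2.trans (mul_le_mul_of_nonneg_left
      (NSFVM.absorb hNR (s := e0 / 2) (by linarith) (by linarith)) hAnn)
  have h3 : C * (N : ℝ) ^ (2 * (τ / 20)) * (N * (1 + L) + (⌊B⌋₊ : ℝ) ^ 2)
      ≤ A * (1 / 4 * (N : ℝ) ^ (1 - σ)) := by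
    have e1 : (N : ℝ) * (1 + L) ≤ (N : ℝ) ^ (3 / 2 + τ / 2) := by
      calc (N : ℝ) * (1 + L) ≤ N * (N : ℝ) ^ (1 / 2 + τ / 2) :=
            mul_le_mul_of_nonneg_left (by linarith) hNpos.le
        _ = (N : ℝ) ^ (3 / 2 + τ / 2) := by
            nth_rewrite 1 [← hN1']
            rw [hpw]
            congr 1
            ring
    have e2 : (⌊B⌋₊ : ℝ) ^ 2 ≤ (N : ℝ) ^ (3 / 2 + τ / 2) := by
      rw [← hB2]
      exact pow_le_pow_left₀ (by positivity) (Nat.floor_le hBpos.le) 2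
    calc C * (N : ℝ) ^ (2 * (τ / 20)) * (N * (1 + L) + (⌊B⌋₊ : ℝ) ^ 2)
        ≤ C * (N : ℝ) ^ (2 * (τ / 20)) *
            ((N : ℝ) ^ (3 / 2 + τ / 2) + (N : ℝ) ^ (3 / 2 + τ / 2)) :=
          mul_le_mul_of_nonneg_left (add_le_add e1 e2) (by positivity)
      _ = 2 * C * ((N : ℝ) ^ (2 * (τ / 20)) * (N : ℝ) ^ (3 / 2 + τ / 2)) := by ring
      _ = 2 * C * ((N : ℝ) ^ (1 / 2 + τ) * (N : ℝ) ^ (1 - 2 * τ / 5)) := by
          rw [hpw, hpw]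
          congr 2
          ring
      _ = (N : ℝ) ^ (1 / 2 + τ) * (2 * C * (N : ℝ) ^ (1 - 2 * τ / 5)) := by ring
      _ ≤ A * (1 / 4 * (N : ℝ) ^ (1 - σ)) :=
          mul_le_mul hA56 (NSFVM.absorb hNR (s := τ / 5) (by linarith) (by linarith))
            (by positivity) hAnn
  have h4 : ((((Ioc N (2 * N)) ×ˢ (IA A)).filter (fun t => NSF.LC B t)).card : ℝ)
      ≤ A * (1 / 4 * (N : ℝ) ^ (1 - σ)) := by
    have e0' : 5 * (N : ℝ) ^ 2 / B ^ 2 = 5 * (N : ℝ) ^ (1 / 2 - τ / 2) := by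
      rw [hB2, ← hN2', div_eq_iff (by positivity), mul_assoc, hpw]
      congr 2
      ring
    have e1 : 9 * (N : ℝ) ^ 2 * (A / B ^ 2) = 9 * A * (N : ℝ) ^ (1 / 2 - τ / 2) := by
      have : 9 * (N : ℝ) ^ 2 * (A / B ^ 2) = 9 / 5 * A * (5 * (N : ℝ) ^ 2 / B ^ 2) := by ring
      rw [this, e0']
      ring
    set x : ℝ := (N : ℝ) ^ (1 / 2 - τ / 2) with hx
    have hx1 : 1 ≤ x := Real.one_le_rpow hNR (by linarith)
    rw [e0', e1] at hl
    have e2 : ((((Ioc N (2 * N)) ×ˢ (IA A)).filter (fun t => NSF.LC B t)).card : ℝ)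
        ≤ (⌊5 * x⌋₊ : ℝ) * (2 * ((⌊9 * A * x⌋₊ : ℝ) + 1) + 1) := by exact_mod_cast hl
    have e3 : (⌊5 * x⌋₊ : ℝ) ≤ 5 * x := Nat.floor_le (by positivity)
    have e4 : (⌊9 * (A : ℝ) * x⌋₊ : ℝ) ≤ 9 * A * x := Nat.floor_le (by positivity)
    have hAx : 1 ≤ (A : ℝ) * x := by nlinarith
    have e5 : (⌊5 * x⌋₊ : ℝ) * (2 * ((⌊9 * A * x⌋₊ : ℝ) + 1) + 1) ≤ (5 * x) * (21 * (A * x)) :=
      mul_le_mul e3 (by nlinarith) (by positivity) (by positivity)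
    calc ((((Ioc N (2 * N)) ×ˢ (IA A)).filter (fun t => NSF.LC B t)).card : ℝ)
        ≤ (5 * x) * (21 * (A * x)) := e2.trans e5
      _ = A * (105 * (x * x)) := by ring
      _ = A * (105 * (N : ℝ) ^ (1 - τ)) := by
          rw [hx, hpw]
          congr 3
          ring
      _ ≤ A * (1 / 4 * (N : ℝ) ^ (1 - σ)) :=
          mul_le_mul_of_nonneg_left
            (NSFVM.absorb hNR (s := 4 * τ / 5) (by linarith) (by linarith)) hAnn
  have hT : (A : ℝ) * (N : ℝ) ^ (1 - σ) = 4 * (A * (1 / 4 * (N : ℝ) ^ (1 - σ))) := by ring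
  rw [hT]
  linarith

end Pool.Agent.Lib.MP391708.U.K
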