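import Pool.Agent.Lib.MP_391708_nt.U.SpecUK
import Pool.Agent.Lib.MP_391708_nt.U.RHOW

set_option autoImplicit false

/-! # Module RHOWV: RHOW for `A ≥ N^(1/2)`. -/

namespace Pool.Agent.Lib.MP391708.U.K

open Finset Filter Topology Pool.Agent.Lib.MP391708.QPA Pool.Agent.Lib.MP391708.QPA.H
open Pool.Agent.Lib.MP391708.U
open scoped Classical

noncomputable section

namespace RHOWVM

/-- real analysis: the conditions on `N` -/
lemma ev (C Q : ℝ) : ∀ᶠ N : ℕ in atTop, 3 ≤ N ∧ 1 ≤ Real.log N ∧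
    1 + Real.log (8 * (N : ℝ)) ≤ (Real.log N) ^ 2 ∧ (Nat.log 2 (4 * N) + 1 : ℝ) ≤ (Real.log N) ^ 2 ∧
    4 * C ≤ Real.log N ∧ 4 * C * (Real.log N) ^ Q ≤ (N : ℝ) ^ (1 / 20 : ℝ) := by
  have hlog : Tendsto (fun N : ℕ => Real.log (N : ℝ)) atTop atTop :=
    Real.tendsto_log_atTop.comp tendsto_natCast_atTop_atTop
  have h1 := hlog.eventually_ge_atTop (max 6 (4 * C))
  have h2 : ∀ᶠ x : ℝ in atTop, 4 * C * (Real.log x) ^ Q ≤ x ^ (1 / 20 : ℝ) := by
    have h := (isLittleO_log_rpow_rpow_atTop Q (by norm_num : (0 : ℝ) < 1 / 20)).bound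
      (show (0 : ℝ) < 1 / (4 * |C| + 1) by positivity)
    filter_upwards [h, eventually_ge_atTop (1 : ℝ)] with x hx hx1
    have h3 : 0 ≤ Real.log x := Real.log_nonneg hx1
    have h4 : 0 ≤ (Real.log x) ^ Q := Real.rpow_nonneg h3 _
    have h5 : 0 ≤ x ^ (1 / 20 : ℝ) := Real.rpow_nonneg (by linarith) _
    rw [Real.norm_of_nonneg h4, Real.norm_of_nonneg h5] at hx
    have h6 : (4 * |C| + 1) * (Real.log x) ^ Q ≤ x ^ (1 / 20 : ℝ) := by
      have h7 : (0 : ℝ) < 4 * |C| + 1 := by positivity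
      calc (4 * |C| + 1) * (Real.log x) ^ Q
          ≤ (4 * |C| + 1) * (1 / (4 * |C| + 1) * x ^ (1 / 20 : ℝ)) :=
            mul_le_mul_of_nonneg_left hx h7.le
        _ = x ^ (1 / 20 : ℝ) := by field_simp
    have h8 : 4 * C ≤ 4 * |C| + 1 := by have := le_abs_self C; linarith
    exact le_trans (mul_le_mul_of_nonneg_right h8 h4) h6
  filter_upwards [h1, tendsto_natCast_atTop_atTop.eventually h2, eventually_ge_atTop 8] with N a1 a2 a3
  have b1 : 6 ≤ Real.log N := le_trans (le_max_left _ _) a1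
  have b2 : 4 * C ≤ Real.log N := le_trans (le_max_right _ _) a1
  have hN0 : (0 : ℝ) < N := by exact_mod_cast (by omega : 0 < N)
  have c1 : Real.log (8 * (N : ℝ)) ≤ 2 * Real.log N := by
    rw [Real.log_mul (by norm_num) hN0.ne']
    have : Real.log 8 ≤ Real.log N := Real.log_le_log (by norm_num) (by exact_mod_cast a3)
    linarith
  refine ⟨by omega, by linarith, by nlinarith, ?_, b2, a2⟩
  have c2 : (Nat.log 2 (4 * N) : ℝ) ≤ Real.logb 2 ((4 * N : ℕ) : ℝ) := by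
    have := Real.natLog_le_logb (4 * N) 2
    exact_mod_cast this
  have c3 : Real.logb 2 ((4 * N : ℕ) : ℝ) ≤ 2 * Real.log ((4 * N : ℕ) : ℝ) := by
    rw [Real.logb, div_le_iff₀ (Real.log_pos (by norm_num))]
    have h9 : 0.6931471803 < Real.log 2 := Real.log_two_gt_d9
    have h10 : 0 ≤ Real.log ((4 * N : ℕ) : ℝ) := Real.log_natCast_nonneg _
    nlinarith
  have c4 : Real.log ((4 * N : ℕ) : ℝ) ≤ 2 * Real.log N := by
    refine le_trans (Real.log_le_log ?_ ?_) c1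
    · push_cast; positivity
    · push_cast; linarith
  nlinarith

end RHOWVM

open Pool.Agent.Lib.MP391708.U.RHOWM in
theorem specRHOWV (hR : SpecRWAV) (hT : SpecTAUM) (hD : QPA.SpecRHOD) : SpecRHOWV := by
  intro j B C₀ hB hC₀
  obtain ⟨C, hC, hW⟩ := hR j
  set P : ℝ := 2 + B + C₀ + 2 * 2 ^ j with hP
  have hP0 : 0 < P := by positivity
  refine ⟨3 + 2 * P + 2 * 4 ^ j + B, by positivity, ?_⟩
  intro V hV
  obtain ⟨N₀, hN₀⟩ := eventually_atTop.1 (RHOWVM.ev C (2 + 4 * P + B))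
  refine ⟨N₀, ?_⟩
  intro N A hN hA1 hA2 β hβ hβ2
  obtain ⟨e1, e2, e3, e4, e5, e6⟩ := hN₀ N hN
  set L : ℝ := Real.log N with hL
  have hL0 : 0 < L := by linarith
  have hN1 : (1 : ℝ) ≤ N := by exact_mod_cast (by omega : 1 ≤ N)
  set I : ℕ := Nat.log 2 (4 * N) + 1 with hI
  set D : ℝ := L ^ C₀ * (1 + Real.log ((4 * N : ℕ) : ℝ)) ^ 2 ^ j with hDdef
  have hl4 : 0 ≤ Real.log ((4 * N : ℕ) : ℝ) := Real.log_natCast_nonneg _
  have hD0 : 0 < D := by positivity
  have hl48 : Real.log ((4 * N : ℕ) : ℝ) ≤ Real.log (8 * (N : ℝ)) := by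
    apply Real.log_le_log
    · push_cast; positivity
    · push_cast; linarith
  have hDle : D ≤ L ^ (C₀ + 2 * 2 ^ j) := by
    rw [hDdef, Real.rpow_add hL0]
    refine mul_le_mul_of_nonneg_left ?_ (by positivity)
    have h1 : (1 + Real.log ((4 * N : ℕ) : ℝ)) ^ 2 ^ j ≤ (L ^ 2) ^ 2 ^ j :=
      pow_le_pow_left₀ (by positivity) (by linarith) _
    refine le_trans h1 (le_of_eq ?_)
    rw [← pow_mul, ← Real.rpow_natCast]
    push_cast
    ring_nf
  set t : ℝ := 1 / L ^ B with ht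
  have ht0 : 0 < t := by positivity
  -- the blocks
  set S : ℤ → ℕ → ℝ := fun a i => ∑ e ∈ Ioc (2 ^ i) (2 * 2 ^ i), gam N β e * (jacobiSym (-a) e : ℝ)
    with hS
  have hsum : ∀ a : ℤ, ∑ k ∈ Icc 1 (4 * N), β k * ((rho a k : ℝ) - 1) = ∑ i ∈ range I, S a i := by
    intro a
    rw [sum_eq hD N a β (fun k hk => ⟨(hβ k hk).2.2.1, (hβ k hk).2.2.2.1⟩)]
    apply dyad
    · exact (Nat.lt_pow_succ_log_self (by norm_num) _).le
    · intro e he
      have : gam N β e = 0 := by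
        by_contra h
        have := (gam_ne N β e h).2.1
        omega
      rw [this, zero_mul]
  have hA0 : (1 : ℝ) ≤ A := le_trans (Real.one_le_rpow hN1 (by norm_num)) hA1
  -- the scaled coefficients
  set γ : ℕ → ℝ := fun e => gam N β e / D with hγ
  have hγ1 : ∀ e, γ e ≠ 0 → Odd e ∧ Squarefree e := by
    intro e he
    have h0 : gam N β e ≠ 0 := by
      intro h; apply he; simp [hγ, h]
    obtain ⟨h1, h2, k, hk, hk2⟩ := gam_ne N β e h0
    obtain ⟨g1, g2, g3, g4, g5⟩ := hβ k hk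
    exact ⟨g3.of_dvd_nat hk2, g4.squarefree_of_dvd hk2⟩
  have hγ2 : ∀ e, |γ e| ≤ ta e ^ j / e := by
    intro e
    have h1 := gam_le hT N j (by omega) β (L ^ C₀) (by positivity) hβ2 e
    rw [hγ]
    simp only
    rw [abs_div, abs_of_pos hD0, div_le_iff₀ hD0]
    linarith
  have hSγ : ∀ a i, S a i = D * ∑ e ∈ Ioc (2 ^ i) (2 * 2 ^ i), γ e * (jacobiSym (-a) e : ℝ) := by
    intro a i
    rw [hS, Finset.mul_sum]
    refine Finset.sum_congr rfl fun e _ => ?_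
    rw [hγ]
    field_simp
  have hrough : ∀ e, gam N β e ≠ 0 → L ^ V ≤ (e : ℝ) := by
    intro e he
    obtain ⟨h1, h2, k, hk, hk2⟩ := gam_ne N β e he
    obtain ⟨g1, g2, g3, g4, g5⟩ := hβ k hk
    obtain ⟨p, hp, hpe⟩ := Nat.exists_prime_and_dvd (by omega : e ≠ 1)
    have h3 := g5 p hp (hpe.trans hk2)
    have h4 : (p : ℝ) ≤ e := by exact_mod_cast Nat.le_of_dvd (by omega) hpe
    linarith
  have hTle : (I : ℝ) / t * D ≤ L ^ P := by
    have h1 : (I : ℝ) / t = I * L ^ B := by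
      rw [ht]; field_simp
    have h2 : (I : ℝ) ≤ L ^ (2 : ℝ) := by
      rw [hI, Real.rpow_two]; push_cast; exact e4
    rw [h1]
    calc (I : ℝ) * L ^ B * D ≤ L ^ (2 : ℝ) * L ^ B * L ^ (C₀ + 2 * 2 ^ j) := by
          apply mul_le_mul (mul_le_mul_of_nonneg_right h2 (by positivity)) hDle hD0.le (by positivity)
      _ = L ^ P := by
          rw [← Real.rpow_add hL0, ← Real.rpow_add hL0]
          congr 1
          rw [hP]; ring
  have hT0 : 0 ≤ (I : ℝ) / t * D := by positivity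
  have hAN : (N : ℝ) ^ (1 / 20 : ℝ) ≤ (A : ℝ) ^ (1 / 10 : ℝ) := by
    have h1 : (N : ℝ) ^ (1 / 20 : ℝ) = ((N : ℝ) ^ (1 / 2 : ℝ)) ^ (1 / 10 : ℝ) := by
      rw [← Real.rpow_mul (by linarith)]; norm_num
    rw [h1]
    exact Real.rpow_le_rpow (by positivity) hA1 (by norm_num)
  have hkey : 4 * C * L ^ (2 + 4 * P + B) ≤ (A : ℝ) ^ (1 / 10 : ℝ) := le_trans e6 hAN
  have hApos : (0 : ℝ) < A := by linarith
  have hA9 : (A : ℝ) ^ (1 / 10 : ℝ) * (A : ℝ) ^ (9 / 10 : ℝ) = A := by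
    rw [← Real.rpow_add hApos]; norm_num
  have hq0 : (0 : ℝ) < L ^ (B + 2) := by positivity
  -- one block
  have hblock : ∀ i ∈ range I, ∑ a ∈ IA A, (if ((2 ^ i : ℕ) : ℝ) ≤ (A : ℝ) ^ (3 / 4 : ℝ)
      then ((I : ℝ) / t * S a i) ^ 2 else (I / t * S a i) ^ 4) ≤ A / L ^ (B + 2) := by
    intro i hi
    rw [mem_range] at hi
    have hE : 2 ^ i ≤ 4 * N := by
      refine le_trans (Nat.pow_le_pow_right (by norm_num) (by omega : i ≤ Nat.log 2 (4 * N))) ?_
      exact Nat.pow_log_le_self 2 (by omega)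
    obtain ⟨w1, w2⟩ := hW N A (2 ^ i) γ (by omega) hA1 hA2 Nat.one_le_two_pow hE hγ1 hγ2
    by_cases hcase : ((2 ^ i : ℕ) : ℝ) ≤ (A : ℝ) ^ (3 / 4 : ℝ)
    · simp only [if_pos hcase]
      by_cases hz : ∀ e ∈ Ioc (2 ^ i) (2 * 2 ^ i), gam N β e = 0
      · have hS0 : ∀ a, S a i = 0 := by
          intro a
          rw [hS]
          exact Finset.sum_eq_zero fun e he => by rw [hz e he, zero_mul]
        simp only [hS0]
        simp
        positivity
      · push Not at hz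
        obtain ⟨e, he, he0⟩ := hz
        have h1 : L ^ V ≤ 2 * ((2 ^ i : ℕ) : ℝ) := by
          refine le_trans (hrough e he0) ?_
          exact_mod_cast (mem_Ioc.1 he).2
        have h2 := w1 hcase
        have h3 : ∑ a ∈ IA A, ((I : ℝ) / t * S a i) ^ 2 = ((I : ℝ) / t * D) ^ 2 *
            ∑ a ∈ IA A, (∑ e ∈ Ioc (2 ^ i) (2 * 2 ^ i), γ e * (jacobiSym (-a) e : ℝ)) ^ 2 := by
          rw [Finset.mul_sum]
          refine Finset.sum_congr rfl fun a _ => ?_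
          rw [hSγ]; ring
        rw [h3]
        have hVp : 0 < L ^ V := by positivity
        have h4 : (A : ℝ) * (1 + Real.log (8 * N)) ^ 4 ^ j / ((2 ^ i : ℕ) : ℝ)
            ≤ A * L ^ (2 * 4 ^ j : ℝ) * (2 / L ^ V) := by
          have h5 : (1 + Real.log (8 * N)) ^ 4 ^ j ≤ L ^ (2 * 4 ^ j : ℝ) := by
            have h6 : (1 + Real.log (8 * (N : ℝ))) ^ 4 ^ j ≤ (L ^ 2) ^ 4 ^ j :=
              pow_le_pow_left₀ (by linarith) e3 _
            refine le_trans h6 (le_of_eq ?_)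
            rw [← pow_mul, ← Real.rpow_natCast]
            push_cast
            ring_nf
          have h7 : (1 : ℝ) / ((2 ^ i : ℕ) : ℝ) ≤ 2 / L ^ V := by
            rw [div_le_div_iff₀ (by positivity) hVp]
            linarith
          rw [div_eq_mul_one_div]
          exact mul_le_mul (mul_le_mul_of_nonneg_left h5 hApos.le) h7 (by positivity) (by positivity)
        have h8 : ((I : ℝ) / t * D) ^ 2 ≤ (L ^ P) ^ 2 := pow_le_pow_left₀ hT0 hTle _
        have h9 : (L ^ P) ^ 2 = L ^ (2 * P) := by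
          rw [← Real.rpow_natCast, ← Real.rpow_mul hL0.le]; congr 1; push_cast; ring
        rw [h9] at h8
        have h10 : ((I : ℝ) / t * D) ^ 2 *
            ∑ a ∈ IA A, (∑ e ∈ Ioc (2 ^ i) (2 * 2 ^ i), γ e * (jacobiSym (-a) e : ℝ)) ^ 2
            ≤ L ^ (2 * P) * (C * (A * L ^ (2 * 4 ^ j : ℝ) * (2 / L ^ V) + (A : ℝ) ^ (9 / 10 : ℝ))) := by
          refine mul_le_mul h8 (le_trans h2 ?_) (Finset.sum_nonneg fun a _ => sq_nonneg _) (by positivity)
          exact mul_le_mul_of_nonneg_left (by linarith) hC.le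
        refine le_trans h10 ?_
        rw [le_div_iff₀ hq0]
        have h11 : L ^ (2 * P) * (C * (A * L ^ (2 * 4 ^ j : ℝ) * (2 / L ^ V) + (A : ℝ) ^ (9 / 10 : ℝ)))
            * L ^ (B + 2) = A * (2 * C * (L ^ (2 * P) * L ^ (2 * 4 ^ j : ℝ) * L ^ (B + 2) / L ^ V))
              + C * (L ^ (2 * P) * L ^ (B + 2)) * (A : ℝ) ^ (9 / 10 : ℝ) := by ring
        rw [h11]
        have h12 : 2 * C * (L ^ (2 * P) * L ^ (2 * 4 ^ j : ℝ) * L ^ (B + 2) / L ^ V) ≤ 1 / 2 := by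
          have h13 : L ^ (2 * P) * L ^ (2 * 4 ^ j : ℝ) * L ^ (B + 2) / L ^ V
              = L ^ (2 * P + 2 * 4 ^ j + (B + 2) - V) := by
            rw [← Real.rpow_add hL0, ← Real.rpow_add hL0, ← Real.rpow_sub hL0]
          rw [h13]
          have h14 : L ^ (2 * P + 2 * 4 ^ j + (B + 2) - V) ≤ L ^ (-1 : ℝ) :=
            Real.rpow_le_rpow_of_exponent_le e2 (by linarith)
          rw [Real.rpow_neg_one] at h14
          have h15 : 2 * C * L⁻¹ ≤ 1 / 2 := by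
            rw [← div_eq_mul_inv, div_le_iff₀ hL0]; linarith
          have h16 : 2 * C * L ^ (2 * P + 2 * 4 ^ j + (B + 2) - V) ≤ 2 * C * L⁻¹ :=
            mul_le_mul_of_nonneg_left h14 (by positivity)
          linarith
        have h17 : L ^ (2 * P) * L ^ (B + 2) ≤ L ^ (2 + 4 * P + B) := by
          rw [← Real.rpow_add hL0]
          exact Real.rpow_le_rpow_of_exponent_le e2 (by linarith)
        have h18 : C * (L ^ (2 * P) * L ^ (B + 2)) * (A : ℝ) ^ (9 / 10 : ℝ) ≤ A / 4 := by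
          have h19 : C * (L ^ (2 * P) * L ^ (B + 2)) ≤ (A : ℝ) ^ (1 / 10 : ℝ) / 4 := by
            have := mul_le_mul_of_nonneg_left h17 hC.le
            linarith
          have h20 := mul_le_mul_of_nonneg_right h19 (by positivity : (0 : ℝ) ≤ (A : ℝ) ^ (9 / 10 : ℝ))
          have h21 : (A : ℝ) ^ (1 / 10 : ℝ) / 4 * (A : ℝ) ^ (9 / 10 : ℝ) = A / 4 := by
            rw [div_mul_eq_mul_div, hA9]
          linarith
        have h22 := mul_le_mul_of_nonneg_left h12 hApos.le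
        linarith
    · simp only [if_neg hcase]
      have h2 := w2 (not_le.1 hcase)
      have h3 : ∑ a ∈ IA A, ((I : ℝ) / t * S a i) ^ 4 = ((I : ℝ) / t * D) ^ 4 *
          ∑ a ∈ IA A, (∑ e ∈ Ioc (2 ^ i) (2 * 2 ^ i), γ e * (jacobiSym (-a) e : ℝ)) ^ 4 := by
        rw [Finset.mul_sum]
        refine Finset.sum_congr rfl fun a _ => ?_
        rw [hSγ]; ring
      rw [h3]
      have h8 : ((I : ℝ) / t * D) ^ 4 ≤ (L ^ P) ^ 4 := pow_le_pow_left₀ hT0 hTle _
      have h9 : (L ^ P) ^ 4 = L ^ (4 * P) := by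
        rw [← Real.rpow_natCast, ← Real.rpow_mul hL0.le]; congr 1; push_cast; ring
      rw [h9] at h8
      have h10 : ((I : ℝ) / t * D) ^ 4 *
          ∑ a ∈ IA A, (∑ e ∈ Ioc (2 ^ i) (2 * 2 ^ i), γ e * (jacobiSym (-a) e : ℝ)) ^ 4
          ≤ L ^ (4 * P) * (C * (A : ℝ) ^ (3 / 4 : ℝ)) := by
        refine mul_le_mul h8 h2 (Finset.sum_nonneg fun a _ => ?_) (by positivity)
        positivity
      refine le_trans h10 ?_
      rw [le_div_iff₀ hq0]
      have h11 : L ^ (4 * P) * (C * (A : ℝ) ^ (3 / 4 : ℝ)) * L ^ (B + 2)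
          = C * L ^ (2 + 4 * P + B) * (A : ℝ) ^ (3 / 4 : ℝ) := by
        have : L ^ (2 + 4 * P + B) = L ^ (4 * P) * L ^ (B + 2) := by
          rw [← Real.rpow_add hL0]; congr 1; ring
        rw [this]; ring
      rw [h11]
      have h12 : (A : ℝ) ^ (3 / 4 : ℝ) ≤ (A : ℝ) ^ (9 / 10 : ℝ) :=
        Real.rpow_le_rpow_of_exponent_le hA0 (by norm_num)
      have h13 : C * L ^ (2 + 4 * P + B) ≤ (A : ℝ) ^ (1 / 10 : ℝ) := by
        have : 0 ≤ C * L ^ (2 + 4 * P + B) := by positivity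
        linarith
      calc C * L ^ (2 + 4 * P + B) * (A : ℝ) ^ (3 / 4 : ℝ)
          ≤ (A : ℝ) ^ (1 / 10 : ℝ) * (A : ℝ) ^ (9 / 10 : ℝ) :=
            mul_le_mul h13 h12 (by positivity) (by positivity)
        _ = A := hA9
  have hexc := cheb A I S t ht0 (fun i => ((2 ^ i : ℕ) : ℝ) ≤ (A : ℝ) ^ (3 / 4 : ℝ))
  have hgoal : exc A (fun a => |∑ k ∈ Icc 1 (4 * N), β k * ((rho a k : ℝ) - 1)| ≤ t)
      = exc A (fun a => |∑ i ∈ range I, S a i| ≤ t) := by
    congr 1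
    funext a
    rw [hsum a]
  rw [← ht] at *
  rw [hgoal]
  refine le_trans hexc (le_trans (Finset.sum_le_sum hblock) ?_)
  rw [Finset.sum_const, card_range, nsmul_eq_mul]
  have h2 : (I : ℝ) ≤ L ^ 2 := by
    rw [hI]; push_cast; exact e4
  have h3 : L ^ (B + 2) = L ^ B * L ^ 2 := by
    rw [Real.rpow_add hL0, Real.rpow_two]
  calc (I : ℝ) * (A / L ^ (B + 2)) ≤ L ^ 2 * (A / L ^ (B + 2)) :=
        mul_le_mul_of_nonneg_right h2 (by positivity)
    _ = A / L ^ B := by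
        rw [h3]; field_simp

end

end Pool.Agent.Lib.MP391708.U.K
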