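import Pool.Agent.Lib.MP_391708_nt.U.SpecUK
import Pool.Agent.Lib.MP_391708_nt.U.RWA

set_option autoImplicit false

/-! # Module RWAV: RWA for `A ≥ N^(1/2)`. -/

namespace Pool.Agent.Lib.MP391708.U.K

open Finset Filter Topology Pool.Agent.Lib.MP391708.QPA Pool.Agent.Lib.MP391708.QPA.H
open Pool.Agent.Lib.MP391708.U
open scoped Classical

noncomputable section

namespace RWAVM

open Pool.Agent.Lib.MP391708.U.RWAM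

/-- part (ii). -/
theorem part2 (hL : QPA.SpecLRG) (j : ℕ) : ∃ C : ℝ, 0 < C ∧
    ∀ (N A E : ℕ) (γ : ℕ → ℝ), (N : ℝ) ^ (1 / 2 : ℝ) ≤ A → 1 ≤ A → 1 ≤ E → E ≤ 4 * N →
    (∀ e, γ e ≠ 0 → Odd e ∧ Squarefree e) → (∀ e, |γ e| ≤ ta e ^ j / e) →
    (A : ℝ) ^ (3 / 4 : ℝ) < (E : ℝ) →
    ∑ a ∈ IA A, (∑ e ∈ Ioc E (2 * E), γ e * (jacobiSym (-a) e : ℝ)) ^ 4
      ≤ C * (A : ℝ) ^ (3 / 4 : ℝ) := by
  obtain ⟨C₂, hC₂, h2⟩ := hL (1 / 100) (by norm_num)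
  obtain ⟨D₀, hD₀, h3⟩ := Pool.Agent.Lib.MP_391708_nt.Div.card_divisors_le_rpow
    (1 / (100 * (2 * (j : ℝ) + 1))) (by positivity)
  set D : ℝ := D₀ ^ (2 * j + 1) with hD
  have hD0 : 0 < D := by positivity
  refine ⟨32 * C₂ * D ^ 2, by positivity, fun N A E γ hNA hA hE hEN hγ hγ' hEA => ?_⟩
  have hA1 : (1 : ℝ) ≤ A := by exact_mod_cast hA
  have hA0 : (0 : ℝ) < A := by linarith
  have hE1 : (1 : ℝ) ≤ E := by exact_mod_cast hE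
  have hE0 : (0 : ℝ) < E := by linarith
  -- the divisor bound
  have hdiv : ∀ m : ℕ, 1 ≤ m → ta m ^ (2 * j + 1) ≤ D * (m : ℝ) ^ (1 / 100 : ℝ) := by
    intro m hm
    have hm0 : (0 : ℝ) ≤ m := Nat.cast_nonneg _
    calc ta m ^ (2 * j + 1) ≤ (D₀ * (m : ℝ) ^ (1 / (100 * (2 * (j : ℝ) + 1)))) ^ (2 * j + 1) :=
          pow_le_pow_left₀ (ta_nonneg m) (h3 m hm) _
      _ = D * (m : ℝ) ^ (1 / 100 : ℝ) := by
          rw [mul_pow, ← Real.rpow_natCast ((m : ℝ) ^ (1 / (100 * (2 * (j : ℝ) + 1)))),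
            ← Real.rpow_mul hm0]
          congr 2
          push_cast
          field_simp
  -- the size of `4 E^2`
  have hN : (N : ℝ) ≤ (A : ℝ) ^ (2 : ℝ) := by
    calc (N : ℝ) = ((N : ℝ) ^ (1 / 2 : ℝ)) ^ (2 : ℝ) := by
          rw [← Real.rpow_mul (Nat.cast_nonneg _)]
          norm_num
      _ ≤ _ := Real.rpow_le_rpow (Real.rpow_nonneg (Nat.cast_nonneg _) _) hNA (by norm_num)
  have hE4 : (4 * (E : ℝ) ^ 2) ^ (1 / 50 : ℝ) ≤ 2 * (A : ℝ) ^ (2 / 25 : ℝ) := by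
    have hEN' : (E : ℝ) ≤ 4 * N := by exact_mod_cast hEN
    have hb : 4 * (E : ℝ) ^ 2 ≤ 2 ^ (50 : ℕ) * ((A : ℝ) ^ (2 : ℝ)) ^ 2 := by
      have h4 : (E : ℝ) ≤ 4 * (A : ℝ) ^ (2 : ℝ) := by linarith
      have h5 : (E : ℝ) ^ 2 ≤ (4 * (A : ℝ) ^ (2 : ℝ)) ^ 2 := pow_le_pow_left₀ hE0.le h4 2
      have h6 : 0 ≤ ((A : ℝ) ^ (2 : ℝ)) ^ 2 := by positivity
      nlinarith
    calc (4 * (E : ℝ) ^ 2) ^ (1 / 50 : ℝ)
        ≤ (2 ^ (50 : ℕ) * ((A : ℝ) ^ (2 : ℝ)) ^ 2) ^ (1 / 50 : ℝ) :=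
          Real.rpow_le_rpow (by positivity) hb (by norm_num)
      _ = 2 * (A : ℝ) ^ (2 / 25 : ℝ) := by
          rw [Real.mul_rpow (by positivity) (by positivity), ← Real.rpow_natCast 2 50,
            ← Real.rpow_mul (by norm_num), ← Real.rpow_natCast ((A : ℝ) ^ (2 : ℝ)) 2,
            ← Real.rpow_mul hA0.le, ← Real.rpow_mul hA0.le]
          norm_num
  -- the coefficients
  have hG : ∀ m : ℕ, E ^ 2 < m → m ≤ 2 * (2 * E ^ 2) →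
      (Ga γ E m) ^ 2 ≤ D ^ 2 * (2 * (A : ℝ) ^ (2 / 25 : ℝ)) / ((E : ℝ) ^ 2 * (E : ℝ) ^ 2) := by
    intro m hm hm'
    have hm1 : 1 ≤ m := by omega
    have hmR : (0 : ℝ) < m := by exact_mod_cast hm1
    have hmE : (E : ℝ) ^ 2 ≤ m := by exact_mod_cast hm.le
    have hmE' : (m : ℝ) ≤ 4 * (E : ℝ) ^ 2 := by
      have : m ≤ 4 * E ^ 2 := by omega
      exact_mod_cast this
    have h4 : |Ga γ E m| ≤ D * (m : ℝ) ^ (1 / 100 : ℝ) / (E : ℝ) ^ 2 := by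
      calc |Ga γ E m| ≤ ta m ^ (2 * j + 1) / m := Ga_le hγ' hm1
        _ ≤ (D * (m : ℝ) ^ (1 / 100 : ℝ)) / m := by
            gcongr
            exact hdiv m hm1
        _ ≤ _ := by
            refine div_le_div_of_nonneg_left (by positivity) (by positivity) hmE
    rw [← sq_abs]
    calc |Ga γ E m| ^ 2 ≤ (D * (m : ℝ) ^ (1 / 100 : ℝ) / (E : ℝ) ^ 2) ^ 2 :=
          pow_le_pow_left₀ (abs_nonneg _) h4 2
      _ = D ^ 2 * ((m : ℝ) ^ (1 / 50 : ℝ)) / ((E : ℝ) ^ 2 * (E : ℝ) ^ 2) := by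
          have h5 : ((m : ℝ) ^ (1 / 100 : ℝ)) ^ 2 = (m : ℝ) ^ (1 / 50 : ℝ) := by
            rw [← Real.rpow_natCast, ← Real.rpow_mul hmR.le]
            norm_num
          rw [div_pow, mul_pow, h5]
          ring
      _ ≤ _ := by
          have h6 : (m : ℝ) ^ (1 / 50 : ℝ) ≤ 2 * (A : ℝ) ^ (2 / 25 : ℝ) :=
            (Real.rpow_le_rpow hmR.le hmE' (by norm_num)).trans hE4
          gcongr
  -- the two blocks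
  have hE2 : (0 : ℝ) < (E : ℝ) ^ 2 := by positivity
  have hEA2 : (A : ℝ) ^ (3 / 2 : ℝ) ≤ (E : ℝ) ^ 2 := by
    calc (A : ℝ) ^ (3 / 2 : ℝ) = ((A : ℝ) ^ (3 / 4 : ℝ)) ^ 2 := by
          rw [← Real.rpow_natCast, ← Real.rpow_mul hA0.le]
          norm_num
      _ ≤ _ := pow_le_pow_left₀ (by positivity) hEA.le 2
  have hmain : ∀ c : ℝ, 1 ≤ c → c ≤ 2 → C₂ * (c * (E : ℝ) ^ 2 * √(A : ℝ) + (A : ℝ) ^ (2 + 1 / 100 : ℝ)) *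
      (c * (E : ℝ) ^ 2 * (D ^ 2 * (2 * (A : ℝ) ^ (2 / 25 : ℝ)) / ((E : ℝ) ^ 2 * (E : ℝ) ^ 2))) ≤
      (2 * c * (c + 1)) * C₂ * D ^ 2 * (A : ℝ) ^ (3 / 4 : ℝ) := by
    intro c hc hc2
    have hr1 : (A : ℝ) ^ (2 + 1 / 100 : ℝ) ≤ (E : ℝ) ^ 2 * (A : ℝ) ^ (51 / 100 : ℝ) := by
      calc (A : ℝ) ^ (2 + 1 / 100 : ℝ) = (A : ℝ) ^ (3 / 2 : ℝ) * (A : ℝ) ^ (51 / 100 : ℝ) := by
            rw [← Real.rpow_add hA0]
            norm_num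
        _ ≤ _ := by gcongr
    have hr2 : √(A : ℝ) ≤ (A : ℝ) ^ (51 / 100 : ℝ) := by
      rw [Real.sqrt_eq_rpow]
      exact Real.rpow_le_rpow_of_exponent_le hA1 (by norm_num)
    have hr3 : (A : ℝ) ^ (51 / 100 : ℝ) * (A : ℝ) ^ (2 / 25 : ℝ) ≤ (A : ℝ) ^ (3 / 4 : ℝ) := by
      rw [← Real.rpow_add hA0]
      exact Real.rpow_le_rpow_of_exponent_le hA1 (by norm_num)
    calc C₂ * (c * (E : ℝ) ^ 2 * √(A : ℝ) + (A : ℝ) ^ (2 + 1 / 100 : ℝ)) *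
        (c * (E : ℝ) ^ 2 * (D ^ 2 * (2 * (A : ℝ) ^ (2 / 25 : ℝ)) / ((E : ℝ) ^ 2 * (E : ℝ) ^ 2)))
        ≤ C₂ * (c * (E : ℝ) ^ 2 * (A : ℝ) ^ (51 / 100 : ℝ) +
            (E : ℝ) ^ 2 * (A : ℝ) ^ (51 / 100 : ℝ)) *
          (c * (E : ℝ) ^ 2 * (D ^ 2 * (2 * (A : ℝ) ^ (2 / 25 : ℝ)) /
            ((E : ℝ) ^ 2 * (E : ℝ) ^ 2))) := by
          gcongr
      _ = (2 * c * (c + 1)) * C₂ * D ^ 2 *
          ((A : ℝ) ^ (51 / 100 : ℝ) * (A : ℝ) ^ (2 / 25 : ℝ)) := by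
          field_simp
      _ ≤ _ := by gcongr
  have hb1 : ∑ a ∈ IA A, (∑ m ∈ Ioc (E ^ 2) (2 * E ^ 2), Ga γ E m * (jacobiSym (-a) m : ℝ)) ^ 2 ≤
      4 * C₂ * D ^ 2 * (A : ℝ) ^ (3 / 4 : ℝ) := by
    have h4 := h2 A (E ^ 2) (Ga γ E) hA (Nat.one_le_pow _ _ hE) (fun k hk => Ga_odd hγ hk)
    refine h4.trans ?_
    have h5 : ∑ k ∈ Ioc (E ^ 2) (2 * E ^ 2), (Ga γ E k) ^ 2 ≤
        1 * (E : ℝ) ^ 2 * (D ^ 2 * (2 * (A : ℝ) ^ (2 / 25 : ℝ)) /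
          ((E : ℝ) ^ 2 * (E : ℝ) ^ 2)) := by
      calc ∑ k ∈ Ioc (E ^ 2) (2 * E ^ 2), (Ga γ E k) ^ 2
          ≤ ∑ _k ∈ Ioc (E ^ 2) (2 * E ^ 2), D ^ 2 * (2 * (A : ℝ) ^ (2 / 25 : ℝ)) /
          ((E : ℝ) ^ 2 * (E : ℝ) ^ 2) := by
            refine sum_le_sum fun k hk => ?_
            rw [mem_Ioc] at hk
            exact hG k hk.1 (by omega)
        _ = _ := by
            rw [sum_const, nsmul_eq_mul, Nat.card_Ioc]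
            have : 2 * E ^ 2 - E ^ 2 = E ^ 2 := by omega
            rw [this]
            push_cast
            ring
    have h6 := hmain 1 le_rfl (by norm_num)
    have h7 : C₂ * (((E ^ 2 : ℕ) : ℝ) * √(A : ℝ) + (A : ℝ) ^ (2 + 1 / 100 : ℝ)) *
        ∑ k ∈ Ioc (E ^ 2) (2 * E ^ 2), (Ga γ E k) ^ 2 ≤
        C₂ * (1 * (E : ℝ) ^ 2 * √(A : ℝ) + (A : ℝ) ^ (2 + 1 / 100 : ℝ)) *
      (1 * (E : ℝ) ^ 2 * (D ^ 2 * (2 * (A : ℝ) ^ (2 / 25 : ℝ)) /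
        ((E : ℝ) ^ 2 * (E : ℝ) ^ 2))) := by
      rw [one_mul, Nat.cast_pow]
      rw [one_mul] at h5
      gcongr
    refine h7.trans (h6.trans (le_of_eq ?_))
    norm_num
  have hb2 : ∑ a ∈ IA A, (∑ m ∈ Ioc (2 * E ^ 2) (2 * (2 * E ^ 2)),
      Ga γ E m * (jacobiSym (-a) m : ℝ)) ^ 2 ≤ 12 * C₂ * D ^ 2 * (A : ℝ) ^ (3 / 4 : ℝ) := by
    have h4 := h2 A (2 * E ^ 2) (Ga γ E) hA
      (by have := Nat.one_le_pow 2 E hE; omega) (fun k hk => Ga_odd hγ hk)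
    refine h4.trans ?_
    have h5 : ∑ k ∈ Ioc (2 * E ^ 2) (2 * (2 * E ^ 2)), (Ga γ E k) ^ 2 ≤
        2 * (E : ℝ) ^ 2 * (D ^ 2 * (2 * (A : ℝ) ^ (2 / 25 : ℝ)) /
          ((E : ℝ) ^ 2 * (E : ℝ) ^ 2)) := by
      calc ∑ k ∈ Ioc (2 * E ^ 2) (2 * (2 * E ^ 2)), (Ga γ E k) ^ 2
          ≤ ∑ _k ∈ Ioc (2 * E ^ 2) (2 * (2 * E ^ 2)), D ^ 2 * (2 * (A : ℝ) ^ (2 / 25 : ℝ)) /
          ((E : ℝ) ^ 2 * (E : ℝ) ^ 2) := by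
            refine sum_le_sum fun k hk => ?_
            rw [mem_Ioc] at hk
            exact hG k (by omega) hk.2
        _ = _ := by
            rw [sum_const, nsmul_eq_mul, Nat.card_Ioc]
            have : 2 * (2 * E ^ 2) - 2 * E ^ 2 = 2 * E ^ 2 := by omega
            rw [this]
            push_cast
            ring
    have h6 := hmain 2 (by norm_num) le_rfl
    have h7 : C₂ * (((2 * E ^ 2 : ℕ) : ℝ) * √(A : ℝ) + (A : ℝ) ^ (2 + 1 / 100 : ℝ)) *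
        ∑ k ∈ Ioc (2 * E ^ 2) (2 * (2 * E ^ 2)), (Ga γ E k) ^ 2 ≤
        C₂ * (2 * (E : ℝ) ^ 2 * √(A : ℝ) + (A : ℝ) ^ (2 + 1 / 100 : ℝ)) *
      (2 * (E : ℝ) ^ 2 * (D ^ 2 * (2 * (A : ℝ) ^ (2 / 25 : ℝ)) /
        ((E : ℝ) ^ 2 * (E : ℝ) ^ 2))) := by
      rw [Nat.cast_mul, Nat.cast_pow, Nat.cast_two]
      gcongr
    refine h7.trans (h6.trans (le_of_eq ?_))
    norm_num
  have h8 : ∀ a : ℤ, (∑ e ∈ Ioc E (2 * E), γ e * (jacobiSym (-a) e : ℝ)) ^ 4 ≤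
      2 * (∑ m ∈ Ioc (E ^ 2) (2 * E ^ 2), Ga γ E m * (jacobiSym (-a) m : ℝ)) ^ 2 +
      2 * (∑ m ∈ Ioc (2 * E ^ 2) (2 * (2 * E ^ 2)), Ga γ E m * (jacobiSym (-a) m : ℝ)) ^ 2 := by
    intro a
    have h9 : (∑ e ∈ Ioc E (2 * E), γ e * (jacobiSym (-a) e : ℝ)) ^ 4 =
        ((∑ e ∈ Ioc E (2 * E), γ e * (jacobiSym (-a) e : ℝ)) ^ 2) ^ 2 := by ring
    rw [h9, square γ E a]
    nlinarith [sq_nonneg ((∑ m ∈ Ioc (E ^ 2) (2 * E ^ 2), Ga γ E m * (jacobiSym (-a) m : ℝ)) -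
      ∑ m ∈ Ioc (2 * E ^ 2) (2 * (2 * E ^ 2)), Ga γ E m * (jacobiSym (-a) m : ℝ))]
  calc ∑ a ∈ IA A, (∑ e ∈ Ioc E (2 * E), γ e * (jacobiSym (-a) e : ℝ)) ^ 4
      ≤ ∑ a ∈ IA A, (2 * (∑ m ∈ Ioc (E ^ 2) (2 * E ^ 2), Ga γ E m * (jacobiSym (-a) m : ℝ)) ^ 2 +
      2 * (∑ m ∈ Ioc (2 * E ^ 2) (2 * (2 * E ^ 2)), Ga γ E m * (jacobiSym (-a) m : ℝ)) ^ 2) :=
        sum_le_sum fun a _ => h8 a
    _ = 2 * (∑ a ∈ IA A, (∑ m ∈ Ioc (E ^ 2) (2 * E ^ 2),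
          Ga γ E m * (jacobiSym (-a) m : ℝ)) ^ 2) +
        2 * (∑ a ∈ IA A, (∑ m ∈ Ioc (2 * E ^ 2) (2 * (2 * E ^ 2)),
          Ga γ E m * (jacobiSym (-a) m : ℝ)) ^ 2) := by
        rw [sum_add_distrib, mul_sum, mul_sum]
    _ ≤ 2 * (4 * C₂ * D ^ 2 * (A : ℝ) ^ (3 / 4 : ℝ)) +
        2 * (12 * C₂ * D ^ 2 * (A : ℝ) ^ (3 / 4 : ℝ)) := by
        gcongr
    _ = _ := by ring

end RWAVM

open Pool.Agent.Lib.MP391708.U.RWAM RWAVM in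
theorem specRWAV (hS : QPA.SpecSML) (hL : QPA.SpecLRG) (hT : SpecTAUM) : SpecRWAV := by
  intro j
  obtain ⟨C₁, hC₁, h1⟩ := part1 hS hT j
  obtain ⟨C₂, hC₂, h2⟩ := RWAVM.part2 hL j
  refine ⟨max C₁ C₂, lt_max_of_lt_left hC₁, fun N A E γ hN hNA hAN hE hEN hγ hγ' => ?_⟩
  have hA : 1 ≤ A := by
    have hN1 : (1 : ℝ) ≤ (N : ℝ) ^ (1 / 2 : ℝ) := by
      refine Real.one_le_rpow ?_ (by norm_num)
      exact_mod_cast (by omega : 1 ≤ N)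
    have : (1 : ℝ) ≤ A := hN1.trans hNA
    exact_mod_cast this
  have hA1 : (1 : ℝ) ≤ A := by exact_mod_cast hA
  refine ⟨fun hEA => ?_, fun hEA => ?_⟩
  · refine (h1 N A E γ hA hE hEN hγ hγ' hEA).trans ?_
    refine mul_le_mul_of_nonneg_right (le_max_left _ _) ?_
    have hl8 : 0 ≤ 1 + Real.log (8 * N) := by
      have : (1 : ℝ) ≤ 8 * N := by
        have : 1 ≤ 8 * N := by omega
        exact_mod_cast this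
      have := Real.log_nonneg this
      linarith
    positivity
  · refine (h2 N A E γ hNA hA hE hEN hγ hγ' hEA).trans ?_
    exact mul_le_mul_of_nonneg_right (le_max_right _ _) (by positivity)

end

end Pool.Agent.Lib.MP391708.U.K
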