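import Pool.Agent.Lib.MP_391708_nt.U.SpecUK
import Pool.Agent.Lib.MP_391708_nt.U.TAILU

/-!
# TAILV: rough values of `n² + a` in all intervals of length `≥ N^(9/10)`, all but few `a`
-/

set_option autoImplicit false

namespace Pool.Agent.Lib.MP391708.U.K

open Finset Filter Topology Pool.Agent.Lib.MP391708.QPA Pool.Agent.Lib.MP391708.QPA.H
open Pool.Agent.Lib.MP391708.U
open scoped Classical

namespace TAILVM

/-- the fundamental lemma for the values `n² + a`, `X < n ≤ X + H` -/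
theorem fl_seg (hFL : SpecFL) (h1 : SpecRHO1) (hM : SpecRHOM) (hP : SpecRHOP) (h2 : SpecRHO2)
    (hS : SpecRHOS) (hC : SpecRHOC) : ∃ C : ℝ, 0 < C ∧ ∀ z : ℝ, 2 ≤ z → ∀ (a : ℤ) (X H : ℕ),
    ∑ n ∈ Ioc X (X + H), rInd z (val a n)
      ≤ C * H * Wa z a + C * (1 + Real.log z) * (z ^ 16 * z ^ 16) := by
  obtain ⟨C, hC0, hFL⟩ := hFL
  refine ⟨C + 1, by linarith, ?_⟩
  intro z hz2 a X H
  have hz0 : 0 < z := by linarith
  have hg : ∀ p : ℕ, p.Prime → 0 ≤ (rho a p : ℝ) / p ∧ (rho a p : ℝ) / p ≤ 2 / (p : ℝ) ∧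
      (rho a p : ℝ) / p ≤ 2 / 3 := by
    intro p hp
    have hp0 : (0 : ℝ) < p := by exact_mod_cast hp.pos
    by_cases hp2 : p = 2
    · subst hp2
      rw [h2 a]
      norm_num
    · have hp3 : (3 : ℝ) ≤ p := by
        have := hp.two_le
        exact_mod_cast (by omega : 3 ≤ p)
      have hle : rho a p ≤ 2 := by
        have h3 := hP a p hp hp2
        have h4 : jacobiSym (-a) p ≤ 1 := by
          rcases jacobiSym.trichotomy (-a) p with h | h | h <;> rw [h] <;> norm_num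
        omega
      have hle' : (rho a p : ℝ) ≤ 2 := by exact_mod_cast hle
      refine ⟨by positivity, ?_, ?_⟩
      · exact div_le_div_of_nonneg_right hle' hp0.le
      · rw [div_le_div_iff₀ hp0 (by norm_num)]
        nlinarith
  have key := hFL 0 z hz2 (Ioc X (X + H)) (val a) (fun _ => 1) H (fun p => (rho a p : ℝ) / p)
    (Nat.cast_nonneg _) (fun _ _ => zero_le_one) hg
  have e1 : ∑ i ∈ Ioc X (X + H), (1 : ℝ) * rInd z (val a i) = ∑ n ∈ Ioc X (X + H), rInd z (val a n) := by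
    refine Finset.sum_congr rfl fun n _ => ?_
    rw [one_mul]
  have e2 : ∏ p ∈ PB z, (1 - (rho a p : ℝ) / p) = Wa z a := rfl
  rw [e1, e2] at key
  have e3 : Real.exp (-((0 : ℕ) : ℝ)) = 1 := by simp
  rw [e3, mul_one] at key
  have e4 : 8 * 0 + 16 = 16 := rfl
  rw [e4] at key
  have hlog : 0 ≤ Real.log z := Real.log_nonneg (by linarith)
  have hterm : ∀ δ ∈ (Icc 1 ⌊z ^ 16⌋₊).filter
      (fun δ => Squarefree δ ∧ ∀ p : ℕ, p.Prime → p ∣ δ → (p : ℝ) < z),
      |(∑ i ∈ (Ioc X (X + H)).filter (fun i => δ ∣ val a i), (1 : ℝ))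
        - H * ∏ p ∈ δ.primeFactors, ((rho a p : ℝ) / p)| ≤ z ^ 16 := by
    intro δ hδ
    rw [Finset.mem_filter, Finset.mem_Icc] at hδ
    obtain ⟨⟨hδ1, hδ2⟩, hδs, _⟩ := hδ
    have hδ0 : δ ≠ 0 := by omega
    rw [FLA.prod_rho h1 hM a δ hδs]
    have h3 := hC a δ X H hδ1
    rw [Finset.sum_const, nsmul_eq_mul, mul_one]
    have h6 : (rho a δ : ℝ) * H / (δ : ℝ) = H * ((rho a δ : ℝ) / δ) := by ring
    rw [h6] at h3
    refine h3.trans ?_
    have h7 : (rho a δ : ℝ) ≤ (2 : ℝ) ^ δ.primeFactors.card := by exact_mod_cast hS a δ hδs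
    have h8 : ((2 : ℝ) ^ δ.primeFactors.card) ≤ δ.divisors.card := by
      exact_mod_cast FLA.two_pow_le δ hδ0
    have h9 : (δ.divisors.card : ℝ) ≤ δ := by exact_mod_cast Nat.card_divisors_le_self δ
    have h10 : (δ : ℝ) ≤ z ^ 16 :=
      le_trans (by exact_mod_cast hδ2) (Nat.floor_le (by positivity))
    linarith
  have hsum := Finset.sum_le_sum hterm
  rw [Finset.sum_const, nsmul_eq_mul] at hsum
  have hcard : ((((Icc 1 ⌊z ^ 16⌋₊).filter
      (fun δ => Squarefree δ ∧ ∀ p : ℕ, p.Prime → p ∣ δ → (p : ℝ) < z)).card : ℕ) : ℝ)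
      ≤ z ^ 16 := by
    refine le_trans (Nat.cast_le.2 (Finset.card_filter_le _ _)) ?_
    rw [Nat.card_Icc, Nat.add_sub_cancel]
    exact Nat.floor_le (by positivity)
  have hsum2 := hsum.trans (mul_le_mul_of_nonneg_right hcard (by positivity))
  have h11 := mul_le_mul_of_nonneg_left hsum2 (show 0 ≤ C * (1 + Real.log z) by positivity)
  have h12 := (abs_le.1 key).2
  have hW : 0 ≤ Wa z a := by
    unfold Wa
    refine Finset.prod_nonneg fun p hp => ?_
    rw [PB, Finset.mem_filter] at hp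
    have := (hg p hp.2).2.2
    linarith
  have hXW : 0 ≤ (H : ℝ) * Wa z a := by positivity
  have h13 : 0 ≤ (1 + Real.log z) * (z ^ 16 * z ^ 16) := by positivity
  nlinarith

end TAILVM

open TAILVM TAILUM in
theorem specTAILV (hFL : SpecFL) (h1 : SpecRHO1) (hM : SpecRHOM) (hP : SpecRHOP) (h2 : SpecRHO2)
    (hS : SpecRHOS) (hC : SpecRHOC) (hW : SpecWMER) (hPROD : SpecPRODV) (hG : SpecGMAXU) :
    SpecTAILV := by
  obtain ⟨C, hC0, hseg⟩ := TAILVM.fl_seg hFL h1 hM hP h2 hS hC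
  obtain ⟨C₂, hC₂, hWM⟩ := hW
  obtain ⟨c, C₃, hc, hC₃, hG⟩ := hG
  intro e0 he0 he1
  refine ⟨2 * C * C₂ / e0 + 1, by positivity, ?_⟩
  intro B hB
  obtain ⟨W₀, hW₀, hPR⟩ := hPROD 1 B one_pos hB
  refine ⟨W₀, hW₀, fun W hWW => ?_⟩
  have hWpos : 0 < W := hW₀.trans_le hWW
  obtain ⟨N₁, hPR⟩ := hPR W hWW e0 he0 (by linarith)
  obtain ⟨N₂, hN₂, hlog2⟩ := FLA.log_le C (32 / 100) (4 / 10) (by norm_num)
  have hz2 : ∀ᶠ N : ℕ in atTop, (2 : ℝ) ≤ (N : ℝ) ^ e0 :=
    ((tendsto_rpow_atTop he0).comp tendsto_natCast_atTop_atTop).eventually_ge_atTop (2 : ℝ)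
  obtain ⟨N₀, hN₀⟩ := eventually_atTop.1 ((logs c W hc).and ((two_le_wN W hWpos).and
    (hz2.and ((eventually_ge_atTop N₁).and ((eventually_ge_atTop N₂).and
      (eventually_ge_atTop 3))))))
  refine ⟨N₀, fun N A hN hA => ?_⟩
  obtain ⟨hl, hw2, hz, hN1, hN2, hN3⟩ := hN₀ N hN
  have hNone : (1 : ℝ) < N := by exact_mod_cast (by omega : 1 < N)
  have hNpos : (0 : ℝ) < N := by linarith
  have hlog : 0 < Real.log N := Real.log_pos hNone
  set z : ℝ := (N : ℝ) ^ e0 with hzdef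
  have hz0 : 0 < z := by positivity
  refine le_trans ?_ (hPR N A hN1 hA)
  unfold exc
  apply Nat.cast_le.2
  apply Finset.card_le_card
  intro a ha
  rw [Finset.mem_filter] at ha ⊢
  refine ⟨ha.1, fun hgood => ha.2 ?_⟩
  beta_reduce at hgood ⊢
  intro X H hH
  rw [one_mul] at hgood
  -- the good case
  set G := Gw (wN W N) a with hGdef
  have hGa := hG (wN W N) hw2 a
  have hlw : 0 < Real.log ((wN W N : ℝ) + 1) := by
    apply Real.log_pos
    have : (2 : ℝ) ≤ (wN W N : ℝ) := by exact_mod_cast hw2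
    linarith
  have hG0 : 0 < G := lt_of_lt_of_le (by positivity) hGa.1
  have hWa : Wa z a ≤ 2 * (G * Wp z) := by
    have := (abs_le.1 hgood).2
    linarith
  have hWM' := hWM z hz
  have hlz : Real.log z = e0 * Real.log N := by
    rw [hzdef, Real.log_rpow hNpos]
  have hsg := hseg z hz a X H
  have hX0 : (0 : ℝ) ≤ H := Nat.cast_nonneg _
  -- main term
  have hmain : C * H * Wa z a ≤ 2 * C * C₂ / e0 * G * H / Real.log N := by
    have h5 : Wp z ≤ C₂ / (e0 * Real.log N) := by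
      refine hWM'.trans (le_of_eq ?_)
      rw [hlz]
    calc C * H * Wa z a ≤ C * H * (2 * (G * Wp z)) :=
          mul_le_mul_of_nonneg_left hWa (by positivity)
      _ ≤ C * H * (2 * (G * (C₂ / (e0 * Real.log N)))) := by
          apply mul_le_mul_of_nonneg_left _ (by positivity)
          apply mul_le_mul_of_nonneg_left _ (by norm_num)
          exact mul_le_mul_of_nonneg_left h5 hG0.le
      _ = 2 * C * C₂ / e0 * G * H / Real.log N := by
          field_simp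
  -- error terms
  have hz32 : z ^ 16 * z ^ 16 ≤ (N : ℝ) ^ (32 / 100 : ℝ) := by
    rw [← pow_add, hzdef, ← Real.rpow_natCast, ← Real.rpow_mul hNpos.le]
    apply Real.rpow_le_rpow_of_exponent_le hNone.le
    push_cast
    linarith
  have herr1 : C * (1 + Real.log z) * (z ^ 16 * z ^ 16) ≤ (N : ℝ) ^ (4 / 10 : ℝ) := by
    refine le_trans ?_ (hlog2 N hN2)
    have hlz' : Real.log z ≤ Real.log N := by
      rw [hlz]
      nlinarith
    have hlz0 : 0 ≤ Real.log z := by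
      rw [hlz]
      positivity
    apply mul_le_mul _ hz32 (by positivity) (by positivity)
    apply mul_le_mul_of_nonneg_left _ hC0.le
    linarith
  have herr3 : (N : ℝ) ^ (4 / 10 : ℝ) ≤ (N : ℝ) ^ (1 / 2 : ℝ) :=
    Real.rpow_le_rpow_of_exponent_le hNone.le (by norm_num)
  have herr4 : (N : ℝ) ^ (1 / 2 : ℝ) ≤ G * H / Real.log N := by
    have h10 := log_wN W N hN3
    have h11 : Real.log N * Real.log ((wN W N : ℝ) + 1) * (N : ℝ) ^ (1 / 2 : ℝ)
        ≤ c * (N : ℝ) ^ (9 / 10 : ℝ) := by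
      refine le_trans ?_ hl
      apply mul_le_mul_of_nonneg_right _ (by positivity)
      exact mul_le_mul_of_nonneg_left h10 hlog.le
    rw [le_div_iff₀ hlog]
    have h12 : c / Real.log ((wN W N : ℝ) + 1) * (N : ℝ) ^ (9 / 10 : ℝ) ≤ G * H :=
      mul_le_mul hGa.1 hH (by positivity) hG0.le
    refine le_trans ?_ h12
    rw [div_mul_eq_mul_div, le_div_iff₀ hlw]
    calc (N : ℝ) ^ (1 / 2 : ℝ) * Real.log N * Real.log ((wN W N : ℝ) + 1)
        = Real.log N * Real.log ((wN W N : ℝ) + 1) * (N : ℝ) ^ (1 / 2 : ℝ) := by ring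
      _ ≤ c * (N : ℝ) ^ (9 / 10 : ℝ) := h11
  have hfin : (2 * C * C₂ / e0 + 1) * G * H / Real.log N
      = 2 * C * C₂ / e0 * G * H / Real.log N + G * H / Real.log N := by ring
  rw [hfin]
  linarith

end Pool.Agent.Lib.MP391708.U.K
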