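import Pool.Agent.Lib.MP_391708_nt.U.SpecUK

/-!
# UNIP: the lower bound for the primes at all the scales at once
-/

set_option autoImplicit false

namespace Pool.Agent.Lib.MP391708.U.K

open Finset Filter Topology Pool.Agent.Lib.MP391708.QPA Pool.Agent.Lib.MP391708.QPA.H
open Pool.Agent.Lib.MP391708.U
open scoped Classical

namespace UNIPM

open UNIM UNIRM

/-- `cP θ ≤ 1` -/
lemma cP_le_one {θ : ℝ} (h1 : 7 / 10 < θ) : cP θ ≤ 1 := by
  unfold cP
  have h2 : 0 < θ - 1 / 2 := by linarith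
  have h3 : 0 ≤ (5 / 2 - 3 * θ) ^ 2 / (6 * (3 / 2 - θ) ^ 2 * (θ - 1 / 2)) := by positivity
  linarith

/-- `cP` is continuous -/
lemma cP_cont {θ : ℝ} (h1 : 7 / 10 < θ) (h2 : θ ≤ 5 / 6) : ContinuousAt cP θ := by
  unfold cP
  apply ContinuousAt.sub continuousAt_const
  apply ContinuousAt.div
  · fun_prop
  · fun_prop
  · have h3 : 0 < θ - 1 / 2 := by linarith
    have h4 : 0 < 3 / 2 - θ := by linarith
    positivity

/-- a smaller exponent with almost the same constant -/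
lemma ex_theta {θ ε : ℝ} (h1 : 7 / 10 < θ) (h2 : θ ≤ 5 / 6) (hε : 0 < ε) :
    ∃ θ' : ℝ, 7 / 10 < θ' ∧ θ' < θ ∧ cP θ - ε ≤ cP θ' := by
  have h3 := (cP_cont h1 h2).eventually (lt_mem_nhds (show cP θ - ε < cP θ by linarith))
  have h4 : ∀ᶠ x in 𝓝[<] θ, cP θ - ε < cP x := h3.filter_mono nhdsWithin_le_nhds
  have h5 : ∀ᶠ x in 𝓝[<] θ, 7 / 10 < x :=
    (eventually_gt_nhds h1).filter_mono nhdsWithin_le_nhds
  have h6 : ∀ᶠ x in 𝓝[<] θ, x < θ := eventually_mem_nhdsWithin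
  obtain ⟨x, k1, k2, k3⟩ := (h4.and (h5.and h6)).exists
  exact ⟨x, k2, k3, k1.le⟩

/-- from the scale `M` to the scale `N` -/
lemma interp {ε c : ℝ} (hc : c ≤ 1) {ν : ℝ} (hν0 : 0 < ν) (hν : ν ≤ ε / 2) {a : ℤ} {h : ℝ}
    (hh : 0 < h) {M N : ℕ} (hM : 2 ≤ M) (hMN : M ≤ N) (hL : Li N ≤ (1 + ν) * Li M)
    (h1 : LowP (c - ε / 2) M a h) : LowP (c - ε) N a h := by
  have p1 := Pc_mono a hMN
  have l0 := Li_nonneg hM
  have l1 := Li_nonneg (hM.trans hMN)
  have p0 : 0 ≤ Pc a N := Nat.cast_nonneg _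
  change (c - ε / 2) * (1 / 2 * h * Li M) ≤ Pc a M at h1
  change (c - ε) * (1 / 2 * h * Li N) ≤ Pc a N
  rcases le_total (c - ε) 0 with h2 | h2
  · have h3 : 0 ≤ 1 / 2 * h * Li N := by positivity
    nlinarith
  · set x := 1 / 2 * h * Li M with hx
    have x0 : 0 ≤ x := by positivity
    have h4 : 1 / 2 * h * Li N ≤ (1 + ν) * x := by
      rw [hx]
      calc 1 / 2 * h * Li N ≤ 1 / 2 * h * ((1 + ν) * Li M) :=
            mul_le_mul_of_nonneg_left hL (by positivity)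
        _ = (1 + ν) * (1 / 2 * h * Li M) := by ring
    have hε : 0 < ε := by linarith
    have h5 : (c - ε) * (1 + ν) ≤ c - ε / 2 := by nlinarith
    calc (c - ε) * (1 / 2 * h * Li N) ≤ (c - ε) * ((1 + ν) * x) :=
          mul_le_mul_of_nonneg_left h4 h2
      _ = (c - ε) * (1 + ν) * x := by ring
      _ ≤ (c - ε / 2) * x := mul_le_mul_of_nonneg_right h5 x0
      _ ≤ Pc a N := h1.trans p1

end UNIPM

open UNIM UNIRM in
theorem specUNIP (hFINP : SpecFINP) (hLI : SpecLI) : SpecUNIP := by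
  intro θ ε B hθ7 hθ6 hε hB
  -- parameters
  obtain ⟨θ', hθ1, hθ2, hcP⟩ := UNIPM.ex_theta hθ7 hθ6 (show 0 < ε / 4 by positivity)
  set τ : ℝ := 1 / θ with hτ
  have hθ0 : 0 < θ := by linarith
  have hτ1 : 1 < τ := by
    rw [hτ, lt_div_iff₀ hθ0]; linarith
  have hτ2 : τ < 2 := by
    rw [hτ, div_lt_iff₀ hθ0]; linarith
  have hθτ : τ * θ' < 1 := by
    rw [hτ, div_mul_eq_mul_div, one_mul, div_lt_one hθ0]
    exact hθ2
  set ν : ℝ := min ε 1 / 2 with hν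
  have hν0 : 0 < ν := by rw [hν]; positivity
  have hν1 : ν ≤ 1 / 2 := by rw [hν]; have := min_le_right ε 1; linarith
  have hν2 : ν ≤ ε / 2 := by rw [hν]; have := min_le_left ε 1; linarith
  set η : ℝ := ν / 10 with hη
  have hη0 : 0 < η := by rw [hη]; positivity
  have hη1 : η ≤ 1 / 20 := by rw [hη]; linarith
  obtain ⟨N₀, hN₀⟩ := hFINP θ' (ε / 4) (B + 2) hθ1 (by linarith) (by positivity) (by linarith)
  obtain ⟨N₁, hN₁⟩ := Li_ratio hLI hν0 hν1
  obtain ⟨A₁, hA₁⟩ := grid_card hη0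
  obtain ⟨M₀, hM₀⟩ := ev_log
  -- `(2 A^τ)^θ' ≤ A` for large `A`
  have hpow : ∀ᶠ A : ℕ in atTop, (2 * (A : ℝ) ^ τ) ^ θ' ≤ A := by
    have h1 : Tendsto (fun A : ℕ => (A : ℝ) ^ (1 - τ * θ')) atTop atTop :=
      (tendsto_rpow_atTop (by linarith)).comp tendsto_natCast_atTop_atTop
    filter_upwards [h1.eventually_ge_atTop ((2 : ℝ) ^ θ'), eventually_ge_atTop 1] with A h2 h3
    have hA1 : (1 : ℝ) ≤ A := by exact_mod_cast h3
    have hA0 : (0 : ℝ) < A := by linarith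
    rw [Real.mul_rpow (by norm_num) (by positivity), ← Real.rpow_mul hA0.le]
    calc (2 : ℝ) ^ θ' * (A : ℝ) ^ (τ * θ') ≤ (A : ℝ) ^ (1 - τ * θ') * (A : ℝ) ^ (τ * θ') :=
          mul_le_mul_of_nonneg_right h2 (by positivity)
      _ = A := by rw [← Real.rpow_add hA0]; simp
  rw [eventually_atTop] at hpow
  obtain ⟨A₂, hA₂⟩ := hpow
  set R : ℕ := max N₀ (max N₁ (max M₀ 10)) with hR
  refine ⟨max A₁ (max A₂ ((5 * R) ^ 2)), fun A hA => ?_⟩
  have g1 : A₁ ≤ A := (le_max_left _ _).trans hA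
  have hA' := (le_max_right _ _).trans hA
  have g2 : A₂ ≤ A := (le_max_left _ _).trans hA'
  have g3 : (5 * R) ^ 2 ≤ A := (le_max_right _ _).trans hA'
  have r0 : N₀ ≤ R := le_max_left _ _
  have r1 : N₁ ≤ R := (le_max_left _ _).trans (le_max_right _ _)
  have r2 : M₀ ≤ R := (le_max_left _ _).trans ((le_max_right _ _).trans (le_max_right _ _))
  have r3 : 10 ≤ R := (le_max_right _ _).trans ((le_max_right _ _).trans (le_max_right _ _))
  have g5 : 100 ≤ A := by nlinarith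
  have g6 : ∀ M : ℕ, A ≤ (5 * M) ^ 2 → R ≤ M := by
    intro M hM
    by_contra hc
    rw [not_le] at hc
    have : (5 * M) ^ 2 < (5 * R) ^ 2 := Nat.pow_lt_pow_left (by omega) (by norm_num)
    omega
  have g7 : ∀ M : ℕ, (A : ℝ) ≤ (5 * (M : ℝ)) ^ 2 → R ≤ M := fun M hM => g6 M (by exact_mod_cast hM)
  obtain ⟨J, hJ1, hJ2⟩ := hA₁ A g1
  have hAR : (100 : ℝ) ≤ A := by exact_mod_cast g5
  have hAτ : (A : ℝ) ≤ (A : ℝ) ^ τ := by
    calc (A : ℝ) = (A : ℝ) ^ (1 : ℝ) := (Real.rpow_one _).symm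
      _ ≤ _ := Real.rpow_le_rpow_of_exponent_le (by linarith) hτ1.le
  have hAτ2 : (A : ℝ) ^ τ ≤ (A : ℝ) ^ (2 : ℝ) :=
    Real.rpow_le_rpow_of_exponent_le (by linarith) (by linarith)
  -- the bad sets
  let Q : ℕ → ℤ → Prop := fun j a => ((A : ℝ) ≤ G η j * √(Real.log (G η j)) ∧
      (G η j : ℝ) ≤ 2 * (A : ℝ) ^ τ ∧ R ≤ G η j) →
    ∃ h : ℝ, 0 < h ∧ IsC a h ∧ LowP (cP θ' - ε / 4) (G η j) a h
  have hQ : ∀ j, exc A (Q j) ≤ A / (Real.log A) ^ (B + 2) := by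
    intro j
    have hl : 0 < Real.log (A : ℝ) := Real.log_pos (by linarith)
    by_cases hc : (A : ℝ) ≤ G η j * √(Real.log (G η j)) ∧
      (G η j : ℝ) ≤ 2 * (A : ℝ) ^ τ ∧ R ≤ G η j
    · have h1 := hN₀ (G η j) A (r0.trans hc.2.2) (by
        refine le_trans (Real.rpow_le_rpow (Nat.cast_nonneg _) hc.2.1 (by linarith)) (hA₂ A g2))
        hc.1
      exact le_trans (exc_mono A (fun a _ h _ => h)) h1
    · rw [exc_zero A (P := Q j) (fun a _ h' => absurd h' hc)]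
      positivity
  -- the union
  have hU : exc A (fun a => (A : ℝ) / 2 < |(a : ℝ)| → ∃ h : ℝ, 0 < h ∧ IsC a h ∧
      ∀ N : ℕ, |(a : ℝ)| ≤ N * (Real.log N) ^ (1 / 4 : ℝ) → (N : ℝ) ≤ |(a : ℝ)| ^ τ →
        LowP (cP θ - ε) N a h)
      ≤ ∑ j ∈ range (J + 1), exc A (Q j) := by
    apply exc_union
    intro a haI hall ha2
    have haA : |(a : ℝ)| ≤ A := by
      have h1 := haI
      unfold IA at h1
      rw [Finset.mem_Icc] at h1
      rw [abs_le]
      exact ⟨by exact_mod_cast h1.1, by exact_mod_cast h1.2⟩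
    -- the grid point below `N`
    have key : ∀ N : ℕ, |(a : ℝ)| ≤ N * (Real.log N) ^ (1 / 4 : ℝ) → (N : ℝ) ≤ |(a : ℝ)| ^ τ →
        ∃ M : ℕ, 2 ≤ M ∧ M ≤ N ∧ Li N ≤ (1 + ν) * Li M ∧
        (∃ h : ℝ, 0 < h ∧ IsC a h ∧ LowP (cP θ' - ε / 4) M a h) := by
      intro N hN1 hN2
      have hNA : (A : ℝ) / 2 < N * (Real.log N) ^ (1 / 4 : ℝ) := lt_of_lt_of_le ha2 hN1
      have hN1' : 1 ≤ N := by
        rcases Nat.eq_zero_or_pos N with h0 | h0
        · rw [h0] at hNA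
          simp at hNA
          linarith
        · exact h0
      have hNpos : (1 : ℝ) ≤ N := by exact_mod_cast hN1'
      have hNsq : (A : ℝ) ≤ 2 * (N : ℝ) ^ 2 := by
        have := log_quarter_le hN1'
        nlinarith
      have hNτ : (N : ℝ) ≤ (A : ℝ) ^ τ :=
        hN2.trans (Real.rpow_le_rpow (abs_nonneg _) haA (by linarith))
      obtain ⟨j, hj1, hj2, hj3⟩ := grid hη0 hN1'
      have hj2' : (N : ℝ) ≤ G η (j + 1) := by exact_mod_cast hj2
      have hj1' : (G η j : ℝ) ≤ N := by exact_mod_cast hj1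
      have hG1 : 1 ≤ G η j := Nat.one_le_iff_ne_zero.mpr (by
        have : (1 : ℝ) ≤ (1 + η) ^ j := one_le_pow₀ (by linarith)
        have := (this.trans (Nat.le_ceil _) : (1 : ℝ) ≤ (⌈(1 + η) ^ j⌉₊ : ℝ))
        intro h0
        unfold G at h0
        rw [h0] at this
        norm_num at this)
      have hG1' : (1 : ℝ) ≤ G η j := by exact_mod_cast hG1
      have hN3G : (N : ℝ) ≤ 3 * G η j := by nlinarith
      have hRM : R ≤ G η j := by
        apply g7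
        nlinarith
      have hRM' : (10 : ℝ) ≤ G η j := by exact_mod_cast r3.trans hRM
      have hN2G : (N : ℝ) ≤ 2 * G η j := by nlinarith
      have hGM : (G η j : ℝ) ≤ 2 * (A : ℝ) ^ τ := by linarith
      have hAM : (A : ℝ) ≤ G η j * √(Real.log (G η j)) := by
        have e1 : (Real.log N) ^ (1 / 4 : ℝ) ≤ (Real.log (2 * (G η j : ℝ))) ^ (1 / 4 : ℝ) :=
          Real.rpow_le_rpow (Real.log_nonneg hNpos) (Real.log_le_log (by linarith) hN2G)
            (by norm_num)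
        have e2 := hM₀ (G η j) (r2.trans hRM)
        have e3 : (N : ℝ) * (Real.log N) ^ (1 / 4 : ℝ)
            ≤ (2 * G η j) * (Real.log (2 * (G η j : ℝ))) ^ (1 / 4 : ℝ) :=
          mul_le_mul hN2G e1 (Real.rpow_nonneg (Real.log_nonneg hNpos) _) (by linarith)
        have e4 : (G η j : ℝ) * (4 * (Real.log (2 * (G η j : ℝ))) ^ (1 / 4 : ℝ))
            ≤ G η j * √(Real.log (G η j)) :=
          mul_le_mul_of_nonneg_left e2 (by linarith)
        linarith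
      refine ⟨G η j, by omega, hj1, ?_, ?_⟩
      · exact hN₁ _ _ (r1.trans hRM) hj1 (hj2'.trans hj3)
      · exact hall j (Finset.mem_range_succ_iff.mpr (hJ2 j (hGM.trans (by linarith))))
          ⟨hAM, hGM, hRM⟩
    -- the constant
    have habs : ((a.natAbs : ℕ) : ℝ) = |(a : ℝ)| := by
      rw [Nat.cast_natAbs]; push_cast; rfl
    have ha1 : (1 : ℝ) ≤ |(a : ℝ)| := by linarith
    have hlog1 : 1 ≤ Real.log ((a.natAbs : ℕ) : ℝ) := by
      rw [habs, Real.le_log_iff_exp_le (by linarith)]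
      have := Real.exp_one_lt_d9
      linarith
    obtain ⟨-, -, -, -, ⟨h, hh, hI, -⟩⟩ := key a.natAbs (by
      have h1 : 1 ≤ (Real.log ((a.natAbs : ℕ) : ℝ)) ^ (1 / 4 : ℝ) :=
        Real.one_le_rpow hlog1 (by norm_num)
      have h2 : 0 ≤ ((a.natAbs : ℕ) : ℝ) := Nat.cast_nonneg _
      nlinarith [habs]) (by
      rw [habs]
      calc |(a : ℝ)| = |(a : ℝ)| ^ (1 : ℝ) := (Real.rpow_one _).symm
        _ ≤ _ := Real.rpow_le_rpow_of_exponent_le ha1 hτ1.le)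
    refine ⟨h, hh, hI, fun N hN1 hN2 => ?_⟩
    obtain ⟨M, hM2, hMN, hL, ⟨h', -, hI', hg'⟩⟩ := key N hN1 hN2
    obtain rfl := isC_unique hI hI'
    apply UNIPM.interp (UNIPM.cP_le_one hθ7) hν0 hν2 hh hM2 hMN hL
    unfold LowP at hg' ⊢
    refine le_trans (mul_le_mul_of_nonneg_right (by linarith) ?_) hg'
    have l0 : 0 ≤ Li M := Li_nonneg hM2
    unfold Li at l0
    positivity
  refine hU.trans ((Finset.sum_le_sum (fun j _ => hQ j)).trans ?_)
  rw [Finset.sum_const, Finset.card_range, nsmul_eq_mul]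
  have hl : 0 < Real.log (A : ℝ) := Real.log_pos (by linarith)
  rw [Real.rpow_add hl]
  have hlB : 0 < (Real.log (A : ℝ)) ^ B := Real.rpow_pos_of_pos hl _
  have hl2 : 0 < (Real.log (A : ℝ)) ^ (2 : ℝ) := Real.rpow_pos_of_pos hl _
  push_cast
  calc ((J : ℝ) + 1) * (A / ((Real.log A) ^ B * (Real.log A) ^ (2 : ℝ)))
      ≤ (Real.log A) ^ (2 : ℝ) * (A / ((Real.log A) ^ B * (Real.log A) ^ (2 : ℝ))) :=
        mul_le_mul_of_nonneg_right hJ1 (by positivity)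
    _ = A / (Real.log A) ^ B := by field_simp

end Pool.Agent.Lib.MP391708.U.K
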