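import Pool.Agent.Lib.MP_391708_nt.U.SpecUK
import Pool.Agent.Lib.MP_391708_nt.U.WMS

/-!
# Project UK, module WMSV: the main term for almost all `a`, `A` at least `N^(1/2)`
-/

set_option autoImplicit false

namespace Pool.Agent.Lib.MP391708.U.K

open Finset Filter Topology Pool.Agent.Lib.MP391708.QPA Pool.Agent.Lib.MP391708.QPA.H
open Pool.Agent.Lib.MP391708.U
open scoped Classical

noncomputable section

open Pool.Agent.Lib.MP391708.U.WMSM in
/-- **WMSV**. -/
theorem specWMSV (hRHOW : SpecRHOWV) (hBRU : SpecBRU) (hTAUM : SpecTAUM) (hRHB : SpecRHB) :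
    SpecWMSV := by
  intro σ B hσ hB
  obtain ⟨V₁, hV₁, hR⟩ := hRHOW 2 (B + 1) 1 (by linarith) one_pos
  refine ⟨max V₁ (B + 10), lt_max_of_lt_left hV₁, fun V hV => ?_⟩
  obtain ⟨N₁, hN₁⟩ := hR V (le_trans (le_max_left _ _) hV)
  obtain ⟨N₂, hN₂⟩ := eventually_atTop.1 (ev_err σ B V hσ hB (le_trans (le_max_right _ _) hV))
  refine ⟨max (max N₁ N₂) 1, fun N A hN hA1 hA2 lam hlam K₁ K₂ hK1 hK12 hK2 => ?_⟩
  have hNN1 : N₁ ≤ N := le_trans (le_trans (le_max_left _ _) (le_max_left _ _)) hN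
  have hNN2 : N₂ ≤ N := le_trans (le_trans (le_max_right _ _) (le_max_left _ _)) hN
  have hN1 : 1 ≤ N := le_trans (le_max_right _ _) hN
  obtain ⟨hT3, herr⟩ := hN₂ N hNN2
  have hT0 : 0 < Real.log (N : ℝ) := by linarith
  obtain ⟨w, hw⟩ : ∃ w : ℝ, w = (Real.log (N : ℝ)) ^ V := ⟨_, rfl⟩
  have hw0 : 0 < w := by rw [hw]; exact Real.rpow_pos_of_pos hT0 _
  obtain ⟨b, hb⟩ : ∃ b : ℕ, b = bN σ V N := ⟨_, rfl⟩
  rw [← hw, ← hb] at herr
  obtain ⟨β, hβ⟩ : ∃ β : ℕ → ℝ, β = fun k => if k ∈ Ioc K₁ K₂ ∧ Odd k ∧ Squarefree k ∧ Rough w k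
    then Th lam k / (k : ℝ) else 0 := ⟨_, rfl⟩
  have hβ1 : ∀ k, β k ≠ 0 → 1 ≤ k ∧ k ≤ 4 * N ∧ Odd k ∧ Squarefree k ∧
      Rough ((Real.log (N : ℝ)) ^ V) k := by
    intro k hk
    rw [hβ] at hk
    simp only [ne_eq, ite_eq_right_iff, Classical.not_imp] at hk
    obtain ⟨⟨h1, h2, h3, h4⟩, -⟩ := hk
    rw [Finset.mem_Ioc] at h1
    refine ⟨by omega, by omega, h2, h3, ?_⟩
    rw [← hw]
    exact h4
  have hβ0 : ∀ k, 0 ≤ β k := by
    intro k
    rw [hβ]
    dsimp only
    have := Th_nonneg lam k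
    split_ifs
    · positivity
    · exact le_rfl
  have hβ2 : ∀ k, |β k| ≤ (Real.log (N : ℝ)) ^ (1 : ℝ) * ta k ^ 2 / k := by
    intro k
    rw [abs_of_nonneg (hβ0 k), Real.rpow_one]
    have hta := ta_nonneg k
    have h1 : ta k ^ 2 / (k : ℝ) ≤ Real.log (N : ℝ) * ta k ^ 2 / k := by
      apply div_le_div_of_nonneg_right _ (Nat.cast_nonneg k)
      nlinarith [sq_nonneg (ta k)]
    rw [hβ]
    dsimp only
    split_ifs
    · exact le_trans (div_le_div_of_nonneg_right (Th_le hlam k) (Nat.cast_nonneg k)) h1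
    · exact le_trans (by positivity) h1
  have hex := hN₁ N A hNN1 hA1 hA2 β hβ1 hβ2
  have hTB : (Real.log (N : ℝ)) ^ B ≤ (Real.log (N : ℝ)) ^ (B + 1) :=
    Real.rpow_le_rpow_of_exponent_le (by linarith) (by linarith)
  have hTB0 : 0 < (Real.log (N : ℝ)) ^ B := Real.rpow_pos_of_pos hT0 _
  refine (le_trans ?_ hex).trans (div_le_div_of_nonneg_left (Nat.cast_nonneg A) hTB0 hTB)
  unfold exc
  rw [← hw, ← hb]
  have hsub : (IA A).filter (fun a => ¬ (∑ k ∈ (Ioc K₁ K₂).filter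
      (fun k => Nat.Coprime k (2 * a).natAbs), ck w b lam k * ((rho a k : ℝ) / k)
        ≤ ∑ k ∈ Ioc K₁ K₂, Th lam k / (k : ℝ) + 1 / (Real.log (N : ℝ)) ^ B)) ⊆
      (IA A).filter (fun a => ¬ (|∑ k ∈ Icc 1 (4 * N), β k * ((rho a k : ℝ) - 1)| ≤
        1 / (Real.log (N : ℝ)) ^ (B + 1))) := by
    intro a ha
    rw [Finset.mem_filter] at ha ⊢
    refine ⟨ha.1, fun hgood => ha.2 ?_⟩
    have h1 : ∑ k ∈ (Ioc K₁ K₂).filter (fun k => Nat.Coprime k (2 * a).natAbs),
        ck w b lam k * ((rho a k : ℝ) / k) ≤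
        ∑ k ∈ Icc 1 (4 * N), (β k * (rho a k : ℝ) + (if NSq w k then ta k ^ 3 / (k : ℝ) else 0)
          + (1 / 4 : ℝ) ^ b * (ta k ^ 5 / k)) := by
      have hnn : ∀ k, 0 ≤ β k * (rho a k : ℝ) + (if NSq w k then ta k ^ 3 / (k : ℝ) else 0)
          + (1 / 4 : ℝ) ^ b * (ta k ^ 5 / k) := by
        intro k
        have hta := ta_nonneg k
        have h2 : 0 ≤ (if NSq w k then ta k ^ 3 / (k : ℝ) else 0) := by
          split_ifs
          · positivity
          · exact le_rfl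
        have h3 := mul_nonneg (hβ0 k) (Nat.cast_nonneg (α := ℝ) (rho a k))
        have h4 : 0 ≤ (1 / 4 : ℝ) ^ b * (ta k ^ 5 / k) := by positivity
        linarith
      calc _ ≤ ∑ k ∈ (Ioc K₁ K₂).filter (fun k => Nat.Coprime k (2 * a).natAbs),
            (β k * (rho a k : ℝ) + (if NSq w k then ta k ^ 3 / (k : ℝ) else 0)
              + (1 / 4 : ℝ) ^ b * (ta k ^ 5 / k)) := by
            apply Finset.sum_le_sum
            intro k hk
            rw [Finset.mem_filter] at hk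
            have hk1 : 1 ≤ k := by
              have := Finset.mem_Ioc.1 hk.1
              omega
            have h2 := point hBRU hRHB w b k hlam a hk1 hk.2
            have h3 : β k = (if Odd k ∧ Squarefree k ∧ Rough w k then Th lam k / (k : ℝ)
                else 0) := by
              rw [hβ]
              dsimp only
              by_cases h4 : Odd k ∧ Squarefree k ∧ Rough w k
              · rw [if_pos ⟨hk.1, h4⟩, if_pos h4]
              · rw [if_neg (fun h => h4 h.2), if_neg h4]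
            rw [h3]
            exact h2
        _ ≤ _ := by
            apply Finset.sum_le_sum_of_subset_of_nonneg
            · intro k hk
              have h2 := Finset.mem_Ioc.1 (Finset.mem_filter.1 hk).1
              rw [Finset.mem_Icc]
              omega
            · intro k _ _
              exact hnn k
    have h2 : ∑ k ∈ Icc 1 (4 * N), (β k * (rho a k : ℝ) +
        (if NSq w k then ta k ^ 3 / (k : ℝ) else 0) + (1 / 4 : ℝ) ^ b * (ta k ^ 5 / k)) =
        ∑ k ∈ Icc 1 (4 * N), β k * ((rho a k : ℝ) - 1) + ∑ k ∈ Icc 1 (4 * N), β k +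
        ∑ k ∈ Icc 1 (4 * N), (if NSq w k then ta k ^ 3 / (k : ℝ) else 0) +
        (1 / 4 : ℝ) ^ b * ∑ k ∈ Icc 1 (4 * N), ta k ^ 5 / (k : ℝ) := by
      rw [Finset.mul_sum, ← Finset.sum_add_distrib, ← Finset.sum_add_distrib,
        ← Finset.sum_add_distrib]
      apply Finset.sum_congr rfl
      intro k _
      ring
    have h3 : ∑ k ∈ Icc 1 (4 * N), β k ≤ ∑ k ∈ Ioc K₁ K₂, Th lam k / (k : ℝ) := by
      calc ∑ k ∈ Icc 1 (4 * N), β k ≤ ∑ k ∈ Icc 1 (4 * N),
            (if k ∈ Ioc K₁ K₂ then Th lam k / (k : ℝ) else 0) := by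
            apply Finset.sum_le_sum
            intro k _
            rw [hβ]
            dsimp only
            have := Th_nonneg lam k
            by_cases h4 : k ∈ Ioc K₁ K₂
            · rw [if_pos h4]
              split_ifs
              · exact le_rfl
              · positivity
            · rw [if_neg h4, if_neg (fun h => h4 h.1)]
        _ = ∑ k ∈ (Icc 1 (4 * N)).filter (fun k => k ∈ Ioc K₁ K₂), Th lam k / (k : ℝ) := by
            rw [Finset.sum_filter]
        _ ≤ _ := by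
            apply Finset.sum_le_sum_of_subset_of_nonneg
            · intro k hk
              exact (Finset.mem_filter.1 hk).2
            · intro k _ _
              have := Th_nonneg lam k
              positivity
    have h4 := sumE2 hTAUM hw0 (4 * N) (by omega)
    have h5 := hTAUM 5 (4 * N) 1 (by omega) le_rfl
    rw [ta_one] at h5
    have h6 : (Icc 1 (4 * N)).filter (fun k => 1 ∣ k) = Icc 1 (4 * N) :=
      Finset.filter_true_of_mem (fun k _ => one_dvd k)
    rw [h6] at h5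
    have h7 : (1 : ℝ) ^ 5 / ((1 : ℕ) : ℝ) * (1 + Real.log ((4 * N : ℕ) : ℝ)) ^ 2 ^ 5 =
        (1 + Real.log ((4 * N : ℕ) : ℝ)) ^ 32 := by
      norm_num
    rw [h7] at h5
    have h8 : (1 / 4 : ℝ) ^ b * ∑ k ∈ Icc 1 (4 * N), ta k ^ 5 / (k : ℝ) ≤
        (1 / 4 : ℝ) ^ b * (1 + Real.log ((4 * N : ℕ) : ℝ)) ^ 32 :=
      mul_le_mul_of_nonneg_left h5 (by positivity)
    have h9 := le_abs_self (∑ k ∈ Icc 1 (4 * N), β k * ((rho a k : ℝ) - 1))
    rw [h2] at h1
    linarith
  exact_mod_cast Finset.card_le_card hsub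

end

end Pool.Agent.Lib.MP391708.U.K
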