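import Pool.Agent.Lib.MP_391708_nt.U.All
import Pool.Agent.Lib.MP_391708_nt.QPA.H.All
import Pool.Agent.Lib.MP_391708_nt.U.MTAV
import Pool.Agent.Lib.MP_391708_nt.U.MTBV
import Pool.Agent.Lib.MP_391708_nt.U.TWOV
import Pool.Agent.Lib.MP_391708_nt.U.BLK2V
import Pool.Agent.Lib.MP_391708_nt.U.TIIV
import Pool.Agent.Lib.MP_391708_nt.U.K.PRODV
import Pool.Agent.Lib.MP_391708_nt.U.K.RWAV
import Pool.Agent.Lib.MP_391708_nt.U.K.RHOWV
import Pool.Agent.Lib.MP_391708_nt.U.K.MOBV
import Pool.Agent.Lib.MP_391708_nt.U.K.RHMV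
import Pool.Agent.Lib.MP_391708_nt.U.K.NSFV
import Pool.Agent.Lib.MP_391708_nt.U.K.WMSV
import Pool.Agent.Lib.MP_391708_nt.U.K.WINV
import Pool.Agent.Lib.MP_391708_nt.U.K.TIV
import Pool.Agent.Lib.MP_391708_nt.U.K.BLKV
import Pool.Agent.Lib.MP_391708_nt.U.K.BKEV
import Pool.Agent.Lib.MP_391708_nt.U.K.TAILV
import Pool.Agent.Lib.MP_391708_nt.U.K.FINP
import Pool.Agent.Lib.MP_391708_nt.U.K.FINQ
import Pool.Agent.Lib.MP_391708_nt.U.K.FINR
import Pool.Agent.Lib.MP_391708_nt.U.K.UNIP
import Pool.Agent.Lib.MP_391708_nt.U.K.UNIQ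
import Pool.Agent.Lib.MP_391708_nt.U.K.UNIS
import Pool.Agent.Lib.MP_391708_nt.U.K.DIAG
import Pool.Agent.Lib.MP_391708_nt.U.K.MAINW

/-!
# Project UK (MP_391708): assembly
-/

set_option autoImplicit false

namespace Pool.Agent.Lib.MP391708.U.K

open Pool.Agent.Lib.MP391708.QPA Pool.Agent.Lib.MP391708.QPA.H Pool.Agent.Lib.MP391708.U

/-- the theorem -/
theorem mainw : SpecMAINW := by
  have hSELB := specSELB
  have hBT := specBT hSELB
  have hRSUM := specRSUM hBT
  have hQG := specQG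
  have hRAV := specRAV hQG
  have hSML := specSML specPVA
  have hLRG := specLRG specPVE
  have hCOUNT := specCOUNT
  have hSEC := specSEC (specKER (specBIL specDLS) specPOI hCOUNT) hCOUNT
  have hPNT := specPNT specPNTAP
  have hMODP := specMODP hPNT
  have hG := specGMAXU specRHO2 specRHOP
  have hRHB := specRHB specRHOM specRHOS
  have hF6 := specF6U specEUL (specCONV specEUL specRHOP specRHO2) specPVA specPVE specRHOP
    specRHO2 (specTLU specIEU)
  -- averages over `a`
  have hPROD := specPRODV specRHOP specPVA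
  have hRHOW := specRHOWV (specRWAV hSML hLRG specTAUM) specTAUM specRHOD
  have hMOB := specMOBV hRHOW
  have hRHM := specRHMV hRHOW hRAV hRSUM
  have hNSF := specNSFV hQG
  have hWPT := specWPT specFL (specTYW (typeI_of R.rootw) specRSU) specBRU specMKF
    (specMAI specBRU specTAUM hRHB specRHOM) specTAUM specTNT specRHOM specRHOS specRHO2
  have hWIN := specWINV hWPT (specWMSV hRHOW specBRU specTAUM hRHB) (specSLM hSELB) hPROD
    specWMER hG specWIC
  have hWINM := specWINM hBT hRSUM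
  have hTAIL := specTAILV specFL specRHO1 specRHOM specRHOP specRHO2 specRHOS specRHOC specWMER
    hPROD hG
  -- Type II
  have hTWO := specTWOV hSEC (specFIRSTH hRAV hBT)
  have hBLK2 := specBLK2V hTWO wbu balu equ
    (specMTAV specFL specRHOC specRHOM specRHOP specRHO2 hRAV)
    (specMTBV (specBKH hSML hLRG) hRAV specRHOD) specSHM specFFB hG
  have hTII := specTIIV hBLK2 specFFB hG
  -- Type I
  have hTI := specTIV (specFLAK specFL specRHO1 specRHOM specRHOP specRHO2 specRHOS specRHOC)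
    (specFLBK specFL) hPROD hMOB hRHM hG specWMER hRSUM
  -- blocks
  have hBLK := specBLKV hTI specT2K hTII hWIN hWINM hNSF specNSFM hG
  have hBKE := specBKEV specT2E hTII hWIN hWINM hNSF specNSFM hG
  -- one scale
  have hFINP := specFINP hBLK (specP3M hMODP) hF6 hMODP specLI specRHOP specRHO2 hG
  have hFINQ := specFINQ hBKE (specEKM hPNT specMER) hTAIL hF6 specRHOP specRHO2 hG
  have hFINR := specFINR hBLK (specP3M hMODP) hTAIL hF6 hMODP specRHOP specRHO2 hG
  -- all scales
  exact specMAINW specDIAG (specUNIR finbx specLI) (specUNIP hFINP specLI) (specUNIQ hFINQ)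
    (specUNIS hFINR)

end Pool.Agent.Lib.MP391708.U.K
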