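import Pool.Agent.Lib.MP_391708_nt.U.K.FIN5

/-!
# FIN7: the theorems on primes of `MAINW`
-/

set_option autoImplicit false

namespace Pool.Agent.Lib.MP391708.U.K

open Finset Filter Topology Pool.Agent.Lib.MP391708.QPA Pool.Agent.Lib.MP391708.QPA.H
open Pool.Agent.Lib.MP391708.U
open scoped Classical

namespace FIN7M

/-- the lower bound `79/100` of `MAINW` -/
lemma low {E : Set ℤ} (hl : ∀ (k : ℕ) (δ : ℝ), 1 ≤ k → 0 < δ → ∃ c : ℝ, 0 < c ∧ ∀ ε θ : ℝ, 0 < ε →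
    7 / 10 < θ → θ ≤ 5 / 6 →
    ∃ a₀ : ℝ, ∀ a : ℤ, a ∉ E → a₀ ≤ |(a : ℝ)| → ∃ h : ℝ, 0 < h ∧ IsC a h ∧
      ∀ N : ℕ, |(a : ℝ)| ≤ N * (Real.log N) ^ (1 / 4 : ℝ) →
        ((N : ℝ) ≤ |(a : ℝ)| ^ (6 / 5 - δ) → Good1 ε N N a h) ∧
        ((N : ℝ) ≤ |(a : ℝ)| ^ (1 / θ) → LowP (cP θ - ε) N a h) ∧
        ((N : ℝ) ≤ |(a : ℝ)| ^ (eK k - δ) → c * (h * (N / Real.log N)) ≤ cntk k N a))
    (δ : ℝ) (hδ : 0 < δ) : ∃ a₀ : ℝ, ∀ a : ℤ, a ∉ E → a₀ ≤ |(a : ℝ)| → ∃ h : ℝ, 0 < h ∧ IsC a h ∧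
      ∀ N : ℕ, |(a : ℝ)| ≤ N * (Real.log N) ^ (1 / 4 : ℝ) → (N : ℝ) ≤ |(a : ℝ)| ^ (10 / 7 - δ) →
        LowP (79 / 100) N a h := by
  obtain ⟨c, hc, h3⟩ := hl 1 1 le_rfl one_pos
  set d : ℝ := min δ (1 / 2) with hd
  have hd0 : 0 < d := lt_min hδ (by norm_num)
  have hdδ : d ≤ δ := min_le_left _ _
  have hd2 : d ≤ 1 / 2 := min_le_right _ _
  have hpos : (0 : ℝ) < 10 / 7 - d := by linarith
  have hq : (7 / 10 : ℝ) < 1 / (10 / 7 - d) := by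
    rw [lt_div_iff₀ hpos]
    linarith
  set θ : ℝ := min (701 / 1000) (1 / (10 / 7 - d)) with hθ
  have hθ1 : 7 / 10 < θ := lt_min (by norm_num) hq
  have hθ2 : θ ≤ 701 / 1000 := min_le_left _ _
  have hθ3 : θ ≤ 1 / (10 / 7 - d) := min_le_right _ _
  have hθ0 : 0 < θ := by linarith
  have hθ4 : 10 / 7 - δ ≤ 1 / θ := by
    have h5 : 10 / 7 - d ≤ 1 / θ := by
      rw [le_div_iff₀ hθ0]
      have := (le_div_iff₀ hpos).1 hθ3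
      linarith
    linarith
  obtain ⟨a₀, h4⟩ := h3 (1 / 1000) θ (by norm_num) hθ1 (by linarith)
  refine ⟨max a₀ 1, fun a ha ha0 => ?_⟩
  obtain ⟨h, hh, hC, h5⟩ := h4 a ha ((le_max_left _ _).trans ha0)
  have ha1 : 1 ≤ |(a : ℝ)| := (le_max_right _ _).trans ha0
  refine ⟨h, hh, hC, fun N hN hN2 => ?_⟩
  have hN3 : (N : ℝ) ≤ |(a : ℝ)| ^ (1 / θ) :=
    hN2.trans (Real.rpow_le_rpow_of_exponent_le ha1 hθ4)
  have h6 := (h5 N hN).2.1 hN3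
  have hN4 : 2 ≤ N := by
    by_contra hlt
    have : N = 0 ∨ N = 1 := by omega
    have h0 : (N : ℝ) * (Real.log N) ^ (1 / 4 : ℝ) = 0 := by
      rcases this with h | h
      · rw [h]; simp
      · rw [h]; simp
    rw [h0] at hN
    linarith
  unfold LowP at h6 ⊢
  refine le_trans ?_ h6
  refine mul_le_mul_of_nonneg_right ?_ ?_
  · have := FIN5M.cP_ge hθ1 hθ2
    linarith
  · have := FIN5M.li_nonneg hN4
    positivity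

end FIN7M

open FIN5M FIN7M in
/-- the theorem on primes without the last range -/
theorem spec_primes0 (h₁ : SpecMAINW) : ∃ E : Set ℤ,
    (∀ B : ℝ, ∃ A₀ : ℕ, ∀ A : ℕ, A₀ ≤ A →
      (((Icc (-(A : ℤ)) A).filter (fun a => a ∈ E)).card : ℝ) ≤ A / (Real.log A) ^ B) ∧
    ∀ δ ε : ℝ, 0 < δ → 0 < ε → ∃ a₀ : ℝ, ∀ a : ℤ, a ∉ E → a₀ ≤ |(a : ℝ)| →
      ∃ h : ℝ, 0 < h ∧ IsC a h ∧ ∀ N : ℕ, |(a : ℝ)| ≤ N * (Real.log N) ^ (1 / 4 : ℝ) →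
        ((N : ℝ) ≤ |(a : ℝ)| ^ (6 / 5 - δ) → Good1 ε N N a h) ∧
        ((N : ℝ) ≤ |(a : ℝ)| ^ (10 / 7 - δ) → LowP (79 / 100) N a h) := by
  obtain ⟨E₁, hE₁, hl⟩ := h₁
  refine ⟨E₁, hE₁, fun δ ε hδ hε => ?_⟩
  obtain ⟨c, hc, h3⟩ := hl 1 δ le_rfl hδ
  obtain ⟨a₀, h4⟩ := h3 ε (5 / 6) hε (by norm_num) le_rfl
  obtain ⟨a₁, h5⟩ := low hl δ hδ
  refine ⟨max a₀ a₁, fun a ha ha0 => ?_⟩
  obtain ⟨h, hh, hC, h7⟩ := h4 a ha ((le_max_left _ _).trans ha0)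
  obtain ⟨h', hh', hC', h8⟩ := h5 a ha ((le_max_right _ _).trans ha0)
  have he : h' = h := tendsto_nhds_unique hC' hC
  subst he
  exact ⟨h', hh', hC', fun N hN => ⟨fun hN2 => (h7 N hN).1 hN2, fun hN2 => h8 N hN hN2⟩⟩

end Pool.Agent.Lib.MP391708.U.K
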