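import Pool.Agent.Lib.MP_391708_nt.U.SpecUK
import Pool.Agent.Lib.MP_391708_nt.U.RHOU
import Pool.Agent.Lib.MP_391708_nt.QPA.TI

/-!
# RHMV: the mean of `ρ_a` on the rough numbers, for almost all `a`
-/

set_option autoImplicit false

namespace Pool.Agent.Lib.MP391708.U.K

open Finset Filter Topology Pool.Agent.Lib.MP391708.QPA Pool.Agent.Lib.MP391708.QPA.H
open Pool.Agent.Lib.MP391708.U
open scoped Classical

namespace RHMVM

/-- powers of the logarithm -/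
theorem ev_logpow (s e c : ℝ) (he : 0 < e) (hc : 0 < c) :
    ∀ᶠ N : ℕ in atTop, c * (Real.log N) ^ s ≤ (N : ℝ) ^ e := by
  have h1 : (fun x : ℝ => Real.log x ^ s) =o[atTop] fun x => x ^ e :=
    isLittleO_log_rpow_rpow_atTop s he
  have h2 := h1.def (show (0 : ℝ) < 1 / c by positivity)
  have h3 := (tendsto_natCast_atTop_atTop (R := ℝ)).eventually h2
  filter_upwards [h3, RHOMEAN.ev_log 0] with N hN h5
  rw [Real.norm_eq_abs, Real.norm_eq_abs, abs_of_nonneg (Real.rpow_nonneg h5 _),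
    abs_of_nonneg (by positivity)] at hN
  calc c * (Real.log N) ^ s ≤ c * (1 / c * (N : ℝ) ^ e) := mul_le_mul_of_nonneg_left hN hc.le
    _ = _ := by field_simp

/-- first moment of the nonsquarefree part -/
theorem nonsqf (hR : SpecRAV) (θ : ℝ) (hθ : 1 / 2 < θ) : ∃ C : ℝ, 0 < C ∧
    ∀ (N A : ℕ) (z : ℝ) (K : Finset ℕ), 2 ≤ N → 2 ≤ z → (N : ℝ) ^ θ ≤ A →
    (∀ k ∈ K, 1 ≤ k ∧ k ≤ N ∧ ¬ Squarefree k ∧ Rough z k) →
    ∑ a ∈ IA A, ∑ k ∈ K, (rho a k : ℝ) / k ≤ C * A / z * (1 + Real.log N) := by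
  obtain ⟨C, hC, h1⟩ := hR (min (θ - 1 / 2) (1 / 10)) (lt_min (by linarith) (by norm_num))
  refine ⟨2 * (3 + C), by positivity, ?_⟩
  intro N A z K hN hz hA hK
  have hN2 : (2 : ℝ) ≤ N := by exact_mod_cast hN
  have hN1 : (1 : ℝ) ≤ N := by linarith
  have hN0 : (0 : ℝ) < N := by linarith
  have hA1 : (1 : ℝ) ≤ A := (Real.one_le_rpow hN1 (by linarith)).trans hA
  have h5 : ∀ k ∈ K, ∑ a ∈ IA A, (rho a k : ℝ) ≤ (3 + C) * A := by
    intro k hk
    obtain ⟨g1, g2, g3, g4⟩ := hK k hk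
    have h7 := (abs_le.mp (h1 k A g1)).2
    have hkN : (k : ℝ) ≤ N := by exact_mod_cast g2
    have hk1 : (1 : ℝ) ≤ k := by exact_mod_cast g1
    have h8 : (k : ℝ) ^ (1 / 2 + min (θ - 1 / 2) (1 / 10)) ≤ A := by
      calc (k : ℝ) ^ (1 / 2 + min (θ - 1 / 2) (1 / 10)) ≤ (k : ℝ) ^ θ :=
            Real.rpow_le_rpow_of_exponent_le hk1 (by linarith [min_le_left (θ - 1 / 2) (1 / 10)])
        _ ≤ (N : ℝ) ^ θ := Real.rpow_le_rpow (by linarith) hkN (by linarith)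
        _ ≤ A := hA
    have h9 := mul_le_mul_of_nonneg_left h8 hC.le
    linarith
  calc ∑ a ∈ IA A, ∑ k ∈ K, (rho a k : ℝ) / k
      = ∑ k ∈ K, 1 / (k : ℝ) * ∑ a ∈ IA A, (rho a k : ℝ) := by
        rw [sum_comm]
        refine sum_congr rfl fun k _ => ?_
        rw [mul_sum]
        refine sum_congr rfl fun a _ => ?_
        ring
    _ ≤ ∑ k ∈ K, 1 / (k : ℝ) * ((3 + C) * A) :=
        sum_le_sum fun k hk => mul_le_mul_of_nonneg_left (h5 k hk) (by positivity)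
    _ = (∑ k ∈ K, 1 / (k : ℝ)) * ((3 + C) * A) := by rw [sum_mul]
    _ ≤ (2 / z * (1 + Real.log (N : ℝ))) * ((3 + C) * A) :=
        mul_le_mul_of_nonneg_right (RHOUM.nsf z hz N K hK) (by positivity)
    _ = _ := by ring

end RHMVM

theorem specRHMV (hRHOWV : SpecRHOWV) (hRAV : SpecRAV) (hRSUM : SpecRSUM) : SpecRHMV := by
  obtain ⟨C₀, hC₀, hR⟩ := hRSUM
  refine ⟨3 + 2 * C₀, by positivity, ?_⟩
  intro θ e0 B hθ he0 he1 hB
  obtain ⟨V₀, hV₀, hV⟩ := hRHOWV 0 (B + 1) 1 (by linarith) one_pos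
  obtain ⟨N₁, hN₁⟩ := hV V₀ le_rfl
  obtain ⟨C₂, hC₂, h2⟩ := RHMVM.nonsqf hRAV θ hθ
  obtain ⟨N₂, hN₂⟩ := eventually_atTop.1 ((((RHOMEAN.ev_rpow e0 he0 3).and
    (RHOMEAN.ev_log 2)).and ((RHMVM.ev_logpow V₀ e0 1 he0 one_pos).and
    (RHMVM.ev_logpow (B + 2) e0 (2 * C₂) he0 (by positivity)))).and
    ((RHMVM.ev_logpow 1 (1 / 10) 1 (by norm_num) one_pos).and (eventually_ge_atTop 4)))
  refine ⟨max N₁ N₂, ?_⟩
  intro N A hN hAdm
  obtain ⟨⟨⟨hz3, hlg⟩, ⟨hTV, hTB⟩⟩, ⟨hT1, hN4⟩⟩ := hN₂ N ((le_max_right _ _).trans hN)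
  have hN4' : (4 : ℝ) ≤ N := by exact_mod_cast hN4
  have hN1 : (1 : ℝ) ≤ N := by linarith
  have hN0 : (0 : ℝ) < N := by linarith
  have hl0 : 0 < Real.log N := by linarith
  set z : ℝ := (N : ℝ) ^ e0 with hzdef
  have hz0 : 0 < z := by linarith
  rw [one_mul] at hTV hT1
  rw [Real.rpow_one] at hT1
  have hA1 : (N : ℝ) ^ (1 / 2 : ℝ) ≤ A :=
    (Real.rpow_le_rpow_of_exponent_le hN1 (by linarith)).trans hAdm.1
  have hA2 : (A : ℝ) ≤ (N : ℝ) ^ (11 / 10 : ℝ) := by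
    refine hAdm.2.trans ?_
    calc (N : ℝ) * Real.log N ≤ N * (N : ℝ) ^ (1 / 10 : ℝ) :=
          mul_le_mul_of_nonneg_left hT1 hN0.le
      _ = (N : ℝ) ^ (11 / 10 : ℝ) := by
          nth_rewrite 1 [← Real.rpow_one (N : ℝ)]
          rw [← Real.rpow_add hN0]
          norm_num
  have hA0 : (0 : ℝ) ≤ A := Nat.cast_nonneg _
  set K := (Icc 1 N).filter (fun k => Rough z k) with hKdef
  have hKm : ∀ k ∈ K, 1 ≤ k ∧ k ≤ N ∧ Odd k ∧ Rough z k := by
    intro k hk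
    obtain ⟨a1, a4⟩ := mem_filter.1 hk
    obtain ⟨a2, a3⟩ := mem_Icc.1 a1
    refine ⟨a2, a3, ?_, a4⟩
    by_contra hno
    have h3 : 2 ∣ k := even_iff_two_dvd.mp (Nat.not_odd_iff_even.mp hno)
    have h4 := a4 2 Nat.prime_two h3
    push_cast at h4
    linarith
  set K₁ := K.filter Squarefree with hK₁
  set K₂ := K.filter (fun k => ¬ Squarefree k) with hK₂
  set β : ℕ → ℝ := fun k => if k ∈ K₁ then 1 / (k : ℝ) else 0 with hβ
  have hsumK : ∑ k ∈ K, 1 / (k : ℝ) ≤ (1 + 2 * C₀) / e0 := by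
    have h3 := TI.sum_rough hC₀ hR N e0 he0 (by linarith) (by omega) (by linarith) (N : ℝ) le_rfl
    rwa [Nat.floor_natCast] at h3
  -- the first exceptional set
  have hE1 := hN₁ N A ((le_max_left _ _).trans hN) hA1 hA2 β (by
      intro k hk
      have hk1 : k ∈ K₁ := by
        by_contra hno
        exact hk (if_neg hno)
      obtain ⟨a1, a2⟩ := mem_filter.1 hk1
      obtain ⟨b1, b2, b3, b4⟩ := hKm k a1
      exact ⟨b1, by omega, b3, a2, fun p hp hpk => hTV.trans (b4 p hp hpk)⟩) (by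
      intro k
      simp only [hβ]
      rw [Real.rpow_one, pow_zero, mul_one]
      split_ifs with hk
      · rw [abs_of_nonneg (by positivity)]
        exact div_le_div_of_nonneg_right (by linarith) (Nat.cast_nonneg _)
      · rw [abs_zero]
        positivity)
  -- the second exceptional set
  have hE2 := RHOUM.markov A (fun a => ∑ k ∈ K₂, (rho a k : ℝ) / k) 1
    (A / (Real.log N) ^ (B + 1)) one_pos (fun a => sum_nonneg fun k _ => by positivity) (by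
      have h3 := h2 N A z K₂ (by omega) (by linarith) hAdm.1 (by
        intro k hk
        obtain ⟨a1, a2⟩ := mem_filter.1 hk
        obtain ⟨b1, b2, b3, b4⟩ := hKm k a1
        exact ⟨b1, b2, a2, b4⟩)
      refine h3.trans ?_
      rw [one_mul, div_mul_eq_mul_div, div_le_div_iff₀ hz0 (Real.rpow_pos_of_pos hl0 _)]
      have h5 : (Real.log N) ^ (B + 2) = Real.log N * (Real.log N) ^ (B + 1) := by
        rw [show B + 2 = 1 + (B + 1) by ring, Real.rpow_add hl0, Real.rpow_one]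
      rw [h5] at hTB
      have h6 : 0 < (Real.log N) ^ (B + 1) := Real.rpow_pos_of_pos hl0 _
      calc C₂ * A * (1 + Real.log N) * (Real.log N) ^ (B + 1)
          ≤ C₂ * A * (2 * Real.log N) * (Real.log N) ^ (B + 1) := by
            gcongr
            linarith
        _ = A * (2 * C₂ * (Real.log N * (Real.log N) ^ (B + 1))) := by ring
        _ ≤ A * z := mul_le_mul_of_nonneg_left hTB hA0)
  have hfin : A / (Real.log N) ^ (B + 1) + A / (Real.log N) ^ (B + 1) ≤ A / (Real.log N) ^ B := by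
    have h6 : 0 < (Real.log N) ^ B := Real.rpow_pos_of_pos hl0 _
    have h5 : (Real.log N) ^ (B + 1) = (Real.log N) ^ B * Real.log N := by
      rw [Real.rpow_add hl0, Real.rpow_one]
    rw [← two_mul, ← mul_div_assoc, h5, div_le_div_iff₀ (by positivity) h6]
    calc 2 * (A : ℝ) * (Real.log N) ^ B = A * ((Real.log N) ^ B * 2) := by ring
      _ ≤ A * ((Real.log N) ^ B * Real.log N) := by gcongr
  refine (RHOUM.exc_add A _ _ _ ?_).trans ((add_le_add hE1 hE2).trans hfin)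
  intro a hF hG
  have hsplit : ∑ k ∈ K, (rho a k : ℝ) / k
      = ∑ k ∈ K₁, (rho a k : ℝ) / k + ∑ k ∈ K₂, (rho a k : ℝ) / k :=
    (sum_filter_add_sum_filter_not K Squarefree _).symm
  have hsub : K₁ ⊆ Icc 1 (4 * N) := by
    intro k hk
    obtain ⟨b1, b2, -⟩ := hKm k (mem_filter.1 hk).1
    exact mem_Icc.2 ⟨b1, by omega⟩
  have hexp : ∑ k ∈ K₁, (rho a k : ℝ) / k
      = ∑ k ∈ K₁, 1 / (k : ℝ) + ∑ k ∈ Icc 1 (4 * N), β k * ((rho a k : ℝ) - 1) := by
    have h3 : ∑ k ∈ Icc 1 (4 * N), β k * ((rho a k : ℝ) - 1)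
        = ∑ k ∈ K₁, β k * ((rho a k : ℝ) - 1) := by
      refine (sum_subset hsub fun k _ hk => ?_).symm
      simp only [hβ]
      rw [if_neg hk, zero_mul]
    rw [h3, ← sum_add_distrib]
    refine sum_congr rfl fun k hk => ?_
    simp only [hβ]
    rw [if_pos hk]
    ring
  have hK₁le : ∑ k ∈ K₁, 1 / (k : ℝ) ≤ ∑ k ∈ K, 1 / (k : ℝ) :=
    sum_le_sum_of_subset_of_nonneg (filter_subset _ _) fun k _ _ => by positivity
  have hFa := (abs_le.1 hF).2
  have h8 : 1 / (Real.log N) ^ (B + 1) ≤ 1 := by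
    rw [div_le_one (Real.rpow_pos_of_pos hl0 _)]
    exact Real.one_le_rpow (by linarith) (by linarith)
  have h9 : (2 : ℝ) ≤ 2 / e0 := by
    rw [le_div_iff₀ he0]
    linarith
  have h10 : (3 + 2 * C₀) / e0 = (1 + 2 * C₀) / e0 + 2 / e0 := by
    rw [← add_div]
    ring
  rw [hsplit, hexp, h10]
  linarith

end Pool.Agent.Lib.MP391708.U.K
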