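import Pool.Agent.Lib.MP_391708_nt.U.SpecUK2
import Pool.Agent.Lib.MP_391708_nt.QPA.H.SpecH

/-!
# Project X5 (MP_391708): asymptotic formula for the products of exactly `k` primes of a given type, one exceptional set

The type `EInd N k δ α β`: squarefree, exactly `k` prime factors, all `≥ N^δ`, with a divisor in `(N^α, N^β]`.  BKEV (landed) is
the asymptotic formula `cnt N a E = G_w(a) model N E + O(ε G_w(a) N/log N)` for one `N`, outside of `≤ A/(log N)^B` of the `|a| ≤ A`.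
Here: one exceptional set for all `N` with `|a| ≤ N (log N)^(1/4)`, `N ≤ |a|^(1/θ)`, and all the parameters.

Module `XXX` is the file `U/K/XXX.lean` with `theorem specXXX (hYYY : SpecYYY) .. : SpecXXX` in the namespace
`Pool.Agent.Lib.MP391708.U.K`, its own lemmas in `Pool.Agent.Lib.MP391708.U.K.XXXM`.  Every landed file may be imported and every
Spec of `QPA/Spec.lean`, `QPA/Spec2.lean`, `QPA/H/SpecH.lean`, `U/Spec*.lean` may be used as a hypothesis.  `L = M/log M`.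
-/

set_option autoImplicit false

namespace Pool.Agent.Lib.MP391708.U.K

open Finset Filter Topology Pool.Agent.Lib.MP391708.QPA Pool.Agent.Lib.MP391708.QPA.H
open scoped Classical

noncomputable section

/-- the types near `(δ, α, β)` differ in the model by at most `ε M/log M` -/
def Near (k : ℕ) (δ α β e ε : ℝ) : Prop := ∃ M₀ : ℕ, ∀ M : ℕ, M₀ ≤ M →
  model M (EInd M k (δ - 2 * e) (α - 2 * e) (β + 2 * e))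
    ≤ model M (EInd M k (δ + 2 * e) (α + 2 * e) (β - 2 * e)) + ε * (M / Real.log M)

/-- the admissible parameters -/
def Par (θ δ α β e ε : ℝ) : Prop := 1 / 2 < θ ∧ θ ≤ 1 ∧ 0 < e ∧ 0 < δ - 2 * e ∧ δ + 2 * e ≤ 1 / 10 ∧
  2 / 3 ≤ α - 2 * e ∧ 3 / 2 < θ + (α - 2 * e) ∧ α + 2 * e < β - 2 * e ∧ β + 2 * e ≤ 1 ∧ 0 < ε

/-- the asymptotic formula for all the types near `(δ, α, β)` -/
def Fm (k : ℕ) (δ α β e ε : ℝ) (N : ℕ) (a : ℤ) (h : ℝ) : Prop := ∀ δ' α' β' : ℝ,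
  |δ' - δ| ≤ e → |α' - α| ≤ e → |β' - β| ≤ e →
  |cnt N a (EInd N k δ' α' β') - h * model N (EInd N k δ' α' β')| ≤ ε * (h * (N / Real.log N))

/-- MDEA (from BT, RSUM, WINM, 200 lines): the model of the types near a type. For `M² < m ≤ 4M²`, if `EInd M k (δ-3e) (α-3e) (β+3e) m = 1`
and `EInd M k (δ+3e) (α+3e) (β-3e) m = 0`, then `m` is `M^(δ-3e)`-rough and has a divisor in the window `[M^(α-3e), M^(α+3e)]` or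
`[M^(β-3e), M^(β+3e)]` (`Win M α (3e) m` or `Win M β (3e) m`), or a prime divisor in `[M^(δ-3e), M^(δ+3e))`. With `e₀ ≤ δ/6` etc. everything is
`M^(δ/2)`-rough (`rInd` is monotone): WINM with `e0 = δ/2`, `e = 3e` gives `≤ 2·C·(3e/(δ/2)²) L` for the windows. For the prime divisors copy
`specWINM` (`QPA/WINM.lean`, after `hS`): `S` = the primes in `[M^(δ-3e), M^(δ+3e)]` (`≤ 3M`), the sum over `j ∈ S` of `1/j` is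
`≤ C (6e log M + 1)/((δ/2) log M)` by RSUM with `z = M^(δ/2)`, so `≤ 14 C e/δ` for large `M`; it gives `≤ C' (e/δ²) L`. -/
def SpecMDEA : Prop := ∀ (k : ℕ) (δ α β ε : ℝ), 0 < δ → δ < 1 / 10 → 2 / 3 < α → α < β → β < 1 → 0 < ε →
  ∃ e₀ : ℝ, 0 < e₀ ∧ ∀ e : ℝ, 0 < e → e ≤ e₀ → ∃ M₀ : ℕ, ∀ M : ℕ, M₀ ≤ M →
    model M (EInd M k (δ - 3 * e) (α - 3 * e) (β + 3 * e))
      ≤ model M (EInd M k (δ + 3 * e) (α + 3 * e) (β - 3 * e)) + ε * (M / Real.log M)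

/-- MDEB (from BT, 120 lines): upper bound of the model (`FINEM.model_rough` in `QPA/H/FINE.lean`) and comparison of `model M` and `model N` for
`M ≤ N ≤ (1+η)M + 1`. `model N f - model M f = ∑_{4M² < m ≤ 4N²} f/(2√m) - ∑_{M² < m ≤ N²} f/(2√m)` (if `N² ≤ 4M²`), each of the two is
between `0` and `1/(2M)` times the number of the `M^δ`-rough `m` in an interval of length `≤ 4(N² - M²) ≤ 9ηM² + ..≤ 10ηM²` (large `M`), and BT (`q = 1`,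
`z = M^δ`, `y = M^(δ/2)`, `y² = M^δ ≤ M^(1/10) ≤ ηM²/log M`) bounds the number by `C 20 η M²/(δ log M) + C η M²/log M`. -/
def SpecMDEB : Prop := ∀ δ : ℝ, 0 < δ → δ ≤ 1 / 10 → ∃ C : ℝ, 0 < C ∧
  (∃ M₀ : ℕ, ∀ M : ℕ, M₀ ≤ M → model M (rInd ((M : ℝ) ^ δ)) ≤ C * (M / Real.log M)) ∧
  ∀ η : ℝ, 0 < η → η ≤ 1 / 10 → ∃ M₀ : ℕ, ∀ M N : ℕ, M₀ ≤ M → M ≤ N → (N : ℝ) ≤ (1 + η) * M + 1 →
    ∀ f : ℕ → ℝ, (∀ m, 0 ≤ f m) → (∀ m, f m ≤ rInd ((M : ℝ) ^ δ) m) →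
      |model N f - model M f| ≤ C * η * (M / Real.log M)

/-- FINA (from BKEV, TAILV, F6U, RHOP, RHO2, GMAXU, MDEB, 350 lines): one scale `M`. Copy `specFINQ` (`U/K/FINQ.lean`, import it for `FINQM`). Put
`E⁻ = EInd M k (δ+2e) (α+2e) (β-2e)`, `E⁺ = EInd M k (δ-2e) (α-2e) (β+2e)` and, for `M ≤ N ≤ (1+η)M+1`, `|δ'-δ|, |α'-α|, |β'-β| ≤ e`,
`E = EInd N k δ' α' β'`. For large `M` (`M^e ≥ 2`, `N ≤ 2M`): `E⁻ ≤ E ≤ E⁺` pointwise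
(`N^δ' ≤ N^(δ+e) ≤ 2M^(δ+e) ≤ M^(δ+2e)`, in the same way for `α`, `β`; `M^x ≤ N^x`), and `E⁺ ≤ rInd (M^(δ-2e))`. Outside of the exceptional sets of BKEV for
`E⁺`, `E⁻` (`ε/16`), TAILV (`e0 = min (δ-2e) (1/100)`, constant `C`) and F6U (`ε₂ = min (1/10) (ε/(16 C'))`, `C'` the constant of MDEB for `δ-2e`):
`cnt N a E ≤ cnt N a E⁺ ≤ cnt M a E⁺ + ∑_{2M < n ≤ 2M+2H} rInd(M^e0)(val) ≤ G model M E⁺ + (ε/16) G L + 2CG·2η L`, `H = ⌈ηM⌉₊ + 1`, and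
`cnt N a E ≥ cnt N a E⁻ ≥ cnt M a E⁻ - ∑_{M < n ≤ M+H} rInd(M^e0)(val)`; `model N E ≤ model N E⁺ ≤ model M E⁺ + C'ηL`,
`model N E ≥ model N E⁻ ≥ model M E⁻ - C'ηL` (MDEB), `model M E⁺ ≤ model M E⁻ + (ε/8) L` (`Near`), `model M E⁺ ≤ C' L`, `|G - h| ≤ ε₂ h`. So
`|cnt N a E - h model N E| ≤ ε₂ h C' L + (ε/8) h L + (11/10)(ε/16 + 4Cη) h L + C'ηhL ≤ (ε/2) h L` for `η = min (1/10) (min (ε/(64 C)) (ε/(16 C')))`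
(about; choose the constants as convenient), and `L = M/log M ≤ 2 N/log N` (as in FINQ, or monotonicity of `x/log x`). -/
def SpecFINA : Prop := ∀ (k : ℕ) (θ δ α β e ε : ℝ), Par θ δ α β e ε → Near k δ α β e (ε / 8) →
  ∃ η : ℝ, 0 < η ∧ η ≤ 1 / 10 ∧ ∀ B : ℝ, 0 < B → ∃ N₀ : ℕ, ∀ M A : ℕ, N₀ ≤ M → (M : ℝ) ^ θ ≤ A →
    (A : ℝ) ≤ M * √(Real.log M) →
    exc A (fun a => ∃ h : ℝ, 0 < h ∧ IsC a h ∧ ∀ N : ℕ, M ≤ N → (N : ℝ) ≤ (1 + η) * M + 1 →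
      Fm k δ α β e ε N a h) ≤ A / (Real.log A) ^ B

/-- UNIX (no hypotheses): the proof of `specUNIQ` (`U/K/UNIQ.lean`) for any property. -/
def SpecUNIX : Prop := ∀ (P : ℕ → ℤ → ℝ → Prop) (θ η τ : ℝ), 1 / 2 < θ → θ ≤ 1 → 0 < η → η ≤ 1 / 10 → 1 < τ →
  τ * θ < 1 →
  (∀ B : ℝ, 0 < B → ∃ N₀ : ℕ, ∀ M A : ℕ, N₀ ≤ M → (M : ℝ) ^ θ ≤ A → (A : ℝ) ≤ M * √(Real.log M) →
    exc A (fun a => ∃ h : ℝ, 0 < h ∧ IsC a h ∧ ∀ N : ℕ, M ≤ N → (N : ℝ) ≤ (1 + η) * M + 1 → P N a h)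
      ≤ A / (Real.log A) ^ B) →
  ∀ B : ℝ, 0 < B → ∃ A₀ : ℕ, ∀ A : ℕ, A₀ ≤ A →
    exc A (fun a => (A : ℝ) / 2 < |(a : ℝ)| → ∃ h : ℝ, 0 < h ∧ IsC a h ∧
      ∀ N : ℕ, |(a : ℝ)| ≤ N * (Real.log N) ^ (1 / 4 : ℝ) → (N : ℝ) ≤ |(a : ℝ)| ^ τ → P N a h)
      ≤ A / (Real.log A) ^ B

/-- MAINA (from DIAG, UNIX, FINA, MDEA, 150 lines): DIAG for the countable family of all rational `(θ, τ, δ, α, β, e, ε)` and `k`. -/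
def SpecMAINA : Prop := ∃ E : Set ℤ,
  (∀ B : ℝ, ∃ A₀ : ℕ, ∀ A : ℕ, A₀ ≤ A →
    (((Icc (-(A : ℤ)) A).filter (fun a => a ∈ E)).card : ℝ) ≤ A / (Real.log A) ^ B) ∧
  ∀ (k : ℕ) (θ δ α β ε : ℝ), 1 / 2 < θ → θ ≤ 1 → 0 < δ → δ < 1 / 10 → 2 / 3 < α → 3 / 2 < θ + α →
    α < β → β < 1 → 0 < ε → ∃ a₀ : ℝ, ∀ a : ℤ, a ∉ E → a₀ ≤ |(a : ℝ)| → ∃ h : ℝ, 0 < h ∧ IsC a h ∧
      ∀ N : ℕ, |(a : ℝ)| ≤ N * (Real.log N) ^ (1 / 4 : ℝ) → (N : ℝ) ≤ |(a : ℝ)| ^ (1 / θ) →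
        |cnt N a (EInd N k δ α β) - h * model N (EInd N k δ α β)| ≤ ε * (h * (N / Real.log N))

/-- E2W (80 lines): E2V (`QPA/H/E2V.lean`) with `1/20` in place of `1/10` (same proof). -/
def SpecE2W : Prop := ∀ α β : ℝ, 1 / 2 < α → α < β → β < 1 → ∃ N₀ : ℕ, ∀ N m : ℕ, N₀ ≤ N →
  (N : ℝ) ^ 2 / 2 ≤ m → (m : ℝ) ≤ 5 * (N : ℝ) ^ 2 →
  EInd N 2 (1 / 20) α β m = if ∃ p q : ℕ, p.Prime ∧ q.Prime ∧ m = p * q ∧ (N : ℝ) ^ α < p ∧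
    (p : ℝ) ≤ (N : ℝ) ^ β then 1 else 0

/-- the number of the `N < n ≤ 2N` with `|n² + a| = p q`, `p`, `q` prime, `N^α < p ≤ N^β` -/
def cpq (N : ℕ) (a : ℤ) (α β : ℝ) : ℝ := (((Ioc N (2 * N)).filter (fun n : ℕ => ∃ p q : ℕ, p.Prime ∧ q.Prime ∧
  ((n : ℤ) ^ 2 + a).natAbs = p * q ∧ (N : ℝ) ^ α < p ∧ (p : ℝ) ≤ (N : ℝ) ^ β)).card : ℝ)

/-- MAINB (from MAINA, E2W, E2V, E2M, 100 lines): both theorems with the same `E` (MAINA with `k = 2`, `δ = 1/20`, `ε/4`; `val a n` is in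
`[N²/2, 5N²]` for `N < n ≤ 2N`, `|a| ≤ N (log N)^(1/4)`, `N` large; `E2M` is for `1/10`, and by E2V, E2W the two indicators are equal on `[N²/2, 5N²]`;
`N` is large as `|a| ≥ a₀` is large; compare `QPA/H/QE2.lean`). -/
def SpecMAINB : Prop := ∃ E : Set ℤ,
  (∀ B : ℝ, ∃ A₀ : ℕ, ∀ A : ℕ, A₀ ≤ A →
    (((Icc (-(A : ℤ)) A).filter (fun a => a ∈ E)).card : ℝ) ≤ A / (Real.log A) ^ B) ∧
  (∀ (k : ℕ) (θ δ α β ε : ℝ), 1 / 2 < θ → θ ≤ 1 → 0 < δ → δ < 1 / 10 → 2 / 3 < α → 3 / 2 < θ + α →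
    α < β → β < 1 → 0 < ε → ∃ a₀ : ℝ, ∀ a : ℤ, a ∉ E → a₀ ≤ |(a : ℝ)| → ∃ h : ℝ, 0 < h ∧ IsC a h ∧
      ∀ N : ℕ, |(a : ℝ)| ≤ N * (Real.log N) ^ (1 / 4 : ℝ) → (N : ℝ) ≤ |(a : ℝ)| ^ (1 / θ) →
        |cnt N a (EInd N k δ α β) - h * model N (EInd N k δ α β)| ≤ ε * (h * (N / Real.log N))) ∧
  ∀ (θ α β ε : ℝ), 1 / 2 < θ → θ ≤ 1 → 2 / 3 < α → 3 / 2 < θ + α → α < β → β < 1 → 0 < ε →
    ∃ a₀ : ℝ, ∀ a : ℤ, a ∉ E → a₀ ≤ |(a : ℝ)| → ∃ h : ℝ, 0 < h ∧ IsC a h ∧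
      ∀ N : ℕ, |(a : ℝ)| ≤ N * (Real.log N) ^ (1 / 4 : ℝ) → (N : ℝ) ≤ |(a : ℝ)| ^ (1 / θ) →
        |cpq N a α β - 1 / 2 * Real.log (β * (2 - α) / (α * (2 - β))) * (h * (N / Real.log N))|
          ≤ ε * (h * (N / Real.log N))

end

end Pool.Agent.Lib.MP391708.U.K
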