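import Pool.Agent.Lib.MP_391708_nt.U.SpecUK
import Pool.Agent.Lib.MP_391708_nt.U.UNIR

/-!
# UNIQ: products of `k` primes, all the scales at once, `|a| ≤ N (log N)^(1/4)`, `N ≤ |a|^(2-δ)`
-/

set_option autoImplicit false

namespace Pool.Agent.Lib.MP391708.U.K

open Finset Filter Topology Pool.Agent.Lib.MP391708.QPA Pool.Agent.Lib.MP391708.QPA.H
open Pool.Agent.Lib.MP391708.U
open scoped Classical

open UNIM UNIRM in
theorem specUNIQ (hFINQ : SpecFINQ) : SpecUNIQ := by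
  intro k δ hk hδ hδ1
  -- parameters
  set τ : ℝ := 2 - δ with hτ
  have hτ1 : 1 < τ := by rw [hτ]; linarith
  have hτ2 : τ < 2 := by rw [hτ]; linarith
  set θ : ℝ := (1 / 2 + 1 / τ) / 2 with hθ
  have hτi : 1 / 2 < 1 / τ := by
    rw [lt_div_iff₀ (by linarith)]; linarith
  have hτj : 1 / τ ≤ 1 := by
    rw [div_le_iff₀ (by linarith)]; linarith
  have hθ1 : 1 / 2 < θ := by rw [hθ]; linarith
  have hθ2 : θ < 1 / τ := by rw [hθ]; linarith
  have hθ3 : θ ≤ 1 := by linarith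
  have hθτ : τ * θ < 1 := by
    rw [lt_div_iff₀ (by linarith)] at hθ2; linarith
  obtain ⟨c, η, hc, hη0, hη1, hF⟩ := hFINQ k θ hk hθ1 hθ3
  refine ⟨c, hc, fun B hB => ?_⟩
  obtain ⟨N₀, hN₀⟩ := hF (B + 2) (by linarith)
  obtain ⟨A₁, hA₁⟩ := grid_card hη0
  obtain ⟨M₀, hM₀⟩ := ev_log
  -- `(2 A^τ)^θ ≤ A` for large `A`
  have hpow : ∀ᶠ A : ℕ in atTop, (2 * (A : ℝ) ^ τ) ^ θ ≤ A := by
    have h1 : Tendsto (fun A : ℕ => (A : ℝ) ^ (1 - τ * θ)) atTop atTop :=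
      (tendsto_rpow_atTop (by linarith)).comp tendsto_natCast_atTop_atTop
    filter_upwards [h1.eventually_ge_atTop ((2 : ℝ) ^ θ), eventually_ge_atTop 1] with A h2 h3
    have hA1 : (1 : ℝ) ≤ A := by exact_mod_cast h3
    have hA0 : (0 : ℝ) < A := by linarith
    rw [Real.mul_rpow (by norm_num) (by positivity), ← Real.rpow_mul hA0.le]
    calc (2 : ℝ) ^ θ * (A : ℝ) ^ (τ * θ) ≤ (A : ℝ) ^ (1 - τ * θ) * (A : ℝ) ^ (τ * θ) :=
          mul_le_mul_of_nonneg_right h2 (by positivity)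
      _ = A := by rw [← Real.rpow_add hA0]; simp
  rw [eventually_atTop] at hpow
  obtain ⟨A₂, hA₂⟩ := hpow
  set R : ℕ := max N₀ (max M₀ 10) with hR
  refine ⟨max A₁ (max A₂ ((5 * R) ^ 2)), fun A hA => ?_⟩
  have g1 : A₁ ≤ A := (le_max_left _ _).trans hA
  have hA' := (le_max_right _ _).trans hA
  have g2 : A₂ ≤ A := (le_max_left _ _).trans hA'
  have g3 : (5 * R) ^ 2 ≤ A := (le_max_right _ _).trans hA'
  have r0 : N₀ ≤ R := le_max_left _ _
  have r2 : M₀ ≤ R := (le_max_left _ _).trans (le_max_right _ _)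
  have r3 : 10 ≤ R := (le_max_right _ _).trans (le_max_right _ _)
  have g5 : 100 ≤ A := by nlinarith
  have g6 : ∀ M : ℕ, A ≤ (5 * M) ^ 2 → R ≤ M := by
    intro M hM
    by_contra hc
    rw [not_le] at hc
    have : (5 * M) ^ 2 < (5 * R) ^ 2 := Nat.pow_lt_pow_left (by omega) (by norm_num)
    omega
  have g7 : ∀ M : ℕ, (A : ℝ) ≤ (5 * (M : ℝ)) ^ 2 → R ≤ M := fun M hM => g6 M (by exact_mod_cast hM)
  obtain ⟨J, hJ1, hJ2⟩ := hA₁ A g1
  have hAR : (100 : ℝ) ≤ A := by exact_mod_cast g5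
  have hAτ : (A : ℝ) ≤ (A : ℝ) ^ τ := by
    calc (A : ℝ) = (A : ℝ) ^ (1 : ℝ) := (Real.rpow_one _).symm
      _ ≤ _ := Real.rpow_le_rpow_of_exponent_le (by linarith) hτ1.le
  have hAτ2 : (A : ℝ) ^ τ ≤ (A : ℝ) ^ (2 : ℝ) :=
    Real.rpow_le_rpow_of_exponent_le (by linarith) (by linarith)
  -- the bad sets
  let Q : ℕ → ℤ → Prop := fun j a => ((A : ℝ) ≤ G η j * √(Real.log (G η j)) ∧
      (G η j : ℝ) ≤ 2 * (A : ℝ) ^ τ ∧ R ≤ G η j) →
    ∃ h : ℝ, 0 < h ∧ IsC a h ∧ ∀ N : ℕ, G η j ≤ N → (N : ℝ) ≤ (1 + η) * (G η j : ℝ) + 1 →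
      c * (h * (N / Real.log N)) ≤ cntk k N a
  have hQ : ∀ j, exc A (Q j) ≤ A / (Real.log A) ^ (B + 2) := by
    intro j
    have hl : 0 < Real.log (A : ℝ) := Real.log_pos (by linarith)
    by_cases hc : (A : ℝ) ≤ G η j * √(Real.log (G η j)) ∧
      (G η j : ℝ) ≤ 2 * (A : ℝ) ^ τ ∧ R ≤ G η j
    · have h1 := hN₀ (G η j) A (r0.trans hc.2.2) (by
        refine le_trans (Real.rpow_le_rpow (Nat.cast_nonneg _) hc.2.1 (by linarith)) (hA₂ A g2))
        hc.1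
      exact le_trans (exc_mono A (fun a _ h _ => h)) h1
    · rw [exc_zero A (P := Q j) (fun a _ h' => absurd h' hc)]
      positivity
  -- the union
  have hU : exc A (fun a => (A : ℝ) / 2 < |(a : ℝ)| → ∃ h : ℝ, 0 < h ∧ IsC a h ∧
      ∀ N : ℕ, |(a : ℝ)| ≤ N * (Real.log N) ^ (1 / 4 : ℝ) → (N : ℝ) ≤ |(a : ℝ)| ^ (2 - δ) →
        c * (h * (N / Real.log N)) ≤ cntk k N a)
      ≤ ∑ j ∈ range (J + 1), exc A (Q j) := by
    apply exc_union
    intro a haI hall ha2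
    have haA : |(a : ℝ)| ≤ A := by
      have h1 := haI
      unfold IA at h1
      rw [Finset.mem_Icc] at h1
      rw [abs_le]
      exact ⟨by exact_mod_cast h1.1, by exact_mod_cast h1.2⟩
    -- the grid point below `N`
    have key : ∀ N : ℕ, |(a : ℝ)| ≤ N * (Real.log N) ^ (1 / 4 : ℝ) → (N : ℝ) ≤ |(a : ℝ)| ^ (2 - δ) →
        ∃ h : ℝ, 0 < h ∧ IsC a h ∧ c * (h * (N / Real.log N)) ≤ cntk k N a := by
      intro N hN1 hN2
      have hNA : (A : ℝ) / 2 < N * (Real.log N) ^ (1 / 4 : ℝ) := lt_of_lt_of_le ha2 hN1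
      have hN1' : 1 ≤ N := by
        rcases Nat.eq_zero_or_pos N with h0 | h0
        · rw [h0] at hNA
          simp at hNA
          linarith
        · exact h0
      have hNpos : (1 : ℝ) ≤ N := by exact_mod_cast hN1'
      have hNsq : (A : ℝ) ≤ 2 * (N : ℝ) ^ 2 := by
        have := log_quarter_le hN1'
        nlinarith
      have hNτ : (N : ℝ) ≤ (A : ℝ) ^ τ :=
        hN2.trans (Real.rpow_le_rpow (abs_nonneg _) haA (by rw [← hτ]; linarith))
      obtain ⟨j, hj1, hj2, hj3⟩ := grid hη0 hN1'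
      have hj2' : (N : ℝ) ≤ G η (j + 1) := by exact_mod_cast hj2
      have hj1' : (G η j : ℝ) ≤ N := by exact_mod_cast hj1
      have hG1 : 1 ≤ G η j := Nat.one_le_iff_ne_zero.mpr (by
        have : (1 : ℝ) ≤ (1 + η) ^ j := one_le_pow₀ (by linarith)
        have := (this.trans (Nat.le_ceil _) : (1 : ℝ) ≤ (⌈(1 + η) ^ j⌉₊ : ℝ))
        intro h0
        unfold G at h0
        rw [h0] at this
        norm_num at this)
      have hG1' : (1 : ℝ) ≤ G η j := by exact_mod_cast hG1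
      have hN3G : (N : ℝ) ≤ 3 * G η j := by nlinarith
      have hRM : R ≤ G η j := by
        apply g7
        nlinarith
      have hRM' : (10 : ℝ) ≤ G η j := by exact_mod_cast r3.trans hRM
      have hN2G : (N : ℝ) ≤ 2 * G η j := by nlinarith
      have hGM : (G η j : ℝ) ≤ 2 * (A : ℝ) ^ τ := by linarith
      have hAM : (A : ℝ) ≤ G η j * √(Real.log (G η j)) := by
        have e1 : (Real.log N) ^ (1 / 4 : ℝ) ≤ (Real.log (2 * (G η j : ℝ))) ^ (1 / 4 : ℝ) :=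
          Real.rpow_le_rpow (Real.log_nonneg hNpos) (Real.log_le_log (by linarith) hN2G)
            (by norm_num)
        have e2 := hM₀ (G η j) (r2.trans hRM)
        have e3 : (N : ℝ) * (Real.log N) ^ (1 / 4 : ℝ)
            ≤ (2 * G η j) * (Real.log (2 * (G η j : ℝ))) ^ (1 / 4 : ℝ) :=
          mul_le_mul hN2G e1 (Real.rpow_nonneg (Real.log_nonneg hNpos) _) (by linarith)
        have e4 : (G η j : ℝ) * (4 * (Real.log (2 * (G η j : ℝ))) ^ (1 / 4 : ℝ))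
            ≤ G η j * √(Real.log (G η j)) :=
          mul_le_mul_of_nonneg_left e2 (by linarith)
        linarith
      obtain ⟨h, hh, hI, hg⟩ := hall j (Finset.mem_range_succ_iff.mpr
        (hJ2 j (hGM.trans (by linarith)))) ⟨hAM, hGM, hRM⟩
      exact ⟨h, hh, hI, hg N hj1 (hj2'.trans hj3)⟩
    -- the constant
    have habs : ((a.natAbs : ℕ) : ℝ) = |(a : ℝ)| := by
      rw [Nat.cast_natAbs]; push_cast; rfl
    have ha1 : (1 : ℝ) ≤ |(a : ℝ)| := by linarith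
    have hlog1 : 1 ≤ Real.log ((a.natAbs : ℕ) : ℝ) := by
      rw [habs, Real.le_log_iff_exp_le (by linarith)]
      have := Real.exp_one_lt_d9
      linarith
    obtain ⟨h, hh, hI, -⟩ := key a.natAbs (by
      have h1 : 1 ≤ (Real.log ((a.natAbs : ℕ) : ℝ)) ^ (1 / 4 : ℝ) :=
        Real.one_le_rpow hlog1 (by norm_num)
      have h2 : 0 ≤ ((a.natAbs : ℕ) : ℝ) := Nat.cast_nonneg _
      nlinarith [habs]) (by
      rw [habs]
      calc |(a : ℝ)| = |(a : ℝ)| ^ (1 : ℝ) := (Real.rpow_one _).symm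
        _ ≤ _ := Real.rpow_le_rpow_of_exponent_le ha1 (by rw [← hτ]; linarith))
    refine ⟨h, hh, hI, fun N hN1 hN2 => ?_⟩
    obtain ⟨h', -, hI', hg'⟩ := key N hN1 hN2
    obtain rfl := isC_unique hI hI'
    exact hg'
  refine hU.trans ((Finset.sum_le_sum (fun j _ => hQ j)).trans ?_)
  rw [Finset.sum_const, Finset.card_range, nsmul_eq_mul]
  have hl : 0 < Real.log (A : ℝ) := Real.log_pos (by linarith)
  rw [Real.rpow_add hl]
  have hlB : 0 < (Real.log (A : ℝ)) ^ B := Real.rpow_pos_of_pos hl _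
  have hl2 : 0 < (Real.log (A : ℝ)) ^ (2 : ℝ) := Real.rpow_pos_of_pos hl _
  push_cast
  calc ((J : ℝ) + 1) * (A / ((Real.log A) ^ B * (Real.log A) ^ (2 : ℝ)))
      ≤ (Real.log A) ^ (2 : ℝ) * (A / ((Real.log A) ^ B * (Real.log A) ^ (2 : ℝ))) :=
        mul_le_mul_of_nonneg_right hJ1 (by positivity)
    _ = A / (Real.log A) ^ B := by field_simp

end Pool.Agent.Lib.MP391708.U.K
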